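import Pool.Agent.Helper15.RD.Ku

/-!
# Project RD, block C: coordinates

The `n` variables are `x (β (inl (j, b)))`, `j < s`, `b ∈ B = (ℤ/p)^c`, and `x (β (inr l))`; the group
`V = (ℤ/p)^(s c)` acts by the translations `b ↦ b + v_j` of the blocks.
-/

set_option autoImplicit false

namespace Pool.Agent.Helper15.RD

open IntermediateField

universe u v

/-- the `j`-th component of `v` -/
def bl {p s c : ℕ} (v : Fin s × Fin c → ZMod p) (j : Fin s) : Fin c → ZMod p := fun i => v (j, i)

/-- the eigenvector of the block `j` with character `χ` -/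
noncomputable def wv {k M : Type*} [Field k] [Field M] [Algebra k M] {p s c m n : ℕ}
    [Fact p.Prime] (ζ : k) (β : (Fin s × (Fin c → ZMod p)) ⊕ Fin m ≃ Fin n) (x : Fin n → M)
    (j : Fin s) (χ : Fin c → ZMod p) : M :=
  ∑ b : Fin c → ZMod p, algebraMap k M (ζ ^ (-∑ i, χ i * b i).val) * x (β (Sum.inl (j, b)))

section

variable {k : Type v} {M : Type u} [Field k] [Field M] [Algebra k M] {p s c m n : ℕ}
  [Fact p.Prime] (ζ : k) (hζ : IsPrimitiveRoot ζ p)
  (β : (Fin s × (Fin c → ZMod p)) ⊕ Fin m ≃ Fin n) (x : Fin n → M)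

include hζ

private theorem wv_add (a b : ZMod p) : ζ ^ (a + b).val = ζ ^ a.val * ζ ^ b.val := by
  rw [← pow_add, ZMod.val_add]
  conv_rhs => rw [← Nat.mod_add_div (a.val + b.val) p]
  rw [pow_add, pow_mul, hζ.pow_eq_one, one_pow, mul_one]

omit hζ in
private theorem wv_zero : ∑ χ : Fin c → ZMod p, ζ ^ (∑ i, χ i * (0 : Fin c → ZMod p) i).val =
    (p : k) ^ c := by
  simp only [Pi.zero_apply, mul_zero, Finset.sum_const_zero, ZMod.val_zero, pow_zero,
    Finset.sum_const, nsmul_eq_mul, mul_one]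
  rw [Finset.card_univ, Fintype.card_fun, ZMod.card, Fintype.card_fin, Nat.cast_pow]

private theorem wv_orth (d : Fin c → ZMod p) (hd : d ≠ 0) :
    ∑ χ : Fin c → ZMod p, ζ ^ (∑ i, χ i * d i).val = 0 := by
  classical
  obtain ⟨i0, hi0⟩ : ∃ i, d i ≠ 0 := by
    by_contra h
    push Not at h
    exact hd (funext h)
  have h1 := Equiv.sum_comp (Equiv.addRight (Pi.single i0 (1 : ZMod p)))
    (fun χ : Fin c → ZMod p => ζ ^ (∑ i, χ i * d i).val)
  have h2 : ∀ χ : Fin c → ZMod p,
      ζ ^ (∑ i, (Equiv.addRight (Pi.single i0 (1 : ZMod p)) χ) i * d i).val =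
        ζ ^ (∑ i, χ i * d i).val * ζ ^ (d i0).val := by
    intro χ
    rw [← wv_add ζ hζ]
    congr 2
    have h3 : ∑ i, (Equiv.addRight (Pi.single i0 (1 : ZMod p)) χ) i * d i =
        ∑ i, (χ i * d i + (Pi.single i0 (1 : ZMod p) : Fin c → ZMod p) i * d i) := by
      refine Finset.sum_congr rfl fun i _ => ?_
      change (χ i + (Pi.single i0 (1 : ZMod p) : Fin c → ZMod p) i) * d i = _
      rw [add_mul]
    rw [h3, Finset.sum_add_distrib]
    congr 1
    rw [Finset.sum_eq_single i0]
    · rw [Pi.single_eq_same, one_mul]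
    · intro i _ hi
      rw [Pi.single_eq_of_ne hi, zero_mul]
    · intro h
      exact absurd (Finset.mem_univ _) h
  rw [Finset.sum_congr rfl fun χ _ => h2 χ, ← Finset.sum_mul] at h1
  have h4 : ζ ^ (d i0).val ≠ 1 := by
    intro h
    have h5 := (hζ.pow_eq_one_iff_dvd _).1 h
    have h6 : (d i0).val = 0 := Nat.eq_zero_of_dvd_of_lt h5 (ZMod.val_lt _)
    exact hi0 ((ZMod.val_eq_zero _).1 h6)
  have h7 : (∑ χ : Fin c → ZMod p, ζ ^ (∑ i, χ i * d i).val) * (ζ ^ (d i0).val - 1) = 0 := by
    rw [mul_sub, h1, mul_one, sub_self]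
  exact (mul_eq_zero.1 h7).resolve_right (sub_ne_zero.2 h4)

/-- RD-C1. Substitution `b ↦ b + v_j`. -/
theorem wv_act (f : M ≃ₐ[k] M) (v : Fin s × Fin c → ZMod p)
    (hf : ∀ j b, f (x (β (Sum.inl (j, b)))) = x (β (Sum.inl (j, b + bl v j))))
    (j : Fin s) (χ : Fin c → ZMod p) :
    f (wv ζ β x j χ) = algebraMap k M (ζ ^ (∑ i, χ i * v (j, i)).val) * wv ζ β x j χ := by
  unfold wv
  rw [map_sum, Finset.mul_sum, ← Equiv.sum_comp (Equiv.addRight (bl v j))
    (fun b => algebraMap k M (ζ ^ (∑ i, χ i * v (j, i)).val) *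
      (algebraMap k M (ζ ^ (-∑ i, χ i * b i).val) * x (β (Sum.inl (j, b)))))]
  refine Finset.sum_congr rfl fun b _ => ?_
  rw [map_mul, AlgEquiv.commutes, hf, ← mul_assoc, ← map_mul, ← wv_add ζ hζ]
  congr 4
  have h1 : ∑ i, χ i * (Equiv.addRight (bl v j) b) i = ∑ i, χ i * b i + ∑ i, χ i * v (j, i) := by
    rw [← Finset.sum_add_distrib]
    refine Finset.sum_congr rfl fun i _ => ?_
    change χ i * (b i + v (j, i)) = _
    ring
  rw [h1]
  ring

/-- RD-C1. Inverse discrete Fourier transform: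
`x (β (inl (j, b))) = p ^ (-c) ∑ χ, ζ ^ (χ b) wv j χ` (`∑ χ, ζ ^ (χ (b - b')) = 0` for `b ≠ b'`; product
of sums of roots of unity, or the sum is invariant under multiplication by `ζ ^ (χ0 (b - b')) ≠ 1`). -/
theorem wv_inv [CharZero k] (j : Fin s) (b : Fin c → ZMod p) :
    ((p : M) ^ c) * x (β (Sum.inl (j, b))) =
      ∑ χ : Fin c → ZMod p, algebraMap k M (ζ ^ (∑ i, χ i * b i).val) * wv ζ β x j χ := by
  unfold wv
  simp only [Finset.mul_sum]
  rw [Finset.sum_comm]
  have h1 : ∀ b' : Fin c → ZMod p, ∑ χ : Fin c → ZMod p,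
      algebraMap k M (ζ ^ (∑ i, χ i * b i).val) *
        (algebraMap k M (ζ ^ (-∑ i, χ i * b' i).val) * x (β (Sum.inl (j, b')))) =
      algebraMap k M (∑ χ : Fin c → ZMod p, ζ ^ (∑ i, χ i * (b - b') i).val) *
        x (β (Sum.inl (j, b'))) := by
    intro b'
    rw [map_sum, Finset.sum_mul]
    refine Finset.sum_congr rfl fun χ _ => ?_
    rw [← mul_assoc, ← map_mul, ← wv_add ζ hζ]
    congr 4
    rw [← sub_eq_add_neg, ← Finset.sum_sub_distrib]
    refine Finset.sum_congr rfl fun i _ => ?_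
    rw [Pi.sub_apply]
    ring
  rw [Finset.sum_congr rfl fun b' _ => h1 b', Finset.sum_eq_single b]
  · rw [sub_self, wv_zero, map_pow, map_natCast]
  · intro b' _ hb
    rw [wv_orth ζ hζ _ (sub_ne_zero.2 (Ne.symm hb)), map_zero, zero_mul]
  · intro h
    exact absurd (Finset.mem_univ _) h

omit hζ in
/-- RD-C2. `n` elements which generate a field containing `n` algebraically independent elements are
algebraically independent (`range w` contains a transcendence basis of the field; its cardinality is at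
least `n`, so it is all of `range w` and `w` is injective). -/
theorem independent_of_generate (x w : Fin n → M) (hx : AlgebraicIndependent k x)
    (hw : ∀ i, x i ∈ adjoin k (Set.range w)) : AlgebraicIndependent k w := by
  set F := adjoin k (Set.range w) with hF
  let w' : Fin n → F := fun i => ⟨w i, subset_adjoin k _ ⟨i, rfl⟩⟩
  let x' : Fin n → F := fun i => ⟨x i, hw i⟩
  have hx' : AlgebraicIndependent k x' := AlgebraicIndependent.of_comp F.val hx
  have hmem : ∀ z : F, z ∈ adjoin k (Set.range w') := by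
    intro z
    have h1 : (adjoin k (Set.range w')).map F.val = F := by
      rw [adjoin_map, ← Set.range_comp]
      exact hF.symm
    have h2 : (z : M) ∈ (adjoin k (Set.range w')).map F.val := by
      rw [h1]
      exact z.2
    obtain ⟨y, hy, hyz⟩ := h2
    have h3 : y = z := Subtype.ext hyz
    rwa [← h3]
  have halg : Algebra.IsAlgebraic (Algebra.adjoin k (Set.range w')) F := by
    rw [← isAlgebraic_adjoin_iff_top]
    exact ⟨fun z => isAlgebraic_algebraMap (⟨z, hmem z⟩ : adjoin k (Set.range w'))⟩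
  have h3 := (Algebra.IsAlgebraic.isTranscendenceBasis_of_lift_le_trdeg_of_finite k w'
    hx'.lift_cardinalMk_le_trdeg).1
  exact h3.map' (f := F.val) F.val.injective

omit hζ in
/-- RD-C2. If the family `y ⊕ z` is algebraically independent over `k`, then `y` is algebraically
independent over `adjoin k (range z)`. -/
theorem independent_over {ι ι' : Type} (y : ι → M) (z : ι' → M)
    (h : AlgebraicIndependent k (Sum.elim y z)) :
    AlgebraicIndependent (adjoin k (Set.range z)) y :=
  algebraicIndependent_adjoin_iff.2 (AlgebraicIndependent.sumElim_iff.1 h).2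

private theorem coords_pow (N : ℕ) (a : ZMod p) (h : (N : ZMod p) = a) : ζ ^ N = ζ ^ a.val := by
  subst h
  rw [ZMod.val_natCast]
  conv_lhs => rw [← Nat.div_add_mod N p, pow_add, pow_mul, hζ.pow_eq_one, one_pow, one_mul]

private theorem coords_prod (v : Fin s × Fin c → ZMod p) (j : Fin s) (χ : Fin c → ZMod p) :
    ∏ i, (ζ ^ (v (j, i)).val) ^ (χ i).val = ζ ^ (∑ i, χ i * v (j, i)).val := by
  have h1 : ∏ i, (ζ ^ (v (j, i)).val) ^ (χ i).val = ζ ^ (∑ i, (v (j, i)).val * (χ i).val) := by
    rw [← Finset.prod_pow_eq_pow_sum]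
    refine Finset.prod_congr rfl fun i _ => ?_
    rw [pow_mul]
  rw [h1]
  refine coords_pow ζ hζ _ _ ?_
  push_cast
  refine Finset.sum_congr rfl fun i _ => ?_
  rw [ZMod.natCast_zmod_val, ZMod.natCast_zmod_val, mul_comm]

/-- RD-C3 (uses `wv_act`, `wv_inv`, `independent_of_generate`, `independent_over`).
`y (j, i) = wv j (Pi.single i 1)`; for `χ` not one of the `c` unit vectors
`z (j, χ) = wv j χ / ∏ i, y (j, i) ^ (χ i).val`, fixed by all `ψ v` (`∏ i, ζ ^ (v (j,i)).val (χ i).val =
ζ ^ (∑ i, χ i * v (j, i)).val`); `z l = x (β (inr l))`. `κ = adjoin k` of all `z`. The field generated by the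
`y` and the `z` contains the `wv j χ` and the `x i`, and is contained in `adjoin k (range x)`. The numbers
of elements add up to `n`, so they are algebraically independent (`independent_of_generate`, after the
choice of an equivalence with `Fin n`); first prove that all `wv j χ` together with the `x (β (inr l))` are
algebraically independent (hence `y (j, i) ≠ 0`). -/
theorem coords [CharZero k] (hx : AlgebraicIndependent k x)
    (ψ : Multiplicative (Fin s × Fin c → ZMod p) →* (M ≃ₐ[k] M))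
    (hψ : ∀ (v : Fin s × Fin c → ZMod p) j b,
      ψ (Multiplicative.ofAdd v) (x (β (Sum.inl (j, b)))) = x (β (Sum.inl (j, b + bl v j))))
    (hψ' : ∀ (v : Fin s × Fin c → ZMod p) l,
      ψ (Multiplicative.ofAdd v) (x (β (Sum.inr l))) = x (β (Sum.inr l))) :
    ∃ (κ : IntermediateField k M) (y : Fin s × Fin c → M), (∀ v, ∀ z ∈ κ, ψ v z = z) ∧
      (∀ (v : Fin s × Fin c → ZMod p) (j : Fin s × Fin c),
        ψ (Multiplicative.ofAdd v) (y j) = algebraMap k M (ζ ^ (v j).val) * y j) ∧
      AlgebraicIndependent κ y ∧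
      ∀ z : M, z ∈ adjoin κ (Set.range y) ↔ z ∈ adjoin k (Set.range x) := by
  classical
  have hchar : CharZero M := charZero_of_injective_algebraMap (algebraMap k M).injective
  have hp0 : (p : M) ≠ 0 := Nat.cast_ne_zero.2 (Fact.out : p.Prime).ne_zero
  -- a family of `n` elements that generates all `x i` is independent
  have gen : ∀ w : (Fin s × (Fin c → ZMod p)) ⊕ Fin m → M,
      (∀ i, x i ∈ adjoin k (Set.range w)) → AlgebraicIndependent k w := by
    intro w hw
    have h1 : Set.range (w ∘ β.symm) = Set.range w := β.symm.surjective.range_comp w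
    have h2 := independent_of_generate x (w ∘ β.symm) hx (by rw [h1]; exact hw)
    have h3 := h2.comp β β.injective
    have h4 : (w ∘ β.symm) ∘ β = w := by
      funext t
      simp
    rwa [h4] at h3
  have xmem : ∀ K : IntermediateField k M, (∀ j χ, wv ζ β x j χ ∈ K) →
      (∀ l, x (β (Sum.inr l)) ∈ K) → ∀ i, x i ∈ K := by
    intro K hK1 hK2 i
    obtain ⟨t, rfl⟩ := β.surjective i
    rcases t with ⟨j, b⟩ | l
    · have h1 := wv_inv ζ hζ β x j b
      have h2 : x (β (Sum.inl (j, b))) = ((p : M) ^ c)⁻¹ *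
          ∑ χ : Fin c → ZMod p, algebraMap k M (ζ ^ (∑ i, χ i * b i).val) * wv ζ β x j χ := by
        rw [← h1, inv_mul_cancel_left₀ (pow_ne_zero _ hp0)]
      rw [h2]
      exact mul_mem (inv_mem (pow_mem (K.natCast_mem p) c))
        (sum_mem fun χ _ => mul_mem (K.algebraMap_mem _) (hK1 j χ))
    · exact hK2 l
  have wvmem : ∀ j χ, wv ζ β x j χ ∈ adjoin k (Set.range x) := by
    intro j χ
    unfold wv
    exact sum_mem fun b _ => mul_mem ((adjoin k (Set.range x)).algebraMap_mem _)
      (subset_adjoin k _ ⟨_, rfl⟩)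
  -- the first family
  have hw : AlgebraicIndependent k (Sum.elim (fun q : Fin s × (Fin c → ZMod p) =>
      wv ζ β x q.1 q.2) (fun l : Fin m => x (β (Sum.inr l)))) := by
    refine gen _ (xmem _ (fun j χ => subset_adjoin k _ ⟨Sum.inl (j, χ), rfl⟩)
      (fun l => subset_adjoin k _ ⟨Sum.inr l, rfl⟩))
  have hy0 : ∀ j i, wv ζ β x j (Pi.single i 1) ≠ 0 := fun j i =>
    hw.ne_zero (Sum.inl (j, Pi.single i 1))
  have hP0 : ∀ j (χ : Fin c → ZMod p), ∏ i, wv ζ β x j (Pi.single i 1) ^ (χ i).val ≠ 0 :=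
    fun j χ => Finset.prod_ne_zero_iff.2 fun i _ => pow_ne_zero _ (hy0 j i)
  -- the second family
  obtain ⟨w, hwdef⟩ : ∃ w : (Fin s × (Fin c → ZMod p)) ⊕ Fin m → M, w =
      Sum.elim (fun q : Fin s × (Fin c → ZMod p) =>
        if ∃ i, q.2 = Pi.single i 1 then wv ζ β x q.1 q.2
        else wv ζ β x q.1 q.2 / ∏ i, wv ζ β x q.1 (Pi.single i 1) ^ (q.2 i).val)
      (fun l : Fin m => x (β (Sum.inr l))) := ⟨_, rfl⟩
  have hwu : ∀ j i, w (Sum.inl (j, Pi.single i 1)) = wv ζ β x j (Pi.single i 1) := by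
    intro j i
    rw [hwdef, Sum.elim_inl, if_pos ⟨i, rfl⟩]
  have hwn : ∀ j χ, (¬ ∃ i, χ = Pi.single i 1) → w (Sum.inl (j, χ)) =
      wv ζ β x j χ / ∏ i, wv ζ β x j (Pi.single i 1) ^ (χ i).val := by
    intro j χ hχ
    rw [hwdef, Sum.elim_inl, if_neg hχ]
  have hwr : ∀ l, w (Sum.inr l) = x (β (Sum.inr l)) := by
    intro l
    rw [hwdef, Sum.elim_inr]
  have wmem : ∀ t, w t ∈ adjoin k (Set.range x) := by
    rintro (⟨j, χ⟩ | l)
    · by_cases hχ : ∃ i, χ = Pi.single i 1
      · obtain ⟨i, rfl⟩ := hχ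
        rw [hwu]
        exact wvmem _ _
      · rw [hwn j χ hχ]
        exact div_mem (wvmem _ _) (prod_mem fun i _ => pow_mem (wvmem _ _) _)
    · rw [hwr]
      exact subset_adjoin k _ ⟨_, rfl⟩
  have hm : ∀ t, w t ∈ adjoin k (Set.range w) := fun t => subset_adjoin k _ ⟨t, rfl⟩
  have xmem' : ∀ i, x i ∈ adjoin k (Set.range w) := by
    refine xmem _ (fun j χ => ?_) (fun l => ?_)
    · by_cases hχ : ∃ i, χ = Pi.single i 1
      · obtain ⟨i, rfl⟩ := hχ
        rw [← hwu]
        exact subset_adjoin k _ ⟨_, rfl⟩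
      · have h1 : wv ζ β x j χ = w (Sum.inl (j, χ)) *
            ∏ i, w (Sum.inl (j, Pi.single i 1)) ^ (χ i).val := by
          simp only [hwu]
          rw [hwn j χ hχ, div_mul_cancel₀ _ (hP0 j χ)]
        rw [h1]
        exact mul_mem (hm _) (prod_mem fun i _ => pow_mem (hm _) _)
    · rw [← hwr]
      exact subset_adjoin k _ ⟨_, rfl⟩
  have hwI : AlgebraicIndependent k w := gen w xmem'
  -- the splitting
  obtain ⟨a, ha⟩ : ∃ a : Fin s × Fin c → (Fin s × (Fin c → ZMod p)) ⊕ Fin m,
      a = fun q => Sum.inl (q.1, Pi.single q.2 1) := ⟨_, rfl⟩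
  have hainj : Function.Injective a := by
    rintro ⟨j, i⟩ ⟨j', i'⟩ h
    rw [ha] at h
    have h1 := Sum.inl_injective h
    have h2 : j = j' := (Prod.ext_iff.1 h1).1
    have h3 : (Pi.single i 1 : Fin c → ZMod p) = Pi.single i' 1 := (Prod.ext_iff.1 h1).2
    have h4 : i = i' := by
      by_contra hne
      have h5 := congrFun h3 i
      rw [Pi.single_eq_same, Pi.single_eq_of_ne hne] at h5
      exact one_ne_zero h5
    rw [h2, h4]
  obtain ⟨z, hz⟩ : ∃ z : {t : (Fin s × (Fin c → ZMod p)) ⊕ Fin m // t ∉ Set.range a} → M,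
      z = fun t => w t.1 := ⟨_, rfl⟩
  obtain ⟨y, hy⟩ : ∃ y : Fin s × Fin c → M, y = fun q => w (a q) := ⟨_, rfl⟩
  have hyz : AlgebraicIndependent k (Sum.elim y z) := by
    have h1 : Sum.elim y z = w ∘ Sum.elim a Subtype.val := by
      funext t
      rcases t with t | t
      · rw [hy]
        rfl
      · rw [hz]
        rfl
    rw [h1]
    refine hwI.comp _ ?_
    rintro (t | t) (t' | t') h
    · rw [hainj h]
    · exact absurd ⟨t, h⟩ t'.2
    · exact absurd ⟨t', h.symm⟩ t.2
    · rw [Subtype.ext h]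
  have hyv : ∀ q, y q = wv ζ β x q.1 (Pi.single q.2 1) := by
    intro q
    rw [hy, ha]
    exact hwu q.1 q.2
  have hact : ∀ (v : Fin s × Fin c → ZMod p) (j : Fin s) (χ : Fin c → ZMod p),
      ψ (Multiplicative.ofAdd v) (wv ζ β x j χ) =
        algebraMap k M (ζ ^ (∑ i, χ i * v (j, i)).val) * wv ζ β x j χ := fun v j χ =>
    wv_act ζ hζ β x (ψ (Multiplicative.ofAdd v)) v (hψ v) j χ
  have hact1 : ∀ (v : Fin s × Fin c → ZMod p) (j : Fin s) (i : Fin c),
      ψ (Multiplicative.ofAdd v) (wv ζ β x j (Pi.single i 1)) =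
        algebraMap k M (ζ ^ (v (j, i)).val) * wv ζ β x j (Pi.single i 1) := by
    intro v j i
    have h1 : ∑ i', (Pi.single i 1 : Fin c → ZMod p) i' * v (j, i') = v (j, i) := by
      rw [Finset.sum_eq_single i]
      · rw [Pi.single_eq_same, one_mul]
      · intro i' _ hne
        rw [Pi.single_eq_of_ne hne, zero_mul]
      · intro h2
        exact absurd (Finset.mem_univ i) h2
    rw [hact, h1]
  have hfix : ∀ (v : Fin s × Fin c → ZMod p) (u : M), u ∈ adjoin k (Set.range z) →
      ψ (Multiplicative.ofAdd v) u = u := by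
    intro v u hu
    induction hu using adjoin_induction with
    | mem u hu =>
      obtain ⟨t, rfl⟩ := hu
      rw [hz]
      obtain ⟨t, ht⟩ := t
      change ψ (Multiplicative.ofAdd v) (w t) = w t
      rcases t with ⟨j, χ⟩ | l
      · have hχ : ¬ ∃ i, χ = Pi.single i 1 := by
          rintro ⟨i, rfl⟩
          apply ht
          rw [ha]
          exact ⟨(j, i), rfl⟩
        rw [hwn j χ hχ, map_div₀, map_prod, hact]
        have h1 : ∏ i, ψ (Multiplicative.ofAdd v) (wv ζ β x j (Pi.single i 1) ^ (χ i).val) =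
            algebraMap k M (ζ ^ (∑ i, χ i * v (j, i)).val) *
              ∏ i, wv ζ β x j (Pi.single i 1) ^ (χ i).val := by
          rw [← coords_prod ζ hζ v j χ, map_prod, ← Finset.prod_mul_distrib]
          refine Finset.prod_congr rfl fun i _ => ?_
          rw [map_pow, hact1, mul_pow, map_pow (algebraMap k M) (ζ ^ (v (j, i)).val) (χ i).val]
        rw [h1, mul_div_mul_left]
        exact (map_ne_zero _).2 (pow_ne_zero _ (hζ.ne_zero (Fact.out : p.Prime).ne_zero))
      · rw [hwr]
        exact hψ' v l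
    | algebraMap u => exact AlgEquiv.commutes _ u
    | add u u' _ _ h1 h2 => rw [map_add, h1, h2]
    | inv u _ h1 => rw [map_inv₀, h1]
    | mul u u' _ _ h1 h2 => rw [map_mul, h1, h2]
  refine ⟨adjoin k (Set.range z), y, ?_, ?_, independent_over y z hyz, ?_⟩
  · intro v' u hu
    exact hfix (Multiplicative.toAdd v') u hu
  · intro v q
    rw [hyv, hact1]
  · intro u
    have h1 : u ∈ adjoin (adjoin k (Set.range z)) (Set.range y) ↔
        u ∈ adjoin k (Set.range z ∪ Set.range y) := by
      rw [← adjoin_adjoin_left, mem_restrictScalars]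
    have h2 : Set.range z ∪ Set.range y = Set.range w := by
      ext u'
      constructor
      · rintro (⟨t, rfl⟩ | ⟨q, rfl⟩)
        · rw [hz]
          exact ⟨_, rfl⟩
        · rw [hy]
          exact ⟨_, rfl⟩
      · rintro ⟨t, rfl⟩
        by_cases ht : t ∈ Set.range a
        · obtain ⟨q, rfl⟩ := ht
          right
          rw [hy]
          exact ⟨q, rfl⟩
        · left
          rw [hz]
          exact ⟨⟨t, ht⟩, rfl⟩
    rw [h1, h2]
    have h3 : adjoin k (Set.range w) = adjoin k (Set.range x) := by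
      apply le_antisymm
      · rw [adjoin_le_iff]
        rintro _ ⟨t, rfl⟩
        exact wmem t
      · rw [adjoin_le_iff]
        rintro _ ⟨i, rfl⟩
        exact xmem' i
    rw [h3]

end

end Pool.Agent.Helper15.RD
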