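import Pool.Agent.Helper15.RD.Va

/-!
# Project RD (B), block Y: stabilizers of discrete valuations are cyclic; the sum over the orbits
-/

set_option autoImplicit false

namespace Pool.Agent.Helper15.RD

open IntermediateField

universe u v

section

variable {k : Type v} {E : Type u} [Field k] [Field E] [Algebra k E] {w : E → ℤ}

private theorem res_k_mem {k' : Type*} {E' : Type*} [Field k'] [IsAlgClosed k'] [Field E']
    [Algebra k' E'] (y : E') (hy : ¬ Transcendental k' y) : ∃ c : k', algebraMap k' E' c = y := by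
  have h1 : IsAlgebraic k' y := not_not.1 hy
  have h2 := minpoly.irreducible h1.isIntegral
  have h3 := IsAlgClosed.degree_eq_one_of_irreducible k' h2
  exact minpoly.mem_range_of_degree_eq_one k' y h3

/-- RD-Y1 (uses `exists_pl`, `TD.res_ram` with `R = k`, `E0 = ⊤`, `s = 1`). A residue is not
transcendental over `k`, so it is algebraic, and in `k`, as `k` is algebraically closed. -/
theorem res_k [IsAlgClosed k] (h : IsW k w) (hn : ∃ z, w z ≠ 0) (hTD : TD k (Set.univ : Set E) 1)
    (z : E) (hz : Oi w z) : ∃ c : k, Mi w (z - algebraMap k E c) := by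
  obtain ⟨E', iF, iA, r, hP, -⟩ := exists_pl h
  obtain ⟨z0, hz0⟩ := hn
  have h0 : z0 ≠ 0 := fun h1 => hz0 (by rw [h1, h.zero])
  have h1 := (TD.res_ram (k := k) hP ⊤ (hTD.mono (Set.subset_univ _)) z0
    IntermediateField.mem_top h0 hz0).2
  have h2 : ¬ AlgebraicIndependent k (fun _ : Fin 1 => r z) :=
    h1 (fun _ => r z) fun _ => ⟨z, IntermediateField.mem_top, hz, rfl⟩
  rw [algebraicIndependent_unique_type_iff] at h2
  obtain ⟨c, hc⟩ := res_k_mem (r z) h2
  refine ⟨c, ?_⟩
  have h3 : z - algebraMap k E c = z + algebraMap k E (-c) := by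
    rw [map_neg, sub_eq_add_neg]
  rw [h3]
  have h4 : Oi w (z + algebraMap k E (-c)) := h.oi_add hz (h.oi_alg (-c))
  refine (hP.r_ker _ h4).1 ?_
  rw [hP.r_add _ _ hz (h.oi_alg (-c)), hP.r_alg, ← hc, map_neg, add_neg_cancel]

private theorem exists_unif_pos (h : IsW k w) (hn : ∃ z, w z ≠ 0) :
    ∃ n : ℕ, 0 < n ∧ ∃ z, w z = n := by
  obtain ⟨z, hz⟩ := hn
  rcases lt_or_gt_of_ne hz with h1 | h1
  · refine ⟨(w z⁻¹).toNat, ?_, z⁻¹, ?_⟩
    · rw [h.inv]
      omega
    · rw [h.inv]
      omega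
  · exact ⟨(w z).toNat, by omega, z, by omega⟩

/-- RD-Y1. `w π` is the least positive value of `w`. -/
theorem exists_unif (h : IsW k w) (hn : ∃ z, w z ≠ 0) :
    ∃ π, π ≠ 0 ∧ 0 < w π ∧ ∀ z, ∃ m : ℤ, w z = m * w π := by
  classical
  have hex := exists_unif_pos h hn
  obtain ⟨hpos, π, hπ⟩ := Nat.find_spec hex
  have hmin : ∀ z, 0 < w z → (Nat.find hex : ℤ) ≤ w z := fun z hz => by
    have h1 := Nat.find_min' hex ⟨(by omega : 0 < (w z).toNat), z, by omega⟩
    omega
  generalize Nat.find hex = n at hpos hπ hmin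
  have hπ0 : π ≠ 0 := fun h1 => by
    rw [h1, h.zero] at hπ
    omega
  refine ⟨π, hπ0, by rw [hπ]; exact_mod_cast hpos, fun z => ?_⟩
  rcases eq_or_ne z 0 with rfl | hz
  · exact ⟨0, by rw [h.zero, zero_mul]⟩
  refine ⟨w z / n, ?_⟩
  have hn0 : (0 : ℤ) < n := by exact_mod_cast hpos
  have h1 : w (z * π ^ (-(w z / n))) = w z % n := by
    rw [h.mul _ _ hz (zpow_ne_zero _ hπ0), h.zpow, hπ]
    have h2 := Int.emod_add_mul_ediv (w z) n
    linarith [h2, mul_comm (n : ℤ) (w z / n), neg_mul (w z / n) (n : ℤ)]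
  have h2 := Int.emod_nonneg (w z) hn0.ne'
  have h3 := Int.emod_lt_of_pos (w z) hn0
  have h4 : w z % n = 0 := by
    by_contra h5
    have h6 := hmin (z * π ^ (-(w z / n))) (by rw [h1]; omega)
    rw [h1] at h6
    omega
  rw [hπ]
  have h5 := Int.emod_add_mul_ediv (w z) n
  rw [h4, zero_add] at h5
  rw [mul_comm]
  exact h5.symm

/-- RD-Y2 (uses `res_k`). `χ g` is the residue of `φ g π / π`, an element of valuation `0`. For
`z = c + (element of the maximal ideal)` we have `φ g z = c + (element of the maximal ideal)`, so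
`φ (g h) π / π = φ g (φ h π / π) * (φ g π / π)` has residue `χ h * χ g`. Residues are unique
(`c - c'` in the maximal ideal implies `c = c'`). -/
theorem exists_chi [IsAlgClosed k] (h : IsW k w) (hn : ∃ z, w z ≠ 0)
    (hTD : TD k (Set.univ : Set E) 1) {D : Type*} [Group D] (φ : D →* (E ≃ₐ[k] E))
    (hst : ∀ g z, w (φ g z) = w z) (π : E) (hπ0 : π ≠ 0) :
    ∃ χ : D →* k, ∀ g, Mi w (φ g π / π - algebraMap k E (χ g)) := by
  have hne : ∀ g, φ g π ≠ 0 := fun g => by
    rw [Ne, EmbeddingLike.map_eq_zero_iff]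
    exact hπ0
  have hw0 : ∀ g, w (φ g π / π) = 0 := by
    intro g
    rw [div_eq_mul_inv, h.mul _ _ (hne g) (inv_ne_zero hπ0), h.inv, hst]
    omega
  have hOi : ∀ g, Oi w (φ g π / π) := fun g => Or.inr (le_of_eq (hw0 g).symm)
  have hneg : ∀ z, Mi w z → Mi w (-z) := by
    intro z hz
    rcases hz with hz | hz
    · exact Or.inl (by rw [hz, neg_zero])
    · exact Or.inr (by rw [h.neg]; exact hz)
  have huniq : ∀ (z : E) (c c' : k), Mi w (z - algebraMap k E c) →
      Mi w (z - algebraMap k E c') → c = c' := by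
    intro z c c' h1 h2
    have h3 : Mi w (algebraMap k E (c - c')) := by
      have h4 := h.mi_add (hneg _ h1) h2
      have h5 : -(z - algebraMap k E c) + (z - algebraMap k E c') = algebraMap k E (c - c') := by
        rw [map_sub]
        ring
      rwa [h5] at h4
    by_contra hcc
    have hc0 : c - c' ≠ 0 := sub_ne_zero.mpr hcc
    rcases h3 with h3 | h3
    · exact hc0 ((map_eq_zero _).mp h3)
    · rw [h.alg _ hc0] at h3
      exact lt_irrefl _ h3
  have hex : ∀ g, ∃ c : k, Mi w (φ g π / π - algebraMap k E c) :=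
    fun g => res_k h hn hTD _ (hOi g)
  choose c hc using hex
  refine ⟨{ toFun := c, map_one' := ?_, map_mul' := ?_ }, fun g => hc g⟩
  · refine huniq _ _ _ (hc 1) (Or.inl ?_)
    rw [map_one, map_one, AlgEquiv.one_apply, div_self hπ0, sub_self]
  · intro a b
    refine huniq _ _ _ (hc (a * b)) ?_
    have h1 : φ (a * b) π / π = φ a (φ b π / π) * (φ a π / π) := by
      rw [map_mul, AlgEquiv.mul_apply, map_div₀]
      field_simp [hne a]
    have h2 : Mi w (φ a (φ b π / π) - algebraMap k E (c b)) := by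
      have h3 : φ a (φ b π / π) - algebraMap k E (c b) =
          φ a (φ b π / π - algebraMap k E (c b)) := by
        rw [map_sub, AlgEquiv.commutes]
      rw [h3]
      rcases hc b with h4 | h4
      · exact Or.inl (by rw [h4, map_zero])
      · exact Or.inr (by rw [hst]; exact h4)
    have h5 : Oi w (φ a (φ b π / π)) := Or.inr (by rw [hst, hw0])
    have h6 : φ (a * b) π / π - algebraMap k E (c a * c b) =
        φ a (φ b π / π) * (φ a π / π - algebraMap k E (c a)) +
          algebraMap k E (c a) * (φ a (φ b π / π) - algebraMap k E (c b)) := by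
      rw [h1, map_mul]
      ring
    rw [h6]
    exact h.mi_add (h.mi_mul h5 (hc a)) (h.mi_mul (h.oi_alg _) h2)

/-- a helper of `near_one`: products -/
private theorem near_one_mul (h : IsW k w) {u v : E} (hu : Mi w (u - 1)) (hv : Mi w (v - 1)) :
    Mi w (u * v - 1) := by
  have h1 : Oi w (1 : E) := Or.inr h.one.ge
  have hv' : Oi w (v - 1) := hv.imp id le_of_lt
  have hvo : Oi w v := by
    have h2 := h.oi_add hv' h1
    rwa [sub_add_cancel] at h2
  have h3 := h.mi_add (h.mi_mul hvo hu) hv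
  have h4 : v * (u - 1) + (v - 1) = u * v - 1 := by ring
  rwa [h4] at h3

/-- a helper of `near_one`: the value -/
private theorem near_one_val (h : IsW k w) {u : E} (hu : Mi w (u - 1)) : u ≠ 0 ∧ w u = 0 := by
  have h1 := h.eq_of_sub (a := u) (b := 1) one_ne_zero (by
    rw [h.one]
    exact hu.imp sub_eq_zero.mp id)
  rw [h.one] at h1
  exact h1

/-- a helper of `near_one`: inverses -/
private theorem near_one_inv (h : IsW k w) {u : E} (hu : Mi w (u - 1)) : Mi w (u⁻¹ - 1) := by
  obtain ⟨h0, h1⟩ := near_one_val h hu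
  have h2 : Oi w (-u⁻¹) := Or.inr (by rw [h.neg, h.inv, h1, neg_zero])
  have h3 := h.mi_mul h2 hu
  have h4 : -u⁻¹ * (u - 1) = u⁻¹ - 1 := by
    field_simp
    ring
  rwa [h4] at h3

/-- a helper of `near_one`: powers -/
private theorem near_one_pow (h : IsW k w) {u : E} (hu : Mi w (u - 1)) (n : ℕ) :
    Mi w (u ^ n - 1) := by
  induction n with
  | zero => exact Or.inl (by rw [pow_zero, sub_self])
  | succ n ih =>
    rw [pow_succ]
    exact near_one_mul h ih hu

/-- a helper of `near_one`: integral powers -/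
private theorem near_one_zpow (h : IsW k w) {u : E} (hu : Mi w (u - 1)) (m : ℤ) :
    Mi w (u ^ m - 1) := by
  cases m with
  | ofNat n =>
    rw [Int.ofNat_eq_natCast, zpow_natCast]
    exact near_one_pow h hu n
  | negSucc n =>
    rw [zpow_negSucc]
    exact near_one_inv h (near_one_pow h hu (n + 1))

/-- RD-Y3 (uses `res_k`). `z = π ^ m * y` with `w y = 0`, `y = c + (maximal ideal)`, `c ≠ 0`;
`σ z / z = (σ π / π) ^ m * (σ y / y)`, and both factors are `1 + (maximal ideal)`. -/
theorem near_one [IsAlgClosed k] (h : IsW k w) (hn : ∃ z, w z ≠ 0)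
    (hTD : TD k (Set.univ : Set E) 1) (σ : E ≃ₐ[k] E) (hst : ∀ z, w (σ z) = w z) (π : E)
    (hπ0 : π ≠ 0) (hπ : ∀ z, ∃ m : ℤ, w z = m * w π) (h1 : Mi w (σ π / π - 1)) (z : E)
    (hz : z ≠ 0) : Mi w (σ z / z - 1) := by
  obtain ⟨m, hm⟩ := hπ z
  have hπm : π ^ m ≠ 0 := zpow_ne_zero m hπ0
  obtain ⟨y, hy⟩ : ∃ y, z = π ^ m * y := ⟨z / π ^ m, by rw [mul_div_cancel₀ _ hπm]⟩
  have hy0 : y ≠ 0 := by
    rintro rfl
    exact hz (by rw [hy, mul_zero])
  have hwy : w y = 0 := by
    have h2 := h.mul _ _ hπm hy0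
    rw [← hy, hm, h.zpow] at h2
    omega
  obtain ⟨c, hc⟩ := res_k h hn hTD y (Or.inr hwy.ge)
  have hσc : Mi w (σ y - algebraMap k E c) := by
    have h2 : σ y - algebraMap k E c = σ (y - algebraMap k E c) := by
      rw [map_sub, AlgEquiv.commutes]
    rw [h2]
    rcases hc with hc | hc
    · exact Or.inl (by rw [hc, map_zero])
    · exact Or.inr (by rw [hst]; exact hc)
  have hyi : Oi w y⁻¹ := Or.inr (by rw [h.inv, hwy, neg_zero])
  have hny : Mi w (σ y / y - 1) := by
    have hneg : Mi w (-(y - algebraMap k E c)) := by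
      rcases hc with hc | hc
      · exact Or.inl (by rw [hc, neg_zero])
      · exact Or.inr (by rw [h.neg]; exact hc)
    have h3 := h.mi_mul hyi (h.mi_add hσc hneg)
    have h4 : y⁻¹ * (σ y - algebraMap k E c + -(y - algebraMap k E c)) = σ y / y - 1 := by
      field_simp
      ring
    rwa [h4] at h3
  have h5 := near_one_mul h (near_one_zpow h h1 m) hny
  have h6 : (σ π / π) ^ m * (σ y / y) = σ z / z := by
    rw [hy, map_mul, map_zpow₀, div_zpow, div_mul_div_comm]
  rwa [h6] at h5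

/-- RD-Y3. Let `y = σ z - z ≠ 0`. `∑ j < N, σ ^ j y = σ ^ N z - z = 0`, but `σ ^ j y - y` has larger
valuation than `y` for all `j` (induction), so the sum is `N y + (larger valuation)`, and `N y` has the
valuation of `y`: contradiction. -/
theorem eq_one_of_near [CharZero k] (h : IsW k w) (σ : E ≃ₐ[k] E) (hst : ∀ z, w (σ z) = w z)
    (hσ : ∀ z, z ≠ 0 → Mi w (σ z / z - 1)) (N : ℕ) (hN : 0 < N) (hσN : σ ^ N = 1) : σ = 1 := by
  by_contra hne
  obtain ⟨z, hz⟩ : ∃ z, σ z ≠ z := by
    by_contra hcon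
    push Not at hcon
    exact hne (AlgEquiv.ext hcon)
  obtain ⟨y, hy⟩ : ∃ y, y = σ z - z := ⟨_, rfl⟩
  have hy0 : y ≠ 0 := by
    rw [hy]
    exact sub_ne_zero.mpr hz
  have hne0 : ∀ j : ℕ, (σ ^ j) y ≠ 0 := fun j => by
    rw [Ne, EmbeddingLike.map_eq_zero_iff]
    exact hy0
  have hs : ∀ (j : ℕ) (u : E), (σ ^ (j + 1)) u = σ ((σ ^ j) u) := fun j u => by
    rw [pow_succ', AlgEquiv.mul_apply]
  have hwj : ∀ j : ℕ, w ((σ ^ j) y) = w y := by
    intro j
    induction j with
    | zero => rw [pow_zero, AlgEquiv.one_apply]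
    | succ j ih => rw [hs, hst, ih]
  have hA : ∀ j : ℕ, Mi w ((σ ^ j) y / y - 1) := by
    intro j
    induction j with
    | zero =>
      refine Or.inl ?_
      rw [pow_zero, AlgEquiv.one_apply, div_self hy0, sub_self]
    | succ j ih =>
      have hu0 := hne0 j
      have hu : Oi w ((σ ^ j) y / y) := by
        refine Or.inr ?_
        rw [div_eq_mul_inv, h.mul _ _ hu0 (inv_ne_zero hy0), h.inv, hwj]
        omega
      have hb := h.mi_mul hu (hσ _ hu0)
      have heq : (σ ^ (j + 1)) y / y - 1 =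
          (σ ^ j) y / y * (σ ((σ ^ j) y) / (σ ^ j) y - 1) + ((σ ^ j) y / y - 1) := by
        rw [hs]
        field_simp
        ring
      rw [heq]
      exact h.mi_add hb ih
  have hsum : ∑ j ∈ Finset.range N, (σ ^ j) y = 0 := by
    have h1 : ∀ j ∈ Finset.range N, (σ ^ j) y = (σ ^ (j + 1)) z - (σ ^ j) z := by
      intro j _
      rw [hy, map_sub, pow_succ, AlgEquiv.mul_apply]
    rw [Finset.sum_congr rfl h1, Finset.sum_range_sub (fun j => (σ ^ j) z), hσN, pow_zero, sub_self]
  have hM := h.mi_sum (Finset.range N) (fun j => (σ ^ j) y / y - 1) fun j _ => hA j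
  have heq : ∑ j ∈ Finset.range N, ((σ ^ j) y / y - 1) = algebraMap k E (-(N : k)) := by
    rw [Finset.sum_sub_distrib, ← Finset.sum_div, hsum, zero_div, Finset.sum_const,
      Finset.card_range, map_neg, map_natCast, nsmul_eq_mul, mul_one, zero_sub]
  rw [heq] at hM
  have hN0 : -(N : k) ≠ 0 := neg_ne_zero.mpr (Nat.cast_ne_zero.mpr hN.ne')
  rcases hM with hM | hM
  · exact hN0 ((map_eq_zero _).mp hM)
  · rw [h.alg _ hN0] at hM
    exact lt_irrefl _ hM

/-- RD-Y4 (uses the others). `χ` is injective: if `χ g = 1` then `φ g = 1`; so `D` is cyclic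
(`isCyclic_of_injective_ringHom`, formerly `isCyclic_of_subgroup_isDomain`). -/
theorem cyc [IsAlgClosed k] [CharZero k] (h : IsW k w) (hn : ∃ z, w z ≠ 0)
    (hTD : TD k (Set.univ : Set E) 1) {D : Type*} [Group D] [Finite D] (φ : D →* (E ≃ₐ[k] E))
    (hφ : Function.Injective φ) (hst : ∀ g z, w (φ g z) = w z) : IsCyclic D := by
  obtain ⟨π, hπ0, _, hπ⟩ := exists_unif h hn
  obtain ⟨χ, hχ⟩ := exists_chi h hn hTD φ hst π hπ0
  refine isCyclic_of_injective_ringHom χ ((injective_iff_map_eq_one χ).2 fun g hg => ?_)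
  have h1 : Mi w (φ g π / π - 1) := by
    have h2 := hχ g
    rwa [hg, map_one] at h2
  have h3 : φ g = 1 := by
    refine eq_one_of_near h (φ g) (hst g) (near_one h hn hTD (φ g) (hst g) π hπ0 hπ h1)
      (orderOf g) (orderOf_pos g) ?_
    rw [← map_pow, pow_orderOf_eq_one, map_one]
  exact (injective_iff_map_eq_one φ).1 hφ g h3

end

private def cyc_sub_phi {k : Type v} {F : Type u} [Field k] [Field F]
    [Algebra k F] (E : IntermediateField k F) {D : Type*} [Group D]
    (Ψ : D →* (F ≃ₐ[k] F)) (hst : ∀ g, ∀ z ∈ E, Ψ g z ∈ E) : D →* (E ≃ₐ[k] E) where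
  toFun g :=
    { toFun := fun z => ⟨Ψ g z, hst g z z.2⟩
      invFun := fun z => ⟨Ψ g⁻¹ z, hst g⁻¹ z z.2⟩
      left_inv := fun z => Subtype.ext (by
        change Ψ g⁻¹ (Ψ g z) = z
        rw [← AlgEquiv.mul_apply, ← map_mul, inv_mul_cancel, map_one]
        rfl)
      right_inv := fun z => Subtype.ext (by
        change Ψ g (Ψ g⁻¹ z) = z
        rw [← AlgEquiv.mul_apply, ← map_mul, mul_inv_cancel, map_one]
        rfl)
      map_mul' := fun a b => Subtype.ext (map_mul (Ψ g) (a : F) (b : F))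
      map_add' := fun a b => Subtype.ext (map_add (Ψ g) (a : F) (b : F))
      commutes' := fun c => Subtype.ext ((Ψ g).commutes c) }
  map_one' := by
    refine AlgEquiv.ext fun z => Subtype.ext ?_
    change Ψ 1 (z : F) = z
    rw [map_one]
    rfl
  map_mul' a b := by
    refine AlgEquiv.ext fun z => Subtype.ext ?_
    change Ψ (a * b) (z : F) = Ψ a (Ψ b z)
    rw [map_mul]
    rfl

/-- RD-Y5 (uses `cyc`). Restrict `Ψ` and `w` to `E`. -/
theorem cyc_sub {k : Type v} {F : Type u} [Field k] [IsAlgClosed k] [CharZero k] [Field F]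
    [Algebra k F] (E : IntermediateField k F) {D : Type*} [Group D] [Finite D]
    (Ψ : D →* (F ≃ₐ[k] F)) (hst : ∀ g, ∀ z ∈ E, Ψ g z ∈ E)
    (hf : ∀ g, (∀ z ∈ E, Ψ g z = z) → g = 1) (hTD : TD k (E : Set F) 1) (w : F → ℤ)
    (hw : IsW k w) (hn : ∃ z ∈ E, w z ≠ 0) (hinv : ∀ g z, w (Ψ g z) = w z) : IsCyclic D := by
  have hne : ∀ a : E, a ≠ 0 → (a : F) ≠ 0 := fun a ha h0 => ha (Subtype.ext h0)
  have hw' : IsW k (fun z : E => w (z : F)) :=
    { zero := hw.zero
      mul := fun a b ha hb => hw.mul a b (hne a ha) (hne b hb)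
      add := fun a b ha hb hab => hw.add a b (hne a ha) (hne b hb) (hne (a + b) hab)
      alg := fun c hc => hw.alg c hc }
  obtain ⟨z, hz, hwz⟩ := hn
  refine cyc hw' ⟨⟨z, hz⟩, hwz⟩ (TD.of_map E.val (fun z _ => z.2) hTD)
    (cyc_sub_phi E Ψ hst) ((injective_iff_map_eq_one _).2 fun g hg => hf g fun y hy => ?_)
    (fun g y => hinv g y)
  have h1 := congrArg (fun f : E ≃ₐ[k] E => ((f ⟨y, hy⟩ : E) : F)) hg
  exact h1

/-- RD-Y6. Induction on `s.card`: let `x ∈ s`, `O ⊆ s` its orbit; `O.card * card (stabilizer) = card G`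
and the order of the cyclic stabilizer divides `exponent G`, so `card G` divides
`O.card * exponent G`; `s \ O` is stable. -/
theorem orbit_sum {G X : Type*} [Group G] [Finite G] (a : G →* Equiv.Perm X) (s : Finset X)
    (hs : ∀ g, ∀ x ∈ s, a g x ∈ s) (N : X → ℕ) (hN : ∀ g, ∀ x ∈ s, N (a g x) = N x)
    (hc : ∀ x ∈ s, ∀ H : Subgroup G, (∀ g ∈ H, a g x = x) → IsCyclic H) :
    Nat.card G ∣ Monoid.exponent G * ∑ x ∈ s, N x := by
  classical
  induction s using Finset.strongInduction with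
  | H s ih =>
    rcases s.eq_empty_or_nonempty with rfl | ⟨x, hx⟩
    · simp
    let _ : MulAction G X := MulAction.compHom X a
    have horb : ∀ y ∈ MulAction.orbit G x, ∃ g, a g x = y := by
      rintro y ⟨g, rfl⟩
      exact ⟨g, rfl⟩
    obtain ⟨O, hO⟩ : ∃ O : Finset X, O = s.filter (fun y => y ∈ MulAction.orbit G x) := ⟨_, rfl⟩
    have hOs : O ⊆ s := by rw [hO]; exact Finset.filter_subset _ _
    have hOset : (O : Set X) = MulAction.orbit G x := by
      ext y
      rw [hO, Finset.mem_coe, Finset.mem_filter]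
      refine ⟨fun h => h.2, fun h => ⟨?_, h⟩⟩
      obtain ⟨g, hg⟩ := horb y h
      rw [← hg]
      exact hs g x hx
    have hxO : x ∈ O := by
      rw [← Finset.mem_coe, hOset]
      exact MulAction.mem_orbit_self x
    have hcard : Nat.card (MulAction.stabilizer G x) * O.card = Nat.card G := by
      have h1 := MulAction.index_stabilizer G x
      rw [← hOset, Set.ncard_coe_finset] at h1
      rw [← h1]
      exact Subgroup.card_mul_index _
    have hcyc : IsCyclic (MulAction.stabilizer G x) := hc x hx _ (fun g hg => hg)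
    have hexp : Nat.card (MulAction.stabilizer G x) ∣ Monoid.exponent G := by
      rw [← IsCyclic.exponent_eq_card]
      exact Monoid.exponent_dvd_of_monoidHom (MulAction.stabilizer G x).subtype
        (Subgroup.subtype_injective _)
    have hNO : ∑ y ∈ O, N y = O.card * N x := by
      rw [Finset.sum_const_nat]
      intro y hy
      rw [← Finset.mem_coe, hOset] at hy
      obtain ⟨g, hg⟩ := horb y hy
      rw [← hg]
      exact hN g x hx
    have h2 : Nat.card G ∣ Monoid.exponent G * ∑ y ∈ O, N y := by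
      rw [hNO, ← mul_assoc, ← hcard]
      exact dvd_mul_of_dvd_left (mul_dvd_mul_right hexp _) _
    have h3 : Nat.card G ∣ Monoid.exponent G * ∑ y ∈ s \ O, N y := by
      have hstab : ∀ g, ∀ y ∈ s \ O, a g y ∈ s \ O := by
        intro g y hy
        rw [Finset.mem_sdiff] at hy ⊢
        refine ⟨hs g y hy.1, fun h => hy.2 ?_⟩
        rw [← Finset.mem_coe, hOset] at h ⊢
        obtain ⟨g', hg'⟩ := horb _ h
        refine ⟨g⁻¹ * g', ?_⟩
        change a (g⁻¹ * g') x = y
        rw [map_mul, Equiv.Perm.mul_apply, hg', ← Equiv.Perm.mul_apply, ← map_mul,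
          inv_mul_cancel, map_one, Equiv.Perm.one_apply]
      refine ih (s \ O) ?_ hstab (fun g y hy => hN g y (Finset.mem_sdiff.1 hy).1)
        (fun y hy => hc y (Finset.mem_sdiff.1 hy).1)
      refine Finset.ssubset_iff_subset_ne.2 ⟨Finset.sdiff_subset, fun h => ?_⟩
      have h4 : x ∈ s \ O := by rw [h]; exact hx
      exact (Finset.mem_sdiff.1 h4).2 hxO
    rw [← Finset.sum_sdiff hOs, mul_add]
    exact dvd_add h3 h2

/-- RD-Y7 (uses `divisor_formula`, `cyc_sub`, `orbit_sum`, `Dg.unique`, `Dg.twist`, `IsV.twist`).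
`G` acts on the functions `F → ℤ` by `(a g w) z = w (Ψ g⁻¹ z)`, it permutes `Z` and `P`, keeps the degree and
the value at `f`; by `h7` it fixes `wf ∈ Z`. The elements of `Z \ {wf}` and of `P` are not trivial on `E`
(`h7`), so the subgroups fixing one of them are cyclic (`cyc_sub`). With
`m + ∑ (Z \ {wf}) = ∑ P` the claim follows from `orbit_sum` for `Z \ {wf}` and `P`. -/
theorem assemble {k : Type v} {L F : Type u} [Field k] [IsAlgClosed k] [CharZero k] [Field L]
    [CharZero L] [Field F] [Algebra k L] [Algebra k F] [Algebra L F] [IsScalarTower k L F]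
    (E : IntermediateField k F) (f : F) (wf : F → ℤ) (m : ℕ) (h1 : Transcendental L f)
    (h2 : FiniteDimensional (adjoin L {f}) F) (h3 : IsV L wf) (h4 : wf f = 1) (h5 : Dg L wf m)
    (h6 : ∀ z ∈ E, z ≠ 0 → wf z = 0)
    (h7 : ∀ w, IsV L w → (∀ z ∈ E, z ≠ 0 → w z = 0) → w f ≠ 0 → w = wf)
    (hTD : TD k (E : Set F) 1) {G : Type} [Group G] [Finite G] (Ψ : G →* (F ≃ₐ[k] F))
    (hE : ∀ g, ∀ z ∈ E, Ψ g z ∈ E) (hEf : ∀ g, (∀ z ∈ E, Ψ g z = z) → g = 1)
    (τ : G → (L ≃+* L)) (hτ : ∀ g c, Ψ g (algebraMap L F c) = algebraMap L F (τ g c))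
    (hf : ∀ g, Ψ g f = f) : Nat.card G ∣ Monoid.exponent G * m := by
  classical
  obtain ⟨Z, P, δ, hZ, hP, hD, hsum⟩ := divisor_formula L f h1 h2
  -- the action of `G` on the functions `F → ℤ`
  have hinvl : ∀ (g : G) (z : F), Ψ g (Ψ g⁻¹ z) = z := by
    intro g z
    rw [← AlgEquiv.mul_apply, ← map_mul, mul_inv_cancel, map_one, AlgEquiv.one_apply]
  have hinvr : ∀ (g : G) (z : F), Ψ g⁻¹ (Ψ g z) = z := by
    intro g z
    rw [← AlgEquiv.mul_apply, ← map_mul, inv_mul_cancel, map_one, AlgEquiv.one_apply]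
  let a : G →* Equiv.Perm (F → ℤ) :=
    { toFun := fun g =>
        { toFun := fun w z => w (Ψ g⁻¹ z)
          invFun := fun w z => w (Ψ g z)
          left_inv := by
            intro w
            funext z
            simp only [hinvr]
          right_inv := by
            intro w
            funext z
            simp only [hinvl] }
      map_one' := by
        ext w z
        simp
      map_mul' := by
        intro g h
        ext w z
        simp [mul_inv_rev] }
  have ha : ∀ (g : G) (w : F → ℤ) (z : F), a g w z = w (Ψ g⁻¹ z) := fun _ _ _ => rfl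
  have haf : ∀ (g : G) (w : F → ℤ), a g w f = w f := by
    intro g w
    rw [ha, hf]
  have haV : ∀ (g : G) (w : F → ℤ), IsV L w → IsV L (a g w) := by
    intro g w hw
    exact IsV.twist hw (Ψ g⁻¹).toRingEquiv (τ g⁻¹) (fun c => hτ g⁻¹ c)
  have haD : ∀ (g : G) (w : F → ℤ) (d : ℕ), Dg L w d → Dg L (a g w) d := by
    intro g w d hw
    exact Dg.twist hw (Ψ g⁻¹).toRingEquiv (τ g⁻¹) (fun c => hτ g⁻¹ c)
  have haZ : ∀ (g : G) (w : F → ℤ), w ∈ Z → a g w ∈ Z := by
    intro g w hw
    rw [hZ] at hw ⊢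
    exact ⟨haV g w hw.1, by rw [haf]; exact hw.2⟩
  have haP : ∀ (g : G) (w : F → ℤ), w ∈ P → a g w ∈ P := by
    intro g w hw
    rw [hP] at hw ⊢
    exact ⟨haV g w hw.1, by rw [haf]; exact hw.2⟩
  have haδ : ∀ (g : G) (w : F → ℤ), (w ∈ Z ∨ w ∈ P) → δ (a g w) = δ w := by
    intro g w hw
    have hw' : a g w ∈ Z ∨ a g w ∈ P := hw.imp (haZ g w) (haP g w)
    have hV : IsV L w := hw.elim (fun h => ((hZ w).1 h).1) (fun h => ((hP w).1 h).1)
    exact Dg.unique (haV g w hV).toIsW (hD _ hw') (haD g w _ (hD w hw))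
  -- `wf` is fixed
  have hwf : ∀ g : G, a g wf = wf := by
    intro g
    refine h7 _ (haV g wf h3) ?_ ?_
    · intro z hz hz0
      rw [ha]
      exact h6 _ (hE g⁻¹ z hz) (fun h => hz0 ((map_eq_zero _).mp h))
    · rw [haf, h4]
      exact one_ne_zero
  have hwfZ : wf ∈ Z := (hZ wf).2 ⟨h3, by rw [h4]; exact one_pos⟩
  -- a stabilizer of an element not trivial on `E` is cyclic
  have hcyc : ∀ w : F → ℤ, IsV L w → w f ≠ 0 → w ≠ wf → ∀ H : Subgroup G,
      (∀ g ∈ H, a g w = w) → IsCyclic H := by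
    intro w hw hwf0 hne H hH
    have hn : ∃ z ∈ E, w z ≠ 0 := by
      by_contra hcon
      push Not at hcon
      exact hne (h7 w hw (fun z hz _ => hcon z hz) hwf0)
    have hwk : IsW k w :=
      { zero := hw.zero
        mul := hw.mul
        add := hw.add
        alg := by
          intro c hc
          rw [IsScalarTower.algebraMap_apply k L F]
          exact hw.alg _ (fun h => hc ((map_eq_zero _).mp h)) }
    refine cyc_sub E (Ψ.comp H.subtype) (fun g z hz => hE g z hz) ?_ hTD w hwk hn ?_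
    · intro g hg
      exact Subtype.ext (hEf g (fun z hz => hg z hz))
    · intro g z
      have h8 := hH (g : G)⁻¹ (H.inv_mem g.2)
      have h9 : a (g : G)⁻¹ w z = w (Ψ g z) := by
        rw [ha, inv_inv]
      rw [h8] at h9
      exact h9.symm
  -- the two sums
  have hS1 : Nat.card G ∣ Monoid.exponent G * ∑ w ∈ Z.erase wf, (w f).toNat * δ w := by
    refine orbit_sum a (Z.erase wf) ?_ (fun w => (w f).toNat * δ w) ?_ ?_
    · intro g w hw
      rw [Finset.mem_erase] at hw ⊢
      refine ⟨fun h => hw.1 ?_, haZ g w hw.2⟩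
      exact (a g).injective (h.trans (hwf g).symm)
    · intro g w hw
      have hwZ : w ∈ Z := Finset.mem_of_mem_erase hw
      show (a g w f).toNat * δ (a g w) = (w f).toNat * δ w
      rw [haf, haδ g w (Or.inl hwZ)]
    · intro w hw H hH
      rw [Finset.mem_erase, hZ] at hw
      exact hcyc w hw.2.1 hw.2.2.ne' hw.1 H hH
  have hS2 : Nat.card G ∣ Monoid.exponent G * ∑ w ∈ P, (-w f).toNat * δ w := by
    refine orbit_sum a P (fun g w hw => haP g w hw) (fun w => (-w f).toNat * δ w) ?_ ?_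
    · intro g w hw
      show (-a g w f).toNat * δ (a g w) = (-w f).toNat * δ w
      rw [haf, haδ g w (Or.inr hw)]
    · intro w hw H hH
      rw [hP] at hw
      refine hcyc w hw.1 hw.2.ne ?_ H hH
      rintro rfl
      have := hw.2
      rw [h4] at this
      omega
  have hm : δ wf = m := Dg.unique h3.toIsW (hD wf (Or.inl hwfZ)) h5
  rw [← Finset.add_sum_erase Z _ hwfZ, h4, hm] at hsum
  rw [← hsum, mul_add] at hS2
  have h10 := (Nat.dvd_add_left hS1).1 hS2
  simpa using h10

end Pool.Agent.Helper15.RD
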