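import Mathlib

/-!
# Project RD (MP_eecf71_ag): definitions

Towers of algebraic functions of at most `d` parameters over the field of coefficients of the general
polynomial of degree `n`.
-/

set_option autoImplicit false

namespace Pool.Agent.Helper15.RD

open IntermediateField Polynomial

noncomputable section

/-- the field generated over `k` by the coefficients of `∏ (X - x i)` -/
def coeffField (k : Type*) {Ω : Type*} [Field k] [Field Ω] [Algebra k Ω] {n : ℕ} (x : Fin n → Ω) :
    IntermediateField k Ω :=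
  adjoin k (Set.range fun j : ℕ => (∏ i, (X - C (x i))).coeff j)

/-- `B` is generated over `A` by an algebraic function of at most `d` parameters: `B = A E`, where
`E / F` is an extension with `F ⊆ A`, `[E : F] = [B : A]` finite, `F` of transcendence degree at most
`d` over `k`. -/
def Step {k Ω : Type*} [Field k] [Field Ω] [Algebra k Ω] (d : ℕ) (A B : IntermediateField k Ω) :
    Prop :=
  relfinrank A B ≠ 0 ∧ ∃ F E : IntermediateField k Ω, F ≤ A ∧ F ≤ E ∧ A ⊔ E = B ∧
    relfinrank F E = relfinrank A B ∧ Algebra.trdeg k F ≤ d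

/-- the number which divides the accessory degree:
`2 ^ (2 ⌊n / 4⌋ - d) ∏ p ^ (⌊n / p⌋ - d)`, product over the odd primes `p ≤ n`, the exponents are
replaced by `0` if they are negative -/
def acc (n d : ℕ) : ℕ :=
  2 ^ (2 * (n / 4) - d) *
    ∏ p ∈ (Finset.range (n + 1)).filter (fun p => p.Prime ∧ p ≠ 2), p ^ (n / p - d)

/-- the permutations of the `x i` induced by the automorphisms of `Ω` over `A` -/
def Im {k Ω : Type*} [Field k] [Field Ω] [Algebra k Ω] {n : ℕ} (x : Fin n → Ω)
    (A : IntermediateField k Ω) : Subgroup (Equiv.Perm (Fin n)) where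
  carrier := {π | ∃ σ ∈ A.fixingSubgroup, ∀ i, σ (x i) = x (π i)}
  mul_mem' := by
    rintro π π' ⟨σ, hσ, h⟩ ⟨σ', hσ', h'⟩
    refine ⟨σ * σ', mul_mem hσ hσ', fun i => ?_⟩
    rw [AlgEquiv.mul_apply, h', h]
    rfl
  one_mem' := ⟨1, one_mem _, fun i => rfl⟩
  inv_mem' := by
    rintro π ⟨σ, hσ, h⟩
    refine ⟨σ⁻¹, inv_mem hσ, fun i => ?_⟩
    have h1 := h (π⁻¹ i)
    rw [show π (π⁻¹ i) = i from π.apply_symm_apply i] at h1
    rw [← h1, ← AlgEquiv.mul_apply, inv_mul_cancel, AlgEquiv.one_apply]

/-- `∏ p ^ (⌊n / p⌋ - d)`, product over the primes `p ≤ n`, negative exponents are replaced by `0` -/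
def gam (n d : ℕ) : ℕ :=
  ∏ p ∈ (Finset.range (n + 1)).filter Nat.Prime, p ^ (n / p - d)

/-- the table for the octic -/
def oct : ℕ → ℕ
  | 0 => 40320
  | 1 => 48
  | 2 => 4
  | 3 => 2
  | _ => 1

end

end Pool.Agent.Helper15.RD
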