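import Pool.Agent.Helper15.RD.Mb

/-!
# Project RD (B): the final statement
-/

set_option autoImplicit false

namespace Pool.Agent.Helper15.RD

open IntermediateField

universe u v

variable {k : Type v} {Ω : Type u} [Field k] [Field Ω] [Algebra k Ω]

/-- `[L : A0] = card (Im x A0)` for `K ≤ A0 ≤ L`. -/
theorem card_Im_le [IsAlgClosed Ω] [CharZero k] {n : ℕ} (x : Fin n → Ω)
    (hx : AlgebraicIndependent k x) (hΩ : Algebra.IsAlgebraic (adjoin k (Set.range x)) Ω)
    (A0 : IntermediateField k Ω) (hA0 : coeffField k x ≤ A0)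
    (hA0L : A0 ≤ adjoin k (Set.range x)) :
    relfinrank A0 (adjoin k (Set.range x)) = Nat.card (Im x A0) := by
  have h := card_Im x hx.injective hΩ A0 hA0
  rwa [sup_eq_right.2 hA0L] at h

/-- The exact index for an arbitrary subgroup of the symmetric group. -/
theorem index_iff_group [IsAlgClosed k] [IsAlgClosed Ω] [CharZero k] {n : ℕ} (x : Fin n → Ω)
    (hx : AlgebraicIndependent k x) (hΩ : Algebra.IsAlgebraic (adjoin k (Set.range x)) Ω)
    (A0 : IntermediateField k Ω) (hA0 : coeffField k x ≤ A0)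
    (hA0L : A0 ≤ adjoin k (Set.range x)) (m : ℕ) :
    (∀ A : IntermediateField k Ω, A0 ≤ A → relfinrank A0 A ≠ 0 →
      Step 1 A (A ⊔ adjoin k (Set.range x)) → m ∣ relfinrank A0 A) ↔
    m * Monoid.exponent (Im x A0) ∣ Nat.card (Im x A0) := by
  rw [index_iff x hx hΩ A0 hA0 hA0L m, card_Im_le x hx hΩ A0 hA0 hA0L]

/-- `tower_one` with the additional information that no root is in `T i`. -/
theorem tower_one_strong [IsAlgClosed k] [IsAlgClosed Ω] [CharZero k] {n : ℕ} (hn : 5 ≤ n)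
    (x : Fin n → Ω)
    (hx : AlgebraicIndependent k x) (hΩ : Algebra.IsAlgebraic (adjoin k (Set.range x)) Ω)
    (r : ℕ) (T : ℕ → IntermediateField k Ω) (h0 : T 0 = coeffField k x)
    (hT : ∀ i < r, Step 1 (T i) (T (i + 1))) (hr : ∃ i, x i ∈ T r) :
    ∃ i < r, (∀ j, x j ∉ T i) ∧
      n.factorial ∣ (Finset.Icc 1 n).lcm id * relfinrank (T 0) (T i) ∧
      n ∣ relfinrank (T i) (T r) := by
  obtain ⟨i, hi, h0i, hir, hfin, h1, h2⟩ := tower_index hn x hx hΩ 1 r T h0 hT hr
  have hA : coeffField k x ≤ T i := h0 ▸ h0i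
  have hA0 : relfinrank (coeffField k x) (T i) ≠ 0 := h0 ▸ hfin
  obtain ⟨E', hE, hTD, h3, h4⟩ := exists_field hn x hx hΩ 1 (T i) (T (i + 1)) hA (hT i hi) h1 h2
  have h5 := index_dvd x hx hΩ (coeffField k x) (T i) le_rfl (coeffField_le x) hA hA0 E' hE hTD h3 h4
  have h6 : Monoid.exponent (Im x (coeffField k x)) = (Finset.Icc 1 n).lcm id := by
    rw [Im_top x hx hΩ, ← exponent_perm n]
    exact Monoid.exponent_eq_of_mulEquiv Subgroup.topEquiv
  have h7 : relfinrank (coeffField k x) (adjoin k (Set.range x)) = n.factorial := by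
    rw [card_Im_le x hx hΩ _ le_rfl (coeffField_le x), Im_top x hx hΩ,
      Nat.card_congr Subgroup.topEquiv.toEquiv, Nat.card_eq_fintype_card, Fintype.card_perm,
      Fintype.card_fin]
  rw [h6, h7] at h5
  refine ⟨i, hi, fun j hj => Im_stop hn x hx.injective (T i) j hj h1, by rw [h0]; exact h5, ?_⟩
  obtain ⟨j, hj⟩ := hr
  exact n_dvd hn x hx.injective (T i) (T r) hA hir h1 j hj

end Pool.Agent.Helper15.RD
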