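import Pool.Agent.Helper15.RD.Df

/-!
# Project RD, block R: growth of `acc n d`
-/

set_option autoImplicit false

namespace Pool.Agent.Helper15.RD

/-- RD-R1. `m! = ∏ p ^ v_p (m!)` over the primes `p ≤ m` with `v_p (m!) ≤ m / (p - 1)`
(`Nat.factorization_factorial_le` or `sub_one_mul_padicValNat_factorial`), and
`log (m!) ≥ m log m - m`. -/
theorem sum_log_ge (m : ℕ) (hm : 1 ≤ m) :
    Real.log m - 1 ≤ ∑ p ∈ (Finset.range (m + 1)).filter Nat.Prime, Real.log p / (p - 1) := by
  have hm0 : (0 : ℝ) < m := by exact_mod_cast hm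
  -- lower bound for the factorial
  have h1 : m * Real.log m - m ≤ Real.log (m.factorial : ℝ) := by
    have h2 := Real.pow_div_factorial_le_exp (m : ℝ) hm0.le m
    have hf : (0 : ℝ) < m.factorial := by exact_mod_cast m.factorial_pos
    have h3 := Real.log_le_log (by positivity) h2
    rw [Real.log_exp, Real.log_div (by positivity) hf.ne', Real.log_pow] at h3
    linarith
  -- upper bound for the factorial
  have h2 : Real.log (m.factorial : ℝ) ≤
      ∑ p ∈ (Finset.range (m + 1)).filter Nat.Prime, m * (Real.log p / (p - 1)) := by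
    rw [Real.log_nat_eq_sum_factorization, Finsupp.sum]
    have hsub : m.factorial.factorization.support ⊆ (Finset.range (m + 1)).filter Nat.Prime := by
      intro p hp
      rw [Nat.support_factorization, Nat.mem_primeFactors] at hp
      rw [Finset.mem_filter, Finset.mem_range]
      exact ⟨Nat.lt_succ_of_le ((hp.1.dvd_factorial).1 hp.2.1), hp.1⟩
    refine le_trans (Finset.sum_le_sum_of_subset_of_nonneg hsub ?_) (Finset.sum_le_sum ?_)
    · intro p hp _
      rw [Finset.mem_filter] at hp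
      have : (1 : ℝ) ≤ p := by exact_mod_cast hp.2.one_lt.le
      exact mul_nonneg (Nat.cast_nonneg _) (Real.log_nonneg this)
    · intro p hp
      rw [Finset.mem_filter] at hp
      have hp1 : (1 : ℝ) < p := by exact_mod_cast hp.2.one_lt
      have hpf : Fact p.Prime := ⟨hp.2⟩
      have h3 := sub_one_mul_padicValNat_factorial (p := p) m
      have h4 : (p - 1) * m.factorial.factorization p ≤ m := by
        rw [Nat.factorization_def _ hp.2, h3]
        exact Nat.sub_le _ _
      have h5 : ((p : ℝ) - 1) * (m.factorial.factorization p : ℝ) ≤ m := by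
        have : (((p - 1) * m.factorial.factorization p : ℕ) : ℝ) ≤ m := by exact_mod_cast h4
        rwa [Nat.cast_mul, Nat.cast_sub hp.2.one_lt.le, Nat.cast_one] at this
      have h6 : (m.factorial.factorization p : ℝ) ≤ m / ((p : ℝ) - 1) := by
        rw [le_div_iff₀ (by linarith)]
        linarith
      calc (m.factorial.factorization p : ℝ) * Real.log p ≤
          m / ((p : ℝ) - 1) * Real.log p :=
            mul_le_mul_of_nonneg_right h6 (Real.log_nonneg hp1.le)
        _ = m * (Real.log p / (p - 1)) := by ring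
  rw [← Finset.mul_sum] at h2
  have h3 : m * (Real.log m - 1) ≤
      m * ∑ p ∈ (Finset.range (m + 1)).filter Nat.Prime, Real.log p / (p - 1) := by
    linarith
  exact le_of_mul_le_mul_left h3 hm0

/-- RD-R1. `log p / (p - 1) = log p / p + log p / (p (p - 1))` and `∑ log k / (k (k - 1))` converges
(`log k ≤ 2 √k`, `k - 1 ≥ k / 2`: the terms are at most `4 k ^ (- 3 / 2)`). -/
theorem sum_log_div : ∃ C : ℝ, ∀ m : ℕ,
    ∑ p ∈ (Finset.range (m + 1)).filter Nat.Prime, Real.log p / (p - 1) ≤
      ∑ p ∈ (Finset.range (m + 1)).filter (fun p => p.Prime ∧ p ≠ 2), Real.log p / p + C := by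
  have hs : Summable fun k : ℕ => 4 * (1 / (k : ℝ) ^ (3 / 2 : ℝ)) :=
    (Real.summable_one_div_nat_rpow.2 (by norm_num)).mul_left 4
  refine ⟨Real.log 2 + ∑' k : ℕ, 4 * (1 / (k : ℝ) ^ (3 / 2 : ℝ)), fun m => ?_⟩
  have h1 : ∑ p ∈ (Finset.range (m + 1)).filter Nat.Prime, Real.log p / ((p : ℝ) - 1) ≤
      Real.log 2 + ∑ p ∈ (Finset.range (m + 1)).filter (fun p => p.Prime ∧ p ≠ 2),
        Real.log p / ((p : ℝ) - 1) := by
    have hsub : (Finset.range (m + 1)).filter Nat.Prime ⊆
        insert 2 ((Finset.range (m + 1)).filter (fun p => p.Prime ∧ p ≠ 2)) := by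
      intro p hp
      rw [Finset.mem_filter] at hp
      rw [Finset.mem_insert, Finset.mem_filter]
      by_cases h : p = 2
      · exact Or.inl h
      · exact Or.inr ⟨hp.1, hp.2, h⟩
    refine (Finset.sum_le_sum_of_subset_of_nonneg hsub ?_).trans ?_
    · intro p hp _
      rw [Finset.mem_insert, Finset.mem_filter] at hp
      have hp1 : (1 : ℝ) < p := by
        rcases hp with rfl | hp
        · norm_num
        · exact_mod_cast hp.2.1.one_lt
      exact div_nonneg (Real.log_nonneg hp1.le) (by linarith)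
    · rw [Finset.sum_insert (by simp)]
      refine add_le_add_left (le_of_eq ?_) _
      norm_num
  have h2 : ∑ p ∈ (Finset.range (m + 1)).filter (fun p => p.Prime ∧ p ≠ 2),
        Real.log p / ((p : ℝ) - 1) ≤
      ∑ p ∈ (Finset.range (m + 1)).filter (fun p => p.Prime ∧ p ≠ 2),
        (Real.log p / p + 4 * (1 / (p : ℝ) ^ (3 / 2 : ℝ))) := by
    refine Finset.sum_le_sum fun p hp => ?_
    rw [Finset.mem_filter] at hp
    have hp2 : (2 : ℝ) ≤ p := by exact_mod_cast hp.2.1.two_le
    have hp0 : (0 : ℝ) < p := by linarith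
    have h3 : Real.log p ≤ (p : ℝ) ^ (1 / 2 : ℝ) / (1 / 2) :=
      Real.log_le_rpow_div hp0.le (by norm_num)
    have h4 : Real.log p / ((p : ℝ) - 1) = Real.log p / p + Real.log p / (p * (p - 1)) := by
      have : (p : ℝ) - 1 ≠ 0 := by linarith
      field_simp
      ring
    rw [h4]
    refine add_le_add_right ?_ _
    have h5 : (p : ℝ) ^ (3 / 2 : ℝ) * (p : ℝ) ^ (1 / 2 : ℝ) = p * p := by
      rw [← Real.rpow_add hp0]
      norm_num
      ring
    have h6 : 0 < (p : ℝ) ^ (3 / 2 : ℝ) := by positivity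
    have h7 : 0 < (p : ℝ) ^ (1 / 2 : ℝ) := by positivity
    rw [div_le_iff₀ (by nlinarith), mul_one_div, div_mul_eq_mul_div, le_div_iff₀ h6]
    have h8 : Real.log p * (p : ℝ) ^ (3 / 2 : ℝ) ≤ 2 * (p * p) := by
      calc Real.log p * (p : ℝ) ^ (3 / 2 : ℝ)
          ≤ ((p : ℝ) ^ (1 / 2 : ℝ) / (1 / 2)) * (p : ℝ) ^ (3 / 2 : ℝ) :=
            mul_le_mul_of_nonneg_right h3 h6.le
        _ = 2 * ((p : ℝ) ^ (3 / 2 : ℝ) * (p : ℝ) ^ (1 / 2 : ℝ)) := by ring
        _ = 2 * (p * p) := by rw [h5]
    nlinarith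
  have h3 : ∑ p ∈ (Finset.range (m + 1)).filter (fun p => p.Prime ∧ p ≠ 2),
      4 * (1 / (p : ℝ) ^ (3 / 2 : ℝ)) ≤ ∑' k : ℕ, 4 * (1 / (k : ℝ) ^ (3 / 2 : ℝ)) :=
    hs.sum_le_tsum _ fun _ _ => by positivity
  rw [Finset.sum_add_distrib] at h2
  linarith

/-- `acc n d` is positive -/
private theorem growth_acc_pos (n d : ℕ) : 0 < acc n d := by
  unfold acc
  refine Nat.mul_pos (by positivity) (Finset.prod_pos fun p hp => ?_)
  exact pow_pos (Finset.mem_filter.1 hp).2.1.pos _

/-- lower bound for `log (acc n d)` by the primes at most `m`, if `m d ≤ n` -/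
private theorem growth_log_ge (n d m : ℕ) (hd : 1 ≤ d) (hm : m * d ≤ n) :
    ∑ p ∈ (Finset.range (m + 1)).filter (fun p => p.Prime ∧ p ≠ 2),
      ((n : ℝ) / p - (d + 1)) * Real.log p ≤ Real.log (acc n d) := by
  have hmn : m ≤ n := le_trans (Nat.le_mul_of_pos_right m hd) hm
  have hsub : (Finset.range (m + 1)).filter (fun p => p.Prime ∧ p ≠ 2) ⊆
      (Finset.range (n + 1)).filter (fun p => p.Prime ∧ p ≠ 2) := by
    refine Finset.filter_subset_filter _ (Finset.range_subset_range.2 (by omega))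
  have h1 : (∏ p ∈ (Finset.range (n + 1)).filter (fun p => p.Prime ∧ p ≠ 2),
      p ^ (n / p - d)) ≤ acc n d := by
    unfold acc
    exact Nat.le_mul_of_pos_left _ (by positivity)
  have h2 : (0 : ℝ) < ((∏ p ∈ (Finset.range (n + 1)).filter (fun p => p.Prime ∧ p ≠ 2),
      p ^ (n / p - d) : ℕ) : ℝ) := by
    rw [Nat.cast_pos]
    exact Finset.prod_pos fun p hp => pow_pos (Finset.mem_filter.1 hp).2.1.pos _
  have h3 : Real.log ((∏ p ∈ (Finset.range (n + 1)).filter (fun p => p.Prime ∧ p ≠ 2),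
      p ^ (n / p - d) : ℕ) : ℝ) ≤ Real.log (acc n d) :=
    Real.log_le_log h2 (by exact_mod_cast h1)
  refine le_trans ?_ h3
  rw [Nat.cast_prod, Real.log_prod]
  · have h4 : ∑ p ∈ (Finset.range (m + 1)).filter (fun p => p.Prime ∧ p ≠ 2),
        Real.log (((p ^ (n / p - d) : ℕ) : ℝ)) ≤
        ∑ p ∈ (Finset.range (n + 1)).filter (fun p => p.Prime ∧ p ≠ 2),
          Real.log (((p ^ (n / p - d) : ℕ) : ℝ)) := by
      refine Finset.sum_le_sum_of_subset_of_nonneg hsub fun p hp _ => ?_
      exact Real.log_natCast_nonneg _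
    refine le_trans (Finset.sum_le_sum fun p hp => ?_) h4
    obtain ⟨hp1, hp2, -⟩ := Finset.mem_filter.1 hp
    have hp3 : p ≤ m := by
      have := Finset.mem_range.1 hp1
      omega
    have hdp : d ≤ n / p := by
      rw [Nat.le_div_iff_mul_le hp2.pos]
      calc d * p ≤ d * m := Nat.mul_le_mul_left _ hp3
        _ = m * d := Nat.mul_comm _ _
        _ ≤ n := hm
    rw [Nat.cast_pow, Real.log_pow, Nat.cast_sub hdp]
    refine mul_le_mul_of_nonneg_right ?_ (Real.log_natCast_nonneg _)
    have h5 : (n : ℝ) / p < ((n / p : ℕ) : ℝ) + 1 := by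
      rw [div_lt_iff₀ (by exact_mod_cast hp2.pos)]
      have h6 := Nat.lt_div_mul_add (a := n) hp2.pos
      have h7 : (n : ℝ) < ((n / p * p + p : ℕ) : ℝ) := by exact_mod_cast h6
      push_cast at h7
      nlinarith
    linarith
  · intro p hp
    have := (Finset.mem_filter.1 hp).2.1.pos
    positivity

/-- the sum of `log p` over the primes at most `m` is at most `m log 4` -/
private theorem growth_theta (m : ℕ) :
    ∑ p ∈ (Finset.range (m + 1)).filter (fun p => p.Prime ∧ p ≠ 2), Real.log p ≤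
      m * Real.log 4 := by
  have h1 : ∑ p ∈ (Finset.range (m + 1)).filter (fun p => p.Prime ∧ p ≠ 2), Real.log p ≤
      ∑ p ∈ (Finset.range (m + 1)).filter Nat.Prime, Real.log p := by
    refine Finset.sum_le_sum_of_subset_of_nonneg ?_ fun p _ _ => Real.log_natCast_nonneg _
    intro p hp
    rw [Finset.mem_filter] at hp ⊢
    exact ⟨hp.1, hp.2.1⟩
  refine le_trans h1 ?_
  have h2 : ∑ p ∈ (Finset.range (m + 1)).filter Nat.Prime, Real.log p =
      Real.log (primorial m) := by
    unfold primorial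
    rw [Nat.cast_prod, Real.log_prod]
    intro p hp
    have := (Finset.mem_filter.1 hp).2.pos
    positivity
  rw [h2]
  have h3 : (primorial m : ℝ) ≤ (4 : ℝ) ^ m := by exact_mod_cast primorial_le_four_pow m
  have h4 := Real.log_le_log (by exact_mod_cast primorial_pos m) h3
  rwa [Real.log_pow] at h4

/-- RD-R2 (uses `sum_log_ge`, `sum_log_div`). `C ≥ 1` large. If `n ≤ C d` the left side is at most `1`.
Otherwise `m = n / d ≥ 1` (floor), `n / d < m + 1 ≤ 2 m`. For odd primes `p ≤ m` we have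
`⌊n / p⌋ ≥ d`, so `log (acc n d) ≥ ∑_{p ≤ m, p ≠ 2} (⌊n / p⌋ - d) log p ≥
n ∑ log p / p - (d + 1) ∑_{p ≤ m} log p`; `∑_{p ≤ m} log p ≤ m log 4 ≤ (n / d) log 4`
(`primorial_le_four_pow`), `(d + 1) / d ≤ 2`; `∑_{p ≤ m, p ≠ 2} log p / p ≥ log m - 1 - C1`,
`log m ≥ log (n / d) - log 2`. -/
theorem growth : ∃ C : ℝ, 0 < C ∧ ∀ n d : ℕ, 1 ≤ d → ((n : ℝ) / (C * d)) ^ n ≤ acc n d := by

  obtain ⟨C1, hC1⟩ := sum_log_div
  refine ⟨Real.exp (Real.log 2 + 1 + |C1| + 2 * Real.log 4), Real.exp_pos _, fun n d hd => ?_⟩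
  set D : ℝ := Real.log 2 + 1 + |C1| + 2 * Real.log 4 with hD
  have hl2 : 0 ≤ Real.log 2 := Real.log_nonneg (by norm_num)
  have hl4 : 0 ≤ Real.log 4 := Real.log_nonneg (by norm_num)
  have hD0 : 0 ≤ D := by positivity
  have hC : 1 ≤ Real.exp D := Real.one_le_exp hD0
  have hd0 : (1 : ℝ) ≤ d := by exact_mod_cast hd
  have hacc : (1 : ℝ) ≤ acc n d := by exact_mod_cast growth_acc_pos n d
  have hCd : 0 < Real.exp D * d := by positivity
  rcases le_or_gt (n : ℝ) (Real.exp D * d) with h | h
  · refine le_trans (pow_le_one₀ (by positivity) ?_) hacc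
    rw [div_le_one hCd]
    exact h
  · have hnd : (d : ℝ) < n := lt_of_le_of_lt (by nlinarith) h
    have hn0 : (0 : ℝ) < n := by linarith
    have hdn : d ≤ n := by
      have : d < n := by exact_mod_cast hnd
      exact this.le
    set m := n / d with hm
    have hm1 : 1 ≤ m := (Nat.one_le_div_iff hd).2 hdn
    have hmd : m * d ≤ n := Nat.div_mul_le_self n d
    have hmdR : (m : ℝ) * d ≤ n := by exact_mod_cast hmd
    have hm1R : (1 : ℝ) ≤ m := by exact_mod_cast hm1
    have h1 := growth_log_ge n d m hd hmd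
    have h2 := growth_theta m
    have h3 := sum_log_ge m hm1
    have h4 := hC1 m
    have h5 : ∑ p ∈ (Finset.range (m + 1)).filter (fun p => p.Prime ∧ p ≠ 2),
        ((n : ℝ) / p - (d + 1)) * Real.log p =
        n * ∑ p ∈ (Finset.range (m + 1)).filter (fun p => p.Prime ∧ p ≠ 2), Real.log p / p -
        (d + 1) * ∑ p ∈ (Finset.range (m + 1)).filter (fun p => p.Prime ∧ p ≠ 2),
          Real.log p := by
      rw [Finset.mul_sum, Finset.mul_sum, ← Finset.sum_sub_distrib]
      refine Finset.sum_congr rfl fun p _ => ?_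
      ring
    rw [h5] at h1
    have h6 : (n : ℝ) / d ≤ 2 * m := by
      rw [div_le_iff₀ (by linarith)]
      have h7 := Nat.lt_div_mul_add (a := n) hd
      rw [← hm] at h7
      have h8 : (n : ℝ) < m * d + d := by exact_mod_cast h7
      nlinarith
    have h7 : Real.log ((n : ℝ) / d) ≤ Real.log 2 + Real.log m := by
      rw [← Real.log_mul (by norm_num) (by linarith)]
      exact Real.log_le_log (by positivity) h6
    have h8 : Real.log ((n : ℝ) / (Real.exp D * d)) = Real.log ((n : ℝ) / d) - D := by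
      rw [mul_comm, ← div_div, Real.log_div (by positivity) (Real.exp_pos _).ne', Real.log_exp]
    have h9 : (n : ℝ) * Real.log ((n : ℝ) / (Real.exp D * d)) ≤ Real.log (acc n d) := by
      rw [h8]
      refine le_trans ?_ h1
      have h10 : Real.log m - 1 - |C1| ≤
          ∑ p ∈ (Finset.range (m + 1)).filter (fun p => p.Prime ∧ p ≠ 2), Real.log p / p := by
        have := le_abs_self C1
        linarith
      have h11 := mul_le_mul_of_nonneg_left h10 hn0.le
      have h12 : ((d : ℝ) + 1) * ∑ p ∈ (Finset.range (m + 1)).filter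
          (fun p => p.Prime ∧ p ≠ 2), Real.log p ≤ 2 * n * Real.log 4 := by
        calc ((d : ℝ) + 1) * ∑ p ∈ (Finset.range (m + 1)).filter
              (fun p => p.Prime ∧ p ≠ 2), Real.log p
            ≤ ((d : ℝ) + 1) * (m * Real.log 4) := mul_le_mul_of_nonneg_left h2 (by positivity)
          _ ≤ (2 * d) * (m * Real.log 4) :=
              mul_le_mul_of_nonneg_right (by linarith) (by positivity)
          _ = 2 * (m * d) * Real.log 4 := by ring
          _ ≤ 2 * n * Real.log 4 := by
              refine mul_le_mul_of_nonneg_right ?_ hl4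
              linarith
      have h13 : (n : ℝ) * (Real.log ((n : ℝ) / d) - D) ≤
          n * (Real.log m - 1 - |C1|) - 2 * n * Real.log 4 := by
        have h14 : (n : ℝ) * (Real.log ((n : ℝ) / d)) ≤ n * (Real.log 2 + Real.log m) :=
          mul_le_mul_of_nonneg_left h7 hn0.le
        rw [hD]
        nlinarith
      linarith
    have h15 : 0 < (n : ℝ) / (Real.exp D * d) := by positivity
    calc ((n : ℝ) / (Real.exp D * d)) ^ n
        = Real.exp (n * Real.log ((n : ℝ) / (Real.exp D * d))) := by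
          rw [← Real.log_pow, Real.exp_log (by positivity)]
      _ ≤ Real.exp (Real.log (acc n d)) := Real.exp_le_exp.2 h9
      _ = acc n d := Real.exp_log (by linarith)

end Pool.Agent.Helper15.RD
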