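import Pool.Agent.Helper15.RD.Ga
import Pool.Agent.Helper15.RD.Gr

/-!
# Project RD: the main theorem
-/

set_option autoImplicit false

namespace Pool.Agent.Helper15.RD

open IntermediateField

universe u v

variable {k : Type v} {Ω : Type u} [Field k] [Field Ω] [Algebra k Ω]

/-- RD-M1 (uses `Im_top`, `Im_stop`). The least `i` for which `Im x (T (i + 1))` does not contain `A_n`. -/
theorem tower_index [IsAlgClosed Ω] {n : ℕ} (hn : 5 ≤ n) (x : Fin n → Ω)
    (hx : AlgebraicIndependent k x) (hΩ : Algebra.IsAlgebraic (adjoin k (Set.range x)) Ω)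
    (d r : ℕ) (T : ℕ → IntermediateField k Ω) (h0 : T 0 = coeffField k x)
    (hT : ∀ i < r, Step d (T i) (T (i + 1))) (hr : ∃ i, x i ∈ T r) :
    ∃ i < r, T 0 ≤ T i ∧ T i ≤ T r ∧ relfinrank (T 0) (T i) ≠ 0 ∧
      alternatingGroup (Fin n) ≤ Im x (T i) ∧ ¬ alternatingGroup (Fin n) ≤ Im x (T (i + 1)) := by
  classical
  have hmono : ∀ i < r, T i ≤ T (i + 1) := by
    intro i hi
    obtain ⟨-, F, E, -, -, h, -⟩ := hT i hi
    exact le_sup_left.trans h.le
  have hmono' : ∀ j, j ≤ r → ∀ i ≤ j, T i ≤ T j := by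
    intro j
    induction j with
    | zero =>
      intro _ i hi
      rw [Nat.le_zero.1 hi]
    | succ j ih =>
      intro hj i hi
      rcases Nat.lt_or_ge j i with h | h
      · rw [show i = j + 1 by omega]
      · exact (ih (by omega) i h).trans (hmono j (by omega))
  have hfin : ∀ j, j ≤ r → relfinrank (T 0) (T j) ≠ 0 := by
    intro j
    induction j with
    | zero =>
      intro _
      rw [relfinrank_self]
      exact one_ne_zero
    | succ j ih =>
      intro hj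
      rw [← relfinrank_mul_relfinrank (hmono' j (by omega) 0 (Nat.zero_le _)) (hmono j (by omega))]
      exact mul_ne_zero (ih (by omega)) (hT j (by omega)).1
  obtain ⟨i0, hi0⟩ := hr
  have hP0 : alternatingGroup (Fin n) ≤ Im x (T 0) := by
    rw [h0, Im_top x hx hΩ]
    exact le_top
  have hPr : ∃ m, ¬ alternatingGroup (Fin n) ≤ Im x (T m) :=
    ⟨r, Im_stop hn x hx.injective (T r) i0 hi0⟩
  have hm := Nat.find_spec hPr
  have hmr : Nat.find hPr ≤ r := Nat.find_min' hPr (Im_stop hn x hx.injective (T r) i0 hi0)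
  have hm0 : Nat.find hPr ≠ 0 := by
    intro h
    rw [h] at hm
    exact hm hP0
  obtain ⟨i, hi⟩ := Nat.exists_eq_succ_of_ne_zero hm0
  rw [Nat.succ_eq_add_one] at hi
  have h1 : alternatingGroup (Fin n) ≤ Im x (T i) := by
    by_contra h
    exact Nat.find_min hPr (by omega : i < Nat.find hPr) h
  rw [hi] at hm
  exact ⟨i, by omega, hmono' i (by omega) 0 (Nat.zero_le _), hmono' r le_rfl i (by omega),
    hfin i (by omega), h1, hm⟩

/-- RD-M1. The prime powers are coprime. -/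
theorem acc_dvd_of (n d D : ℕ) (hD : D ≠ 0) (h2 : 2 * (n / 4) ≤ d + padicValNat 2 D)
    (hp : ∀ p : ℕ, p.Prime → p ≠ 2 → n / p ≤ d + padicValNat p D) : acc n d ∣ D := by
  unfold acc
  have h3 : ∀ p ∈ (Finset.range (n + 1)).filter (fun p => p.Prime ∧ p ≠ 2),
      p ^ (n / p - d) ∣ D := by
    intro p hp'
    rw [Finset.mem_filter] at hp'
    have : Fact p.Prime := ⟨hp'.2.1⟩
    rw [padicValNat_dvd_iff_le hD]
    have := hp p hp'.2.1 hp'.2.2
    omega
  have h4 : 2 ^ (2 * (n / 4) - d) ∣ D := by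
    rw [padicValNat_dvd_iff_le hD]
    omega
  have h5 : ∏ p ∈ (Finset.range (n + 1)).filter (fun p => p.Prime ∧ p ≠ 2), p ^ (n / p - d) ∣ D := by
    refine Finset.prod_dvd_of_isRelPrime ?_ h3
    intro p hp1 q hq1 hpq
    rw [Finset.mem_coe, Finset.mem_filter] at hp1 hq1
    exact (Nat.coprime_iff_isRelPrime).1 (Nat.coprime_pow_primes _ _ hp1.2.1 hq1.2.1 hpq)
  refine Nat.Coprime.mul_dvd_of_dvd_of_dvd ?_ h4 h5
  refine Nat.Coprime.prod_right fun p hp1 => ?_
  rw [Finset.mem_filter] at hp1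
  exact Nat.coprime_pow_primes _ _ Nat.prime_two hp1.2.1 (Ne.symm hp1.2.2)

/-- RD-M2 (uses everything). `i` from `tower_index`; `n ∣ relfinrank (T i) (T r)` by `n_dvd`; for a prime
`p ≠ 2`: `bound` with `s = n / p`, `c = 1` (`exists_blocks`, `tr_odd`), for `p = 2`: `s = n / 4`, `c = 2`
(`tr_two`); `acc_dvd`, `acc_dvd_of`. -/
theorem main [IsAlgClosed k] [CharZero k] [IsAlgClosed Ω] {n : ℕ} (hn : 5 ≤ n) (x : Fin n → Ω)
    (hx : AlgebraicIndependent k x) (hΩ : Algebra.IsAlgebraic (adjoin k (Set.range x)) Ω)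
    (d r : ℕ) (T : ℕ → IntermediateField k Ω) (h0 : T 0 = coeffField k x)
    (hT : ∀ i < r, Step d (T i) (T (i + 1))) (hr : ∃ i, x i ∈ T r) :
    ∃ i < r, acc n d ∣ relfinrank (T 0) (T i) ∧ n ∣ relfinrank (T i) (T r) := by
  obtain ⟨i, hi, h0i, hir, hfin, h1, h2⟩ := tower_index hn x hx hΩ d r T h0 hT hr
  have hA : coeffField k x ≤ T i := h0 ▸ h0i
  have hA0 : relfinrank (coeffField k x) (T i) ≠ 0 := h0 ▸ hfin
  have hst := hT i hi
  refine ⟨i, hi, ?_, ?_⟩
  · obtain ⟨hD0, hDd⟩ := acc_dvd x hx hΩ (T i) hA hA0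
    rw [h0]
    refine (acc_dvd_of n d _ hD0 ?_ ?_).trans hDd
    · obtain ⟨β⟩ := exists_blocks 2 (n / 4) 2 n (by omega)
      have h3 := bound hn x hx hΩ d (T i) (T (i + 1)) hA hA0 hst h1 h2 2 (n / 4) 2 _ β
        (tr_two β)
      omega
    · intro p hp hp2
      have hF : Fact p.Prime := ⟨hp⟩
      have hle : n / p * p ^ 1 ≤ n := by
        rw [pow_one]
        exact Nat.div_mul_le_self n p
      obtain ⟨β⟩ := exists_blocks p (n / p) 1 n hle
      have h3 := bound hn x hx hΩ d (T i) (T (i + 1)) hA hA0 hst h1 h2 p (n / p) 1 _ β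
        (tr_odd β hp2)
      rw [mul_one] at h3
      exact h3
  · obtain ⟨j, hj⟩ := hr
    exact n_dvd hn x hx.injective (T i) (T r) hA hir h1 j hj

/-- RD-M2 (uses everything), with the additional information that no root is in `T i`. `i` from `tower_index`; `n ∣ relfinrank (T i) (T r)` by `n_dvd`; for a prime
`p ≠ 2`: `bound` with `s = n / p`, `c = 1` (`exists_blocks`, `tr_odd`), for `p = 2`: `s = n / 4`, `c = 2`
(`tr_two`); `acc_dvd`, `acc_dvd_of`. -/
theorem main_strong [IsAlgClosed k] [CharZero k] [IsAlgClosed Ω] {n : ℕ} (hn : 5 ≤ n) (x : Fin n → Ω)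
    (hx : AlgebraicIndependent k x) (hΩ : Algebra.IsAlgebraic (adjoin k (Set.range x)) Ω)
    (d r : ℕ) (T : ℕ → IntermediateField k Ω) (h0 : T 0 = coeffField k x)
    (hT : ∀ i < r, Step d (T i) (T (i + 1))) (hr : ∃ i, x i ∈ T r) :
    ∃ i < r, (∀ j, x j ∉ T i) ∧ acc n d ∣ relfinrank (T 0) (T i) ∧
      n ∣ relfinrank (T i) (T r) := by
  obtain ⟨i, hi, h0i, hir, hfin, h1, h2⟩ := tower_index hn x hx hΩ d r T h0 hT hr
  have hA : coeffField k x ≤ T i := h0 ▸ h0i
  have hA0 : relfinrank (coeffField k x) (T i) ≠ 0 := h0 ▸ hfin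
  have hst := hT i hi
  refine ⟨i, hi, fun j hj => Im_stop hn x hx.injective (T i) j hj h1, ?_, ?_⟩
  · obtain ⟨hD0, hDd⟩ := acc_dvd x hx hΩ (T i) hA hA0
    rw [h0]
    refine (acc_dvd_of n d _ hD0 ?_ ?_).trans hDd
    · obtain ⟨β⟩ := exists_blocks 2 (n / 4) 2 n (by omega)
      have h3 := bound hn x hx hΩ d (T i) (T (i + 1)) hA hA0 hst h1 h2 2 (n / 4) 2 _ β
        (tr_two β)
      omega
    · intro p hp hp2
      have hF : Fact p.Prime := ⟨hp⟩
      have hle : n / p * p ^ 1 ≤ n := by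
        rw [pow_one]
        exact Nat.div_mul_le_self n p
      obtain ⟨β⟩ := exists_blocks p (n / p) 1 n hle
      have h3 := bound hn x hx hΩ d (T i) (T (i + 1)) hA hA0 hst h1 h2 p (n / p) 1 _ β
        (tr_odd β hp2)
      rw [mul_one] at h3
      exact h3
  · obtain ⟨j, hj⟩ := hr
    exact n_dvd hn x hx.injective (T i) (T r) hA hir h1 j hj

end Pool.Agent.Helper15.RD
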