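import Pool.Agent.Helper15.RD.Sb
import Pool.Agent.Helper15.RD.Mn

/-!
# Project RD: the bound with `gam` for stable subfields and for towers
-/

set_option autoImplicit false

namespace Pool.Agent.Helper15.RD

open IntermediateField

universe u v

variable {k : Type v} {Ω : Type u} [Field k] [Field Ω] [Algebra k Ω]

/-- `[A : K] = (index of the Galois group of A L / A) [A L : L]`. -/
theorem index_formula [IsAlgClosed Ω] [CharZero k] {n : ℕ} (x : Fin n → Ω)
    (hx : AlgebraicIndependent k x) (hΩ : Algebra.IsAlgebraic (adjoin k (Set.range x)) Ω)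
    (A : IntermediateField k Ω) (hA : coeffField k x ≤ A) :
    relfinrank (coeffField k x) A = (Im x A).index *
      relfinrank (adjoin k (Set.range x)) (A ⊔ adjoin k (Set.range x)) := by
  have h1 : relfinrank (coeffField k x) A * relfinrank A (A ⊔ adjoin k (Set.range x)) =
      relfinrank (coeffField k x) (A ⊔ adjoin k (Set.range x)) :=
    relfinrank_mul_relfinrank hA le_sup_left
  have h2 : relfinrank (coeffField k x) (adjoin k (Set.range x)) *
      relfinrank (adjoin k (Set.range x)) (A ⊔ adjoin k (Set.range x)) =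
      relfinrank (coeffField k x) (A ⊔ adjoin k (Set.range x)) :=
    relfinrank_mul_relfinrank (coeffField_le x) le_sup_right
  have h3 := card_Im x hx.injective hΩ A hA
  have h4 := card_Im x hx.injective hΩ (coeffField k x) le_rfl
  rw [sup_eq_right.2 (coeffField_le x), Im_top x hx hΩ, Subgroup.card_top] at h4
  have h5 : Nat.card (Im x A) * (Im x A).index = Nat.card (Equiv.Perm (Fin n)) :=
    Subgroup.card_mul_index _
  have h6 : Nat.card (Im x A) ≠ 0 := Nat.card_pos.ne'
  have h7 : Nat.card (Im x A) * relfinrank (coeffField k x) A =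
      Nat.card (Im x A) * ((Im x A).index *
        relfinrank (adjoin k (Set.range x)) (A ⊔ adjoin k (Set.range x))) := by
    rw [← mul_assoc, h5, ← h4, h2, ← h1, h3, mul_comm]
  exact Nat.eq_of_mul_eq_mul_left (Nat.pos_of_ne_zero h6) h7

theorem bound_field [IsAlgClosed k] [IsAlgClosed Ω] [CharZero k] {n : ℕ} (x : Fin n → Ω)
    (hx : AlgebraicIndependent k x) (hΩ : Algebra.IsAlgebraic (adjoin k (Set.range x)) Ω)
    (A : IntermediateField k Ω) (hA : coeffField k x ≤ A)
    (hA0 : relfinrank (coeffField k x) A ≠ 0) (d : ℕ) (E' : IntermediateField k Ω)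
    (hE : E' ≤ A ⊔ adjoin k (Set.range x)) (hTD : TD k (E' : Set Ω) d)
    (hst : ∀ σ ∈ A.fixingSubgroup, ∀ z ∈ E', σ z ∈ E')
    (hf : ∀ σ ∈ A.fixingSubgroup, (∀ z ∈ E', σ z = z) → ∀ i, σ (x i) = x i)
    (p s c m : ℕ) [Fact p.Prime] (β : (Fin s × (Fin c → ZMod p)) ⊕ Fin m ≃ Fin n) :
    s * c ≤ d + padicValNat p (relfinrank (coeffField k x) A) := by
  obtain ⟨g, U, hU, hle⟩ := orbit_rank (Im x A) p s c m β
  obtain ⟨hK, hR, hIm⟩ := relabel (k := k) x g
  have hxg : AlgebraicIndependent k (x ∘ g) := hx.comp g g.injective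
  have h1 := bound_sub (x ∘ g) hxg (by rw [hR]; exact hΩ) A (by rw [hK]; exact hA)
    (by rw [hK]; exact hA0) d E' (by rw [hR]; exact hE) hTD hst
    (fun σ hσ hz i => hf σ hσ hz (g i)) p s c m β U (fun v hv => (hIm A _).2 (hU v hv))
  rw [hR] at h1
  have h2 := index_formula x hx hΩ A hA
  have h3 : (Im x A).index ≠ 0 := Subgroup.index_ne_zero_of_finite
  have h4 : relfinrank (adjoin k (Set.range x)) (A ⊔ adjoin k (Set.range x)) ≠ 0 := by
    intro h0
    rw [h0, mul_zero] at h2
    exact hA0 h2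
  rw [h2, padicValNat.mul h3 h4]
  omega

/-- The bound for a stable faithful subfield of transcendence degree at most `d`. -/
theorem gam_dvd_field [IsAlgClosed k] [IsAlgClosed Ω] [CharZero k] {n : ℕ} (x : Fin n → Ω)
    (hx : AlgebraicIndependent k x) (hΩ : Algebra.IsAlgebraic (adjoin k (Set.range x)) Ω)
    (A : IntermediateField k Ω) (hA : coeffField k x ≤ A)
    (hA0 : relfinrank (coeffField k x) A ≠ 0) (d : ℕ) (E' : IntermediateField k Ω)
    (hE : E' ≤ A ⊔ adjoin k (Set.range x)) (hTD : TD k (E' : Set Ω) d)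
    (hst : ∀ σ ∈ A.fixingSubgroup, ∀ z ∈ E', σ z ∈ E')
    (hf : ∀ σ ∈ A.fixingSubgroup, (∀ z ∈ E', σ z = z) → ∀ i, σ (x i) = x i) :
    gam n d ∣ relfinrank (coeffField k x) A := by
  unfold gam
  refine Finset.prod_dvd_of_isRelPrime ?_ ?_
  · intro p hp q hq hpq
    rw [Finset.mem_coe, Finset.mem_filter] at hp hq
    exact (Nat.coprime_iff_isRelPrime).1 (Nat.coprime_pow_primes _ _ hp.2 hq.2 hpq)
  · intro p hp
    rw [Finset.mem_filter] at hp
    have hF : Fact p.Prime := ⟨hp.2⟩
    have hle : n / p * p ^ 1 ≤ n := by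
      rw [pow_one]
      exact Nat.div_mul_le_self n p
    obtain ⟨β⟩ := exists_blocks p (n / p) 1 n hle
    have h1 := bound_field x hx hΩ A hA hA0 d E' hE hTD hst hf p (n / p) 1 _ β
    rw [mul_one] at h1
    rw [padicValNat_dvd_iff_le hA0]
    omega

/-- The tower theorem with `gam` and the information that no root is in `T i`. -/
theorem tower_gam [IsAlgClosed k] [CharZero k] [IsAlgClosed Ω] {n : ℕ} (hn : 5 ≤ n)
    (x : Fin n → Ω)
    (hx : AlgebraicIndependent k x) (hΩ : Algebra.IsAlgebraic (adjoin k (Set.range x)) Ω)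
    (d r : ℕ) (T : ℕ → IntermediateField k Ω) (h0 : T 0 = coeffField k x)
    (hT : ∀ i < r, Step d (T i) (T (i + 1))) (hr : ∃ i, x i ∈ T r) :
    ∃ i < r, (∀ j, x j ∉ T i) ∧ gam n d ∣ relfinrank (T 0) (T i) ∧
      n ∣ relfinrank (T i) (T r) := by
  obtain ⟨i, hi, h0i, hir, hfin, h1, h2⟩ := tower_index hn x hx hΩ d r T h0 hT hr
  have hA : coeffField k x ≤ T i := h0 ▸ h0i
  have hA0 : relfinrank (coeffField k x) (T i) ≠ 0 := h0 ▸ hfin
  obtain ⟨E', hE, hTD, h3, h4⟩ := exists_field hn x hx hΩ d (T i) (T (i + 1)) hA (hT i hi) h1 h2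
  refine ⟨i, hi, fun j hj => Im_stop hn x hx.injective (T i) j hj h1, ?_, ?_⟩
  · rw [h0]
    exact gam_dvd_field x hx hΩ (T i) hA hA0 d E' hE hTD h3 h4
  · obtain ⟨j, hj⟩ := hr
    exact n_dvd hn x hx.injective (T i) (T r) hA hir h1 j hj

/-- `acc n d ≤ gam n d`. -/
theorem acc_le_gam (n d : ℕ) : acc n d ≤ gam n d := by
  have h2 : 2 * (n / 4) - d ≤ n / 2 - d := by omega
  unfold acc gam
  by_cases hn : 2 ≤ n
  · have h3 : (Finset.range (n + 1)).filter Nat.Prime =
        insert 2 ((Finset.range (n + 1)).filter (fun p => p.Prime ∧ p ≠ 2)) := by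
      ext p
      simp only [Finset.mem_filter, Finset.mem_range, Finset.mem_insert]
      constructor
      · rintro ⟨h, hp⟩
        by_cases h' : p = 2
        · exact Or.inl h'
        · exact Or.inr ⟨h, hp, h'⟩
      · rintro (rfl | ⟨h, hp, -⟩)
        · exact ⟨by omega, Nat.prime_two⟩
        · exact ⟨h, hp⟩
    rw [h3, Finset.prod_insert (by simp)]
    exact Nat.mul_le_mul_right _ (Nat.pow_le_pow_right (by norm_num) h2)
  · have h3 : 2 * (n / 4) - d = 0 := by omega
    rw [h3, pow_zero, one_mul]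
    refine Finset.prod_le_prod_of_subset_of_one_le' ?_ ?_
    · intro p hp
      rw [Finset.mem_filter] at hp ⊢
      exact ⟨hp.1, hp.2.1⟩
    · intro p hp _
      rw [Finset.mem_filter] at hp
      exact Nat.one_le_pow _ _ hp.2.pos

/-- The growth of `gam`. -/
theorem growth_gam :
    ∃ C : ℝ, 0 < C ∧ ∀ n d : ℕ, 1 ≤ d → ((n : ℝ) / (C * d)) ^ n ≤ gam n d := by
  obtain ⟨C, hC, h⟩ := growth
  refine ⟨C, hC, fun n d hd => (h n d hd).trans ?_⟩
  exact_mod_cast acc_le_gam n d

end Pool.Agent.Helper15.RD
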