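import Pool.Agent.Helper15.RD.Od

/-!
# Project RD (C): the final statement
-/

set_option autoImplicit false

namespace Pool.Agent.Helper15.RD

open IntermediateField

universe u v

variable {k : Type v} {Ω : Type u} [Field k] [Field Ω] [Algebra k Ω]

private theorem gcd_gam_lcm (n m : ℕ) (h : n = 6 ∨ n = 7) :
    m * (Finset.Icc 1 n).lcm id ∣ n.factorial ↔ m ∣ gam n 1 := by
  rcases h with rfl | rfl
  · have e1 : (Finset.Icc 1 6).lcm id = 60 := by decide +kernel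
    have e2 : gam 6 1 = 12 := by decide +kernel
    have e3 : Nat.factorial 6 = 12 * 60 := by decide
    rw [e1, e2, e3]
    exact Nat.mul_dvd_mul_iff_right (by norm_num)
  · have e1 : (Finset.Icc 1 7).lcm id = 420 := by decide +kernel
    have e2 : gam 7 1 = 12 := by decide +kernel
    have e3 : Nat.factorial 7 = 12 * 420 := by decide
    rw [e1, e2, e3]
    exact Nat.mul_dvd_mul_iff_right (by norm_num)

/-- the exact gcd for large `d` and for small `n` -/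
theorem gcd_gam [IsAlgClosed k] [IsAlgClosed Ω] [CharZero k] {n : ℕ} (hn : 4 ≤ n) (x : Fin n → Ω)
    (hx : AlgebraicIndependent k x) (hΩ : Algebra.IsAlgebraic (adjoin k (Set.range x)) Ω)
    (d m : ℕ) (hd : n / 2 ≤ d + 1 ∨ (n ≤ 7 ∧ 1 ≤ d) ∨ (n ≤ 11 ∧ 2 ≤ d)) :
    (∀ A : IntermediateField k Ω, coeffField k x ≤ A → relfinrank (coeffField k x) A ≠ 0 →
      Step d A (A ⊔ adjoin k (Set.range x)) → m ∣ relfinrank (coeffField k x) A) ↔
    m ∣ gam n d := by
  by_cases h : n / 2 ≤ d + 1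
  · exact large_gam hn x hx hΩ d m h
  · have h1 : (n ≤ 7 ∧ 1 ≤ d) ∨ (n ≤ 11 ∧ 2 ≤ d) := hd.resolve_left h
    have h2 : ((n = 6 ∨ n = 7) ∧ d = 1) ∨ (n = 8 ∧ d = 2) ∨ (n = 9 ∧ d = 2) ∨
        ((n = 10 ∨ n = 11) ∧ d = 2) ∨ ((n = 10 ∨ n = 11) ∧ d = 3) := by omega
    rcases h2 with ⟨h2, rfl⟩ | ⟨rfl, rfl⟩ | ⟨rfl, rfl⟩ | ⟨h2, rfl⟩ | ⟨h2, rfl⟩
    · rw [index_iff_sym x hx hΩ m]
      exact gcd_gam_lcm n m h2
    · have e : gam 8 2 = 4 := by decide +kernel
      rw [e]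
      exact octic_two x hx hΩ m
    · exact small_nine x hx hΩ m
    · exact small_ten_two h2 x hx hΩ m
    · exact small_ten_three h2 x hx hΩ m

end Pool.Agent.Helper15.RD
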