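import Pool.Agent.Helper15.RD.Co

/-!
# Project RD, block G: permutations
-/

set_option autoImplicit false

namespace Pool.Agent.Helper15.RD

/-- RD-G1. `N ∩ A_n` is normal in the simple group `A_n` (`alternatingGroup` is simple for `n ≥ 5`, see
`Mathlib.GroupTheory.SpecificGroups.Alternating.Simple` or similar), and not `A_n`, so it is trivial. For
`g ∈ N`, `a ∈ A_n`: `a g a⁻¹ g⁻¹ ∈ N ∩ A_n` (its sign is `1`), so `g` commutes with all `a ∈ A_n`. If
`g i = j ≠ i` choose a 3-cycle `a` fixing `i` and moving `j` (`n ≥ 4`): `g i = g (a i) = a (g i) = a j ≠ j`. -/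
theorem normal_trivial {n : ℕ} (hn : 5 ≤ n) (N : Subgroup (Equiv.Perm (Fin n)))
    (hN : ∀ a ∈ alternatingGroup (Fin n), ∀ g ∈ N, a * g * a⁻¹ ∈ N)
    (hA : ¬ alternatingGroup (Fin n) ≤ N) : N = ⊥ := by
  have hnorm : (N.subgroupOf (alternatingGroup (Fin n))).Normal := by
    constructor
    intro g hg a
    rw [Subgroup.mem_subgroupOf] at hg ⊢
    exact hN a a.2 g hg
  have h1 : N.subgroupOf (alternatingGroup (Fin n)) = ⊥ := by
    rcases alternatingGroup.normal_subgroup_eq_bot_or_eq_top (α := Fin n)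
      (by rw [Nat.card_eq_fintype_card, Fintype.card_fin]; exact hn)
      (N := N.subgroupOf (alternatingGroup (Fin n))) with h | h
    · exact h
    · exact absurd (Subgroup.subgroupOf_eq_top.1 h) hA
  have h2 : ∀ g ∈ N, g ∈ alternatingGroup (Fin n) → g = 1 := by
    intro g hg ha
    have h3 : (⟨g, ha⟩ : alternatingGroup (Fin n)) ∈
        N.subgroupOf (alternatingGroup (Fin n)) := hg
    rw [h1, Subgroup.mem_bot] at h3
    exact congrArg Subtype.val h3
  rw [Subgroup.eq_bot_iff_forall]
  intro g hg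
  have hcomm : ∀ a ∈ alternatingGroup (Fin n), a * g = g * a := by
    intro a ha
    have h3 := N.mul_mem (hN a ha g hg) (N.inv_mem hg)
    have h4 : a * g * a⁻¹ * g⁻¹ ∈ alternatingGroup (Fin n) := by
      rw [Equiv.Perm.mem_alternatingGroup]
      rw [map_mul, map_mul, map_mul, Equiv.Perm.sign_inv, Equiv.Perm.sign_inv,
        mul_right_comm (Equiv.Perm.sign a), Int.units_mul_self, one_mul, Int.units_mul_self]
    have h5 := h2 _ h3 h4
    rw [mul_inv_eq_one, mul_inv_eq_iff_eq_mul] at h5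
    exact h5
  have hex : ∀ s : Finset (Fin n), s.card < n → ∃ k, k ∉ s := by
    intro s hs
    by_contra h
    push Not at h
    rw [Finset.eq_univ_iff_forall.2 h, Finset.card_univ, Fintype.card_fin] at hs
    exact lt_irrefl _ hs
  refine Equiv.ext fun i => ?_
  by_contra hne
  rw [Equiv.Perm.one_apply] at hne
  obtain ⟨k, hk⟩ := hex {i, g i} (by
    have := Finset.card_le_two (a := i) (b := g i)
    omega)
  obtain ⟨l, hl⟩ := hex {i, g i, k} (by
    have := Finset.card_le_three (a := i) (b := g i) (c := k)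
    omega)
  simp only [Finset.mem_insert, Finset.mem_singleton, not_or] at hk hl
  obtain ⟨hk1, hk2⟩ := hk
  obtain ⟨hl1, hl2, hl3⟩ := hl
  have h3c := Equiv.Perm.isThreeCycle_swap_mul_swap_same (Ne.symm hk2) (Ne.symm hl2) (Ne.symm hl3)
  have hc := hcomm _ h3c.mem_alternatingGroup
  have hi := congrArg (fun e : Equiv.Perm (Fin n) => e i) hc
  simp only [Equiv.Perm.mul_apply] at hi
  rw [Equiv.swap_apply_left, Equiv.swap_apply_of_ne_of_ne hl2 hl3,
    Equiv.swap_apply_of_ne_of_ne (Ne.symm hne) (Ne.symm hl1),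
    Equiv.swap_apply_of_ne_of_ne (Ne.symm hne) (Ne.symm hk1)] at hi
  exact hl2 hi

/-- the translation of the blocks as a permutation of `Fin n` -/
def tr {p s c m n : ℕ} (β : (Fin s × (Fin c → ZMod p)) ⊕ Fin m ≃ Fin n)
    (v : Fin s × Fin c → ZMod p) : Equiv.Perm (Fin n) :=
  β.permCongr (Equiv.sumCongr
    { toFun := fun a => (a.1, a.2 + bl v a.1)
      invFun := fun a => (a.1, a.2 - bl v a.1)
      left_inv := fun a => by simp
      right_inv := fun a => by simp } (Equiv.refl _))

section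

variable {p s c m n : ℕ} (β : (Fin s × (Fin c → ZMod p)) ⊕ Fin m ≃ Fin n)

/-- RD-G2. -/
theorem tr_inl (v : Fin s × Fin c → ZMod p) (j : Fin s) (b : Fin c → ZMod p) :
    tr β v (β (Sum.inl (j, b))) = β (Sum.inl (j, b + bl v j)) := by
  unfold tr
  rw [Equiv.permCongr_apply, Equiv.symm_apply_apply]
  rfl

/-- RD-G2. -/
theorem tr_inr (v : Fin s × Fin c → ZMod p) (l : Fin m) :
    tr β v (β (Sum.inr l)) = β (Sum.inr l) := by
  unfold tr
  rw [Equiv.permCongr_apply, Equiv.symm_apply_apply]
  rfl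

/-- RD-G2. -/
theorem tr_add (v v' : Fin s × Fin c → ZMod p) : tr β (v + v') = tr β v * tr β v' := by
  refine Equiv.ext fun x => ?_
  obtain ⟨y, rfl⟩ := β.surjective x
  rw [Equiv.Perm.mul_apply]
  rcases y with ⟨j, b⟩ | l
  · rw [tr_inl, tr_inl, tr_inl]
    have h : bl (v + v') j = bl v' j + bl v j := by
      funext i
      exact add_comm _ _
    rw [h, add_assoc]
  · rw [tr_inr, tr_inr, tr_inr]

private theorem tr_odd_zero : tr β (0 : Fin s × Fin c → ZMod p) = 1 := by
  have h := tr_add β (0 : Fin s × Fin c → ZMod p) 0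
  rw [add_zero] at h
  exact mul_left_cancel (h.symm.trans (mul_one _).symm)

private theorem tr_odd_nsmul (v : Fin s × Fin c → ZMod p) (k : ℕ) :
    tr β (k • v) = tr β v ^ k := by
  induction k with
  | zero => rw [zero_smul, pow_zero, tr_odd_zero]
  | succ k ih => rw [succ_nsmul, tr_add, ih, pow_succ]

/-- RD-G2. `tr β v ^ p = 1` and `p` is odd, so the sign is `1`. -/
theorem tr_odd [Fact p.Prime] (hp : p ≠ 2) (v : Fin s × Fin c → ZMod p) :
    tr β v ∈ alternatingGroup (Fin n) := by
  have h1 : tr β v ^ p = 1 := by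
    rw [← tr_odd_nsmul]
    have h2 : p • v = 0 := by
      funext i
      rw [Pi.smul_apply, nsmul_eq_mul, CharP.cast_eq_zero, zero_mul, Pi.zero_apply]
    rw [h2, tr_odd_zero]
  have h3 : Equiv.Perm.sign (tr β v) ^ p = 1 := by
    rw [← map_pow, h1, map_one]
  have h4 : Odd p := (Fact.out : p.Prime).odd_of_ne_two hp
  rw [Equiv.Perm.mem_alternatingGroup]
  rcases Int.units_eq_one_or (Equiv.Perm.sign (tr β v)) with h | h
  · exact h
  · rw [h, h4.neg_one_pow] at h3
    exact absurd h3 (by decide)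

end

private theorem tr_two_sign (w : Fin 2 → ZMod 2) :
    Equiv.Perm.sign (Equiv.addRight w : Equiv.Perm (Fin 2 → ZMod 2)) = 1 := by
  revert w
  decide

/-- RD-G3. By `tr_add` it suffices to treat `v = Pi.single (j, i) 1` (an element of `(ℤ/2)^(..)` is a sum
of such ones); this permutation is a product of two disjoint transpositions
(the block `j` has four elements `b`, `b ↦ b + Pi.single i 1`). Or: sign of a permutation which acts on
the block `j` only: `Equiv.Perm.sign_sumCongr`, `Equiv.Perm.sign_permCongr`,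
`Equiv.Perm.sign_prodCongrRight` and `decide` for the translations of `Fin 2 → ZMod 2`. -/
theorem tr_two {s m n : ℕ} (β : (Fin s × (Fin 2 → ZMod 2)) ⊕ Fin m ≃ Fin n)
    (v : Fin s × Fin 2 → ZMod 2) : tr β v ∈ alternatingGroup (Fin n) := by
  rw [Equiv.Perm.mem_alternatingGroup]
  have e : tr β v = β.permCongr (Equiv.Perm.sumCongr
      (Equiv.prodCongrRight fun j => Equiv.addRight (bl v j)) 1) := by
    unfold tr
    congr 1
    refine Equiv.ext fun x => ?_
    rcases x with x | x <;> rfl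
  rw [e, Equiv.Perm.sign_permCongr, Equiv.Perm.sign_sumCongr, Equiv.Perm.sign_prodCongrRight, map_one, mul_one]
  exact Finset.prod_eq_one fun j _ => tr_two_sign _

/-- RD-G3. `card ((Fin s × (Fin c → ZMod p)) ⊕ Fin m) = s p ^ c + m`. -/
theorem exists_blocks (p s c n : ℕ) [NeZero p] (h : s * p ^ c ≤ n) :
    Nonempty ((Fin s × (Fin c → ZMod p)) ⊕ Fin (n - s * p ^ c) ≃ Fin n) := by
  refine ⟨Fintype.equivOfCardEq ?_⟩
  rw [Fintype.card_sum, Fintype.card_prod, Fintype.card_fin, Fintype.card_fun, ZMod.card,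
    Fintype.card_fin, Fintype.card_fin, Fintype.card_fin]
  omega

end Pool.Agent.Helper15.RD
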