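import Pool.Agent.Helper15.RD.Df
import Pool.Agent.Helper15.RD.Gt

/-!
# Project RD, block A: Galois theory

`L = adjoin k (range x)`, `K = coeffField k x`, `Ω` an algebraic closure of `L`. `Im x A` = the group of
the permutations of the `x i` induced by the automorphisms of `Ω` over `A`.
-/

set_option autoImplicit false

namespace Pool.Agent.Helper15.RD

open IntermediateField

universe u v

variable {k : Type v} {Ω : Type u} [Field k] [Field Ω] [Algebra k Ω]

/-! ### RD-A1 -/

/-- RD-A1. `Ω / A` is algebraic, normal (`Ω` is algebraically closed) and separable (characteristic `0`),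
so it is Galois and `z` is in the fixed field `A` (`IsGalois`, `InfiniteGalois`; the automorphisms over
`A` are elements of `A.fixingSubgroup` by restriction of scalars). -/
theorem closed [IsAlgClosed Ω] [CharZero k] (A : IntermediateField k Ω)
    (hA : Algebra.IsAlgebraic A Ω) (z : Ω) (hz : ∀ σ ∈ A.fixingSubgroup, σ z = z) : z ∈ A := by
  have h0 : CharZero A := charZero_of_injective_algebraMap (algebraMap k A).injective
  have h1 : IsAlgClosure A Ω := ⟨inferInstance, hA⟩
  have h2 : Normal A Ω := IsAlgClosure.normal A Ω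
  have h3 : Algebra.IsSeparable A Ω := inferInstance
  have h4 : IsGalois A Ω := ⟨⟩
  have h5 : z ∈ (⊥ : IntermediateField A Ω) := by
    rw [InfiniteGalois.mem_bot_iff_fixed]
    intro f
    exact hz ((fixingSubgroupEquiv A).symm f : Ω ≃ₐ[k] Ω) (Subtype.mem _)
  obtain ⟨y, hy⟩ := IntermediateField.mem_bot.1 h5
  rw [← hy]
  exact y.2

/-- RD-A1. `σ` fixes the polynomial `∏ (X - x i)`, so it permutes its roots. -/
theorem perm {n : ℕ} (x : Fin n → Ω) (hx : Function.Injective x) (σ : Ω ≃ₐ[k] Ω)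
    (hσ : σ ∈ (coeffField k x).fixingSubgroup) :
    ∃ π : Equiv.Perm (Fin n), ∀ i, σ (x i) = x (π i) := by
  have h1 : (∏ i, (Polynomial.X - Polynomial.C (x i))).map (σ : Ω →+* Ω) =
      ∏ i, (Polynomial.X - Polynomial.C (x i)) := by
    ext j
    rw [Polynomial.coeff_map]
    exact (IntermediateField.mem_fixingSubgroup_iff _ _).1 hσ _
      (IntermediateField.subset_adjoin k _ ⟨j, rfl⟩)
  have h2 : ∀ i, ∃ j, σ (x i) = x j := by
    intro i
    have h3 : (∏ j, (Polynomial.X - Polynomial.C (x j))).eval (σ (x i)) = 0 := by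
      rw [← h1, Polynomial.eval_map]
      have h4 : Polynomial.eval₂ (σ : Ω →+* Ω) (σ (x i))
          (∏ j, (Polynomial.X - Polynomial.C (x j))) =
          σ ((∏ j, (Polynomial.X - Polynomial.C (x j))).eval (x i)) :=
        (Polynomial.hom_eval₂ _ (RingHom.id Ω) (σ : Ω →+* Ω) (x i)).symm
      rw [h4, Polynomial.eval_prod, Finset.prod_eq_zero (Finset.mem_univ i), map_zero]
      simp
    rw [Polynomial.eval_prod, Finset.prod_eq_zero_iff] at h3
    obtain ⟨j, -, h5⟩ := h3
    refine ⟨j, ?_⟩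
    rw [Polynomial.eval_sub, Polynomial.eval_X, Polynomial.eval_C] at h5
    exact sub_eq_zero.1 h5
  choose f hf using h2
  have hinj : Function.Injective f := by
    intro i j hij
    apply hx
    apply σ.injective
    rw [hf, hf, hij]
  exact ⟨Equiv.ofBijective f (Finite.injective_iff_bijective.1 hinj), hf⟩

/-- RD-A1. The `x i` are algebraic over `coeffField k x`. -/
theorem alg_of_le {n : ℕ} (x : Fin n → Ω)
    (hΩ : Algebra.IsAlgebraic (adjoin k (Set.range x)) Ω) (A : IntermediateField k Ω)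
    (hA : coeffField k x ≤ A) : Algebra.IsAlgebraic A Ω := by
  let M : IntermediateField A Ω := adjoin A (Set.range x)
  have h1 : ∀ z ∈ Set.range x, IsIntegral A z := by
    rintro _ ⟨i, rfl⟩
    have h2 : ∀ j, ∃ a : A, algebraMap A Ω a =
        (∏ i, (Polynomial.X - Polynomial.C (x i))).coeff j := fun j =>
      ⟨⟨_, hA (IntermediateField.subset_adjoin k _ ⟨j, rfl⟩)⟩, rfl⟩
    have h3 : (∏ i, (Polynomial.X - Polynomial.C (x i))) ∈
        Polynomial.lifts (algebraMap A Ω) := by
      rw [Polynomial.lifts_iff_coeff_lifts]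
      intro j
      exact h2 j
    have h4 : (∏ i, (Polynomial.X - Polynomial.C (x i))).Monic :=
      Polynomial.monic_prod_of_monic _ _ fun i _ => Polynomial.monic_X_sub_C (x i)
    obtain ⟨q, hq, -, hqm⟩ := Polynomial.lifts_and_degree_eq_and_monic h3 h4
    refine ⟨q, hqm, ?_⟩
    rw [← Polynomial.eval_map, hq, Polynomial.eval_prod,
      Finset.prod_eq_zero (Finset.mem_univ i)]
    simp
  have h5 : Algebra.IsAlgebraic A M := IntermediateField.isAlgebraic_adjoin h1
  have h6 : adjoin k (Set.range x) ≤ M.restrictScalars k := by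
    rw [IntermediateField.adjoin_le_iff]
    exact IntermediateField.subset_adjoin A (Set.range x)
  have h7 : Algebra.IsAlgebraic M Ω := by
    refine ⟨fun z => ?_⟩
    obtain ⟨p, hp0, hp⟩ := hΩ.isAlgebraic z
    let g : adjoin k (Set.range x) →+* M :=
      { toFun := fun y => ⟨y, h6 y.2⟩
        map_one' := rfl
        map_mul' := fun _ _ => rfl
        map_zero' := rfl
        map_add' := fun _ _ => rfl }
    refine ⟨p.map g, ?_, ?_⟩
    · exact (Polynomial.map_ne_zero_iff g.injective).2 hp0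
    · rw [Polynomial.aeval_def, Polynomial.eval₂_map]
      exact hp
  exact Algebra.IsAlgebraic.trans A M Ω

/-- RD-A1. Vieta: the coefficients are symmetric functions of the `x i`. -/
theorem coeffField_le {n : ℕ} (x : Fin n → Ω) : coeffField k x ≤ adjoin k (Set.range x) := by
  unfold coeffField
  rw [IntermediateField.adjoin_le_iff]
  rintro _ ⟨j, rfl⟩
  have h1 : (∏ i, (Polynomial.X - Polynomial.C (x i))) =
      (∏ i, (Polynomial.X - Polynomial.C
        (⟨x i, IntermediateField.subset_adjoin k _ ⟨i, rfl⟩⟩ : adjoin k (Set.range x)))).map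
        (algebraMap (adjoin k (Set.range x)) Ω) := by
    rw [Polynomial.map_prod]
    refine Finset.prod_congr rfl fun i _ => ?_
    rw [Polynomial.map_sub, Polynomial.map_X, Polynomial.map_C]
    rfl
  change (∏ i, (Polynomial.X - Polynomial.C (x i))).coeff j ∈ adjoin k (Set.range x)
  rw [h1, Polynomial.coeff_map]
  exact Subtype.mem _

theorem Im_mono {n : ℕ} (x : Fin n → Ω) {A B : IntermediateField k Ω} (h : A ≤ B) :
    Im x B ≤ Im x A := by
  rintro π ⟨σ, hσ, h'⟩
  exact ⟨σ, IntermediateField.fixingSubgroup_antitone h hσ, h'⟩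

/-- RD-A1. An element of `B` is fixed, but `A_n` moves every `i`. -/
theorem Im_stop {n : ℕ} (hn : 5 ≤ n) (x : Fin n → Ω) (hx : Function.Injective x)
    (B : IntermediateField k Ω) (i : Fin n) (hi : x i ∈ B) :
    ¬ alternatingGroup (Fin n) ≤ Im x B := by
  intro h
  have h1 : 1 < (Finset.univ.erase i : Finset (Fin n)).card := by
    rw [Finset.card_erase_of_mem (Finset.mem_univ i), Finset.card_univ, Fintype.card_fin]
    omega
  obtain ⟨a, ha, b, hb, hab⟩ := Finset.one_lt_card.1 h1
  have hai : a ≠ i := Finset.ne_of_mem_erase ha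
  have hbi : b ≠ i := Finset.ne_of_mem_erase hb
  have h2 : Equiv.swap a b * Equiv.swap a i ∈ alternatingGroup (Fin n) :=
    (Equiv.Perm.isThreeCycle_swap_mul_swap_same hab hai hbi).mem_alternatingGroup
  obtain ⟨σ, hσ, h3⟩ := h h2
  have h4 := h3 i
  rw [(IntermediateField.mem_fixingSubgroup_iff _ _).1 hσ (x i) hi] at h4
  have h5 := hx h4
  rw [Equiv.Perm.mul_apply, Equiv.swap_apply_right, Equiv.swap_apply_left] at h5
  exact hbi h5.symm

/-! ### RD-A2 -/

/-- the automorphism of `k(x)` induced by a permutation of the variables -/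
private theorem Im_top_base {n : ℕ} (x : Fin n → Ω) (hx : AlgebraicIndependent k x)
    (π : Equiv.Perm (Fin n)) :
    ∃ e : adjoin k (Set.range x) ≃ₐ[k] adjoin k (Set.range x),
      ∀ i, (e ⟨x i, subset_adjoin k _ ⟨i, rfl⟩⟩ : Ω) = x (π i) := by
  have hxπ : AlgebraicIndependent k (x ∘ π) := hx.comp π π.injective
  have hr : Set.range (x ∘ π) = Set.range x := π.surjective.range_comp x
  let e : adjoin k (Set.range x) ≃ₐ[k] adjoin k (Set.range x) :=
    (hx.aevalEquivField.symm.trans hxπ.aevalEquivField).trans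
      (IntermediateField.equivOfEq (congrArg (adjoin k) hr))
  refine ⟨e, fun i => ?_⟩
  have h1 : hx.aevalEquivField.symm ⟨x i, subset_adjoin k _ ⟨i, rfl⟩⟩ =
      algebraMap _ _ (MvPolynomial.X i : MvPolynomial (Fin n) k) := by
    rw [AlgEquiv.symm_apply_eq]
    apply Subtype.ext
    rw [hx.aevalEquivField_algebraMap_apply_coe, MvPolynomial.aeval_X]
  have h2 : (hxπ.aevalEquivField (algebraMap _ _ (MvPolynomial.X i : MvPolynomial (Fin n) k)) : Ω)
      = x (π i) := by
    rw [hxπ.aevalEquivField_algebraMap_apply_coe, MvPolynomial.aeval_X]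
    rfl
  have h3 : e ⟨x i, subset_adjoin k _ ⟨i, rfl⟩⟩ =
      IntermediateField.equivOfEq (congrArg (adjoin k) hr)
        (hxπ.aevalEquivField (hx.aevalEquivField.symm ⟨x i, subset_adjoin k _ ⟨i, rfl⟩⟩)) := rfl
  rw [h3, h1, ← h2]
  rfl

/-- an automorphism of `L` extends to `Ω` -/
private theorem Im_top_extend [IsAlgClosed Ω] (L : IntermediateField k Ω)
    (hΩ : Algebra.IsAlgebraic L Ω) (e : L ≃ₐ[k] L) :
    ∃ σ : Ω ≃ₐ[k] Ω, ∀ z : L, σ (z : Ω) = (e z : Ω) := by
  have : IsAlgClosure L Ω := ⟨inferInstance, hΩ⟩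
  let s : Ω ≃+* Ω := IsAlgClosure.equivOfEquiv Ω Ω (e : L ≃+* L)
  have hs : ∀ z : L, s (z : Ω) = (e z : Ω) := fun z =>
    IsAlgClosure.equivOfEquiv_algebraMap Ω Ω (e : L ≃+* L) z
  refine ⟨AlgEquiv.ofRingEquiv (f := s) fun c => ?_, hs⟩
  have h1 := hs (algebraMap k L c)
  rw [e.commutes] at h1
  exact h1

/-- RD-A2. A permutation `π` of the variables gives a `k`-automorphism of the field `L = k(x)`
(`x` is algebraically independent), which extends to the algebraic closure `Ω` of `L`
(`IsAlgClosure.equivOfEquiv` or similar, `Ω` is an algebraic closure of `L` in two ways). It fixes the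
symmetric functions. -/
theorem Im_top [IsAlgClosed Ω] {n : ℕ} (x : Fin n → Ω) (hx : AlgebraicIndependent k x)
    (hΩ : Algebra.IsAlgebraic (adjoin k (Set.range x)) Ω) : Im x (coeffField k x) = ⊤ := by
  rw [eq_top_iff]
  intro π _
  obtain ⟨e, he⟩ := Im_top_base x hx π
  obtain ⟨σ, hσ⟩ := Im_top_extend (adjoin k (Set.range x)) hΩ e
  have hx1 : ∀ i, σ (x i) = x (π i) := fun i => by
    rw [← he i, ← hσ]
  have hp : (∏ i, (Polynomial.X - Polynomial.C (x i))).map (σ : Ω →+* Ω) =
      ∏ i, (Polynomial.X - Polynomial.C (x i)) := by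
    rw [Polynomial.map_prod, ← Equiv.prod_comp π fun i => (Polynomial.X - Polynomial.C (x i))]
    refine Finset.prod_congr rfl fun i _ => ?_
    rw [Polynomial.map_sub, Polynomial.map_X, Polynomial.map_C]
    congr 2
    exact hx1 i
  refine ⟨σ, ?_, hx1⟩
  rw [IntermediateField.mem_fixingSubgroup_iff]
  intro z hz
  have h2 : ∀ y ∈ Set.range fun j : ℕ => (∏ i, (Polynomial.X - Polynomial.C (x i))).coeff j,
      σ y = y := by
    rintro y ⟨j, rfl⟩
    have h3 := congrArg (fun p => Polynomial.coeff p j) hp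
    rw [Polynomial.coeff_map] at h3
    exact h3
  have h4 : coeffField k x ≤ IntermediateField.fixedField (Subgroup.zpowers σ) := by
    unfold coeffField
    rw [IntermediateField.adjoin_le_iff]
    intro y hy
    rw [SetLike.mem_coe, IntermediateField.mem_fixedField_iff]
    intro f hf
    have h5 : Subgroup.zpowers σ ≤ MulAction.stabilizer (Ω ≃ₐ[k] Ω) y := by
      rw [Subgroup.zpowers_le]
      exact h2 y hy
    exact h5 hf
  have h6 := h4 hz
  rw [IntermediateField.mem_fixedField_iff] at h6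
  exact h6 σ (Subgroup.mem_zpowers σ)

/-! ### RD-A3 -/

/-- RD-A3. The normal closure of `E / F` in `Ω` (`normalClosure F E Ω` or the splitting field of finitely
many minimal polynomials): finite over `F`, stable under the automorphisms of `Ω` over `F`. For the last
claim: the restrictions of the elements of `D` to the finite extension `𝓔 / F` form a group `D'` of
automorphisms; `σ` restricted to `𝓔` fixes the fixed field of `D'`, so it is in `D'`
(`IntermediateField.fixingSubgroup_fixedField`). -/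
theorem exists_normal [IsAlgClosed Ω] [CharZero k] (F E : IntermediateField k Ω) (hFE : F ≤ E)
    (hfin : relfinrank F E ≠ 0) :
    ∃ N : IntermediateField k Ω, E ≤ N ∧ (∀ z ∈ N, IsAlgebraic F z) ∧
      (∀ σ ∈ F.fixingSubgroup, ∀ z ∈ N, σ z ∈ N) ∧
      ∀ D : Subgroup (Ω ≃ₐ[k] Ω), D ≤ F.fixingSubgroup → ∀ σ ∈ F.fixingSubgroup,
        (∀ z ∈ N, (∀ δ ∈ D, δ z = z) → σ z = z) → ∃ δ ∈ D, ∀ z ∈ N, σ z = δ z := by
  have hfd : FiniteDimensional F (extendScalars hFE) := by
    apply FiniteDimensional.of_finrank_pos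
    rw [← relfinrank_eq_finrank_of_le hFE]
    exact Nat.pos_of_ne_zero hfin
  have halg : Algebra.IsAlgebraic F (extendScalars hFE) := inferInstance
  let N' : IntermediateField F Ω := normalClosure F (extendScalars hFE) Ω
  have hN1 : FiniteDimensional F N' := normalClosure.is_finiteDimensional F (extendScalars hFE) Ω
  have hN2 : Normal F N' := by
    have h1 := halg.isNormalClosure_normalClosure (F := F) (K := extendScalars hFE) (L := Ω)
      (fun x => IsAlgClosed.splits _)
    exact h1.normal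
  have hle : extendScalars hFE ≤ N' := IntermediateField.le_normalClosure _
  let ρ : F.fixingSubgroup →* (N' ≃ₐ[F] N') :=
    (AlgEquiv.restrictNormalHom N').comp (fixingSubgroupEquiv F).toMonoidHom
  have hρ : ∀ (σ : F.fixingSubgroup) (z : N'), ((ρ σ z : N') : Ω) = (σ : Ω ≃ₐ[k] Ω) (z : Ω) := by
    intro σ z
    exact AlgEquiv.restrictNormalHom_apply N' (fixingSubgroupEquiv F σ) z
  refine ⟨N'.restrictScalars k, ?_, ?_, ?_, ?_⟩
  · intro z hz
    exact hle hz
  · intro z hz
    have h1 : IsAlgebraic F (⟨z, hz⟩ : N') := Algebra.IsAlgebraic.isAlgebraic _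
    exact h1.algebraMap
  · intro σ hσ z hz
    have h1 := hρ ⟨σ, hσ⟩ ⟨z, hz⟩
    change σ z ∈ N'
    rw [← h1]
    exact Subtype.mem _
  · intro D hD σ hσ h
    let D' : Subgroup (N' ≃ₐ[F] N') := (D.subgroupOf F.fixingSubgroup).map ρ
    have h1 : ρ ⟨σ, hσ⟩ ∈ fixingSubgroup (fixedField D') := by
      rw [IntermediateField.mem_fixingSubgroup_iff]
      intro z hz
      apply Subtype.ext
      change ((ρ ⟨σ, hσ⟩ z : N') : Ω) = z
      rw [hρ]
      apply h z z.2
      intro δ hδ
      have h2 : ρ ⟨δ, hD hδ⟩ ∈ D' :=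
        Subgroup.mem_map_of_mem ρ (Subgroup.mem_subgroupOf.2 hδ)
      have h3 := hz ⟨_, h2⟩
      have h4 : ((ρ ⟨δ, hD hδ⟩ z : N') : Ω) = z := congrArg Subtype.val h3
      rw [hρ] at h4
      exact h4
    rw [fixingSubgroup_fixedField] at h1
    obtain ⟨δ, hδ, h2⟩ := Subgroup.mem_map.1 h1
    refine ⟨δ, Subgroup.mem_subgroupOf.1 hδ, fun z hz => ?_⟩
    have h3 := congrArg (fun g : N' ≃ₐ[F] N' => ((g ⟨z, hz⟩ : N') : Ω)) h2
    change ((ρ δ ⟨z, hz⟩ : N') : Ω) = ((ρ ⟨σ, hσ⟩ ⟨z, hz⟩ : N') : Ω) at h3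
    rw [hρ, hρ] at h3
    exact h3.symm

/-! ### RD-A4 -/

/-- RD-A4 (uses `exists_normal`, `closed`, `perm`, `alg_of_le`, `normal_trivial`, `TD.of_trdeg`,
`TD.of_algebraic`, `TD.mono`). `F`, `E` from `Step`, `N` from `exists_normal`.
(1) `P` = the set of `π` for which there is `σ ∈ (A ⊔ N).fixingSubgroup` inducing `π`, that is
`Im x (A ⊔ N)`. `Im x (A ⊔ N) ≤ Im x B` (`B = A ⊔ E ≤ A ⊔ N`), so it does not contain `A_n`; it is
normalized by `A_n ≤ Im x A`: if `τ ∈ A.fixingSubgroup` induces `a` and `σ` fixes `A ⊔ N` then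
`τ σ τ⁻¹` fixes `A` and `N` (`τ⁻¹` maps `N` to `N`). By `normal_trivial` it is trivial: every
`σ ∈ (A ⊔ N).fixingSubgroup` fixes the `x i` (`perm`), so `x i ∈ A ⊔ N` (`closed`) and
`L ≤ A ⊔ N`, `M := A ⊔ L ≤ A ⊔ N`.
(2) `E' = N ⊓ M`: `E' ≤ M`, `TD` because `E' ≤ N` and `N / F` is algebraic. Stable: `M` is stable under
`A.fixingSubgroup` (`perm`).
(3) Let `σ ∈ A.fixingSubgroup` be trivial on `E'`. `D = M.fixingSubgroup`; an element of `N` fixed by `D` is
in `M` (`closed`), so in `E'`. So there is `δ ∈ D` with `σ = δ` on `N`, hence on `A ⊔ N`, hence on `x i`. -/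
theorem exists_field [IsAlgClosed Ω] [CharZero k] {n : ℕ} (hn : 5 ≤ n) (x : Fin n → Ω)
    (hx : AlgebraicIndependent k x) (hΩ : Algebra.IsAlgebraic (adjoin k (Set.range x)) Ω)
    (d : ℕ) (A B : IntermediateField k Ω) (hA : coeffField k x ≤ A) (hst : Step d A B)
    (h1 : alternatingGroup (Fin n) ≤ Im x A) (h2 : ¬ alternatingGroup (Fin n) ≤ Im x B) :
    ∃ E' : IntermediateField k Ω, E' ≤ A ⊔ adjoin k (Set.range x) ∧ TD k (E' : Set Ω) d ∧
      (∀ σ ∈ A.fixingSubgroup, ∀ z ∈ E', σ z ∈ E') ∧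
      ∀ σ ∈ A.fixingSubgroup, (∀ z ∈ E', σ z = z) → ∀ i, σ (x i) = x i := by
  have hinj : Function.Injective x := hx.injective
  obtain ⟨h0, F, E, hFA, hFE, hAE, hrel, htr⟩ := hst
  obtain ⟨N, hEN, halg, hstab, hres⟩ := exists_normal F E hFE (by rw [hrel]; exact h0)
  have hFN : F ≤ N := hFE.trans hEN
  have hAF : A.fixingSubgroup ≤ F.fixingSubgroup := IntermediateField.fixingSubgroup_antitone hFA
  -- the group of the permutations induced over `A ⊔ N` is trivial
  have hbot : Im x (A ⊔ N) = ⊥ := by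
    refine normal_trivial hn _ ?_ ?_
    · rintro a ha g ⟨σ, hσ, hσx⟩
      obtain ⟨τ, hτ, hτx⟩ := h1 ha
      refine ⟨τ * σ * τ⁻¹, ?_, fun i => ?_⟩
      · rw [IntermediateField.fixingSubgroup_sup, Subgroup.mem_inf] at hσ ⊢
        obtain ⟨hσA, hσN⟩ := hσ
        refine ⟨mul_mem (mul_mem hτ hσA) (inv_mem hτ), ?_⟩
        rw [IntermediateField.mem_fixingSubgroup_iff]
        intro z hz
        have h3 : τ⁻¹ z ∈ N := hstab _ (hAF (inv_mem hτ)) z hz
        have h4 : σ (τ⁻¹ z) = τ⁻¹ z := (IntermediateField.mem_fixingSubgroup_iff _ _).1 hσN _ h3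
        rw [AlgEquiv.mul_apply, AlgEquiv.mul_apply, h4, ← AlgEquiv.mul_apply, mul_inv_cancel,
          AlgEquiv.one_apply]
      · have h3 : τ⁻¹ (x i) = x (a⁻¹ i) := by
          have h4 := hτx (a⁻¹ i)
          rw [show a (a⁻¹ i) = i from a.apply_symm_apply i] at h4
          rw [← h4, ← AlgEquiv.mul_apply, inv_mul_cancel, AlgEquiv.one_apply]
        rw [AlgEquiv.mul_apply, AlgEquiv.mul_apply, h3, hσx, hτx]
        rfl
    · intro h3
      refine h2 (h3.trans (Im_mono x ?_))
      rw [← hAE]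
      exact sup_le_sup_left hEN A
  have hfix : ∀ σ ∈ (A ⊔ N).fixingSubgroup, ∀ i, σ (x i) = x i := by
    intro σ hσ i
    obtain ⟨π, hπ⟩ := perm x hinj σ
      (IntermediateField.fixingSubgroup_antitone (hA.trans le_sup_left) hσ)
    have h3 : π ∈ Im x (A ⊔ N) := ⟨σ, hσ, hπ⟩
    rw [hbot, Subgroup.mem_bot] at h3
    rw [hπ, h3]
    rfl
  have hL : adjoin k (Set.range x) ≤ A ⊔ N := by
    rw [IntermediateField.adjoin_le_iff]
    rintro _ ⟨i, rfl⟩
    exact closed (A ⊔ N) (alg_of_le x hΩ (A ⊔ N) (hA.trans le_sup_left)) (x i)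
      fun σ hσ => hfix σ hσ i
  obtain ⟨M, hM⟩ : ∃ M : IntermediateField k Ω, M = A ⊔ adjoin k (Set.range x) := ⟨_, rfl⟩
  have hAM : A ≤ M := by
    rw [hM]
    exact le_sup_left
  have hLM : adjoin k (Set.range x) ≤ M := by
    rw [hM]
    exact le_sup_right
  have hMst : ∀ σ ∈ A.fixingSubgroup, ∀ z ∈ M, σ z ∈ M := by
    intro σ hσ z hz
    obtain ⟨π, hπ⟩ := perm x hinj σ (IntermediateField.fixingSubgroup_antitone hA hσ)
    have h3 : M ≤ M.comap (σ : Ω →ₐ[k] Ω) := by
      have h4 : A ⊔ adjoin k (Set.range x) ≤ M.comap (σ : Ω →ₐ[k] Ω) := by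
        refine sup_le ?_ ?_
        · intro a ha
          change σ a ∈ M
          rw [(IntermediateField.mem_fixingSubgroup_iff _ _).1 hσ a ha]
          exact hAM ha
        · rw [IntermediateField.adjoin_le_iff]
          rintro _ ⟨i, rfl⟩
          change σ (x i) ∈ M
          rw [hπ]
          exact hLM (IntermediateField.subset_adjoin _ _ ⟨_, rfl⟩)
      rwa [← hM] at h4
    exact h3 hz
  rw [← hM]
  refine ⟨N ⊓ M, inf_le_right, ?_, ?_, ?_⟩
  · exact TD.mono (S' := (N : Set Ω)) (fun z hz => hz.1)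
      (TD.of_algebraic F N hFN halg (TD.of_trdeg F htr))
  · intro σ hσ z hz
    exact ⟨hstab σ (hAF hσ) z hz.1, hMst σ hσ z hz.2⟩
  · intro σ hσ hz i
    obtain ⟨δ, hδ, hσδ⟩ := hres M.fixingSubgroup
      (IntermediateField.fixingSubgroup_antitone (hFA.trans hAM)) σ (hAF hσ) (by
        intro z hzN hzD
        refine hz z ⟨hzN, ?_⟩
        exact closed M (alg_of_le x hΩ M (hA.trans hAM)) z hzD)
    have hδA : δ ∈ A.fixingSubgroup := IntermediateField.fixingSubgroup_antitone hAM hδ
    have h3 : δ⁻¹ * σ ∈ (A ⊔ N).fixingSubgroup := by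
      rw [IntermediateField.fixingSubgroup_sup, Subgroup.mem_inf]
      refine ⟨mul_mem (inv_mem hδA) hσ, ?_⟩
      rw [IntermediateField.mem_fixingSubgroup_iff]
      intro z hzN
      rw [AlgEquiv.mul_apply, hσδ z hzN, ← AlgEquiv.mul_apply, inv_mul_cancel, AlgEquiv.one_apply]
    have h4 := hfix _ h3 i
    have h5 : δ (x i) = x i := (IntermediateField.mem_fixingSubgroup_iff _ _).1 hδ _
      (hLM (IntermediateField.subset_adjoin _ _ ⟨i, rfl⟩))
    have h6 : σ (x i) = δ ((δ⁻¹ * σ) (x i)) := by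
      rw [← AlgEquiv.mul_apply, mul_inv_cancel_left]
    rw [h6, h4, h5]

/-! ### RD-A5 -/

private theorem card_Im_perm {n : ℕ} (x : Fin n → Ω) (hx : Function.Injective x)
    (A : IntermediateField k Ω) (hA : coeffField k x ≤ A) (σ : Ω ≃ₐ[A] Ω) :
    ∃ π : Im x A, ∀ i, σ (x i) = x ((π : Equiv.Perm (Fin n)) i) := by
  have h1 : σ.restrictScalars k ∈ A.fixingSubgroup := fun a => σ.commutes a
  obtain ⟨π, hπ⟩ := perm x hx (σ.restrictScalars k)
    (IntermediateField.fixingSubgroup_antitone hA h1)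
  exact ⟨⟨π, σ.restrictScalars k, h1, hπ⟩, hπ⟩

private theorem card_Im_ext {n : ℕ} (x : Fin n → Ω) (A : IntermediateField k Ω) :
    relfinrank A (A ⊔ adjoin k (Set.range x)) =
      Module.finrank A (adjoin A (Set.range x)) := by
  have h1 : A ≤ A ⊔ adjoin k (Set.range x) := le_sup_left
  have h2 : extendScalars h1 = adjoin A (Set.range x) := by
    apply restrictScalars_injective k
    rw [extendScalars_restrictScalars, restrictScalars_adjoin, adjoin_union, adjoin_self]
  rw [relfinrank_eq_finrank_of_le h1, h2]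

/-- RD-A5. `M = A ⊔ L` is generated over `A` by the roots `x i` of a polynomial with coefficients in
`K ≤ A`, so it is a finite Galois extension of `A`; its Galois group is `Im x A` (an automorphism of
`M / A` extends to `Ω`; it is determined by the images of the `x i`). -/
theorem card_Im [IsAlgClosed Ω] [CharZero k] {n : ℕ} (x : Fin n → Ω)
    (hx : Function.Injective x) (hΩ : Algebra.IsAlgebraic (adjoin k (Set.range x)) Ω)
    (A : IntermediateField k Ω) (hA : coeffField k x ≤ A) :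
    relfinrank A (A ⊔ adjoin k (Set.range x)) = Nat.card (Im x A) := by
  have halg := alg_of_le x hΩ A hA
  have hcz : CharZero A := charZero_of_injective_algebraMap (algebraMap k A).injective
  have hcl : IsAlgClosure A Ω := ⟨inferInstance, halg⟩
  have hnor : Normal A Ω := IsAlgClosure.normal A Ω
  rw [card_Im_ext]
  set M : IntermediateField A Ω := adjoin A (Set.range x) with hM
  have hmem : ∀ i, x i ∈ M := fun i => subset_adjoin A _ ⟨i, rfl⟩
  have hfd : FiniteDimensional A M :=
    finiteDimensional_adjoin fun y _ => (halg.isAlgebraic y).isIntegral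
  have hMn : Normal A M := by
    rw [normal_iff_forall_map_le']
    intro σ
    obtain ⟨π, hπ⟩ := card_Im_perm x hx A hA σ
    rw [hM, adjoin_map, adjoin_le_iff]
    rintro _ ⟨_, ⟨i, rfl⟩, rfl⟩
    have := hπ i
    exact this ▸ hmem _
  have hMs : Algebra.IsSeparable A M := inferInstance
  have hMg : IsGalois A M := ⟨⟩
  rw [← IsGalois.card_aut_eq_finrank A M]
  have hex : ∀ τ : M ≃ₐ[A] M, ∃ π : Im x A, ∀ i,
      ((τ ⟨x i, hmem i⟩ : M) : Ω) = x ((π : Equiv.Perm (Fin n)) i) := by
    intro τ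
    obtain ⟨π, hπ⟩ := card_Im_perm x hx A hA (τ.liftNormal Ω)
    refine ⟨π, fun i => ?_⟩
    rw [← hπ i]
    exact (τ.liftNormal_commutes Ω (⟨x i, hmem i⟩ : M)).symm
  choose f hf using hex
  refine Nat.card_congr (Equiv.ofBijective f ⟨?_, ?_⟩)
  · intro τ τ' h
    have h1 : (τ : M →ₐ[A] M) = τ' := by
      refine algHom_ext_of_eq_adjoin _ hM ?_
      rintro _ ⟨i, rfl⟩
      apply Subtype.ext
      have e1 := hf τ i
      have e2 := hf τ' i
      rw [h] at e1
      exact e1.trans e2.symm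
    exact AlgEquiv.ext fun z => DFunLike.congr_fun h1 z
  · rintro ⟨π, σ, hσ, hπ⟩
    let σ' : Ω ≃ₐ[A] Ω := fixingSubgroupEquiv A ⟨σ, hσ⟩
    refine ⟨σ'.restrictNormal M, ?_⟩
    apply Subtype.ext
    apply Equiv.ext
    intro i
    apply hx
    rw [← hf (σ'.restrictNormal M) i]
    have h1 := AlgEquiv.restrictNormal_commutes σ' M ⟨x i, hmem i⟩
    exact h1.trans (hπ i)

/-- RD-A5 (uses `card_Im`, `Im_top`, `coeffField_le`). `[A : K] [A L : A] = [A L : K] = [A L : L] [L : K]`,
`[L : K] = n!` (`card_Im` for `A = K`) and `[A L : A]` divides `n!` (order of a subgroup). -/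
theorem acc_dvd [IsAlgClosed Ω] [CharZero k] {n : ℕ} (x : Fin n → Ω)
    (hx : AlgebraicIndependent k x) (hΩ : Algebra.IsAlgebraic (adjoin k (Set.range x)) Ω)
    (A : IntermediateField k Ω) (hA : coeffField k x ≤ A)
    (hA0 : relfinrank (coeffField k x) A ≠ 0) :
    relfinrank (adjoin k (Set.range x)) (A ⊔ adjoin k (Set.range x)) ≠ 0 ∧
    relfinrank (adjoin k (Set.range x)) (A ⊔ adjoin k (Set.range x)) ∣
      relfinrank (coeffField k x) A := by
  have h1 : relfinrank (coeffField k x) A * relfinrank A (A ⊔ adjoin k (Set.range x)) =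
      relfinrank (coeffField k x) (A ⊔ adjoin k (Set.range x)) :=
    relfinrank_mul_relfinrank hA le_sup_left
  have h2 : relfinrank (coeffField k x) (adjoin k (Set.range x)) *
      relfinrank (adjoin k (Set.range x)) (A ⊔ adjoin k (Set.range x)) =
      relfinrank (coeffField k x) (A ⊔ adjoin k (Set.range x)) :=
    relfinrank_mul_relfinrank (coeffField_le x) le_sup_right
  have h3 := card_Im x hx.injective hΩ A hA
  have h4 := card_Im x hx.injective hΩ (coeffField k x) le_rfl
  rw [sup_eq_right.2 (coeffField_le x), Im_top x hx hΩ, Subgroup.card_top] at h4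
  have h5 : Nat.card (Im x A) * (Im x A).index = Nat.card (Equiv.Perm (Fin n)) :=
    Subgroup.card_mul_index _
  have h6 : Nat.card (Im x A) ≠ 0 := Nat.card_pos.ne'
  have h7 : Nat.card (Im x A) * relfinrank (coeffField k x) A =
      Nat.card (Im x A) * ((Im x A).index *
        relfinrank (adjoin k (Set.range x)) (A ⊔ adjoin k (Set.range x))) := by
    rw [← mul_assoc, h5, ← h4, h2, ← h1, h3, mul_comm]
  have h8 := Nat.eq_of_mul_eq_mul_left (Nat.pos_of_ne_zero h6) h7
  refine ⟨fun h => hA0 ?_, ?_⟩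
  · rw [h8, h, mul_zero]
  · rw [h8]
    exact Dvd.intro_left _ rfl

/-- the alternating group is transitive -/
private theorem n_dvd_trans {n : ℕ} (hn : 5 ≤ n) (i j : Fin n) :
    ∃ π ∈ alternatingGroup (Fin n), π i = j := by
  by_cases hij : i = j
  · exact ⟨1, one_mem _, hij⟩
  · have h1 : ∃ a : Fin n, a ∉ ({i, j} : Finset (Fin n)) := by
      by_contra h
      push Not at h
      have h2 : Fintype.card (Fin n) ≤ 2 := by
        rw [← Finset.card_univ]
        refine (Finset.card_le_card fun a _ => h a).trans ?_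
        exact Finset.card_le_two
      rw [Fintype.card_fin] at h2
      omega
    obtain ⟨a, ha⟩ := h1
    simp only [Finset.mem_insert, Finset.mem_singleton, not_or] at ha
    refine ⟨Equiv.swap j a * Equiv.swap i a, ?_, ?_⟩
    · rw [Equiv.Perm.mem_alternatingGroup, Equiv.Perm.sign_mul,
        Equiv.Perm.sign_swap (Ne.symm ha.2), Equiv.Perm.sign_swap (Ne.symm ha.1)]
      decide
    · rw [Equiv.Perm.mul_apply, Equiv.swap_apply_left, Equiv.swap_apply_right]

/-- the polynomial over `A` -/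
private theorem n_dvd_poly {n : ℕ} (x : Fin n → Ω) (A : IntermediateField k Ω)
    (hA : coeffField k x ≤ A) : ∃ P : Polynomial A, P.Monic ∧ P.natDegree = n ∧
      ∀ i, Polynomial.aeval (x i) P = 0 := by
  have h1 : ∀ j : ℕ, (∏ i, (Polynomial.X - Polynomial.C (x i))).coeff j ∈ A := fun j =>
    hA (IntermediateField.subset_adjoin _ _ ⟨j, rfl⟩)
  have h2 : (∏ i, (Polynomial.X - Polynomial.C (x i))) ∈ Polynomial.lifts (algebraMap A Ω) := by
    rw [Polynomial.lifts_iff_coeff_lifts]
    intro j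
    exact ⟨⟨_, h1 j⟩, rfl⟩
  have h3 : (∏ i, (Polynomial.X - Polynomial.C (x i))).Monic :=
    Polynomial.monic_prod_of_monic _ _ fun i _ => Polynomial.monic_X_sub_C _
  obtain ⟨P, hP, hdeg, hmon⟩ := Polynomial.lifts_and_natDegree_eq_and_monic h2 h3
  refine ⟨P, hmon, ?_, fun i => ?_⟩
  · rw [hdeg, Polynomial.natDegree_prod_of_monic _ _ fun i _ => Polynomial.monic_X_sub_C _]
    simp
  · rw [Polynomial.aeval_def, ← Polynomial.eval_map, hP, Polynomial.eval_prod]
    exact Finset.prod_eq_zero (Finset.mem_univ i) (by simp)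

/-- RD-A5. `A_n` is transitive, so the minimal polynomial of `x i` over `A` has all the `x j` as roots; it
divides `∏ (X - x j)`, so its degree is `n = [A(x i) : A]`, and `A(x i) ≤ B`. -/
theorem n_dvd {n : ℕ} (hn : 5 ≤ n) (x : Fin n → Ω) (hx : Function.Injective x)
    (A B : IntermediateField k Ω) (hA : coeffField k x ≤ A) (hAB : A ≤ B)
    (h1 : alternatingGroup (Fin n) ≤ Im x A) (i : Fin n) (hi : x i ∈ B) :
    n ∣ relfinrank A B := by
  obtain ⟨P, hP, hPn, hPx⟩ := n_dvd_poly x A hA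
  have hint : IsIntegral A (x i) := ⟨P, hP, hPx i⟩
  have h2 : (minpoly A (x i)).natDegree = n := by
    refine le_antisymm ?_ ?_
    · rw [← hPn]
      exact Polynomial.natDegree_le_of_dvd (minpoly.dvd A (x i) (hPx i)) hP.ne_zero
    · have h3 : ∀ j, Polynomial.aeval (x j) (minpoly A (x i)) = 0 := by
        intro j
        obtain ⟨π, hπ, hπi⟩ := n_dvd_trans hn i j
        obtain ⟨σ, hσ, hσx⟩ := h1 hπ
        let τ : Ω ≃ₐ[A] Ω := fixingSubgroupEquiv A ⟨σ, hσ⟩
        have h4 : τ (x i) = x j := by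
          rw [← hπi]
          exact hσx i
        rw [← h4, Polynomial.aeval_algHom_apply, minpoly.aeval, map_zero]
      classical
      have h5 : (Finset.univ.image x) ⊆
          ((minpoly A (x i)).map (algebraMap A Ω)).roots.toFinset := by
        intro y hy
        obtain ⟨j, -, rfl⟩ := Finset.mem_image.1 hy
        rw [Multiset.mem_toFinset, Polynomial.mem_roots', Polynomial.IsRoot.def,
          Polynomial.eval_map_algebraMap]
        exact ⟨Polynomial.map_ne_zero (minpoly.ne_zero hint), h3 j⟩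
      have h6 := Finset.card_le_card h5
      rw [Finset.card_image_of_injective _ hx, Finset.card_univ, Fintype.card_fin] at h6
      refine h6.trans ((Multiset.toFinset_card_le _).trans ?_)
      refine (Polynomial.card_roots' _).trans ?_
      rw [Polynomial.natDegree_map]
  by_cases h0 : relfinrank A B = 0
  · rw [h0]
    exact dvd_zero n
  rw [relfinrank_eq_finrank_of_le hAB] at h0 ⊢
  have hfd : FiniteDimensional A (extendScalars hAB) :=
    FiniteDimensional.of_finrank_pos (Nat.pos_of_ne_zero h0)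
  have h7 := minpoly.degree_dvd (K := A) (L := extendScalars hAB) (x := ⟨x i, hi⟩)
    (Algebra.IsIntegral.isIntegral _)
  rw [← minpoly.algebraMap_eq (algebraMap (extendScalars hAB) Ω).injective] at h7
  have h8 : algebraMap (extendScalars hAB) Ω ⟨x i, hi⟩ = x i := rfl
  rw [h8, h2] at h7
  exact h7

/-! ### RD-A6 -/

/-- An automorphism fixing `A` and the `x i` fixes `M`. -/
private theorem exists_action_fix {n : ℕ} (x : Fin n → Ω) (A M : IntermediateField k Ω)
    (hM : M = A ⊔ adjoin k (Set.range x)) (δ : Ω ≃ₐ[k] Ω) (hδ : δ ∈ A.fixingSubgroup)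
    (hx : ∀ i, δ (x i) = x i) : ∀ z ∈ M, δ z = z := by
  have h1 : A ⊔ adjoin k (Set.range x) ≤
      IntermediateField.fixedField (Subgroup.zpowers δ) := by
    have h2 : ∀ y : Ω, δ y = y → y ∈ IntermediateField.fixedField (Subgroup.zpowers δ) := by
      intro y hy
      rw [IntermediateField.mem_fixedField_iff]
      intro f hf
      have h5 : Subgroup.zpowers δ ≤ MulAction.stabilizer (Ω ≃ₐ[k] Ω) y := by
        rw [Subgroup.zpowers_le]
        exact hy
      exact h5 hf
    refine sup_le (fun y hy => h2 y ?_) ?_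
    · exact (IntermediateField.mem_fixingSubgroup_iff _ _).1 hδ _ hy
    · rw [IntermediateField.adjoin_le_iff]
      rintro _ ⟨i, rfl⟩
      exact h2 _ (hx i)
  intro z hz
  rw [hM] at hz
  have h6 := h1 hz
  rw [IntermediateField.mem_fixedField_iff] at h6
  exact h6 δ (Subgroup.mem_zpowers δ)

/-- Two automorphisms over `A` with the same values on the `x i` agree on `M`. -/
private theorem exists_action_agree {n : ℕ} (x : Fin n → Ω) (A M : IntermediateField k Ω)
    (hM : M = A ⊔ adjoin k (Set.range x)) (σ σ' : Ω ≃ₐ[k] Ω) (hσ : σ ∈ A.fixingSubgroup)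
    (hσ' : σ' ∈ A.fixingSubgroup) (hx : ∀ i, σ (x i) = σ' (x i)) : ∀ z ∈ M, σ z = σ' z := by
  intro z hz
  have h1 := exists_action_fix x A M hM (σ'⁻¹ * σ) (mul_mem (inv_mem hσ') hσ) (fun i => by
    rw [AlgEquiv.mul_apply, hx, ← AlgEquiv.mul_apply, inv_mul_cancel, AlgEquiv.one_apply]) z hz
  have h2 := congrArg σ' h1
  rw [← AlgEquiv.mul_apply, mul_inv_cancel_left] at h2
  exact h2

/-- An automorphism over `A` which permutes the `x i` maps `M` to itself. -/
private theorem exists_action_stable {n : ℕ} (x : Fin n → Ω) (A M : IntermediateField k Ω)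
    (hM : M = A ⊔ adjoin k (Set.range x)) (σ : Ω ≃ₐ[k] Ω) (hσ : σ ∈ A.fixingSubgroup)
    (hx : ∀ i, ∃ j, σ (x i) = x j) : ∀ z ∈ M, σ z ∈ M := by
  have hAM : A ≤ M := by
    rw [hM]
    exact le_sup_left
  have hLM : adjoin k (Set.range x) ≤ M := by
    rw [hM]
    exact le_sup_right
  have h3 : M ≤ M.comap (σ : Ω →ₐ[k] Ω) := by
    have h4 : A ⊔ adjoin k (Set.range x) ≤ M.comap (σ : Ω →ₐ[k] Ω) := by
      refine sup_le ?_ ?_
      · intro a ha
        change σ a ∈ M
        rw [(IntermediateField.mem_fixingSubgroup_iff _ _).1 hσ a ha]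
        exact hAM ha
      · rw [IntermediateField.adjoin_le_iff]
        rintro _ ⟨i, rfl⟩
        change σ (x i) ∈ M
        obtain ⟨j, hj⟩ := hx i
        rw [hj]
        exact hLM (IntermediateField.subset_adjoin _ _ ⟨_, rfl⟩)
    rwa [← hM] at h4
  exact fun z hz => h3 hz

/-- The restriction of an automorphism to `M`. -/
private def exists_action_res (M : IntermediateField k Ω) (σ : Ω ≃ₐ[k] Ω)
    (h : ∀ z ∈ M, σ z ∈ M) : M →ₐ[k] M :=
  ((σ : Ω →ₐ[k] Ω).comp M.val).codRestrict M.toSubalgebra fun z => h z z.2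

/-- RD-A6. For `π ∈ Im x A` choose `σ ∈ A.fixingSubgroup` inducing it; it maps `M = A ⊔ L` to itself and its
restriction depends only on `π` (an automorphism of `M` is determined by its values on `A` and the
`x i`). -/
theorem exists_action {n : ℕ} (x : Fin n → Ω) (A M : IntermediateField k Ω)
    (hM : M = A ⊔ adjoin k (Set.range x)) :
    ∃ Θ : Im x A →* (M ≃ₐ[k] M), ∀ (π : Im x A) (σ : Ω ≃ₐ[k] Ω), σ ∈ A.fixingSubgroup →
      (∀ i, σ (x i) = x ((π : Equiv.Perm (Fin n)) i)) → ∀ z : M, (Θ π z : Ω) = σ z := by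
  have hch : ∀ π : Im x A, ∃ σ : Ω ≃ₐ[k] Ω, σ ∈ A.fixingSubgroup ∧
      ∀ i, σ (x i) = x ((π : Equiv.Perm (Fin n)) i) := by
    intro π
    obtain ⟨σ, h1, h2⟩ := π.2
    exact ⟨σ, h1, h2⟩
  choose s hs1 hs2 using hch
  have hst : ∀ π : Im x A, ∀ z ∈ M, s π z ∈ M := fun π =>
    exists_action_stable x A M hM (s π) (hs1 π) fun i => ⟨_, hs2 π i⟩
  have hst' : ∀ π : Im x A, ∀ z ∈ M, (s π)⁻¹ z ∈ M := fun π =>
    exists_action_stable x A M hM (s π)⁻¹ (inv_mem (hs1 π)) fun i => by
      refine ⟨(π : Equiv.Perm (Fin n))⁻¹ i, ?_⟩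
      have h1 := hs2 π ((π : Equiv.Perm (Fin n))⁻¹ i)
      rw [show (π : Equiv.Perm (Fin n)) ((π : Equiv.Perm (Fin n))⁻¹ i) = i from
        (π : Equiv.Perm (Fin n)).apply_symm_apply i] at h1
      rw [← h1, ← AlgEquiv.mul_apply, inv_mul_cancel, AlgEquiv.one_apply]
  let T : Im x A → (M ≃ₐ[k] M) := fun π =>
    AlgEquiv.ofAlgHom (exists_action_res M (s π) (hst π)) (exists_action_res M (s π)⁻¹ (hst' π))
      (by
        apply AlgHom.ext
        intro z
        apply Subtype.ext
        change s π ((s π)⁻¹ (z : Ω)) = z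
        rw [← AlgEquiv.mul_apply, mul_inv_cancel, AlgEquiv.one_apply])
      (by
        apply AlgHom.ext
        intro z
        apply Subtype.ext
        change (s π)⁻¹ (s π (z : Ω)) = z
        rw [← AlgEquiv.mul_apply, inv_mul_cancel, AlgEquiv.one_apply])
  have hT : ∀ (π : Im x A) (z : M), (T π z : Ω) = s π z := fun π z => rfl
  have key : ∀ (π : Im x A) (σ : Ω ≃ₐ[k] Ω), σ ∈ A.fixingSubgroup →
      (∀ i, σ (x i) = x ((π : Equiv.Perm (Fin n)) i)) → ∀ z : M, (T π z : Ω) = σ z := by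
    intro π σ hσ hx z
    rw [hT]
    exact exists_action_agree x A M hM (s π) σ (hs1 π) hσ (fun i => by rw [hs2, hx]) z z.2
  refine ⟨⟨⟨T, ?_⟩, ?_⟩, key⟩
  · apply AlgEquiv.ext
    intro z
    apply Subtype.ext
    rw [key 1 1 (one_mem _) (fun i => rfl) z]
    rfl
  · intro π π'
    apply AlgEquiv.ext
    intro z
    apply Subtype.ext
    change (T (π * π') z : Ω) = (T π (T π' z) : Ω)
    rw [key (π * π') (s π * s π') (mul_mem (hs1 π) (hs1 π')) ?_ z, hT, hT]
    · rfl
    · intro i
      rw [AlgEquiv.mul_apply, hs2, hs2]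
      rfl

/-- the field `adjoin k (range x)` computed in `M` -/
private theorem bound_mem {n : ℕ} (x : Fin n → Ω) (M : IntermediateField k Ω)
    (x' : Fin n → M) (hx' : ∀ i, (x' i : Ω) = x i) (z : M) :
    z ∈ adjoin k (Set.range x') ↔ (z : Ω) ∈ adjoin k (Set.range x) := by
  have h1 : (adjoin k (Set.range x')).map M.val = adjoin k (Set.range x) := by
    rw [adjoin_map]
    congr 1
    ext y
    constructor
    · rintro ⟨_, ⟨i, rfl⟩, rfl⟩
      exact ⟨i, (hx' i).symm⟩
    · rintro ⟨i, rfl⟩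
      exact ⟨x' i, ⟨i, rfl⟩, hx' i⟩
  rw [← h1]
  constructor
  · intro hz
    exact ⟨z, hz, rfl⟩
  · rintro ⟨y, hy, hyz⟩
    have h2 : y = z := Subtype.ext hyz
    rw [← h2]
    exact hy

/-- the degree of `M` over `L`, computed with a copy `P` of `L` in `M` over another base field -/
private theorem bound_finrank (L M : IntermediateField k Ω) (hLM : L ≤ M) {κ : Type*} [Field κ]
    [Algebra κ M] (P : IntermediateField κ M) (hP : ∀ z : M, z ∈ P ↔ (z : Ω) ∈ L) :
    Module.finrank P M = relfinrank L M := by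
  rw [relfinrank_eq_finrank_of_le hLM]
  let i : P ≃+* L :=
    { toFun := fun z => ⟨((z : M) : Ω), (hP z).1 z.2⟩
      invFun := fun z => ⟨⟨z, hLM z.2⟩, (hP _).2 z.2⟩
      left_inv := fun z => rfl
      right_inv := fun z => rfl
      map_mul' := fun z w => rfl
      map_add' := fun z w => rfl }
  let j : M ≃+* extendScalars hLM :=
    { toFun := fun z => ⟨(z : Ω), z.2⟩
      invFun := fun z => ⟨(z : Ω), z.2⟩
      left_inv := fun z => rfl
      right_inv := fun z => rfl
      map_mul' := fun z w => rfl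
      map_add' := fun z w => rfl }
  exact Algebra.finrank_eq_of_equiv_equiv i j (by
    ext z
    rfl)

private theorem bound_tr_zero {p s c m n : ℕ} (β : (Fin s × (Fin c → ZMod p)) ⊕ Fin m ≃ Fin n) :
    tr β (0 : Fin s × Fin c → ZMod p) = 1 := by
  have h := tr_add β (0 : Fin s × Fin c → ZMod p) 0
  rw [add_zero] at h
  exact mul_left_cancel (h.symm.trans (mul_one _).symm)

/-- the translations, as a homomorphism to a group of permutations that contains them -/
private def bound_tr {p s c m n : ℕ} (β : (Fin s × (Fin c → ZMod p)) ⊕ Fin m ≃ Fin n)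
    (G : Subgroup (Equiv.Perm (Fin n))) (h : ∀ v, tr β v ∈ G) :
    Multiplicative (Fin s × Fin c → ZMod p) →* G where
  toFun v := ⟨tr β v.toAdd, h _⟩
  map_one' := Subtype.ext (bound_tr_zero β)
  map_mul' v w := Subtype.ext (tr_add β v.toAdd w.toAdd)

/-- RD-A6 (uses `exists_field`, `exists_action`, `coords`, `kummer`, `tr_inl`, `tr_inr`, `tr_add`).
`M = A ⊔ L`, `ψ v = Θ ⟨tr β v, _⟩`, `x' i = ⟨x i, _⟩ : M`, algebraically independent; `coords` gives `κ`, `y`;
`adjoin κ (range y)` is the copy of `L` in `M`, so `[M : κ(y)] = relfinrank L (A ⊔ L)`, different from `0`.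
`E'` from `exists_field`, as a subfield of `M`; faithful: if `ψ v` is trivial on `E'`, then
`x (tr β v i) = x i` for all `i`, so `bl v j = 0` for all `j`, `v = 0`. -/
theorem bound [IsAlgClosed k] [IsAlgClosed Ω] [CharZero k] {n : ℕ} (hn : 5 ≤ n) (x : Fin n → Ω)
    (hx : AlgebraicIndependent k x) (hΩ : Algebra.IsAlgebraic (adjoin k (Set.range x)) Ω)
    (d : ℕ) (A B : IntermediateField k Ω) (hA : coeffField k x ≤ A)
    (hA0 : relfinrank (coeffField k x) A ≠ 0) (hst : Step d A B)
    (h1 : alternatingGroup (Fin n) ≤ Im x A) (h2 : ¬ alternatingGroup (Fin n) ≤ Im x B)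
    (p s c m : ℕ) [Fact p.Prime] (β : (Fin s × (Fin c → ZMod p)) ⊕ Fin m ≃ Fin n)
    (hβ : ∀ v, tr β v ∈ alternatingGroup (Fin n)) :
    s * c ≤ d + padicValNat p
      (relfinrank (adjoin k (Set.range x)) (A ⊔ adjoin k (Set.range x))) := by
  obtain ⟨E', hE'M, hTD, hstab, hfaith⟩ := exists_field hn x hx hΩ d A B hA hst h1 h2
  have hdvd := acc_dvd x hx hΩ A hA hA0
  obtain ⟨M, hM⟩ : ∃ M : IntermediateField k Ω, M = A ⊔ adjoin k (Set.range x) := ⟨_, rfl⟩
  obtain ⟨Θ, hΘ⟩ := exists_action x A M hM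
  rw [← hM] at hE'M hdvd ⊢
  have hLM : adjoin k (Set.range x) ≤ M := by
    rw [hM]
    exact le_sup_right
  have : NeZero (p : k) := ⟨Nat.cast_ne_zero.2 (Fact.out : p.Prime).ne_zero⟩
  obtain ⟨ζ, hζ⟩ := HasEnoughRootsOfUnity.exists_primitiveRoot k p
  let ψ : Multiplicative (Fin s × Fin c → ZMod p) →* (M ≃ₐ[k] M) :=
    Θ.comp (bound_tr β (Im x A) fun v => h1 (hβ v))
  let x' : Fin n → M := fun i => ⟨x i, hLM (subset_adjoin k _ ⟨i, rfl⟩)⟩
  have hx' : AlgebraicIndependent k x' := AlgebraicIndependent.of_comp M.val hx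
  have hσ : ∀ v : Fin s × Fin c → ZMod p, ∃ σ ∈ A.fixingSubgroup, (∀ i, σ (x i) = x (tr β v i)) ∧
      ∀ z : M, (ψ (Multiplicative.ofAdd v) z : Ω) = σ z := by
    intro v
    obtain ⟨σ, hσ1, hσ2⟩ := h1 (hβ v)
    exact ⟨σ, hσ1, hσ2, fun z => hΘ ⟨tr β v, h1 (hβ v)⟩ σ hσ1 hσ2 z⟩
  have hψx : ∀ (v : Fin s × Fin c → ZMod p) (i : Fin n),
      ψ (Multiplicative.ofAdd v) (x' i) = x' (tr β v i) := by
    intro v i
    obtain ⟨σ, hσ1, hσ2, hσ3⟩ := hσ v
    apply Subtype.ext
    rw [hσ3]
    exact hσ2 i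
  obtain ⟨κ, y, hκ, hy, hind, hmem⟩ := coords ζ hζ β x' hx' ψ
    (fun v j b => by rw [hψx, tr_inl]) (fun v l => by rw [hψx, tr_inr])
  have hfr : Module.finrank (adjoin κ (Set.range y)) M = relfinrank (adjoin k (Set.range x)) M :=
    bound_finrank (adjoin k (Set.range x)) M hLM (adjoin κ (Set.range y)) fun z =>
      (hmem z).trans (bound_mem x M x' (fun i => rfl) z)
  have hfd : FiniteDimensional (adjoin κ (Set.range y)) M := by
    apply FiniteDimensional.of_finrank_pos
    rw [hfr]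
    exact Nat.pos_of_ne_zero hdvd.1
  have key := kummer p ζ hζ ψ κ hκ y hy hind hfd (E'.comap M.val) (fun v z hz => by
      obtain ⟨σ, hσ1, hσ2, hσ3⟩ := hσ v.toAdd
      change (ψ v z : Ω) ∈ E'
      have h3 := hσ3 z
      rw [ofAdd_toAdd] at h3
      rw [h3]
      exact hstab σ hσ1 _ hz) (fun v hv => by
      obtain ⟨σ, hσ1, hσ2, hσ3⟩ := hσ v.toAdd
      rw [ofAdd_toAdd] at hσ3
      have h3 := hfaith σ hσ1 (fun z hz => by
        have h4 := hv ⟨z, hE'M hz⟩ hz
        have h5 := hσ3 ⟨z, hE'M hz⟩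
        rw [h4] at h5
        exact h5.symm)
      have h4 : v.toAdd = 0 := by
        funext ⟨j, i⟩
        have h5 := h3 (β (Sum.inl (j, 0)))
        rw [hσ2, tr_inl] at h5
        have h6 := β.injective (hx.injective h5)
        rw [zero_add] at h6
        have h7 := congrArg Prod.snd (Sum.inl.inj h6)
        exact congrFun h7 i
      exact toAdd_eq_zero.1 h4) d
      (TD.of_map M.val (S' := (E' : Set Ω)) (fun z hz => hz) hTD)
  rw [Fintype.card_prod, Fintype.card_fin, Fintype.card_fin, hfr] at key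
  exact key

end Pool.Agent.Helper15.RD
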