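import Pool.Agent.Helper15.RD.St

/-!
# Project RD, block K: the Kummer argument

`V = (ℤ/p)^ι` acts on `M` (`ψ`), `y j` are eigenvectors, algebraically independent over the fixed field
`κ`, `M` finite over `κ(y)`; `E'` a stable subfield of transcendence degree at most `d` on which `V` acts
faithfully. Then `card ι ≤ d + v_p [M : κ(y)]`.
-/

set_option autoImplicit false

namespace Pool.Agent.Helper15.RD

open IntermediateField

universe u v

/-- RD-K1. Artin: `ψ` is injective (`y j ≠ 0`), its range is a group of `p ^ card ι` automorphisms of `M`,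
`N` its fixed field (`FixedPoints.intermediateField`, `IntermediateField.fixedField`,
`FixedPoints.finrank_eq_card`). -/
theorem artin {k : Type v} {M : Type u} [Field k] [Field M] [Algebra k M] {ι : Type}
    [Fintype ι] [DecidableEq ι] (p : ℕ) [Fact p.Prime]
    (ψ : Multiplicative (ι → ZMod p) →* (M ≃ₐ[k] M)) (hψ : Function.Injective ψ) :
    ∃ N : IntermediateField k M, (∀ z, z ∈ N ↔ ∀ v, ψ v z = z) ∧ FiniteDimensional N M ∧
      Module.finrank N M = p ^ Fintype.card ι := by
  let e : Multiplicative (ι → ZMod p) ≃* ψ.range := MonoidHom.ofInjective hψ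
  have : Finite ψ.range := Finite.of_equiv _ e.toEquiv
  have := Fintype.ofFinite ψ.range
  refine ⟨fixedField ψ.range, fun z => ?_, ?_, ?_⟩
  · rw [mem_fixedField_iff]
    constructor
    · intro h v
      exact h (ψ v) ⟨v, rfl⟩
    · rintro h _ ⟨v, rfl⟩
      exact h v
  · have h : FiniteDimensional (FixedPoints.subfield ψ.range M) M := inferInstance
    exact h
  · have h : Module.finrank (FixedPoints.subfield ψ.range M) M = Fintype.card ψ.range :=
      FixedPoints.finrank_eq_card ψ.range M
    have h2 : Fintype.card ψ.range = p ^ Fintype.card ι := by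
      rw [Fintype.card_congr e.toEquiv.symm, Fintype.card_multiplicative, Fintype.card_fun,
        ZMod.card]
    exact h.trans h2

theorem kummer_degree_li {κ M : Type u} [Field κ] [Field M] [Algebra κ M] {ι : Type} [Fintype ι]
    (p : ℕ) (hp : 0 < p) (y : ι → M) (hy : AlgebraicIndependent κ y) :
    LinearIndependent (Algebra.adjoin κ (Set.range fun j => y j ^ p))
      (fun a : ι → Fin p => ∏ j, y j ^ (a j : ℕ)) := by
  classical
  rw [Fintype.linearIndependent_iff]
  intro g hg a0
  have h1 : ∀ a, ∃ P : MvPolynomial ι κ, MvPolynomial.aeval (fun j => y j ^ p) P = (g a : M) := by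
    intro a
    have h2 : (g a : M) ∈ (MvPolynomial.aeval (R := κ) fun j => y j ^ p).range := by
      rw [← Algebra.adjoin_range_eq_range_aeval]
      exact (g a).2
    exact h2
  choose P hP using h1
  have h3 : ∀ a : ι → Fin p, MvPolynomial.aeval y
      (MvPolynomial.monomial (Finsupp.equivFunOnFinite.symm fun j => (a j : ℕ)) (1 : κ)) =
      ∏ j, y j ^ (a j : ℕ) := by
    intro a
    rw [MvPolynomial.aeval_monomial, map_one, one_mul, Finsupp.prod_fintype _ _ (by simp)]
    simp
  have h4 : MvPolynomial.aeval y (∑ a : ι → Fin p, MvPolynomial.expand p (P a) *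
      MvPolynomial.monomial (Finsupp.equivFunOnFinite.symm fun j => (a j : ℕ)) (1 : κ)) = 0 := by
    rw [map_sum, ← hg]
    refine Finset.sum_congr rfl fun a _ => ?_
    rw [map_mul, h3, MvPolynomial.aeval_expand, Algebra.smul_def]
    congr 1
    exact hP a
  have h5 := hy (h4.trans (map_zero _).symm)
  have h6 : P a0 = 0 := by
    ext b
    have h7 := congrArg (MvPolynomial.coeff
      (p • b + Finsupp.equivFunOnFinite.symm fun j => (a0 j : ℕ))) h5
    rw [MvPolynomial.coeff_sum, Finset.sum_eq_single a0, MvPolynomial.coeff_mul_monomial,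
      MvPolynomial.coeff_expand_smul _ hp.ne', mul_one] at h7
    · exact h7
    · intro a _ ha
      obtain ⟨i, hi⟩ := Function.ne_iff.1 ha
      rw [MvPolynomial.coeff_mul_monomial']
      split_ifs with hle
      · rw [MvPolynomial.coeff_expand_of_not_dvd (i := i), zero_mul]
        intro hd
        have h8 := hle i
        simp only [Finsupp.coe_add, Finsupp.coe_smul, Pi.add_apply, Pi.smul_apply, smul_eq_mul,
          Finsupp.equivFunOnFinite_symm_apply_apply, Finsupp.coe_tsub, Pi.sub_apply] at h8 hd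
        apply hi
        apply Fin.ext
        have h9 := (a i).2
        have h10 := (a0 i).2
        have h11 : (p * b i + (a0 i : ℕ)) ≡ (a i : ℕ) [MOD p] := 
          ((Nat.modEq_iff_dvd' h8).2 hd).symm
        have h12 : (p * b i + (a0 i : ℕ)) ≡ (a0 i : ℕ) [MOD p] := by
          simp [Nat.ModEq]
        have h13 := h11.symm.trans h12
        rwa [Nat.ModEq, Nat.mod_eq_of_lt h9, Nat.mod_eq_of_lt h10] at h13
      · rfl
    · intro h
      exact absurd (Finset.mem_univ _) h
  apply Subtype.ext
  rw [← hP a0, h6, map_zero]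
  rfl

theorem kummer_degree_span {A M : Type*} [Field A] [Field M] [Algebra A M] {ι : Type*} [Fintype ι]
    (p : ℕ) (hp : 0 < p) (y : ι → M) (hc : ∀ j, ∃ c : A, algebraMap A M c = y j ^ p) :
    Subalgebra.toSubmodule (Algebra.adjoin A (Set.range y)) =
      Submodule.span A (Set.range fun a : ι → Fin p => ∏ j, y j ^ (a j : ℕ)) := by
  classical
  apply le_antisymm
  · rw [Algebra.adjoin_eq_span, Submodule.span_le]
    intro x hx
    induction hx using Submonoid.closure_induction_left with
    | one =>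
      refine Submodule.subset_span ⟨fun _ => ⟨0, hp⟩, ?_⟩
      simp
    | mul_left x hx z hzc hz =>
      obtain ⟨j, rfl⟩ := hx
      have hz' : z ∈ Submodule.span A (Set.range fun a : ι → Fin p => ∏ j, y j ^ (a j : ℕ)) := hz
      change y j * z ∈ Submodule.span A (Set.range fun a : ι → Fin p => ∏ j, y j ^ (a j : ℕ))
      clear hz hzc
      induction hz' using Submodule.span_induction with
      | zero => rw [mul_zero]; exact Submodule.zero_mem _
      | add u v _ _ hu hv => rw [mul_add]; exact Submodule.add_mem _ hu hv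
      | smul c u _ hu => rw [mul_smul_comm]; exact Submodule.smul_mem _ _ hu
      | mem u hu =>
        obtain ⟨a, rfl⟩ := hu
        have key : ∀ (v : Fin p), ∏ i, y i ^ ((Function.update a j v) i : ℕ) =
            (∏ i ∈ Finset.univ.erase j, y i ^ (a i : ℕ)) * y j ^ (v : ℕ) := by
          intro v
          rw [← Finset.prod_erase_mul _ _ (Finset.mem_univ j), Function.update_self]
          congr 1
          refine Finset.prod_congr rfl fun i hi => ?_
          rw [Function.update_of_ne (Finset.ne_of_mem_erase hi)]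
        have key0 : ∏ i, y i ^ (a i : ℕ) =
            (∏ i ∈ Finset.univ.erase j, y i ^ (a i : ℕ)) * y j ^ (a j : ℕ) :=
          (Finset.prod_erase_mul _ _ (Finset.mem_univ j)).symm
        change y j * ∏ i, y i ^ (a i : ℕ) ∈ _
        by_cases h : (a j : ℕ) + 1 < p
        · refine Submodule.subset_span ⟨Function.update a j ⟨(a j : ℕ) + 1, h⟩, ?_⟩
          change ∏ i, y i ^ ((Function.update a j ⟨(a j : ℕ) + 1, h⟩) i : ℕ) = _
          rw [key, key0, pow_succ]
          ring
        · have h1 : (a j : ℕ) + 1 = p := le_antisymm (a j).2 (not_lt.1 h)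
          obtain ⟨c, hc⟩ := hc j
          have h2 : y j * ∏ i, y i ^ (a i : ℕ) =
              c • ∏ i, y i ^ ((Function.update a j ⟨0, hp⟩) i : ℕ) := by
            have h3 : y j ^ p = y j ^ (a j : ℕ) * y j := by rw [← pow_succ, h1]
            rw [key, key0, Algebra.smul_def, hc, h3]
            simp only [pow_zero]
            ring
          rw [h2]
          exact Submodule.smul_mem _ _ (Submodule.subset_span ⟨_, rfl⟩)
  · rw [Submodule.span_le]
    rintro _ ⟨a, rfl⟩
    change ∏ i, y i ^ (a i : ℕ) ∈ Algebra.adjoin A (Set.range y)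
    exact Subalgebra.prod_mem _ fun i _ =>
      Subalgebra.pow_mem _ (Algebra.subset_adjoin (Set.mem_range_self i)) _

open scoped IntermediateField.algebraAdjoinAdjoin in
/-- RD-K2. `L = κ(y)` over `κ(t)`, `t j = y j ^ p`, has degree `p ^ card ι`: it is generated by roots of
`X ^ p - t j` (degree at most `p ^ card ι`, one step at a time), and the monomials `y ^ a`,
`0 ≤ a j < p`, are linearly independent over `κ(t)`: multiply a relation by a common denominator, so that
the coefficients are polynomials in `t`; the monomials `t ^ b y ^ a = y ^ (p b + a)` are distinct. -/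
theorem kummer_degree {κ M : Type u} [Field κ] [Field M] [Algebra κ M] {ι : Type} [Fintype ι]
    (p : ℕ) [Fact p.Prime] (y : ι → M) (hy : AlgebraicIndependent κ y) :
    relfinrank (adjoin κ (Set.range fun j => y j ^ p)) (adjoin κ (Set.range y)) =
      p ^ Fintype.card ι := by
  classical
  have hp : 0 < p := (Fact.out : p.Prime).pos
  have hle : adjoin κ (Set.range fun j => y j ^ p) ≤ adjoin κ (Set.range y) := by
    rw [adjoin_le_iff]
    rintro _ ⟨j, rfl⟩
    exact pow_mem (subset_adjoin κ _ (Set.mem_range_self j)) _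
  rw [relfinrank_eq_finrank_of_le hle, extendScalars_adjoin]
  set A := adjoin κ (Set.range fun j => y j ^ p) with hA
  have hc : ∀ j, ∃ c : A, algebraMap A M c = y j ^ p := fun j =>
    ⟨⟨y j ^ p, subset_adjoin κ _ (Set.mem_range_self j)⟩, rfl⟩
  have hint : ∀ x ∈ Set.range y, IsAlgebraic A x := by
    rintro _ ⟨j, rfl⟩
    obtain ⟨c, hc⟩ := hc j
    have h1 : IsIntegral A (y j ^ p) := by rw [← hc]; exact isIntegral_algebraMap
    exact (IsIntegral.of_pow hp h1).isAlgebraic
  have h1 : Module.finrank A (adjoin A (Set.range y)) =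
      Module.finrank A (Subalgebra.toSubmodule (Algebra.adjoin A (Set.range y))) := by
    rw [← adjoin_toSubalgebra_of_isAlgebraic hint]
    rfl
  rw [h1, kummer_degree_span p hp y hc]
  have h2 : LinearIndependent A (fun a : ι → Fin p => ∏ j, y j ^ (a j : ℕ)) :=
    (LinearIndependent.iff_fractionRing
      (Algebra.adjoin κ (Set.range fun j => y j ^ p)) A).1 (kummer_degree_li p hp y hy)
  rw [finrank_span_eq_card h2]
  simp

/-- RD-K2. `t ^ p`-version of independence. -/
theorem pow_independent {κ M : Type*} [Field κ] [Field M] [Algebra κ M] {ι : Type*}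
    (p : ℕ) (hp : 0 < p) (y : ι → M) (hy : AlgebraicIndependent κ y) :
    AlgebraicIndependent κ (fun j => y j ^ p) := by
  have h : (MvPolynomial.aeval (fun j => y j ^ p) : MvPolynomial ι κ →ₐ[κ] M) =
      (MvPolynomial.aeval y).comp (MvPolynomial.expand p) := by
    ext j
    simp
  rw [AlgebraicIndependent, h, AlgHom.coe_comp]
  exact Function.Injective.comp (show Function.Injective _ from hy)
    (MvPolynomial.expand_injective hp)

/-- RD-K3. The operator `∑ v, χ (v)⁻¹ ψ (v)` with `χ (v) = ζ ^ (∑ j, a j * v j)` maps `E'` to itself; it is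
not zero on `E'`, because the restrictions of the `ψ v` to `E'` are different (faithfulness) and
different automorphisms are linearly independent (`linearIndependent_monoidHom`). A nonzero value `e` of
it satisfies `ψ (v) e = χ (v) e`. -/
theorem eigen {k : Type v} {M : Type u} [Field k] [Field M] [Algebra k M] {ι : Type}
    [Fintype ι] [DecidableEq ι] (p : ℕ) [Fact p.Prime] (ζ : k) (hζ : IsPrimitiveRoot ζ p)
    (ψ : Multiplicative (ι → ZMod p) →* (M ≃ₐ[k] M)) (E' : IntermediateField k M)
    (hst : ∀ v, ∀ z ∈ E', ψ v z ∈ E') (hf : ∀ v, (∀ z ∈ E', ψ v z = z) → v = 1)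
    (a : ι → ZMod p) :
    ∃ e ∈ E', e ≠ 0 ∧ ∀ v : ι → ZMod p,
      ψ (Multiplicative.ofAdd v) e = algebraMap k M (ζ ^ (∑ j, a j * v j).val) * e := by
  classical
  have hp : (p : ℕ) ≠ 0 := (Fact.out : p.Prime).ne_zero
  have hζ0 : ζ ≠ 0 := hζ.ne_zero hp
  set c : (ι → ZMod p) → k := fun v => ζ ^ (∑ j, a j * v j).val with hc
  have hc0 : ∀ v, c v ≠ 0 := fun v => pow_ne_zero _ hζ0
  have hcadd : ∀ v w, c (v + w) = c v * c w := by
    intro v w
    simp only [hc]
    have e1 : ∑ j, a j * (v + w) j = ∑ j, a j * v j + ∑ j, a j * w j := by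
      rw [← Finset.sum_add_distrib]
      refine Finset.sum_congr rfl fun j _ => ?_
      rw [Pi.add_apply]
      ring
    rw [e1, ZMod.val_add, ← pow_add]
    exact (pow_eq_pow_mod _ hζ.pow_eq_one).symm
  -- the restrictions of the automorphisms
  let f : (ι → ZMod p) → (E' →* M) := fun v =>
    ((ψ (Multiplicative.ofAdd v) : M ≃ₐ[k] M) : M →* M).comp (E'.val : E' →* M)
  have hfv : ∀ v (z : E'), f v z = ψ (Multiplicative.ofAdd v) (z : M) := fun v z => rfl
  have hfinj : Function.Injective f := by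
    intro v w hvw
    have h1 : (Multiplicative.ofAdd w)⁻¹ * Multiplicative.ofAdd v = 1 := by
      refine hf _ fun z hz => ?_
      have h2 : f v ⟨z, hz⟩ = f w ⟨z, hz⟩ := by rw [hvw]
      rw [hfv, hfv] at h2
      simp only at h2
      rw [map_mul, map_inv, AlgEquiv.mul_apply, h2]
      exact (ψ (Multiplicative.ofAdd w)).symm_apply_apply z
    have h3 : Multiplicative.ofAdd v = Multiplicative.ofAdd w := by
      rw [inv_mul_eq_one] at h1
      exact h1.symm
    exact Multiplicative.ofAdd.injective h3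
  have hli : LinearIndependent M (fun v => (f v : E' → M)) :=
    (linearIndependent_monoidHom E' M).comp f hfinj
  -- the operator
  set T : M → M := fun z => ∑ v : ι → ZMod p,
    algebraMap k M (c v)⁻¹ * ψ (Multiplicative.ofAdd v) z with hT
  have hne : ∃ z ∈ E', T z ≠ 0 := by
    by_contra hcon
    push Not at hcon
    have h1 : ∑ v : ι → ZMod p, (algebraMap k M (c v)⁻¹) • (f v : E' → M) = 0 := by
      funext z
      rw [Finset.sum_apply, Pi.zero_apply]
      simp only [Pi.smul_apply, smul_eq_mul, hfv]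
      exact hcon z z.2
    have h2 := Fintype.linearIndependent_iff.1 hli (fun v => algebraMap k M (c v)⁻¹) h1 0
    rw [map_eq_zero] at h2
    exact inv_ne_zero (hc0 0) h2
  obtain ⟨z, hz, hTz⟩ := hne
  refine ⟨T z, ?_, hTz, fun w => ?_⟩
  · rw [hT]
    refine sum_mem fun v _ => mul_mem (E'.algebraMap_mem _) (hst _ z hz)
  · have e1 : ψ (Multiplicative.ofAdd w) (T z) = ∑ v : ι → ZMod p,
        algebraMap k M (c v)⁻¹ * ψ (Multiplicative.ofAdd (w + v)) z := by
      rw [hT]
      simp only [map_sum, map_mul, AlgEquiv.commutes]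
      refine Finset.sum_congr rfl fun v _ => ?_
      rw [ofAdd_add, map_mul, AlgEquiv.mul_apply]
    have e2 : ∑ v : ι → ZMod p, algebraMap k M (c v)⁻¹ * ψ (Multiplicative.ofAdd (w + v)) z =
        ∑ v : ι → ZMod p, algebraMap k M (c (v - w))⁻¹ * ψ (Multiplicative.ofAdd v) z := by
      rw [← Equiv.sum_comp (Equiv.addLeft w) (fun v : ι → ZMod p =>
        algebraMap k M (c (v - w))⁻¹ * ψ (Multiplicative.ofAdd v) z)]
      refine Finset.sum_congr rfl fun v _ => ?_
      rw [Equiv.coe_addLeft, add_sub_cancel_left]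
    rw [e1, e2, hT, Finset.mul_sum]
    refine Finset.sum_congr rfl fun v _ => ?_
    have e3 : (c (v - w))⁻¹ = c w * (c v)⁻¹ := by
      have h3 : c v = c (v - w) * c w := by rw [← hcadd, sub_add_cancel]
      rw [h3, mul_inv]
      have := hc0 w
      field_simp
    rw [e3, map_mul, mul_assoc]

/-- RD-K4 (uses `artin`, `kummer_degree`, `pow_independent`). `N` = the fixed field, `κ ≤ N`, made a
`κ`-algebra by the inclusion; `t j = ⟨y j ^ p, _⟩ ∈ N` (`(ζ^..)^p = 1`). `AlgebraicIndependent κ t` (the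
inclusion of `N` in `M` is injective), and with `R = κ(t)`, `L = κ(y)`:
`[M : L] [L : R] = [M : R] = [M : N] [N : R]`, `[L : R] = p ^ card ι = [M : N]`. -/
theorem fixed_degree {k : Type v} {M : Type u} [Field k] [Field M] [Algebra k M] {ι : Type}
    [Fintype ι] [DecidableEq ι] (p : ℕ) [Fact p.Prime] (ζ : k) (hζ : IsPrimitiveRoot ζ p)
    (ψ : Multiplicative (ι → ZMod p) →* (M ≃ₐ[k] M)) (κ : IntermediateField k M)
    (hκ : ∀ v, ∀ z ∈ κ, ψ v z = z) (y : ι → M)
    (hy : ∀ (v : ι → ZMod p) (j : ι),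
      ψ (Multiplicative.ofAdd v) (y j) = algebraMap k M (ζ ^ (v j).val) * y j)
    (hind : AlgebraicIndependent κ y) (hfd : FiniteDimensional (adjoin κ (Set.range y)) M) :
    ∃ (N : IntermediateField k M) (hN : κ ≤ N) (t : ι → N), (∀ z, z ∈ N ↔ ∀ v, ψ v z = z) ∧
      (∀ j, (t j : M) = y j ^ p) ∧
      letI : Algebra κ N := (IntermediateField.inclusion hN).toAlgebra
      AlgebraicIndependent κ t ∧ FiniteDimensional (adjoin κ (Set.range t)) N ∧
      Module.finrank (adjoin κ (Set.range t)) N = Module.finrank (adjoin κ (Set.range y)) M := by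
  have hp : p.Prime := Fact.out
  have hy0 : ∀ j, y j ≠ 0 := fun j => hind.ne_zero j
  have hinj : Function.Injective ψ := by
    rw [injective_iff_map_eq_one]
    intro v hv
    have h1 : ∀ j, (Multiplicative.toAdd v) j = 0 := by
      intro j
      have h2 := hy (Multiplicative.toAdd v) j
      rw [ofAdd_toAdd, hv, AlgEquiv.one_apply] at h2
      have h3 : algebraMap k M (ζ ^ ((Multiplicative.toAdd v) j).val) = 1 := by
        have h4 := h2.symm
        rwa [mul_eq_right₀ (hy0 j)] at h4
      rw [← map_one (algebraMap k M)] at h3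
      have h5 := (algebraMap k M).injective h3
      have h6 := hζ.dvd_of_pow_eq_one _ h5
      have h7 := Nat.eq_zero_of_dvd_of_lt h6 (ZMod.val_lt _)
      exact (ZMod.val_eq_zero _).1 h7
    exact Multiplicative.toAdd.injective (funext h1)
  obtain ⟨N, hNz, hNf, hNr⟩ := artin p ψ hinj
  have hN : κ ≤ N := fun z hz => (hNz z).2 fun v => hκ v z hz
  have ht : ∀ j, y j ^ p ∈ N := by
    intro j
    rw [hNz]
    intro v
    have h1 := hy (Multiplicative.toAdd v) j
    rw [ofAdd_toAdd] at h1
    rw [map_pow, h1, mul_pow, ← map_pow, ← pow_mul, mul_comm (ZMod.val _) p, pow_mul,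
      hζ.pow_eq_one, one_pow, map_one, one_mul]
  refine ⟨N, hN, fun j => ⟨y j ^ p, ht j⟩, hNz, fun j => rfl, ?_⟩
  let _ : Algebra κ N := (IntermediateField.inclusion hN).toAlgebra
  have htow : IsScalarTower κ N M := IsScalarTower.of_algebraMap_eq fun x => rfl
  let φ : N →ₐ[κ] M := IsScalarTower.toAlgHom κ N M
  have hφ : ∀ x : N, φ x = (x : M) := fun x => rfl
  have himg : φ '' (Set.range fun j : ι => (⟨y j ^ p, ht j⟩ : N)) = Set.range fun j => y j ^ p := by
    ext z
    constructor
    · rintro ⟨_, ⟨j, rfl⟩, rfl⟩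
      exact ⟨j, rfl⟩
    · rintro ⟨j, rfl⟩
      exact ⟨_, ⟨j, rfl⟩, rfl⟩
  have hmap : (adjoin κ (Set.range fun j : ι => (⟨y j ^ p, ht j⟩ : N))).map φ =
      adjoin κ (Set.range fun j => y j ^ p) := by
    rw [adjoin_map, himg]
  have hind2 : AlgebraicIndependent κ (fun j : ι => (⟨y j ^ p, ht j⟩ : N)) := by
    have h1 := pow_independent p hp.pos y hind
    exact AlgebraicIndependent.of_comp φ h1
  have hle : adjoin κ (Set.range fun j => y j ^ p) ≤ adjoin κ (Set.range y) := by
    rw [adjoin_le_iff]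
    rintro _ ⟨j, rfl⟩
    exact pow_mem (subset_adjoin κ (Set.range y) (Set.mem_range_self j)) p
  have hdeg : Module.finrank (adjoin κ (Set.range fun j => y j ^ p)) M =
      p ^ Fintype.card ι * Module.finrank (adjoin κ (Set.range y)) M := by
    rw [← relfinrank_mul_finrank_top hle, kummer_degree p y hind]
  have hdeg2 : Module.finrank (adjoin κ (Set.range fun j : ι => (⟨y j ^ p, ht j⟩ : N))) M =
      Module.finrank (adjoin κ (Set.range fun j => y j ^ p)) M := by
    rw [← hmap]
    exact Algebra.finrank_eq_of_equiv_equiv (equivMap _ φ).toRingEquiv (RingEquiv.refl M) (by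
      ext x
      rfl)
  have hdeg3 : Module.finrank (adjoin κ (Set.range fun j : ι => (⟨y j ^ p, ht j⟩ : N))) N *
      Module.finrank N M = Module.finrank (adjoin κ (Set.range fun j : ι => (⟨y j ^ p, ht j⟩ : N))) M :=
    Module.finrank_mul_finrank _ _ _
  have hpos : 0 < p ^ Fintype.card ι := pow_pos hp.pos _
  have hfin : Module.finrank (adjoin κ (Set.range fun j : ι => (⟨y j ^ p, ht j⟩ : N))) N =
      Module.finrank (adjoin κ (Set.range y)) M := by
    have h1 := hdeg3
    rw [hdeg2, hdeg, hNr, mul_comm] at h1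
    exact Nat.eq_of_mul_eq_mul_left hpos h1
  refine ⟨hind2, ?_, hfin⟩
  refine FiniteDimensional.of_finrank_pos ?_
  rw [hfin]
  exact Module.finrank_pos

/-- RD-K5. Powers of `ζ` depend only on the exponent modulo `p`. -/
private theorem kummer_zeta {k : Type v} [Field k] (p : ℕ) [Fact p.Prime] (ζ : k)
    (hζ : IsPrimitiveRoot ζ p) (a : ℤ) (n : ℕ) (h : (a : ZMod p) = n) : ζ ^ a = ζ ^ n := by
  have h0 : ζ ≠ 0 := hζ.ne_zero (Fact.out : p.Prime).ne_zero
  have h1 : (p : ℤ) ∣ a - n := by
    rw [← ZMod.intCast_zmod_eq_zero_iff_dvd]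
    push_cast
    rw [h, sub_self]
  obtain ⟨c, hc⟩ := h1
  have h2 : a = (n : ℤ) + p * c := by omega
  rw [h2, zpow_add₀ h0, zpow_natCast, zpow_mul, zpow_natCast, hζ.pow_eq_one, one_zpow, mul_one]

/-- RD-K5. One good exponent. -/
private theorem kummer_good {k : Type v} {M : Type u} [Field k] [Field M] [Algebra k M]
    {ι : Type} [Fintype ι] [DecidableEq ι] (p : ℕ) [Fact p.Prime] (ζ : k)
    (hζ : IsPrimitiveRoot ζ p)
    (ψ : Multiplicative (ι → ZMod p) →* (M ≃ₐ[k] M)) (y : ι → M)
    (hy : ∀ (v : ι → ZMod p) (j : ι),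
      ψ (Multiplicative.ofAdd v) (y j) = algebraMap k M (ζ ^ (v j).val) * y j)
    (hy0 : ∀ j, y j ≠ 0) (N : IntermediateField k M) (hN : ∀ z, z ∈ N ↔ ∀ v, ψ v z = z)
    (t : ι → N) (ht : ∀ j, (t j : M) = y j ^ p)
    (E' : IntermediateField k M) (hst : ∀ v, ∀ z ∈ E', ψ v z ∈ E')
    (hf : ∀ v, (∀ z ∈ E', ψ v z = z) → v = 1) {q : ℕ} (e0 : Fin q ≃ ι) (a : Fin q → ℤ) :
    Gd p ((E'.comap N.val : IntermediateField k N) : Set N) (fun j => t (e0 j)) a := by
  obtain ⟨e, heE, he0, he⟩ := eigen p ζ hζ ψ E' hst hf fun i => (a (e0.symm i) : ZMod p)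
  have hp : p ≠ 0 := (Fact.out : p.Prime).ne_zero
  have hz0 : ζ ≠ 0 := hζ.ne_zero hp
  have hg : e ^ p ∈ N := by
    rw [hN]
    intro v
    rw [map_pow, ← ofAdd_toAdd v, he, mul_pow, ← map_pow, ← pow_mul, mul_comm _ p, pow_mul,
      hζ.pow_eq_one, one_pow, map_one, one_mul]
  have hh : (∏ j, y (e0 j) ^ a j) / e ∈ N := by
    rw [hN]
    intro v
    rw [map_div₀, map_prod, ← ofAdd_toAdd v, he]
    have h1 : ∀ j : Fin q, ψ (Multiplicative.ofAdd (Multiplicative.toAdd v)) (y (e0 j) ^ a j) =
        algebraMap k M ((ζ ^ ((Multiplicative.toAdd v) (e0 j)).val) ^ a j) * y (e0 j) ^ a j := by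
      intro j
      rw [map_zpow₀, hy, mul_zpow, map_zpow₀]
    rw [Finset.prod_congr rfl fun j _ => h1 j, Finset.prod_mul_distrib, ← map_prod]
    have h2 : ∏ j : Fin q, (ζ ^ ((Multiplicative.toAdd v) (e0 j)).val) ^ a j =
        ζ ^ (∑ i, (a (e0.symm i) : ZMod p) * (Multiplicative.toAdd v) i).val := by
      have h3 : ∀ j : Fin q, (ζ ^ ((Multiplicative.toAdd v) (e0 j)).val) ^ a j =
          ζ ^ ((((Multiplicative.toAdd v) (e0 j)).val : ℤ) * a j) := by
        intro j
        rw [zpow_mul, zpow_natCast]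
      rw [Finset.prod_congr rfl fun j _ => h3 j]
      have h4 : ∀ s : Finset (Fin q), ∏ j ∈ s, ζ ^ ((((Multiplicative.toAdd v) (e0 j)).val : ℤ) * a j) =
          ζ ^ (∑ j ∈ s, (((Multiplicative.toAdd v) (e0 j)).val : ℤ) * a j) := by
        intro s
        classical
        induction s using Finset.induction_on with
        | empty => simp
        | insert j s hj ih => rw [Finset.prod_insert hj, Finset.sum_insert hj, zpow_add₀ hz0, ih]
      rw [h4]
      refine kummer_zeta p ζ hζ _ _ ?_
      rw [ZMod.natCast_zmod_val, ← Equiv.sum_comp e0]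
      push_cast
      refine Finset.sum_congr rfl fun j _ => ?_
      rw [ZMod.natCast_zmod_val, Equiv.symm_apply_apply, mul_comm]
    rw [h2]
    have h5 : algebraMap k M (ζ ^ (∑ i, (a (e0.symm i) : ZMod p) *
        (Multiplicative.toAdd v) i).val) ≠ 0 := by
      rw [Ne, map_eq_zero]
      exact pow_ne_zero _ hz0
    rw [mul_div_mul_left _ _ h5]
  refine ⟨⟨e ^ p, hg⟩, ?_, ⟨_, hh⟩, ?_, ?_, ?_⟩
  · exact pow_mem heE p
  · intro h
    exact pow_ne_zero p he0 (congrArg Subtype.val h)
  · intro h
    have h1 : (∏ j, y (e0 j) ^ a j) / e = 0 := congrArg Subtype.val h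
    rw [div_eq_zero_iff, Finset.prod_eq_zero_iff] at h1
    rcases h1 with ⟨j, _, h2⟩ | h2
    · exact zpow_ne_zero _ (hy0 _) h2
    · exact he0 h2
  · refine Subtype.ext ?_
    have h1 : ((∏ j, t (e0 j) ^ a j : N) : M) = ∏ j, (t (e0 j) : M) ^ a j := by
      have h2 := map_prod (algebraMap N M) (fun j => t (e0 j) ^ a j) Finset.univ
      have h3 : ∀ j, algebraMap N M (t (e0 j) ^ a j) = (t (e0 j) : M) ^ a j := fun j =>
        map_zpow₀ (algebraMap N M) _ _
      rw [Finset.prod_congr rfl fun j _ => h3 j] at h2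
      exact h2
    rw [h1]
    change _ = e ^ p * ((∏ j, y (e0 j) ^ a j) / e) ^ p
    rw [div_pow, mul_div_cancel₀ _ (pow_ne_zero p he0), ← Finset.prod_pow]
    refine Finset.prod_congr rfl fun j _ => ?_
    rw [ht, ← zpow_natCast, ← zpow_natCast, ← zpow_mul, ← zpow_mul, mul_comm]

/-- RD-K5 (uses `eigen`, `fixed_degree`, `PiS.all`). For `q = card ι` transport the families along an
equivalence `ι ≃ Fin q`. `E = N`, `E0 = E' ⊓ N` as a subfield of `N` (`TD.of_map`, `TD.mono`),
`A` = all `a : Fin q → ℤ` with `0 ≤ a j < p` (`Fintype.piFinset` of `Finset.Ico 0 p`: `p ^ q` elements,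
incongruent). For `a ∈ A`: `e` from `eigen` with character `a`; `h = (∏ y j ^ a j) / e` is fixed by `ψ`,
`g = e ^ p ∈ E'` is fixed too, and `∏ (y j ^ p) ^ a j = g * h ^ p`. So `p ^ q ≤ p ^ (d + v_p)`. -/
theorem kummer {k : Type v} {M : Type u} [Field k] [CharZero k] [Field M] [Algebra k M]
    {ι : Type} [Fintype ι] [DecidableEq ι] (p : ℕ) [Fact p.Prime] (ζ : k)
    (hζ : IsPrimitiveRoot ζ p)
    (ψ : Multiplicative (ι → ZMod p) →* (M ≃ₐ[k] M)) (κ : IntermediateField k M)
    (hκ : ∀ v, ∀ z ∈ κ, ψ v z = z) (y : ι → M)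
    (hy : ∀ (v : ι → ZMod p) (j : ι),
      ψ (Multiplicative.ofAdd v) (y j) = algebraMap k M (ζ ^ (v j).val) * y j)
    (hind : AlgebraicIndependent κ y) (hfd : FiniteDimensional (adjoin κ (Set.range y)) M)
    (E' : IntermediateField k M) (hst : ∀ v, ∀ z ∈ E', ψ v z ∈ E')
    (hf : ∀ v, (∀ z ∈ E', ψ v z = z) → v = 1) (d : ℕ) (hd : TD k (E' : Set M) d) :
    Fintype.card ι ≤ d + padicValNat p (Module.finrank (adjoin κ (Set.range y)) M) := by
  obtain ⟨N, hN, t, hNm, ht, hall⟩ := fixed_degree p ζ hζ ψ κ hκ y hy hind hfd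
  let _ : Algebra κ N := (IntermediateField.inclusion hN).toAlgebra
  obtain ⟨hti, htf, htd⟩ := hall
  have hp : p.Prime := Fact.out
  have hk : CharZero κ := charZero_of_injective_algebraMap (algebraMap k κ).injective
  have hst' : IsScalarTower k κ N := IsScalarTower.of_algebraMap_eq fun x => rfl
  let q := Fintype.card ι
  let e0 : Fin q ≃ ι := (Fintype.equivFin ι).symm
  have hr : Set.range (fun j : Fin q => t (e0 j)) = Set.range t :=
    e0.surjective.range_comp t
  have hti' : AlgebraicIndependent κ (fun j : Fin q => t (e0 j)) :=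
    hti.comp e0 e0.injective
  have hy0 : ∀ j, y j ≠ 0 := fun j => hind.ne_zero j
  have hP := PiS.all k κ p q d N (fun j => t (e0 j)) hti' (by rw [hr]; exact htf)
    (E'.comap N.val) (TD.of_map N.val (S' := (E' : Set M)) (fun z hz => hz) hd)
    (Fintype.piFinset fun _ => Finset.Ico (0 : ℤ) p)
    (fun a _ => kummer_good p ζ hζ ψ y hy hy0 N hNm t ht E' hst hf e0 a) (by
      intro a ha b hb hab
      rw [Fintype.mem_piFinset] at ha hb
      funext j
      have h1 := Finset.mem_Ico.1 (ha j)
      have h2 := Finset.mem_Ico.1 (hb j)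
      obtain ⟨c, hc⟩ := hab j
      have hp0 : (0 : ℤ) < p := by exact_mod_cast hp.pos
      have hc1 : c < 1 := by
        by_contra hcon
        have : (p : ℤ) * 1 ≤ p * c := mul_le_mul_of_nonneg_left (by omega) hp0.le
        omega
      have hc2 : -1 < c := by
        by_contra hcon
        have : (p : ℤ) * c ≤ p * (-1) := mul_le_mul_of_nonneg_left (by omega) hp0.le
        omega
      have hc3 : c = 0 := by omega
      rw [hc3, mul_zero] at hc
      omega)
  rw [Fintype.card_piFinset, Finset.prod_const, Int.card_Ico, Finset.card_univ, Fintype.card_fin,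
    sub_zero, Int.toNat_natCast] at hP
  rw [hr, htd] at hP
  exact (Nat.pow_le_pow_iff_right hp.one_lt).1 hP

end Pool.Agent.Helper15.RD
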