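import Pool.Agent.Helper15.RD.Ub
import Pool.Agent.Helper15.RD.Mn

/-!
# Project RD (B): the exact index of the accessory extensions for one parameter
-/

set_option autoImplicit false

namespace Pool.Agent.Helper15.RD

open IntermediateField

universe u v

variable {k : Type v} {Ω : Type u} [Field k] [Field Ω] [Algebra k Ω]

/-- RD-W1 (like `exists_field`, parts (2) and (3) of its proof; part (1) is not needed, because
`L ≤ A ⊔ E ≤ A ⊔ N` is given). -/
theorem field_of_step [IsAlgClosed Ω] [CharZero k] {n : ℕ} (x : Fin n → Ω)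
    (hx : AlgebraicIndependent k x) (hΩ : Algebra.IsAlgebraic (adjoin k (Set.range x)) Ω)
    (d : ℕ) (A : IntermediateField k Ω) (hA : coeffField k x ≤ A)
    (hst : Step d A (A ⊔ adjoin k (Set.range x))) :
    ∃ E' : IntermediateField k Ω, E' ≤ A ⊔ adjoin k (Set.range x) ∧ TD k (E' : Set Ω) d ∧
      (∀ σ ∈ A.fixingSubgroup, ∀ z ∈ E', σ z ∈ E') ∧
      ∀ σ ∈ A.fixingSubgroup, (∀ z ∈ E', σ z = z) → ∀ i, σ (x i) = x i := by
  have hinj : Function.Injective x := hx.injective
  obtain ⟨h0, F, E, hFA, hFE, hAE, hrel, htr⟩ := hst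
  obtain ⟨N, hEN, halg, hstab, hres⟩ := exists_normal F E hFE (by rw [hrel]; exact h0)
  have hFN : F ≤ N := hFE.trans hEN
  have hAF : A.fixingSubgroup ≤ F.fixingSubgroup := IntermediateField.fixingSubgroup_antitone hFA
  have hL : adjoin k (Set.range x) ≤ A ⊔ N := by
    have h3 : adjoin k (Set.range x) ≤ A ⊔ adjoin k (Set.range x) := le_sup_right
    rw [← hAE] at h3
    exact h3.trans (sup_le_sup_left hEN A)
  have hfix : ∀ σ ∈ (A ⊔ N).fixingSubgroup, ∀ i, σ (x i) = x i := by
    intro σ hσ i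
    exact (IntermediateField.mem_fixingSubgroup_iff _ _).1 hσ (x i)
      (hL (IntermediateField.subset_adjoin k _ ⟨i, rfl⟩))
  clear hAE hrel h0
  obtain ⟨M, hM⟩ : ∃ M : IntermediateField k Ω, M = A ⊔ adjoin k (Set.range x) := ⟨_, rfl⟩
  have hAM : A ≤ M := by
    rw [hM]
    exact le_sup_left
  have hLM : adjoin k (Set.range x) ≤ M := by
    rw [hM]
    exact le_sup_right
  have hMst : ∀ σ ∈ A.fixingSubgroup, ∀ z ∈ M, σ z ∈ M := by
    intro σ hσ z hz
    obtain ⟨π, hπ⟩ := perm x hinj σ (IntermediateField.fixingSubgroup_antitone hA hσ)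
    have h3 : M ≤ M.comap (σ : Ω →ₐ[k] Ω) := by
      have h4 : A ⊔ adjoin k (Set.range x) ≤ M.comap (σ : Ω →ₐ[k] Ω) := by
        refine sup_le ?_ ?_
        · intro a ha
          change σ a ∈ M
          rw [(IntermediateField.mem_fixingSubgroup_iff _ _).1 hσ a ha]
          exact hAM ha
        · rw [IntermediateField.adjoin_le_iff]
          rintro _ ⟨i, rfl⟩
          change σ (x i) ∈ M
          rw [hπ]
          exact hLM (IntermediateField.subset_adjoin _ _ ⟨_, rfl⟩)
      rwa [← hM] at h4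
    exact h3 hz
  rw [← hM]
  refine ⟨N ⊓ M, inf_le_right, ?_, ?_, ?_⟩
  · exact TD.mono (S' := (N : Set Ω)) (fun z hz => hz.1)
      (TD.of_algebraic F N hFN halg (TD.of_trdeg F htr))
  · intro σ hσ z hz
    exact ⟨hstab σ (hAF hσ) z hz.1, hMst σ hσ z hz.2⟩
  · intro σ hσ hz i
    obtain ⟨δ, hδ, hσδ⟩ := hres M.fixingSubgroup
      (IntermediateField.fixingSubgroup_antitone (hFA.trans hAM)) σ (hAF hσ) (by
        intro z hzN hzD
        refine hz z ⟨hzN, ?_⟩
        exact closed M (alg_of_le x hΩ M (hA.trans hAM)) z hzD)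
    have hδA : δ ∈ A.fixingSubgroup := IntermediateField.fixingSubgroup_antitone hAM hδ
    have h3 : δ⁻¹ * σ ∈ (A ⊔ N).fixingSubgroup := by
      rw [IntermediateField.fixingSubgroup_sup, Subgroup.mem_inf]
      refine ⟨mul_mem (inv_mem hδA) hσ, ?_⟩
      rw [IntermediateField.mem_fixingSubgroup_iff]
      intro z hzN
      rw [AlgEquiv.mul_apply, hσδ z hzN, ← AlgEquiv.mul_apply, inv_mul_cancel, AlgEquiv.one_apply]
    have h4 := hfix _ h3 i
    have h5 : δ (x i) = x i := (IntermediateField.mem_fixingSubgroup_iff _ _).1 hδ _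
      (hLM (IntermediateField.subset_adjoin _ _ ⟨i, rfl⟩))
    have h6 : σ (x i) = δ ((δ⁻¹ * σ) (x i)) := by
      rw [← AlgEquiv.mul_apply, mul_inv_cancel_left]
    rw [h6, h4, h5]

private theorem card_dvd_mem {n : ℕ} (x : Fin n → Ω) (M : IntermediateField k Ω)
    (x' : Fin n → M) (hx' : ∀ i, (x' i : Ω) = x i) (z : M) :
    z ∈ adjoin k (Set.range x') ↔ (z : Ω) ∈ adjoin k (Set.range x) := by
  have h1 : (adjoin k (Set.range x')).map M.val = adjoin k (Set.range x) := by
    rw [adjoin_map]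
    congr 1
    ext y
    constructor
    · rintro ⟨_, ⟨i, rfl⟩, rfl⟩
      exact ⟨i, (hx' i).symm⟩
    · rintro ⟨i, rfl⟩
      exact ⟨x' i, ⟨i, rfl⟩, hx' i⟩
  rw [← h1]
  constructor
  · intro hz
    exact ⟨z, hz, rfl⟩
  · rintro ⟨y, hy, hyz⟩
    have h2 : y = z := Subtype.ext hyz
    rw [← h2]
    exact hy

private theorem card_dvd_finrank (L M : IntermediateField k Ω) (hLM : L ≤ M)
    (P : IntermediateField k M) (hP : ∀ z : M, z ∈ P ↔ (z : Ω) ∈ L) :
    Module.finrank P M = relfinrank L M := by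
  rw [relfinrank_eq_finrank_of_le hLM]
  let i : P ≃+* L :=
    { toFun := fun z => ⟨((z : M) : Ω), (hP z).1 z.2⟩
      invFun := fun z => ⟨⟨z, hLM z.2⟩, (hP _).2 z.2⟩
      left_inv := fun z => rfl
      right_inv := fun z => rfl
      map_mul' := fun z w => rfl
      map_add' := fun z w => rfl }
  let j : M ≃+* extendScalars hLM :=
    { toFun := fun z => ⟨(z : Ω), z.2⟩
      invFun := fun z => ⟨(z : Ω), z.2⟩
      left_inv := fun z => rfl
      right_inv := fun z => rfl
      map_mul' := fun z w => rfl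
      map_add' := fun z w => rfl }
  exact Algebra.finrank_eq_of_equiv_equiv i j (by
    ext z
    rfl)

/-- RD-W2 (uses `exists_action`, `one_param`; see the proof of `bound` in `Ga.lean`). `M = A ⊔ L`,
`G = Im x A`, `ψ = Θ`, `ρ` the inclusion, `x' i = ⟨x i, _⟩ : M`; `adjoin k (range x')` is the copy of `L` in
`M`, `[M : L] = relfinrank L (A ⊔ L) ≠ 0` (`acc_dvd`); `E'` as a subfield of `M`. -/
theorem card_dvd [IsAlgClosed k] [IsAlgClosed Ω] [CharZero k] {n : ℕ} (x : Fin n → Ω)
    (hx : AlgebraicIndependent k x) (hΩ : Algebra.IsAlgebraic (adjoin k (Set.range x)) Ω)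
    (A : IntermediateField k Ω) (hA : coeffField k x ≤ A)
    (hA0 : relfinrank (coeffField k x) A ≠ 0) (E' : IntermediateField k Ω)
    (hE : E' ≤ A ⊔ adjoin k (Set.range x)) (hTD : TD k (E' : Set Ω) 1)
    (hst : ∀ σ ∈ A.fixingSubgroup, ∀ z ∈ E', σ z ∈ E')
    (hf : ∀ σ ∈ A.fixingSubgroup, (∀ z ∈ E', σ z = z) → ∀ i, σ (x i) = x i) :
    Nat.card (Im x A) ∣ Monoid.exponent (Im x A) *
      relfinrank (adjoin k (Set.range x)) (A ⊔ adjoin k (Set.range x)) := by
  have hdvd := acc_dvd x hx hΩ A hA hA0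
  obtain ⟨M, hM⟩ : ∃ M : IntermediateField k Ω, M = A ⊔ adjoin k (Set.range x) := ⟨_, rfl⟩
  obtain ⟨Θ, hΘ⟩ := exists_action x A M hM
  rw [← hM] at hE hdvd ⊢
  have hLM : adjoin k (Set.range x) ≤ M := by
    rw [hM]
    exact le_sup_right
  let x' : Fin n → M := fun i => ⟨x i, hLM (subset_adjoin k _ ⟨i, rfl⟩)⟩
  have hx' : AlgebraicIndependent k x' := AlgebraicIndependent.of_comp M.val hx
  have hσ : ∀ π : Im x A, ∃ σ ∈ A.fixingSubgroup,
      (∀ i, σ (x i) = x ((π : Equiv.Perm (Fin n)) i)) ∧ ∀ z : M, (Θ π z : Ω) = σ z := by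
    intro π
    obtain ⟨σ, hσ1, hσ2⟩ := π.2
    exact ⟨σ, hσ1, hσ2, hΘ π σ hσ1 hσ2⟩
  have hfr : Module.finrank (adjoin k (Set.range x')) M =
      relfinrank (adjoin k (Set.range x)) M :=
    card_dvd_finrank (adjoin k (Set.range x)) M hLM (adjoin k (Set.range x')) fun z =>
      card_dvd_mem x M x' (fun i => rfl) z
  have hfd : FiniteDimensional (adjoin k (Set.range x')) M := by
    apply FiniteDimensional.of_finrank_pos
    rw [hfr]
    exact Nat.pos_of_ne_zero hdvd.1
  have key := one_param x' hx' hfd Θ (Im x A).subtype (fun π i => by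
      obtain ⟨σ, hσ1, hσ2, hσ3⟩ := hσ π
      apply Subtype.ext
      rw [hσ3]
      exact hσ2 i) (E'.comap M.val) (fun π z hz => by
      obtain ⟨σ, hσ1, hσ2, hσ3⟩ := hσ π
      change (Θ π z : Ω) ∈ E'
      rw [hσ3]
      exact hst σ hσ1 _ hz) (fun π hπ => by
      obtain ⟨σ, hσ1, hσ2, hσ3⟩ := hσ π
      have h3 := hf σ hσ1 (fun z hz => by
        have h4 := hπ ⟨z, hE hz⟩ hz
        have h5 := hσ3 ⟨z, hE hz⟩
        rw [h4] at h5
        exact h5.symm)
      apply Subtype.ext
      refine Equiv.ext fun i => hx.injective ?_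
      rw [← hσ2, h3]
      rfl)
      (TD.of_map M.val (S' := (E' : Set Ω)) (fun z hz => hz) hTD)
  rw [hfr] at key
  exact key

/-- RD-W3 (uses `card_dvd`, `card_Im`, `Im_mono`). `[A : A0] [A L : A] = [A L : A0] = [A L : L] [L : A0]`
with `[A L : A] = card (Im x A)`, and `exponent (Im x A)` divides `exponent (Im x A0)`
(`Im x A ≤ Im x A0`). -/
theorem index_dvd [IsAlgClosed k] [IsAlgClosed Ω] [CharZero k] {n : ℕ} (x : Fin n → Ω)
    (hx : AlgebraicIndependent k x) (hΩ : Algebra.IsAlgebraic (adjoin k (Set.range x)) Ω)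
    (A0 A : IntermediateField k Ω) (hA0 : coeffField k x ≤ A0)
    (hA0L : A0 ≤ adjoin k (Set.range x)) (hA : A0 ≤ A) (hfin : relfinrank A0 A ≠ 0)
    (E' : IntermediateField k Ω)
    (hE : E' ≤ A ⊔ adjoin k (Set.range x)) (hTD : TD k (E' : Set Ω) 1)
    (hst : ∀ σ ∈ A.fixingSubgroup, ∀ z ∈ E', σ z ∈ E')
    (hf : ∀ σ ∈ A.fixingSubgroup, (∀ z ∈ E', σ z = z) → ∀ i, σ (x i) = x i) :
    relfinrank A0 (adjoin k (Set.range x)) ∣ Monoid.exponent (Im x A0) * relfinrank A0 A := by
  have hKA : coeffField k x ≤ A := hA0.trans hA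
  have hKL : coeffField k x ≤ adjoin k (Set.range x) := coeffField_le x
  have h1 : relfinrank A0 A * relfinrank A (A ⊔ adjoin k (Set.range x)) =
      relfinrank A0 (A ⊔ adjoin k (Set.range x)) :=
    relfinrank_mul_relfinrank hA le_sup_left
  have h2 : relfinrank A0 (adjoin k (Set.range x)) *
      relfinrank (adjoin k (Set.range x)) (A ⊔ adjoin k (Set.range x)) =
      relfinrank A0 (A ⊔ adjoin k (Set.range x)) :=
    relfinrank_mul_relfinrank hA0L le_sup_right
  have h3 := card_Im x hx.injective hΩ A hKA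
  have h4 := card_Im x hx.injective hΩ (coeffField k x) le_rfl
  rw [sup_eq_right.2 hKL] at h4
  have h5 : relfinrank (coeffField k x) A0 * relfinrank A0 (adjoin k (Set.range x)) =
      relfinrank (coeffField k x) (adjoin k (Set.range x)) :=
    relfinrank_mul_relfinrank hA0 hA0L
  have h6 : relfinrank (coeffField k x) A0 * relfinrank A0 A = relfinrank (coeffField k x) A :=
    relfinrank_mul_relfinrank hA0 hA
  have h7 : relfinrank (coeffField k x) (adjoin k (Set.range x)) ≠ 0 := by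
    rw [h4]
    exact Nat.card_pos.ne'
  have h8 : relfinrank (coeffField k x) A0 ≠ 0 := by
    intro h
    rw [h, zero_mul] at h5
    exact h7 h5.symm
  have h9 : relfinrank (coeffField k x) A ≠ 0 := by
    rw [← h6]
    exact mul_ne_zero h8 hfin
  obtain ⟨t, ht⟩ := card_dvd x hx hΩ A hKA h9 E' hE hTD hst hf
  have hc : 0 < Nat.card (Im x A) := Nat.card_pos
  have hexp : Monoid.exponent (Im x A) ∣ Monoid.exponent (Im x A0) := by
    refine Monoid.exponent_dvd_of_forall_pow_eq_one fun g => ?_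
    have h10 := Monoid.pow_exponent_eq_one (Subgroup.inclusion (Im_mono x hA) g)
    rw [← map_pow] at h10
    exact Subgroup.inclusion_injective (Im_mono x hA) (h10.trans (map_one _).symm)
  rw [h3] at h1
  have h11 : Monoid.exponent (Im x A) * relfinrank A0 A =
      relfinrank A0 (adjoin k (Set.range x)) * t := by
    refine Nat.eq_of_mul_eq_mul_right hc ?_
    calc Monoid.exponent (Im x A) * relfinrank A0 A * Nat.card (Im x A)
        = Monoid.exponent (Im x A) * (relfinrank A0 A * Nat.card (Im x A)) := by ring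
      _ = Monoid.exponent (Im x A) * (relfinrank A0 (adjoin k (Set.range x)) *
          relfinrank (adjoin k (Set.range x)) (A ⊔ adjoin k (Set.range x))) := by rw [h1, h2]
      _ = relfinrank A0 (adjoin k (Set.range x)) * (Monoid.exponent (Im x A) *
          relfinrank (adjoin k (Set.range x)) (A ⊔ adjoin k (Set.range x))) := by ring
      _ = relfinrank A0 (adjoin k (Set.range x)) * (Nat.card (Im x A) * t) := by rw [ht]
      _ = relfinrank A0 (adjoin k (Set.range x)) * t * Nat.card (Im x A) := by ring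
  have h12 : relfinrank A0 (adjoin k (Set.range x)) ∣
      Monoid.exponent (Im x A) * relfinrank A0 A := ⟨t, h11⟩
  exact h12.trans (Nat.mul_dvd_mul_right hexp _)

/-! ### sharpness -/

/-- RD-W4. `A = {z ∈ L | σ z = z}`; the restrictions to `L` of the powers of `σ` form a group of order
`m = orderOf g` with fixed field `A` (Artin: `FixedPoints.finrank_eq_card`, see `artin` in `Ku.lean`). -/
theorem fixed_cyclic [IsAlgClosed Ω] [CharZero k] {n : ℕ} (x : Fin n → Ω)
    (hx : AlgebraicIndependent k x) (A0 : IntermediateField k Ω)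
    (hA0L : A0 ≤ adjoin k (Set.range x)) (σ : Ω ≃ₐ[k] Ω) (hσ : σ ∈ A0.fixingSubgroup)
    (g : Equiv.Perm (Fin n)) (hg : ∀ i, σ (x i) = x (g i)) :
    ∃ A : IntermediateField k Ω, A0 ≤ A ∧ A ≤ adjoin k (Set.range x) ∧
      (∀ z, z ∈ A ↔ z ∈ adjoin k (Set.range x) ∧ σ z = z) ∧
      relfinrank A (adjoin k (Set.range x)) = orderOf g := by
  classical
  have hinj : Function.Injective x := hx.injective
  have hmap : (adjoin k (Set.range x)).map σ.toAlgHom = adjoin k (Set.range x) := by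
    rw [IntermediateField.adjoin_map, ← Set.range_comp]
    have h1 : (⇑σ.toAlgHom ∘ x) = x ∘ g := funext fun i => hg i
    rw [h1, g.surjective.range_comp]
  let τ : adjoin k (Set.range x) ≃ₐ[k] adjoin k (Set.range x) :=
    (intermediateFieldMap σ (adjoin k (Set.range x))).trans (equivOfEq hmap)
  have hτ : ∀ z : adjoin k (Set.range x), ((τ z : adjoin k (Set.range x)) : Ω) = σ z :=
    fun z => rfl
  have hτp : ∀ (j : ℕ) (z : adjoin k (Set.range x)),
      (((τ ^ j) z : adjoin k (Set.range x)) : Ω) = (σ ^ j) (z : Ω) := by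
    intro j
    induction j with
    | zero => intro z; rfl
    | succ j ih =>
      intro z
      rw [pow_succ, pow_succ, AlgEquiv.mul_apply, AlgEquiv.mul_apply, ih, hτ]
  have hσp : ∀ (j : ℕ) (i : Fin n), (σ ^ j) (x i) = x ((g ^ j) i) := by
    intro j
    induction j with
    | zero => intro i; rfl
    | succ j ih =>
      intro i
      rw [pow_succ, pow_succ, AlgEquiv.mul_apply, Equiv.Perm.mul_apply, hg, ih]
  have hord : orderOf τ = orderOf g := by
    refine orderOf_eq_orderOf_iff.2 fun j => ⟨fun h => ?_, fun h => ?_⟩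
    · refine Equiv.ext fun i => hinj ?_
      have h1 := hτp j ⟨x i, subset_adjoin k _ ⟨i, rfl⟩⟩
      rw [h] at h1
      rw [← hσp]
      exact h1.symm
    · refine AlgEquiv.ext fun z => Subtype.ext ?_
      rw [hτp]
      have h1 : adjoin k (Set.range x) ≤ fixedField (Subgroup.zpowers (σ ^ j)) := by
        rw [adjoin_le_iff]
        rintro _ ⟨i, rfl⟩
        change x i ∈ fixedField (Subgroup.zpowers (σ ^ j))
        rw [mem_fixedField_iff]
        intro f hf
        obtain ⟨m, rfl⟩ := Subgroup.mem_zpowers_iff.1 hf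
        have h2 : (σ ^ j) (x i) = x i := by rw [hσp, h]; rfl
        have h3 : (σ ^ j) ∈ MulAction.stabilizer (Ω ≃ₐ[k] Ω) (x i) := h2
        exact Subgroup.zpow_mem _ h3 m
      exact (mem_fixedField_iff _ _).1 (h1 z.2) _ (Subgroup.mem_zpowers _)
  have hop : 0 < orderOf τ := by rw [hord]; exact orderOf_pos g
  let F : IntermediateField k (adjoin k (Set.range x)) := fixedField (Subgroup.zpowers τ)
  have hF : ∀ z : adjoin k (Set.range x), z ∈ F ↔ σ (z : Ω) = z := by
    intro z
    rw [mem_fixedField_iff]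
    constructor
    · intro h
      have h1 := congrArg Subtype.val (h τ (Subgroup.mem_zpowers τ))
      rw [hτ] at h1
      exact h1
    · intro h f hf
      obtain ⟨m, rfl⟩ := Subgroup.mem_zpowers_iff.1 hf
      have h3 : τ ∈ MulAction.stabilizer (adjoin k (Set.range x) ≃ₐ[k] adjoin k (Set.range x)) z :=
        Subtype.ext (by change ((τ z : adjoin k (Set.range x)) : Ω) = z; rw [hτ, h])
      exact Subgroup.zpow_mem _ h3 m
  have hfr : Module.finrank F (adjoin k (Set.range x)) = orderOf g := by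
    have : Finite (Subgroup.zpowers τ) := by
      apply Nat.finite_of_card_ne_zero
      rw [Nat.card_zpowers]
      exact hop.ne'
    have := Fintype.ofFinite (Subgroup.zpowers τ)
    have h1 : Module.finrank (FixedPoints.subfield (Subgroup.zpowers τ)
        (adjoin k (Set.range x))) (adjoin k (Set.range x)) = Fintype.card (Subgroup.zpowers τ) :=
      FixedPoints.finrank_eq_card (Subgroup.zpowers τ) (adjoin k (Set.range x))
    have h2 : Fintype.card (Subgroup.zpowers τ) = orderOf g := by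
      rw [← Nat.card_eq_fintype_card, Nat.card_zpowers, hord]
    exact h1.trans h2
  have hmem : ∀ z : Ω, z ∈ F.map (adjoin k (Set.range x)).val ↔
      z ∈ adjoin k (Set.range x) ∧ σ z = z := by
    intro z
    rw [IntermediateField.mem_map]
    constructor
    · rintro ⟨y, hy, rfl⟩
      exact ⟨y.2, (hF y).1 hy⟩
    · rintro ⟨h1, h2⟩
      exact ⟨⟨z, h1⟩, (hF ⟨z, h1⟩).2 h2, rfl⟩
  refine ⟨F.map (adjoin k (Set.range x)).val, fun z hz => (hmem z).2 ⟨hA0L hz, ?_⟩,
    fun z hz => ((hmem z).1 hz).1, hmem, ?_⟩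
  · exact (mem_fixingSubgroup_iff A0 σ).1 hσ z hz
  · have h1 : (⊤ : IntermediateField k (adjoin k (Set.range x))).map
        (adjoin k (Set.range x)).val = adjoin k (Set.range x) := by
      ext z
      rw [IntermediateField.mem_map]
      constructor
      · rintro ⟨y, -, rfl⟩
        exact y.2
      · intro h
        exact ⟨⟨z, h⟩, mem_top, rfl⟩
    have h2 := relfinrank_map_map F (⊤ : IntermediateField k (adjoin k (Set.range x)))
      (adjoin k (Set.range x)).val
    rw [h1, relfinrank_top_right, hfr] at h2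
    exact h2

private theorem exists_eigen_pow {n : ℕ} (x : Fin n → Ω) (σ : Ω ≃ₐ[k] Ω)
    (g : Equiv.Perm (Fin n)) (hg : ∀ i, σ (x i) = x (g i)) (j : ℕ) (i : Fin n) :
    (σ ^ j) (x i) = x ((g ^ j) i) := by
  induction j generalizing i with
  | zero => rfl
  | succ j ih =>
    rw [pow_succ, AlgEquiv.mul_apply, hg, ih, pow_succ]
    rfl

private theorem exists_eigen_le {n : ℕ} (x : Fin n → Ω) (σ : Ω ≃ₐ[k] Ω)
    (g : Equiv.Perm (Fin n)) (hg : ∀ i, σ (x i) = x (g i)) (z : Ω)
    (hz : z ∈ adjoin k (Set.range x)) : σ z ∈ adjoin k (Set.range x) := by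
  have h1 : adjoin k (Set.range x) ≤ (adjoin k (Set.range x)).comap (σ : Ω →ₐ[k] Ω) := by
    rw [adjoin_le_iff]
    rintro _ ⟨i, rfl⟩
    change σ (x i) ∈ adjoin k (Set.range x)
    rw [hg]
    exact subset_adjoin k _ ⟨_, rfl⟩
  exact h1 hz

private theorem exists_eigen_fix {n : ℕ} (x : Fin n → Ω) (δ : Ω ≃ₐ[k] Ω)
    (hx : ∀ i, δ (x i) = x i) (z : Ω) (hz : z ∈ adjoin k (Set.range x)) : δ z = z := by
  have h1 : adjoin k (Set.range x) ≤ IntermediateField.fixedField (Subgroup.zpowers δ) := by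
    rw [adjoin_le_iff]
    rintro _ ⟨i, rfl⟩
    rw [SetLike.mem_coe, IntermediateField.mem_fixedField_iff]
    intro f hf
    have h5 : Subgroup.zpowers δ ≤ MulAction.stabilizer (Ω ≃ₐ[k] Ω) (x i) := by
      rw [Subgroup.zpowers_le]
      exact hx i
    exact h5 hf
  have h6 := h1 hz
  rw [IntermediateField.mem_fixedField_iff] at h6
  exact h6 δ (Subgroup.mem_zpowers δ)

/-- RD-W5. The operator `∑ j < m, ζ ^ (-j) σ ^ j` on `L` is not zero (the restrictions of `σ ^ j`,
`j < m`, to `L` are different: Dedekind, `linearIndependent_monoidHom`, see `eigen` in `Ku.lean`). -/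
theorem exists_eigen [IsAlgClosed k] [CharZero k] {n : ℕ} (x : Fin n → Ω)
    (hx : AlgebraicIndependent k x) (σ : Ω ≃ₐ[k] Ω) (g : Equiv.Perm (Fin n))
    (hg : ∀ i, σ (x i) = x (g i)) :
    ∃ (ζ : k) (y : Ω), IsPrimitiveRoot ζ (orderOf g) ∧ y ∈ adjoin k (Set.range x) ∧ y ≠ 0 ∧
      σ y = algebraMap k Ω ζ * y := by
  classical
  have hm : 0 < orderOf g := orderOf_pos g
  have : NeZero ((orderOf g : ℕ) : k) := ⟨Nat.cast_ne_zero.2 hm.ne'⟩
  obtain ⟨ζ, hζ⟩ := HasEnoughRootsOfUnity.exists_primitiveRoot k (orderOf g)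
  have hζ0 : ζ ≠ 0 := hζ.ne_zero hm.ne'
  have hz0 : algebraMap k Ω ζ ≠ 0 := (map_ne_zero _).2 hζ0
  have hzm : algebraMap k Ω ζ ^ orderOf g = 1 := by
    rw [← map_pow, hζ.pow_eq_one, map_one]
  obtain ⟨s, hs⟩ : ∃ s : Fin (orderOf g) → (adjoin k (Set.range x) →* Ω),
      ∀ j z, s j z = (σ ^ (j : ℕ)) (z : Ω) :=
    ⟨fun j => ((σ ^ (j : ℕ) : Ω ≃ₐ[k] Ω) : Ω →* Ω).comp
      ((adjoin k (Set.range x)).val : adjoin k (Set.range x) →* Ω), fun j z => rfl⟩
  have hinj : Function.Injective s := by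
    intro i j hij
    have h1 : g ^ (i : ℕ) = g ^ (j : ℕ) := by
      refine Equiv.ext fun a => hx.injective ?_
      have h2 := DFunLike.congr_fun hij
        (⟨x a, subset_adjoin k _ ⟨a, rfl⟩⟩ : adjoin k (Set.range x))
      rw [hs, hs] at h2
      rw [← exists_eigen_pow x σ g hg, ← exists_eigen_pow x σ g hg]
      exact h2
    have h3 := (pow_inj_mod.1 h1)
    rw [Nat.mod_eq_of_lt i.2, Nat.mod_eq_of_lt j.2] at h3
    exact Fin.ext h3
  have hli := (linearIndependent_monoidHom (adjoin k (Set.range x)) Ω).comp s hinj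
  obtain ⟨z, hz⟩ : ∃ z : adjoin k (Set.range x),
      ∑ j ∈ Finset.range (orderOf g), (algebraMap k Ω ζ)⁻¹ ^ j * (σ ^ j) (z : Ω) ≠ 0 := by
    by_contra hcon
    push Not at hcon
    rw [Fintype.linearIndependent_iff] at hli
    have h1 := hli (fun j => (algebraMap k Ω ζ)⁻¹ ^ (j : ℕ)) (by
      funext z
      rw [Finset.sum_apply]
      have h2 := hcon z
      rw [Finset.sum_range] at h2
      refine Eq.trans ?_ h2
      refine Finset.sum_congr rfl fun j _ => ?_
      change (algebraMap k Ω ζ)⁻¹ ^ (j : ℕ) * s j z = _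
      rw [hs]) ⟨0, hm⟩
    rw [pow_zero] at h1
    exact one_ne_zero h1
  have hfix : (σ ^ orderOf g) (z : Ω) = z := by
    refine exists_eigen_fix x (σ ^ orderOf g) (fun i => ?_) z z.2
    rw [exists_eigen_pow x σ g hg, pow_orderOf_eq_one]
    rfl
  refine ⟨ζ, _, hζ, ?_, hz, ?_⟩
  · refine sum_mem fun j _ => mul_mem (pow_mem (inv_mem ?_) _) ?_
    · exact IntermediateField.algebraMap_mem _ _
    · exact exists_eigen_le x (σ ^ j) (g ^ j) (exists_eigen_pow x σ g hg j) z z.2
  · have h1 : ∀ j : ℕ, σ ((algebraMap k Ω ζ)⁻¹ ^ j * (σ ^ j) (z : Ω)) =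
        algebraMap k Ω ζ * ((algebraMap k Ω ζ)⁻¹ ^ (j + 1) * (σ ^ (j + 1)) (z : Ω)) := by
      intro j
      rw [map_mul, map_pow, map_inv₀, AlgEquiv.commutes, pow_succ' σ, AlgEquiv.mul_apply,
        ← mul_assoc, pow_succ', ← mul_assoc, mul_inv_cancel₀ hz0, one_mul]
    rw [map_sum, Finset.mul_sum, Finset.sum_congr rfl fun j _ => h1 j, ← Finset.mul_sum,
      ← Finset.mul_sum]
    congr 1
    have h2 := Finset.sum_range_succ'
      (fun j => (algebraMap k Ω ζ)⁻¹ ^ j * (σ ^ j) (z : Ω)) (orderOf g)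
    have h3 := Finset.sum_range_succ
      (fun j => (algebraMap k Ω ζ)⁻¹ ^ j * (σ ^ j) (z : Ω)) (orderOf g)
    rw [h3] at h2
    have h4 : (algebraMap k Ω ζ)⁻¹ ^ orderOf g * (σ ^ orderOf g) (z : Ω) =
        (algebraMap k Ω ζ)⁻¹ ^ 0 * (σ ^ 0) (z : Ω) := by
      rw [hfix, inv_pow, hzm, inv_one, pow_zero, pow_zero]
      rfl
    rw [h4] at h2
    exact (add_right_cancel h2).symm

private theorem step_of_eigen_le (A B : IntermediateField k Ω) (hAB : A ≤ B) (m : ℕ)
    (v : Fin m → Ω) (hv : ∀ j, v j ∈ B) (hli : LinearIndependent A v)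
    (h0 : relfinrank A B ≠ 0) : m ≤ relfinrank A B := by
  rw [relfinrank_eq_finrank_of_le hAB] at h0 ⊢
  have hfd : FiniteDimensional A (extendScalars hAB) := Module.finite_of_finrank_pos
    (Nat.pos_of_ne_zero h0)
  let w : Fin m → extendScalars hAB := fun j => ⟨v j, hv j⟩
  have hw : LinearIndependent A w := by
    refine LinearIndependent.of_comp ((extendScalars hAB).val.toLinearMap) ?_
    exact hli
  have h1 := hw.fintype_card_le_finrank
  rwa [Fintype.card_fin] at h1

private theorem step_of_eigen_li (A : IntermediateField k Ω) (σ : Ω ≃ₐ[k] Ω)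
    (hσ : ∀ z ∈ A, σ z = z) (m : ℕ) (ζ : k) (hζ : IsPrimitiveRoot ζ m) (y : Ω) (hy0 : y ≠ 0)
    (hσy : σ y = algebraMap k Ω ζ * y) :
    LinearIndependent A (fun j : Fin m => y ^ (j : ℕ)) := by
  let f : Ω →ₗ[A] Ω :=
    { toFun := σ
      map_add' := map_add σ
      map_smul' := by
        intro a z
        change σ ((a : Ω) * z) = (a : Ω) * σ z
        rw [map_mul, hσ _ a.2] }
  refine Module.End.eigenvectors_linearIndependent' f
    (fun j : Fin m => algebraMap k A (ζ ^ (j : ℕ))) ?_ _ ?_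
  · intro i j hij
    have h1 : ζ ^ (i : ℕ) = ζ ^ (j : ℕ) := (algebraMap k A).injective hij
    exact Fin.ext (hζ.pow_inj i.2 j.2 h1)
  · intro j
    refine ⟨Module.End.mem_eigenspace_iff.2 ?_, pow_ne_zero _ hy0⟩
    change σ (y ^ (j : ℕ)) = algebraMap k Ω (ζ ^ (j : ℕ)) * y ^ (j : ℕ)
    rw [map_pow, hσy, mul_pow, map_pow]

open scoped IntermediateField.algebraAdjoinAdjoin in
private theorem step_of_eigen_trdeg (t : Ω) : Algebra.trdeg k (adjoin k {t}) ≤ 1 := by
  have h1 : Algebra.trdeg k (Algebra.adjoin k {t}) ≤ 1 := by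
    have h2 := lift_trdeg_le_of_surjective
      ((Polynomial.aeval (R := k) (⟨t, Algebra.self_mem_adjoin_singleton k t⟩ :
        Algebra.adjoin k {t}))) (by
          rintro ⟨z, hz⟩
          obtain ⟨p, hp⟩ := (Algebra.adjoin_mem_exists_aeval k t hz)
          refine ⟨p, Subtype.ext ?_⟩
          rw [Polynomial.aeval_subalgebra_coe]
          exact hp)
    rw [Polynomial.trdeg_of_isDomain, Cardinal.lift_one] at h2
    exact Cardinal.lift_le_one_iff.1 h2
  have h3 : Algebra.IsAlgebraic (Algebra.adjoin k {t}) (adjoin k {t}) :=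
    IsLocalization.isAlgebraic _ (nonZeroDivisors (Algebra.adjoin k {t}))
  have h4 := trdeg_add_eq k (Algebra.adjoin k {t}) (A := adjoin k {t})
  have h5 : Algebra.trdeg (Algebra.adjoin k {t}) (adjoin k {t}) = 0 := trdeg_eq_zero
  rw [h5, add_zero] at h4
  rw [← h4]
  exact h1

/-- RD-W6. `B = A ⊔ k(y)`: `y` has `m` different conjugates `ζ ^ j y` over `A` (by the powers of `σ`,
which fixes `A`), so `[A(y) : A] ≥ m = [L : A]` and `A(y) = L`; `t = y ^ m ∈ A`, `F = k(t)`, `E = k(y)`: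
`[E : F] ≤ m` and `[E : F] ≥ [A E : A] = m`; the transcendence degree of `k(t)` is at most `1`. -/
theorem step_of_eigen {n : ℕ} (x : Fin n → Ω) (A : IntermediateField k Ω)
    (σ : Ω ≃ₐ[k] Ω) (m : ℕ) (hm : 0 < m) (hAL : A ≤ adjoin k (Set.range x))
    (hA : ∀ z, z ∈ A ↔ z ∈ adjoin k (Set.range x) ∧ σ z = z)
    (hdeg : relfinrank A (adjoin k (Set.range x)) = m) (ζ : k) (hζ : IsPrimitiveRoot ζ m) (y : Ω)
    (hy : y ∈ adjoin k (Set.range x)) (hy0 : y ≠ 0) (hσy : σ y = algebraMap k Ω ζ * y) :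
    Step 1 A (adjoin k (Set.range x)) := by
  set L := adjoin k (Set.range x) with hL
  have hli := step_of_eigen_li A σ (fun z hz => ((hA z).1 hz).2) m ζ hζ y hy0 hσy
  have ht : y ^ m ∈ A := by
    refine (hA _).2 ⟨pow_mem hy m, ?_⟩
    rw [map_pow, hσy, mul_pow, ← map_pow, hζ.pow_eq_one, map_one, one_mul]
  have hFA : adjoin k {y ^ m} ≤ A := adjoin_simple_le_iff.2 ht
  have hyE : y ∈ adjoin k {y} := mem_adjoin_simple_self k y
  have hFE : adjoin k {y ^ m} ≤ adjoin k {y} := adjoin_simple_le_iff.2 (pow_mem hyE m)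
  have hBL : A ⊔ adjoin k {y} ≤ L := sup_le hAL (adjoin_simple_le_iff.2 hy)
  have hmul := relfinrank_mul_relfinrank (le_sup_left : A ≤ A ⊔ adjoin k {y}) hBL
  rw [hdeg] at hmul
  have hAB0 : relfinrank A (A ⊔ adjoin k {y}) ≠ 0 := by
    intro h
    rw [h, zero_mul] at hmul
    omega
  have h1 : m ≤ relfinrank A (A ⊔ adjoin k {y}) :=
    step_of_eigen_le A _ le_sup_left m _
      (fun j => pow_mem ((le_sup_right : adjoin k {y} ≤ A ⊔ adjoin k {y}) hyE) _) hli hAB0
  have h2 : relfinrank (A ⊔ adjoin k {y}) L = 1 := by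
    rcases Nat.lt_trichotomy (relfinrank (A ⊔ adjoin k {y}) L) 1 with h | h | h
    · rw [Nat.lt_one_iff.1 h, mul_zero] at hmul
      omega
    · exact h
    · exfalso
      have h3 := Nat.mul_le_mul h1 h
      omega
  have h3 : A ⊔ adjoin k {y} = L := le_antisymm hBL (relfinrank_eq_one_iff.1 h2)
  have hint : IsIntegral (adjoin k {y ^ m}) y := by
    refine ⟨Polynomial.X ^ m - Polynomial.C ⟨y ^ m, mem_adjoin_simple_self k (y ^ m)⟩,
      Polynomial.monic_X_pow_sub_C _ hm.ne', ?_⟩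
    rw [Polynomial.eval₂_sub, Polynomial.eval₂_X_pow, Polynomial.eval₂_C]
    exact sub_self _
  have h4 : relfinrank (adjoin k {y ^ m}) (adjoin k {y}) =
      (minpoly (adjoin k {y ^ m}) y).natDegree := by
    rw [relfinrank_eq_finrank_of_le hFE, extendScalars_adjoin]
    exact adjoin.finrank hint
  have h5 : (minpoly (adjoin k {y ^ m}) y).natDegree ≤ m := by
    have h6 : minpoly (adjoin k {y ^ m}) y ∣
        Polynomial.X ^ m - Polynomial.C ⟨y ^ m, mem_adjoin_simple_self k (y ^ m)⟩ := by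
      refine minpoly.dvd _ _ ?_
      rw [map_sub, map_pow, Polynomial.aeval_X, Polynomial.aeval_C]
      exact sub_self _
    have h7 := Polynomial.natDegree_le_of_dvd h6 (Polynomial.X_pow_sub_C_ne_zero hm _)
    rwa [Polynomial.natDegree_X_pow_sub_C] at h7
  have hFE0 : relfinrank (adjoin k {y ^ m}) (adjoin k {y}) ≠ 0 := by
    rw [h4]
    exact (minpoly.natDegree_pos hint).ne'
  have h8 : m ≤ relfinrank (adjoin k {y ^ m}) (adjoin k {y}) := by
    refine step_of_eigen_le _ _ hFE m _ (fun j => pow_mem hyE _)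
      (step_of_eigen_li _ σ (fun z hz => ((hA z).1 (hFA hz)).2) m ζ hζ y hy0 hσy) hFE0
  refine ⟨by rw [hdeg]; exact hm.ne', adjoin k {y ^ m}, adjoin k {y}, hFA, hFE, h3, ?_, ?_⟩
  · rw [hdeg]
    exact le_antisymm (h4 ▸ h5) h8
  · have h9 := step_of_eigen_trdeg (k := k) (y ^ m)
    exact_mod_cast h9

/-- RD-W7 (uses `fixed_cyclic`, `exists_eigen`, `step_of_eigen`). For `g ∈ Im x A0` take
`A = A_g`, `A ⊔ L = L`, `[A : A0] * orderOf g = [L : A0]`; so `m * orderOf g` divides `[L : A0]` for all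
`g`; with `[L : A0] = m * q` (`g = 1`), `orderOf g` divides `q` for all `g`, hence so does the exponent
(`Monoid.exponent_dvd`). (`[L : A0]` is finite: `card_Im`, `Im_top`; `K ≤ A0 ≤ L`.) -/
theorem index_sharp [IsAlgClosed k] [IsAlgClosed Ω] [CharZero k] {n : ℕ} (x : Fin n → Ω)
    (hx : AlgebraicIndependent k x) (hΩ : Algebra.IsAlgebraic (adjoin k (Set.range x)) Ω)
    (A0 : IntermediateField k Ω) (hA0 : coeffField k x ≤ A0)
    (hA0L : A0 ≤ adjoin k (Set.range x)) (m : ℕ)
    (hm : ∀ A : IntermediateField k Ω, A0 ≤ A → relfinrank A0 A ≠ 0 →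
      Step 1 A (A ⊔ adjoin k (Set.range x)) → m ∣ relfinrank A0 A) :
    m * Monoid.exponent (Im x A0) ∣ relfinrank A0 (adjoin k (Set.range x)) := by
  have hKL : coeffField k x ≤ adjoin k (Set.range x) := coeffField_le x
  have hfin : relfinrank A0 (adjoin k (Set.range x)) ≠ 0 := by
    have h4 := card_Im x hx.injective hΩ (coeffField k x) le_rfl
    rw [sup_eq_right.2 hKL] at h4
    have h5 : relfinrank (coeffField k x) A0 * relfinrank A0 (adjoin k (Set.range x)) =
        relfinrank (coeffField k x) (adjoin k (Set.range x)) :=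
      relfinrank_mul_relfinrank hA0 hA0L
    intro h
    rw [h, mul_zero, h4] at h5
    exact (Nat.card_pos (α := Im x (coeffField k x))).ne h5
  have key : ∀ g : Im x A0, m * orderOf (g : Equiv.Perm (Fin n)) ∣
      relfinrank A0 (adjoin k (Set.range x)) := by
    intro g
    obtain ⟨σ, hσ, hg⟩ := g.2
    obtain ⟨A, hAA, hAL, hAm, hAd⟩ := fixed_cyclic x hx A0 hA0L σ hσ g hg
    obtain ⟨ζ, y, hζ, hy, hy0, hσy⟩ := exists_eigen x hx σ g hg
    have hst : Step 1 A (adjoin k (Set.range x)) :=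
      step_of_eigen x A σ (orderOf (g : Equiv.Perm (Fin n))) (orderOf_pos _) hAL hAm hAd ζ hζ y
        hy hy0 hσy
    have hmul : relfinrank A0 A * relfinrank A (adjoin k (Set.range x)) =
        relfinrank A0 (adjoin k (Set.range x)) := relfinrank_mul_relfinrank hAA hAL
    have h1 : relfinrank A0 A ≠ 0 := by
      intro h
      rw [h, zero_mul] at hmul
      exact hfin hmul.symm
    have h2 := hm A hAA h1 (by rw [sup_eq_right.2 hAL]; exact hst)
    rw [← hmul, hAd]
    exact mul_dvd_mul_right h2 _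
  obtain ⟨q, hq⟩ : m ∣ relfinrank A0 (adjoin k (Set.range x)) :=
    (dvd_mul_right m _).trans (key 1)
  have hm0 : 0 < m := by
    rcases Nat.eq_zero_or_pos m with h | h
    · rw [h, zero_mul] at hq
      exact absurd hq hfin
    · exact h
  rw [hq]
  refine mul_dvd_mul_left m (Monoid.exponent_dvd.2 fun g => ?_)
  have h1 := key g
  rw [hq] at h1
  have h2 := Nat.dvd_of_mul_dvd_mul_left hm0 h1
  rwa [Subgroup.orderOf_coe] at h2

/-- RD-W8. The order of a permutation is the lcm of the lengths of its cycles (`≤ n`), and there is a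
cycle of every length `m ≤ n`. -/
theorem exponent_perm (n : ℕ) :
    Monoid.exponent (Equiv.Perm (Fin n)) = (Finset.Icc 1 n).lcm id := by
  refine Nat.dvd_antisymm ?_ ?_
  · refine Monoid.exponent_dvd_of_forall_pow_eq_one fun g => ?_
    refine orderOf_dvd_iff_pow_eq_one.1 ?_
    rw [← Equiv.Perm.lcm_cycleType]
    refine Multiset.lcm_dvd.2 fun b hb => ?_
    have h1 : 2 ≤ b := Equiv.Perm.two_le_of_mem_cycleType hb
    have h2 : b ≤ n := by
      refine (Equiv.Perm.le_card_support_of_mem_cycleType hb).trans ?_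
      refine (Finset.card_le_univ _).trans ?_
      rw [Fintype.card_fin]
    exact Finset.dvd_lcm (f := id) (Finset.mem_Icc.2 ⟨by omega, h2⟩)
  · refine Finset.lcm_dvd fun m hm => ?_
    rw [Finset.mem_Icc] at hm
    rcases Nat.lt_or_ge m 2 with h | h
    · have : m = 1 := by omega
      rw [this]
      exact one_dvd _
    · obtain ⟨g, hg⟩ := (Equiv.Perm.exists_with_cycleType_iff (α := Fin n) (m := {m})).2
        ⟨by rw [Multiset.sum_singleton, Fintype.card_fin]; exact hm.2,
          fun a ha => by rw [Multiset.mem_singleton] at ha; rw [ha]; exact h⟩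
      have h1 : orderOf g = m := by
        rw [← Equiv.Perm.lcm_cycleType, hg, Multiset.lcm_singleton]
        exact normalize_eq m
      have h2 := Monoid.order_dvd_exponent g
      rw [h1] at h2
      exact h2

/-- RD-W9 (uses `field_of_step`, `index_dvd`, `index_sharp`, `card_Im`, `exponent_perm`, `Im_top`). -/
theorem index_iff [IsAlgClosed k] [IsAlgClosed Ω] [CharZero k] {n : ℕ} (x : Fin n → Ω)
    (hx : AlgebraicIndependent k x) (hΩ : Algebra.IsAlgebraic (adjoin k (Set.range x)) Ω)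
    (A0 : IntermediateField k Ω) (hA0 : coeffField k x ≤ A0)
    (hA0L : A0 ≤ adjoin k (Set.range x)) (m : ℕ) :
    (∀ A : IntermediateField k Ω, A0 ≤ A → relfinrank A0 A ≠ 0 →
      Step 1 A (A ⊔ adjoin k (Set.range x)) → m ∣ relfinrank A0 A) ↔
    m * Monoid.exponent (Im x A0) ∣ relfinrank A0 (adjoin k (Set.range x)) := by
  refine ⟨fun h => index_sharp x hx hΩ A0 hA0 hA0L m h, fun h A hA hfin hst => ?_⟩
  obtain ⟨E', hE, hTD, h1, h2⟩ := field_of_step x hx hΩ 1 A (hA0.trans hA) hst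
  have h3 := h.trans (index_dvd x hx hΩ A0 A hA0 hA0L hA hfin E' hE hTD h1 h2)
  rw [mul_comm m] at h3
  exact Nat.dvd_of_mul_dvd_mul_left
    (Nat.pos_of_ne_zero Monoid.exponent_ne_zero_of_finite) h3

/-- RD-W9 (uses `index_iff` for `A0 = coeffField k x`, `Im_top`, `card_Im`, `exponent_perm`). -/
theorem index_iff_sym [IsAlgClosed k] [IsAlgClosed Ω] [CharZero k] {n : ℕ} (x : Fin n → Ω)
    (hx : AlgebraicIndependent k x) (hΩ : Algebra.IsAlgebraic (adjoin k (Set.range x)) Ω) (m : ℕ) :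
    (∀ A : IntermediateField k Ω, coeffField k x ≤ A → relfinrank (coeffField k x) A ≠ 0 →
      Step 1 A (A ⊔ adjoin k (Set.range x)) → m ∣ relfinrank (coeffField k x) A) ↔
    m * (Finset.Icc 1 n).lcm id ∣ n.factorial := by
  have h1 : Monoid.exponent (Im x (coeffField k x)) = (Finset.Icc 1 n).lcm id := by
    rw [Im_top x hx hΩ, ← exponent_perm n]
    exact Monoid.exponent_eq_of_mulEquiv Subgroup.topEquiv
  have h2 : relfinrank (coeffField k x) (adjoin k (Set.range x)) = n.factorial := by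
    have h3 := card_Im x hx.injective hΩ (coeffField k x) le_rfl
    rw [sup_eq_right.2 (coeffField_le x), Im_top x hx hΩ] at h3
    rw [h3, Nat.card_congr Subgroup.topEquiv.toEquiv, Nat.card_eq_fintype_card, Fintype.card_perm,
      Fintype.card_fin]
  rw [index_iff x hx hΩ (coeffField k x) le_rfl (coeffField_le x) m, h1, h2]

/-- RD-W10 (uses `tower_index`, `exists_field`, `index_dvd`, `n_dvd`, `card_Im`, `Im_top`,
`exponent_perm`). -/
theorem tower_one [IsAlgClosed k] [IsAlgClosed Ω] [CharZero k] {n : ℕ} (hn : 5 ≤ n) (x : Fin n → Ω)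
    (hx : AlgebraicIndependent k x) (hΩ : Algebra.IsAlgebraic (adjoin k (Set.range x)) Ω)
    (r : ℕ) (T : ℕ → IntermediateField k Ω) (h0 : T 0 = coeffField k x)
    (hT : ∀ i < r, Step 1 (T i) (T (i + 1))) (hr : ∃ i, x i ∈ T r) :
    ∃ i < r, n.factorial ∣ (Finset.Icc 1 n).lcm id * relfinrank (T 0) (T i) ∧
      n ∣ relfinrank (T i) (T r) := by
  obtain ⟨i, hi, h0i, hir, hfin, h1, h2⟩ := tower_index hn x hx hΩ 1 r T h0 hT hr
  have hA : coeffField k x ≤ T i := h0 ▸ h0i
  have hA0 : relfinrank (coeffField k x) (T i) ≠ 0 := h0 ▸ hfin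
  obtain ⟨E', hE, hTD, h3, h4⟩ := exists_field hn x hx hΩ 1 (T i) (T (i + 1)) hA (hT i hi) h1 h2
  have h5 := index_dvd x hx hΩ (coeffField k x) (T i) le_rfl (coeffField_le x) hA hA0 E' hE hTD h3 h4
  have h6 : Monoid.exponent (Im x (coeffField k x)) = (Finset.Icc 1 n).lcm id := by
    rw [Im_top x hx hΩ, ← exponent_perm n]
    exact Monoid.exponent_eq_of_mulEquiv Subgroup.topEquiv
  have h7 : relfinrank (coeffField k x) (adjoin k (Set.range x)) = n.factorial := by
    have h8 := card_Im x hx.injective hΩ (coeffField k x) le_rfl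
    rw [sup_eq_right.2 (coeffField_le x), Im_top x hx hΩ] at h8
    rw [h8, Nat.card_congr Subgroup.topEquiv.toEquiv, Nat.card_eq_fintype_card, Fintype.card_perm,
      Fintype.card_fin]
  rw [h6, h7] at h5
  refine ⟨i, hi, by rw [h0]; exact h5, ?_⟩
  obtain ⟨j, hj⟩ := hr
  exact n_dvd hn x hx.injective (T i) (T r) hA hir h1 j hj

end Pool.Agent.Helper15.RD
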