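import Pool.Agent.Helper15.RD.Sb

/-!
# Project RD (C), block O: accessory extensions of small degree, the octic
-/

set_option autoImplicit false

namespace Pool.Agent.Helper15.RD

open IntermediateField

universe u v

variable {k : Type v} {Ω : Type u} [Field k] [Field Ω] [Algebra k Ω]

/-! ### O1: steps -/

/-- RD-O1. -/
theorem Step.mono {d d' : ℕ} (h : d ≤ d') {A B : IntermediateField k Ω} (hs : Step d A B) :
    Step d' A B := by
  obtain ⟨h0, F, E, h1, h2, h3, h4, h5⟩ := hs
  exact ⟨h0, F, E, h1, h2, h3, h4, h5.trans (Nat.cast_le.2 h)⟩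

open IntermediateField.algebraAdjoinAdjoin in
private theorem trdeg_adjoin_le_aux {K : Type u} [Field K] [Algebra k K] (s : Set K)
    (hs : adjoin k s = ⊤) : Algebra.trdeg k K ≤ Cardinal.mk s := by
  have h2 : Algebra.IsAlgebraic (adjoin k s) K := by
    refine ⟨fun z => ?_⟩
    have hz : z ∈ adjoin k s := by
      rw [hs]
      exact mem_top
    exact isAlgebraic_algebraMap (R := adjoin k s) (⟨z, hz⟩ : adjoin k s)
  have h3 : Algebra.IsAlgebraic (Algebra.adjoin k s) K :=
    Algebra.IsAlgebraic.trans _ (adjoin k s) _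
  exact Algebra.IsAlgebraic.trdeg_le_cardinalMk k s

/-- RD-O1. A generating family contains a transcendence basis. -/
theorem trdeg_adjoin_le {N : ℕ} (y : Fin N → Ω) :
    Algebra.trdeg k (adjoin k (Set.range y)) ≤ N := by
  let y' : Fin N → adjoin k (Set.range y) := fun j => ⟨y j, subset_adjoin k _ ⟨j, rfl⟩⟩
  have htop : adjoin k (Set.range y') = ⊤ := by
    have h1 : (adjoin k (Set.range y')).map (adjoin k (Set.range y)).val =
        (⊤ : IntermediateField k (adjoin k (Set.range y))).map (adjoin k (Set.range y)).val := by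
      rw [adjoin_map, ← AlgHom.fieldRange_eq_map, fieldRange_val, ← Set.range_comp]
      rfl
    exact map_injective _ h1
  refine (trdeg_adjoin_le_aux _ htop).trans ?_
  have h6 := Cardinal.mk_range_le_lift (f := y')
  rw [Cardinal.mk_fin, Cardinal.lift_natCast, ← Cardinal.lift_natCast.{0, u} N] at h6
  exact Cardinal.lift_le.1 h6

/-- RD-O2 (uses `closed`, `alg_of_le`, `card_Im`, `perm`). `F = A ⊓ E`. The group `G = Im x A` acts
faithfully on `E` (two elements of `A.fixingSubgroup` inducing the same permutation agree on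
`A ⊔ L ≥ E`), with fixed field `E ⊓ A` (`closed`), so `[E : F] = card G = [A ⊔ L : A]` (Artin, see `artin` in
`Ku.lean`; `exists_action` in `Ga.lean` may help). `A ⊔ E = A ⊔ L`: an element of `(A ⊔ E).fixingSubgroup` fixes
the `x i`, so `x i ∈ A ⊔ E` (`closed`). `trdeg k F ≤ trdeg k E`. -/
theorem step_of_field [IsAlgClosed Ω] [CharZero k] {n : ℕ} (x : Fin n → Ω)
    (hx : AlgebraicIndependent k x) (hΩ : Algebra.IsAlgebraic (adjoin k (Set.range x)) Ω)
    (A : IntermediateField k Ω) (hA : coeffField k x ≤ A) (d : ℕ) (E : IntermediateField k Ω)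
    (hE : E ≤ A ⊔ adjoin k (Set.range x)) (htr : Algebra.trdeg k E ≤ d)
    (hst : ∀ σ ∈ A.fixingSubgroup, ∀ z ∈ E, σ z ∈ E)
    (hf : ∀ σ ∈ A.fixingSubgroup, (∀ z ∈ E, σ z = z) → ∀ i, σ (x i) = x i) :
    Step d A (A ⊔ adjoin k (Set.range x)) := by
  classical
  have hinj : Function.Injective x := hx.injective
  have hcard := card_Im x hinj hΩ A hA
  have hFE : A ⊓ E ≤ E := inf_le_right
  have hch : ∀ π : Im x A, ∃ σ : Ω ≃ₐ[k] Ω, σ ∈ A.fixingSubgroup ∧
      ∀ i, σ (x i) = x ((π : Equiv.Perm (Fin n)) i) := by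
    intro π
    obtain ⟨σ, h1, h2⟩ := π.2
    exact ⟨σ, h1, h2⟩
  refine ⟨?_, A ⊓ E, E, inf_le_left, hFE, ?_, ?_, ?_⟩
  · rw [hcard]
    exact Nat.card_pos.ne'
  · refine le_antisymm (sup_le le_sup_left hE) (sup_le le_sup_left ?_)
    rw [IntermediateField.adjoin_le_iff]
    rintro _ ⟨i, rfl⟩
    refine closed (A ⊔ E) (alg_of_le x hΩ (A ⊔ E) (hA.trans le_sup_left)) _ ?_
    intro σ hσ
    refine hf σ (IntermediateField.fixingSubgroup_antitone le_sup_left hσ) ?_ i
    intro z hz
    exact (IntermediateField.mem_fixingSubgroup_iff _ _).1 hσ z ((le_sup_right : E ≤ A ⊔ E) hz)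
  · obtain ⟨Θ, hΘ⟩ := exists_action x A _ rfl
    have hΘE : ∀ (π : Im x A) (z : E), (Θ π ⟨z, hE z.2⟩ : Ω) ∈ E := by
      intro π z
      obtain ⟨σ, h1, h2⟩ := hch π
      rw [hΘ π σ h1 h2]
      exact hst σ h1 z z.2
    let act : MulSemiringAction (Im x A) E :=
      { smul := fun π z => ⟨(Θ π ⟨z, hE z.2⟩ : Ω), hΘE π z⟩
        one_smul := by
          intro z
          apply Subtype.ext
          change (Θ 1 ⟨z, hE z.2⟩ : Ω) = z
          rw [map_one]
          rfl
        mul_smul := by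
          intro π π' z
          apply Subtype.ext
          change (Θ (π * π') ⟨z, hE z.2⟩ : Ω) = (Θ π ⟨(Θ π' ⟨z, hE z.2⟩ : Ω), _⟩ : Ω)
          rw [map_mul]
          rfl
        smul_zero := by
          intro π
          apply Subtype.ext
          have h1 : ((Θ π 0 : (A ⊔ adjoin k (Set.range x) : IntermediateField k Ω)) : Ω) = 0 := by
            rw [map_zero]
            rfl
          exact h1
        smul_add := by
          intro π z w
          apply Subtype.ext
          have h1 := congrArg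
            (fun y : (A ⊔ adjoin k (Set.range x) : IntermediateField k Ω) => (y : Ω))
            (map_add (Θ π) ⟨z, hE z.2⟩ ⟨w, hE w.2⟩)
          exact h1
        smul_one := by
          intro π
          apply Subtype.ext
          have h1 : ((Θ π 1 : (A ⊔ adjoin k (Set.range x) : IntermediateField k Ω)) : Ω) = 1 := by
            rw [map_one]
            rfl
          exact h1
        smul_mul := by
          intro π z w
          apply Subtype.ext
          have h1 := congrArg
            (fun y : (A ⊔ adjoin k (Set.range x) : IntermediateField k Ω) => (y : Ω))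
            (map_mul (Θ π) ⟨z, hE z.2⟩ ⟨w, hE w.2⟩)
          exact h1 }
    have hact : ∀ (π : Im x A) (σ : Ω ≃ₐ[k] Ω), σ ∈ A.fixingSubgroup →
        (∀ i, σ (x i) = x ((π : Equiv.Perm (Fin n)) i)) → ∀ z : E, ((π • z : E) : Ω) = σ z := by
      intro π σ h1 h2 z
      exact hΘ π σ h1 h2 ⟨z, hE z.2⟩
    have hfaith : FaithfulSMul (Im x A) E := by
      refine ⟨fun {π π'} h => ?_⟩
      obtain ⟨σ, h1, h2⟩ := hch π
      obtain ⟨σ', h1', h2'⟩ := hch π'
      have h3 : ∀ z ∈ E, (σ'⁻¹ * σ) z = z := by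
        intro z hz
        have h4 := congrArg Subtype.val (h ⟨z, hz⟩)
        rw [hact π σ h1 h2, hact π' σ' h1' h2'] at h4
        rw [AlgEquiv.mul_apply, h4, ← AlgEquiv.mul_apply, inv_mul_cancel, AlgEquiv.one_apply]
      have h5 := hf (σ'⁻¹ * σ) (mul_mem (inv_mem h1') h1) h3
      apply Subtype.ext
      apply Equiv.ext
      intro i
      apply hinj
      rw [← h2 i, ← h2' i]
      have h6 := congrArg σ' (h5 i)
      rwa [← AlgEquiv.mul_apply, mul_inv_cancel_left] at h6
    have hfix : ∀ z : E, z ∈ FixedPoints.subfield (Im x A) E ↔ (z : Ω) ∈ A := by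
      intro z
      constructor
      · intro h
        refine closed A (alg_of_le x hΩ A hA) _ ?_
        intro σ hσ
        obtain ⟨π, hπ⟩ := perm x hinj σ (IntermediateField.fixingSubgroup_antitone hA hσ)
        have h1 := congrArg Subtype.val (h ⟨π, σ, hσ, hπ⟩)
        rw [hact ⟨π, σ, hσ, hπ⟩ σ hσ hπ] at h1
        exact h1
      · intro h π
        obtain ⟨σ, h1, h2⟩ := hch π
        apply Subtype.ext
        rw [hact π σ h1 h2]
        exact (IntermediateField.mem_fixingSubgroup_iff _ _).1 h1 _ h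
    let _ : Fintype (Im x A) := Fintype.ofFinite _
    have hfp : Module.finrank (FixedPoints.subfield (Im x A) E) E = Fintype.card (Im x A) :=
      FixedPoints.finrank_eq_card (Im x A) E
    rw [hcard, Nat.card_eq_fintype_card, ← hfp, relfinrank_eq_finrank_of_le hFE]
    let i : (A ⊓ E : IntermediateField k Ω) ≃+* FixedPoints.subfield (Im x A) E :=
      { toFun := fun z => ⟨⟨z, z.2.2⟩, (hfix _).2 z.2.1⟩
        invFun := fun z => ⟨((z : E) : Ω), (hfix z).1 z.2, (z : E).2⟩
        left_inv := fun z => rfl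
        right_inv := fun z => rfl
        map_mul' := fun z w => rfl
        map_add' := fun z w => rfl }
    let j : extendScalars hFE ≃+* E :=
      { toFun := fun z => ⟨(z : Ω), z.2⟩
        invFun := fun z => ⟨(z : Ω), z.2⟩
        left_inv := fun z => rfl
        right_inv := fun z => rfl
        map_mul' := fun z w => rfl
        map_add' := fun z w => rfl }
    exact Algebra.finrank_eq_of_equiv_equiv i j (by
      ext z
      rfl)
  · exact (trdeg_le_of_injective (IntermediateField.inclusion hFE)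
      (IntermediateField.inclusion hFE).injective).trans htr

/-- a helper of `exists_fixed`: automorphisms permuting the `x i` fix the coefficients -/
private theorem exists_fixed_mem {n : ℕ} (x : Fin n → Ω) (π : Equiv.Perm (Fin n))
    (σ : Ω ≃ₐ[k] Ω) (hσ : ∀ i, σ (x i) = x (π i)) : σ ∈ (coeffField k x).fixingSubgroup := by
  have hp : (∏ i, (Polynomial.X - Polynomial.C (x i))).map (σ : Ω →+* Ω) =
      ∏ i, (Polynomial.X - Polynomial.C (x i)) := by
    rw [Polynomial.map_prod, ← Equiv.prod_comp π fun i => (Polynomial.X - Polynomial.C (x i))]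
    refine Finset.prod_congr rfl fun i _ => ?_
    rw [Polynomial.map_sub, Polynomial.map_X, Polynomial.map_C]
    congr 2
    exact hσ i
  have h4 : coeffField k x ≤ IntermediateField.fixedField (Subgroup.zpowers σ) := by
    unfold coeffField
    rw [IntermediateField.adjoin_le_iff]
    rintro y ⟨j, rfl⟩
    have h3 := congrArg (fun p => Polynomial.coeff p j) hp
    rw [Polynomial.coeff_map] at h3
    rw [SetLike.mem_coe, IntermediateField.mem_fixedField_iff]
    intro f hf
    have h5 : Subgroup.zpowers σ ≤ MulAction.stabilizer (Ω ≃ₐ[k] Ω)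
        ((∏ i, (Polynomial.X - Polynomial.C (x i))).coeff j) := by
      rw [Subgroup.zpowers_le]
      exact h3
    exact h5 hf
  rw [IntermediateField.mem_fixingSubgroup_iff]
  intro z hz
  exact (IntermediateField.mem_fixedField_iff _ _).1 (h4 hz) σ (Subgroup.mem_zpowers σ)

/-- a helper of `exists_fixed`: Artin -/
private theorem exists_fixed_artin {M : Type u} [Field M] [Algebra k M] {D : Type*} [Group D]
    [Finite D] (φ : D →* (M ≃ₐ[k] M)) (hφ : Function.Injective φ) :
    Module.finrank (fixedField φ.range) M = Nat.card D := by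
  let e : D ≃* φ.range := MonoidHom.ofInjective hφ
  have : Finite φ.range := Finite.of_equiv _ e.toEquiv
  have := Fintype.ofFinite φ.range
  have h : Module.finrank (FixedPoints.subfield φ.range M) M = Fintype.card φ.range :=
    FixedPoints.finrank_eq_card φ.range M
  have h2 : Nat.card D = Fintype.card φ.range := by
    rw [Nat.card_congr e.toEquiv, Nat.card_eq_fintype_card]
  rw [h2]
  exact h

/-- RD-O3 (uses `Im_top`, `card_Im`, `closed`). The fixed field of `H` in `L`. Every `σ` with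
`σ (x i) = x (π i)` fixes `K`; `L / K` is Galois with group all permutations, `card_Im` for `K` and for
`A`: `[A : K] * card H = n!`. -/
theorem exists_fixed [IsAlgClosed Ω] [CharZero k] {n : ℕ} (x : Fin n → Ω)
    (hx : AlgebraicIndependent k x) (hΩ : Algebra.IsAlgebraic (adjoin k (Set.range x)) Ω)
    (H : Subgroup (Equiv.Perm (Fin n))) :
    ∃ A : IntermediateField k Ω, coeffField k x ≤ A ∧ A ≤ adjoin k (Set.range x) ∧
      Im x A = H ∧ relfinrank (coeffField k x) A * Nat.card H = n.factorial ∧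
      ∀ z, z ∈ A ↔ z ∈ adjoin k (Set.range x) ∧
        ∀ π ∈ H, ∀ σ : Ω ≃ₐ[k] Ω, (∀ i, σ (x i) = x (π i)) → σ z = z := by
  set K := coeffField k x with hK
  set L := adjoin k (Set.range x) with hL
  have hinj : Function.Injective x := hx.injective
  have hxL : ∀ i, x i ∈ L := fun i => subset_adjoin k _ ⟨i, rfl⟩
  have hKL : K ≤ L := by
    intro z hz
    refine closed L hΩ z fun σ hσ => ?_
    have h1 : σ ∈ K.fixingSubgroup := exists_fixed_mem x 1 σ fun i =>
      (IntermediateField.mem_fixingSubgroup_iff _ _).1 hσ _ (hxL i)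
    exact (IntermediateField.mem_fixingSubgroup_iff _ _).1 h1 _ hz
  have htop := Im_top x hx hΩ
  have hM : L = K ⊔ adjoin k (Set.range x) := by
    rw [← hL]
    exact (sup_eq_right.2 hKL).symm
  obtain ⟨Θ, hΘ⟩ := exists_action x K L hM
  have hle : H ≤ Im x K := by
    rw [htop]
    exact le_top
  let φ : H →* (L ≃ₐ[k] L) := Θ.comp (Subgroup.inclusion hle)
  have hφ : ∀ (π : H) (σ : Ω ≃ₐ[k] Ω), (∀ i, σ (x i) = x ((π : Equiv.Perm (Fin n)) i)) →
      ∀ z : L, (φ π z : Ω) = σ z := fun π σ hσ z =>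
    hΘ (Subgroup.inclusion hle π) σ (exists_fixed_mem x π σ hσ) hσ z
  have hex : ∀ π : H, ∃ σ : Ω ≃ₐ[k] Ω, ∀ i, σ (x i) = x ((π : Equiv.Perm (Fin n)) i) := by
    intro π
    have h1 : (π : Equiv.Perm (Fin n)) ∈ Im x K := hle π.2
    obtain ⟨σ, _, h2⟩ := h1
    exact ⟨σ, h2⟩
  have hφi : Function.Injective φ := by
    rw [injective_iff_map_eq_one]
    intro π hπ
    obtain ⟨σ, hσ⟩ := hex π
    apply Subtype.ext
    apply Equiv.ext
    intro i
    have h1 := hφ π σ hσ ⟨x i, hxL i⟩
    rw [hπ, AlgEquiv.one_apply] at h1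
    have h2 : x ((π : Equiv.Perm (Fin n)) i) = x i := by
      rw [← hσ i]
      exact h1.symm
    exact hinj h2
  let N : IntermediateField k L := fixedField φ.range
  have hN : ∀ y : L, y ∈ N ↔ ∀ π : H, φ π y = y := by
    intro y
    rw [mem_fixedField_iff]
    constructor
    · intro h π
      exact h (φ π) ⟨π, rfl⟩
    · rintro h _ ⟨π, rfl⟩
      exact h π
  let A : IntermediateField k Ω := N.map L.val
  have hAmem : ∀ z, z ∈ A ↔ ∃ y ∈ N, (y : Ω) = z := fun z => Iff.rfl
  have hmem : ∀ z, z ∈ A ↔ z ∈ L ∧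
      ∀ π ∈ H, ∀ σ : Ω ≃ₐ[k] Ω, (∀ i, σ (x i) = x (π i)) → σ z = z := by
    intro z
    rw [hAmem]
    constructor
    · rintro ⟨y, hy, rfl⟩
      refine ⟨y.2, fun π hπ σ hσ => ?_⟩
      rw [← hφ ⟨π, hπ⟩ σ hσ y, (hN y).1 hy]
    · rintro ⟨hz, h⟩
      refine ⟨⟨z, hz⟩, (hN _).2 fun π => ?_, rfl⟩
      obtain ⟨σ, hσ⟩ := hex π
      apply Subtype.ext
      rw [hφ π σ hσ]
      exact h π π.2 σ hσ
  have hAL : A ≤ L := fun z hz => ((hmem z).1 hz).1
  have hKA : K ≤ A := by
    intro z hz
    rw [hmem]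
    refine ⟨hKL hz, fun π _ σ hσ => ?_⟩
    exact (IntermediateField.mem_fixingSubgroup_iff _ _).1 (exists_fixed_mem x π σ hσ) _ hz
  have hrel : relfinrank A L = Nat.card H := by
    have h1 : L = (⊤ : IntermediateField k L).map L.val := by
      rw [← AlgHom.fieldRange_eq_map, fieldRange_val]
    calc relfinrank A L = relfinrank (N.map L.val) ((⊤ : IntermediateField k L).map L.val) := by
          rw [← h1]
      _ = relfinrank N ⊤ := relfinrank_map_map _ _ _
      _ = Module.finrank N L := relfinrank_top_right N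
      _ = Nat.card H := exists_fixed_artin φ hφi
  have hcardA : Nat.card (Im x A) = Nat.card H := by
    rw [← card_Im x hinj hΩ A hKA, ← hL, sup_eq_right.2 hAL, hrel]
  have hHA : H ≤ Im x A := by
    intro π hπ
    obtain ⟨σ, hσ⟩ := hex ⟨π, hπ⟩
    refine ⟨σ, ?_, hσ⟩
    rw [IntermediateField.mem_fixingSubgroup_iff]
    intro z hz
    exact ((hmem z).1 hz).2 π hπ σ hσ
  have hIm : Im x A = H := (Subgroup.eq_of_le_of_card_ge hHA hcardA.le).symm
  have hcardK : relfinrank K L = n.factorial := by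
    have h1 := card_Im x hinj hΩ K le_rfl
    rw [← hL, sup_eq_right.2 hKL, htop] at h1
    rw [h1, Subgroup.card_top, Nat.card_perm, Nat.card_fin]
  refine ⟨A, hKA, hAL, hIm, ?_, hmem⟩
  rw [← hrel, relfinrank_mul_relfinrank hKA hAL, hcardK]

/-! ### O4: wreath products -/

/-- the wreath product of `ℤ/m` and `S_N`, fixing the points outside of the blocks -/
def wr {N m f n : ℕ} (β : (Fin N × ZMod m) ⊕ Fin f ≃ Fin n) :
    Subgroup (Equiv.Perm (Fin n)) where
  carrier := {g | (∀ l, g (β (Sum.inr l)) = β (Sum.inr l)) ∧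
    ∃ (π : Equiv.Perm (Fin N)) (a : Fin N → ZMod m),
      ∀ j b, g (β (Sum.inl (j, b))) = β (Sum.inl (π j, b + a j))}
  mul_mem' := by
    rintro g g' ⟨h1, π, a, h2⟩ ⟨h1', π', a', h2'⟩
    refine ⟨fun l => ?_, π * π', fun j => a' j + a (π' j), fun j b => ?_⟩
    · rw [Equiv.Perm.mul_apply, h1', h1]
    · rw [Equiv.Perm.mul_apply, h2', h2, Equiv.Perm.mul_apply, add_assoc]
  one_mem' := ⟨fun l => rfl, 1, 0, fun j b => by simp⟩
  inv_mem' := by
    rintro g ⟨h1, π, a, h2⟩
    refine ⟨fun l => ?_, π⁻¹, fun j => -a (π⁻¹ j), fun j b => ?_⟩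
    · rw [Equiv.Perm.inv_eq_iff_eq, h1]
    · rw [Equiv.Perm.inv_eq_iff_eq, h2, neg_add_cancel_right]
      simp

/-- the permutation of the blocks given by `(π, a)` -/
private def card_wr_equiv {N m : ℕ} (q : Equiv.Perm (Fin N) × (Fin N → ZMod m)) :
    Fin N × ZMod m ≃ Fin N × ZMod m where
  toFun t := (q.1 t.1, t.2 + q.2 t.1)
  invFun t := (q.1.symm t.1, t.2 - q.2 (q.1.symm t.1))
  left_inv t := by simp
  right_inv t := by simp

/-- RD-O4. `g` is determined by `(π, a)` and every pair occurs. -/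
theorem card_wr {N m f n : ℕ} [NeZero m] (β : (Fin N × ZMod m) ⊕ Fin f ≃ Fin n) :
    Nat.card (wr β) = N.factorial * m ^ N := by
  let Φ0 : Equiv.Perm (Fin N) × (Fin N → ZMod m) → Equiv.Perm (Fin n) := fun q =>
    (β.symm.trans ((card_wr_equiv q).sumCongr (Equiv.refl (Fin f)))).trans β
  have hl : ∀ q j b, Φ0 q (β (Sum.inl (j, b))) = β (Sum.inl (q.1 j, b + q.2 j)) := by
    intro q j b
    simp [Φ0, card_wr_equiv]
  have hr : ∀ q l, Φ0 q (β (Sum.inr l)) = β (Sum.inr l) := by
    intro q l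
    simp [Φ0]
  let Φ : Equiv.Perm (Fin N) × (Fin N → ZMod m) → wr β := fun q =>
    ⟨Φ0 q, fun l => hr q l, q.1, q.2, fun j b => hl q j b⟩
  have hΦ : Function.Bijective Φ := by
    constructor
    · intro q q' hq
      have h0 : Φ0 q = Φ0 q' := congrArg Subtype.val hq
      have h1 : ∀ j, (q.1 j, q.2 j) = (q'.1 j, q'.2 j) := by
        intro j
        have h2 := hl q j 0
        rw [h0, hl q' j 0] at h2
        have h3 := Sum.inl.inj (β.injective h2)
        rw [zero_add, zero_add] at h3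
        exact h3.symm
      refine Prod.ext (Equiv.ext fun j => ?_) (funext fun j => ?_)
      · exact congrArg Prod.fst (h1 j)
      · exact congrArg Prod.snd (h1 j)
    · rintro ⟨g, h1, π, a, h2⟩
      refine ⟨(π, a), Subtype.ext (Equiv.ext fun i => ?_)⟩
      obtain ⟨t, rfl⟩ := β.surjective i
      rcases t with ⟨j, b⟩ | l
      · change Φ0 (π, a) _ = g _
        rw [hl, h2]
      · change Φ0 (π, a) _ = g _
        rw [hr, h1]
  rw [← Nat.card_congr (Equiv.ofBijective Φ hΦ), Nat.card_eq_fintype_card, Fintype.card_prod,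
    Fintype.card_perm, Fintype.card_fin, Fintype.card_fun, ZMod.card, Fintype.card_fin]

/-- RD-O4 (`m N ≤ n`). -/
theorem exists_beta (N m n : ℕ) [NeZero m] (h : N * m ≤ n) :
    Nonempty ((Fin N × ZMod m) ⊕ Fin (n - N * m) ≃ Fin n) := by
  refine ⟨Fintype.equivOfCardEq ?_⟩
  rw [Fintype.card_sum, Fintype.card_prod, Fintype.card_fin, ZMod.card, Fintype.card_fin,
    Fintype.card_fin]
  omega

section

variable {N m f n : ℕ} [NeZero m] (ζ : k) (β : (Fin N × ZMod m) ⊕ Fin f ≃ Fin n) (x : Fin n → Ω)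

/-- the Lagrange resolvents -/
noncomputable def yv (j : Fin N) : Ω :=
  ∑ b : ZMod m, algebraMap k Ω (ζ⁻¹ ^ b.val) * x (β (Sum.inl (j, b)))

/-- RD-O5. -/
theorem yv_act (hζ : IsPrimitiveRoot ζ m) (σ : Ω ≃ₐ[k] Ω) (g : Equiv.Perm (Fin n))
    (hσ : ∀ i, σ (x i) = x (g i)) (π : Equiv.Perm (Fin N)) (a : Fin N → ZMod m)
    (hg : ∀ j b, g (β (Sum.inl (j, b))) = β (Sum.inl (π j, b + a j))) (j : Fin N) :
    σ (yv ζ β x j) = algebraMap k Ω (ζ ^ (a j).val) * yv ζ β x (π j) := by
  have h0 : ζ ≠ 0 := hζ.ne_zero (NeZero.ne m)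
  have h1 : ζ⁻¹ ^ m = 1 := by rw [inv_pow, hζ.pow_eq_one, inv_one]
  have h2 : ∀ b : ZMod m, ζ⁻¹ ^ b.val = ζ ^ (a j).val * ζ⁻¹ ^ (b + a j).val := by
    intro b
    have h3 : ζ⁻¹ ^ (b + a j).val = ζ⁻¹ ^ (b.val + (a j).val) := by
      rw [ZMod.val_add]
      exact (pow_eq_pow_mod (b.val + (a j).val) h1).symm
    rw [h3, pow_add, inv_pow ζ (a j).val, mul_comm (ζ⁻¹ ^ b.val), ← mul_assoc,
      mul_inv_cancel₀ (pow_ne_zero _ h0), one_mul]
  unfold yv
  rw [map_sum, Finset.mul_sum]
  refine Fintype.sum_equiv (Equiv.addRight (a j)) _ _ fun b => ?_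
  rw [map_mul, AlgEquiv.commutes, hσ, hg, h2 b, map_mul, mul_assoc]
  rfl

/-- RD-O5. Exchange `x (β (inl (j, 0)))` for `yv j`, the other `x i` are kept: the new family generates the
same field (`independent_of_generate` in `Co.lean`). -/
theorem yv_indep (hx : AlgebraicIndependent k x) : AlgebraicIndependent k (yv ζ β x) := by
  classical
  let w0 : (Fin N × ZMod m) ⊕ Fin f → Ω :=
    Sum.elim (fun q => if q.2 = 0 then yv ζ β x q.1 else x (β (Sum.inl q)))
      (fun l => x (β (Sum.inr l)))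
  let w : Fin n → Ω := w0 ∘ β.symm
  have hwβ : ∀ t, w (β t) = w0 t := by
    intro t
    simp only [w, Function.comp_apply, Equiv.symm_apply_apply]
  have hmem : ∀ t, w0 t ∈ adjoin k (Set.range w) := by
    intro t
    rw [← hwβ t]
    exact subset_adjoin k _ ⟨_, rfl⟩
  have hne : ∀ (j : Fin N) (b : ZMod m), b ≠ 0 →
      x (β (Sum.inl (j, b))) ∈ adjoin k (Set.range w) := by
    intro j b hb
    have h1 := hmem (Sum.inl (j, b))
    simp only [w0, Sum.elim_inl, if_neg hb] at h1
    exact h1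
  have hzero : ∀ j : Fin N, x (β (Sum.inl (j, 0))) ∈ adjoin k (Set.range w) := by
    intro j
    have h1 := hmem (Sum.inl (j, 0))
    simp only [w0, Sum.elim_inl, if_true] at h1
    have h2 : yv ζ β x j = x (β (Sum.inl (j, 0))) +
        ∑ b ∈ Finset.univ.erase (0 : ZMod m),
          algebraMap k Ω (ζ⁻¹ ^ b.val) * x (β (Sum.inl (j, b))) := by
      unfold yv
      rw [← Finset.add_sum_erase Finset.univ _ (Finset.mem_univ (0 : ZMod m)), ZMod.val_zero,
        pow_zero, map_one, one_mul]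
    have h3 : x (β (Sum.inl (j, 0))) = yv ζ β x j -
        ∑ b ∈ Finset.univ.erase (0 : ZMod m),
          algebraMap k Ω (ζ⁻¹ ^ b.val) * x (β (Sum.inl (j, b))) := by
      rw [h2, add_sub_cancel_right]
    rw [h3]
    exact sub_mem h1 (sum_mem fun b hb => mul_mem ((adjoin k (Set.range w)).algebraMap_mem _)
      (hne j b (Finset.ne_of_mem_erase hb)))
  have hall : ∀ i, x i ∈ adjoin k (Set.range w) := by
    intro i
    obtain ⟨t, rfl⟩ := β.surjective i
    rcases t with ⟨j, b⟩ | l
    · by_cases hb : b = 0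
      · rw [hb]
        exact hzero j
      · exact hne j b hb
    · have h1 := hmem (Sum.inr l)
      simp only [w0, Sum.elim_inr] at h1
      exact h1
  have h1 := independent_of_generate x w hx hall
  have hinj : Function.Injective fun j : Fin N => β (Sum.inl (j, (0 : ZMod m))) := by
    intro i j hij
    have h2 := β.injective hij
    simp only [Sum.inl.injEq, Prod.mk.injEq, and_true] at h2
    exact h2
  have h2 := h1.comp _ hinj
  have h3 : (w ∘ fun j : Fin N => β (Sum.inl (j, (0 : ZMod m)))) = yv ζ β x := by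
    funext j
    rw [Function.comp_apply, hwβ]
    simp only [w0, Sum.elim_inl, if_true]
  rwa [h3] at h2

/-- RD-O6 (uses `yv_act`, `yv_indep`). `ζ ^ (a j).val * yv (π j) = yv j` for all `j` implies `π = 1`
(algebraic, hence linear independence of the `yv`), `ζ ^ (a j).val = 1` and `a = 0`. -/
theorem yv_faithful (hζ : IsPrimitiveRoot ζ m) (hx : AlgebraicIndependent k x) (σ : Ω ≃ₐ[k] Ω)
    (g : Equiv.Perm (Fin n)) (hσ : ∀ i, σ (x i) = x (g i)) (hg : g ∈ wr β)
    (hy : ∀ j, σ (yv ζ β x j) = yv ζ β x j) (i : Fin n) : σ (x i) = x i := by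
  obtain ⟨hfix, π, a, hga⟩ := hg
  have hind := yv_indep ζ β x hx
  have key : ∀ j, π j = j ∧ a j = 0 := by
    intro j
    have h1 := yv_act ζ β x hζ σ g hσ π a hga j
    rw [hy] at h1
    have h2 : MvPolynomial.aeval (yv ζ β x) (MvPolynomial.C (ζ ^ (a j).val) *
        MvPolynomial.X (π j) - MvPolynomial.X j : MvPolynomial (Fin N) k) = 0 := by
      rw [map_sub, map_mul, MvPolynomial.aeval_C, MvPolynomial.aeval_X, MvPolynomial.aeval_X,
        ← h1, sub_self]
    have h3 := (algebraicIndependent_iff.1 hind) _ h2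
    have h4 := congrArg (MvPolynomial.eval (Pi.single j (1 : k))) h3
    rw [map_sub, map_mul, MvPolynomial.eval_C, MvPolynomial.eval_X, MvPolynomial.eval_X,
      Pi.single_eq_same, map_zero] at h4
    by_cases hj : π j = j
    · refine ⟨hj, ?_⟩
      rw [hj, Pi.single_eq_same, mul_one, sub_eq_zero] at h4
      have h5 : (a j).val = 0 :=
        Nat.eq_zero_of_dvd_of_lt ((hζ.pow_eq_one_iff_dvd _).1 h4) (ZMod.val_lt _)
      exact (ZMod.val_eq_zero _).1 h5
    · rw [Pi.single_eq_of_ne hj, mul_zero, zero_sub, neg_eq_zero] at h4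
      exact absurd h4 one_ne_zero
  obtain ⟨c, rfl⟩ := β.surjective i
  rw [hσ]
  rcases c with ⟨j, b⟩ | l
  · rw [hga, (key j).1, (key j).2, add_zero]
  · rw [hfix]

end

/-- An automorphism which maps the generators into `E` maps `E` to itself. -/
private theorem mono_stable (S : Set Ω) (σ : Ω ≃ₐ[k] Ω) (h : ∀ s ∈ S, σ s ∈ adjoin k S) :
    ∀ z ∈ adjoin k S, σ z ∈ adjoin k S := by
  have h1 : adjoin k S ≤ (adjoin k S).comap (σ : Ω →ₐ[k] Ω) := by
    rw [IntermediateField.adjoin_le_iff]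
    exact h
  exact fun z hz => h1 hz

private theorem mono_yv_mem {N m f n : ℕ} [NeZero m] (ζ : k)
    (β : (Fin N × ZMod m) ⊕ Fin f ≃ Fin n) (x : Fin n → Ω) (j : Fin N) :
    yv ζ β x j ∈ adjoin k (Set.range x) := by
  unfold yv
  refine sum_mem fun b _ => mul_mem (IntermediateField.algebraMap_mem _ _) ?_
  exact IntermediateField.subset_adjoin k _ ⟨_, rfl⟩

/-- RD-O7 (uses `exists_fixed` for `H = wr β`, `card_wr`, `step_of_field` with `E = adjoin k (range yv)`,
`trdeg_adjoin_le`, `yv_act`, `yv_faithful`, `closed`). -/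
theorem mono [IsAlgClosed k] [IsAlgClosed Ω] [CharZero k] {n : ℕ} (x : Fin n → Ω)
    (hx : AlgebraicIndependent k x) (hΩ : Algebra.IsAlgebraic (adjoin k (Set.range x)) Ω)
    (N m : ℕ) [NeZero m] (h : N * m ≤ n) :
    ∃ A : IntermediateField k Ω, coeffField k x ≤ A ∧
      relfinrank (coeffField k x) A * (N.factorial * m ^ N) = n.factorial ∧
      Step N A (A ⊔ adjoin k (Set.range x)) := by
  obtain ⟨β⟩ := exists_beta N m n h
  have hm : NeZero (m : k) := ⟨Nat.cast_ne_zero.2 (NeZero.ne m)⟩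
  obtain ⟨ζ, hζ⟩ := HasEnoughRootsOfUnity.exists_primitiveRoot k m
  obtain ⟨A, hKA, -, hIm, hdeg, -⟩ := exists_fixed x hx hΩ (wr β)
  rw [card_wr β] at hdeg
  refine ⟨A, hKA, hdeg, ?_⟩
  have key : ∀ σ ∈ A.fixingSubgroup, ∃ g ∈ wr β, ∀ i, σ (x i) = x (g i) := by
    intro σ hσ
    obtain ⟨g, hg⟩ := perm x hx.injective σ
      ((IntermediateField.mem_fixingSubgroup_iff _ _).2 fun z hz =>
        (IntermediateField.mem_fixingSubgroup_iff _ _).1 hσ z (hKA hz))
    refine ⟨g, ?_, hg⟩
    rw [← hIm]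
    exact ⟨σ, hσ, hg⟩
  refine step_of_field x hx hΩ A hKA N (adjoin k (Set.range (yv ζ β x))) ?_
    (trdeg_adjoin_le _) ?_ ?_
  · refine le_trans ?_ le_sup_right
    rw [IntermediateField.adjoin_le_iff]
    rintro _ ⟨j, rfl⟩
    exact mono_yv_mem ζ β x j
  · intro σ hσ
    obtain ⟨g, hg, hσg⟩ := key σ hσ
    refine mono_stable _ σ ?_
    rintro _ ⟨j, rfl⟩
    obtain ⟨-, π, a, hπ⟩ := hg
    rw [yv_act ζ β x hζ σ g hσg π a hπ j]
    exact mul_mem (IntermediateField.algebraMap_mem _ _) (IntermediateField.subset_adjoin k _ ⟨_, rfl⟩)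
  · intro σ hσ hfix i
    obtain ⟨g, hg, hσg⟩ := key σ hσ
    exact yv_faithful ζ β x hζ hx σ g hσg hg
      (fun j => hfix _ (IntermediateField.subset_adjoin k _ ⟨_, rfl⟩)) i

private theorem trdeg_quad_aux {N : ℕ} (u : Fin (N + 1) → Ω) (hu : ∑ j, u j ^ 2 = 1) :
    Algebra.IsAlgebraic (Algebra.adjoin k (Set.range (fun j : Fin N =>
      (⟨u j.castSucc, subset_adjoin k _ ⟨j.castSucc, rfl⟩⟩ : adjoin k (Set.range u)))))
      (adjoin k (Set.range u)) := by
  set F := adjoin k (Set.range u) with hF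
  set v : Fin N → F := fun j => ⟨u j.castSucc, subset_adjoin k _ ⟨j.castSucc, rfl⟩⟩ with hv
  set w : F := ⟨u (Fin.last N), subset_adjoin k _ ⟨Fin.last N, rfl⟩⟩ with hw
  set R := Algebra.adjoin k (Set.range v) with hR
  have hw2 : w ^ 2 = 1 - ∑ j, v j ^ 2 := by
    apply Subtype.ext
    have h := hu
    rw [Fin.sum_univ_castSucc] at h
    push_cast
    rw [hw, hv]
    simp only
    rw [← h]; ring
  have hvR : ∀ j, v j ∈ R := fun j => Algebra.subset_adjoin ⟨j, rfl⟩
  have halgw : IsAlgebraic R w := by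
    have h1 : IsAlgebraic R (w ^ 2) := by
      have : w ^ 2 = algebraMap R F ⟨1 - ∑ j, v j ^ 2,
          sub_mem (one_mem _) (sum_mem fun j _ => pow_mem (hvR j) 2)⟩ := hw2
      rw [this]
      exact isAlgebraic_algebraMap _
    exact h1.of_pow two_pos
  have halgv : ∀ j, IsAlgebraic R (v j) := fun j => isAlgebraic_algebraMap (⟨v j, hvR j⟩ : R)
  refine ⟨fun z => ?_⟩
  obtain ⟨z, hz⟩ := z
  refine adjoin_induction k (s := Set.range u) (p := fun y hy => IsAlgebraic R (⟨y, hy⟩ : F))
    ?_ ?_ ?_ ?_ ?_ hz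
  · rintro _ ⟨j, rfl⟩
    refine Fin.lastCases ?_ (fun i => ?_) j
    · exact halgw
    · exact halgv i
  · intro c
    exact isAlgebraic_algebraMap (algebraMap k R c)
  · intro a b ha hb h1 h2
    exact h1.add h2
  · intro a ha h1
    exact h1.inv
  · intro a b ha hb h1 h2
    exact h1.mul h2

/-- RD-O8. `u N` is algebraic over `k(u 0, .., u (N - 1))`. -/
theorem trdeg_quad {N : ℕ} (u : Fin (N + 1) → Ω) (hu : ∑ j, u j ^ 2 = 1) :
    Algebra.trdeg k (adjoin k (Set.range u)) ≤ N := by
  have := trdeg_quad_aux (k := k) u hu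
  refine (Algebra.IsAlgebraic.trdeg_le_cardinalMk k (Set.range (fun j : Fin N =>
      (⟨u j.castSucc, subset_adjoin k _ ⟨j.castSucc, rfl⟩⟩ : adjoin k (Set.range u))))).trans ?_
  have h := Cardinal.mk_range_le_lift (f := fun j : Fin N =>
      (⟨u j.castSucc, subset_adjoin k _ ⟨j.castSucc, rfl⟩⟩ : adjoin k (Set.range u)))
  simpa using h

/-- RD-O9 (uses `exists_fixed` for `H = wr β`, `card_wr`, `step_of_field`, `trdeg_quad`, `yv_act`,
`yv_indep`, `yv_faithful`, `closed`). `m = 2`, `ζ = -1`, `N + 1` blocks; `q = ∑ yv j ^ 2 ≠ 0` is in the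
fixed field `A0` of `H`, `w ^ 2 = q`, `A = A0 ⊔ adjoin k {w}`, `[A : A0]` is `1` or `2`; `E` is generated by the
`yv j / w`, with `∑ (yv j / w) ^ 2 = 1`. An element of `A.fixingSubgroup` fixes `w` and induces an element
of `H`. -/
theorem quad [IsAlgClosed k] [IsAlgClosed Ω] [CharZero k] {n : ℕ} (x : Fin n → Ω)
    (hx : AlgebraicIndependent k x) (hΩ : Algebra.IsAlgebraic (adjoin k (Set.range x)) Ω)
    (N : ℕ) (h : (N + 1) * 2 ≤ n) :
    ∃ A : IntermediateField k Ω, coeffField k x ≤ A ∧ relfinrank (coeffField k x) A ≠ 0 ∧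
      relfinrank (coeffField k x) A * ((N + 1).factorial * 2 ^ (N + 1)) ∣ 2 * n.factorial ∧
      Step N A (A ⊔ adjoin k (Set.range x)) := by
  classical
  obtain ⟨β⟩ := exists_beta (N + 1) 2 n h
  obtain ⟨A0, hKA, hAL, hIm, hcard, hmem⟩ := exists_fixed x hx hΩ (wr β)
  rw [card_wr] at hcard
  have hζ : IsPrimitiveRoot (-1 : k) 2 := IsPrimitiveRoot.neg_one 0 (by norm_num)
  obtain ⟨y, hy⟩ : ∃ y : Fin (N + 1) → Ω, y = yv (-1 : k) β x := ⟨_, rfl⟩
  have hyi : AlgebraicIndependent k y := by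
    rw [hy]
    exact yv_indep (-1) β x hx
  have hyL : ∀ j, y j ∈ adjoin k (Set.range x) := by
    intro j
    rw [hy]
    unfold yv
    exact sum_mem fun b _ => mul_mem (IntermediateField.algebraMap_mem _ _) (subset_adjoin k _ ⟨_, rfl⟩)
  have hact : ∀ (σ : Ω ≃ₐ[k] Ω) (g : Equiv.Perm (Fin n)), g ∈ wr β →
      (∀ i, σ (x i) = x (g i)) → ∃ (π : Equiv.Perm (Fin (N + 1))) (a : Fin (N + 1) → ZMod 2),
        ∀ j, σ (y j) = algebraMap k Ω ((-1) ^ (a j).val) * y (π j) := by
    rintro σ g ⟨-, π, a, hg⟩ hσ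
    refine ⟨π, a, fun j => ?_⟩
    rw [hy]
    exact yv_act (-1) β x hζ σ g hσ π a hg j
  obtain ⟨q, hq⟩ : ∃ q : Ω, q = ∑ j, y j ^ 2 := ⟨_, rfl⟩
  have hqA : q ∈ A0 := by
    rw [hmem]
    refine ⟨?_, fun g hg σ hσ => ?_⟩
    · rw [hq]
      exact sum_mem fun j _ => pow_mem (hyL j) 2
    · obtain ⟨π, a, hπ⟩ := hact σ g hg hσ
      rw [hq, map_sum]
      have h1 : ∀ j, σ (y j ^ 2) = y (π j) ^ 2 := by
        intro j
        rw [map_pow, hπ, mul_pow, ← map_pow, ← pow_mul, mul_comm (a j).val 2, pow_mul]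
        norm_num
      rw [Finset.sum_congr rfl fun j _ => h1 j]
      exact Equiv.sum_comp π fun j => y j ^ 2
  have hq0 : q ≠ 0 := by
    intro h0
    have h1 : MvPolynomial.aeval y (∑ j, MvPolynomial.X j ^ 2 : MvPolynomial (Fin (N + 1)) k) =
        0 := by
      rw [map_sum, ← h0, hq]
      refine Finset.sum_congr rfl fun j _ => ?_
      rw [map_pow, MvPolynomial.aeval_X]
    have h2 := (algebraicIndependent_iff.1 hyi) _ h1
    have h3 := congrArg (MvPolynomial.eval (Pi.single (0 : Fin (N + 1)) (1 : k))) h2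
    rw [map_sum, map_zero, Finset.sum_eq_single (0 : Fin (N + 1))] at h3
    · rw [map_pow, MvPolynomial.eval_X, Pi.single_eq_same, one_pow] at h3
      exact one_ne_zero h3
    · intro j _ hj
      rw [map_pow, MvPolynomial.eval_X, Pi.single_eq_of_ne hj, zero_pow two_ne_zero]
    · intro h4
      exact absurd (Finset.mem_univ _) h4
  obtain ⟨w, hw⟩ := IsAlgClosed.exists_pow_nat_eq q (n := 2) (by norm_num)
  have hw0 : w ≠ 0 := by
    intro h0
    rw [h0, zero_pow two_ne_zero] at hw
    exact hq0 hw.symm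
  obtain ⟨A, hA⟩ : ∃ A : IntermediateField k Ω, A = A0 ⊔ adjoin k {w} := ⟨_, rfl⟩
  have hA0A : A0 ≤ A := by
    rw [hA]
    exact le_sup_left
  have hwA : w ∈ A := by
    rw [hA]
    exact (le_sup_right : adjoin k {w} ≤ A0 ⊔ adjoin k {w}) (mem_adjoin_simple_self k w)
  have hKA' : coeffField k x ≤ A := hKA.trans hA0A
  -- the degree of `A` over `A0`
  have hdeg : relfinrank A0 A ∣ 2 ∧ relfinrank A0 A ≠ 0 := by
    rw [relfinrank_eq_finrank_of_le hA0A]
    have h1 : extendScalars hA0A = adjoin A0 {w} := by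
      apply restrictScalars_injective k
      rw [extendScalars_restrictScalars, restrictScalars_adjoin_eq_sup, hA]
    rw [h1]
    have hpm : (Polynomial.X ^ 2 - Polynomial.C (⟨q, hqA⟩ : A0)).Monic :=
      Polynomial.monic_X_pow_sub_C _ two_ne_zero
    have hpr : Polynomial.aeval w (Polynomial.X ^ 2 - Polynomial.C (⟨q, hqA⟩ : A0)) = 0 := by
      rw [map_sub, map_pow, Polynomial.aeval_X, Polynomial.aeval_C, hw, sub_eq_zero]
      rfl
    have hint : IsIntegral A0 w := ⟨_, hpm, hpr⟩
    rw [adjoin.finrank hint]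
    have h2 : (minpoly A0 w).natDegree ≤ 2 := by
      refine (Polynomial.natDegree_le_of_dvd (minpoly.dvd A0 w hpr) hpm.ne_zero).trans ?_
      rw [Polynomial.natDegree_X_pow_sub_C]
    have h3 : 0 < (minpoly A0 w).natDegree := minpoly.natDegree_pos hint
    have h4 : (minpoly A0 w).natDegree = 1 ∨ (minpoly A0 w).natDegree = 2 := by omega
    rcases h4 with h4 | h4 <;> rw [h4] <;> norm_num
  have hmul : relfinrank (coeffField k x) A0 * relfinrank A0 A =
      relfinrank (coeffField k x) A := relfinrank_mul_relfinrank hKA hA0A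
  have hK0 : relfinrank (coeffField k x) A0 ≠ 0 := by
    intro h0
    rw [h0, zero_mul] at hcard
    exact (Nat.factorial_pos n).ne hcard
  refine ⟨A, hKA', ?_, ?_, ?_⟩
  · rw [← hmul]
    exact mul_ne_zero hK0 hdeg.2
  · rw [← hmul, ← hcard]
    obtain ⟨c, hc⟩ := hdeg.1
    refine ⟨c, ?_⟩
    calc 2 * (relfinrank (coeffField k x) A0 * ((N + 1).factorial * 2 ^ (N + 1)))
        = relfinrank A0 A * c *
          (relfinrank (coeffField k x) A0 * ((N + 1).factorial * 2 ^ (N + 1))) := by rw [← hc]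
      _ = relfinrank (coeffField k x) A0 * relfinrank A0 A *
          ((N + 1).factorial * 2 ^ (N + 1)) * c := by ring
  · have hsig : ∀ σ ∈ A.fixingSubgroup, σ w = w ∧ ∃ g ∈ wr β, ∀ i, σ (x i) = x (g i) := by
      intro σ hσ
      have h1 : σ ∈ A0.fixingSubgroup := fixingSubgroup_antitone hA0A hσ
      obtain ⟨g, hg⟩ := perm x hx.injective σ (fixingSubgroup_antitone hKA h1)
      refine ⟨(mem_fixingSubgroup_iff _ _).1 hσ w hwA, g, ?_, hg⟩
      rw [← hIm]
      exact ⟨σ, h1, hg⟩
    refine step_of_field x hx hΩ A hKA' N (adjoin k (Set.range fun j => y j / w)) ?_ ?_ ?_ ?_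
    · rw [adjoin_le_iff]
      rintro _ ⟨j, rfl⟩
      exact div_mem ((le_sup_right : adjoin k (Set.range x) ≤ A ⊔ adjoin k (Set.range x)) (hyL j))
        ((le_sup_left : A ≤ A ⊔ adjoin k (Set.range x)) hwA)
    · refine trdeg_quad _ ?_
      simp only [div_pow]
      rw [← Finset.sum_div, ← hq, hw, div_self hq0]
    · intro σ hσ z hz
      obtain ⟨h1, g, hg, hg'⟩ := hsig σ hσ
      obtain ⟨π, a, hπ⟩ := hact σ g hg hg'
      have h2 : σ z ∈ (adjoin k (Set.range fun j => y j / w)).map (σ : Ω →ₐ[k] Ω) :=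
        ⟨z, hz, rfl⟩
      rw [adjoin_map] at h2
      refine (adjoin_le_iff.2 ?_) h2
      rintro _ ⟨_, ⟨j, rfl⟩, rfl⟩
      change σ (y j / w) ∈ adjoin k (Set.range fun j => y j / w)
      rw [map_div₀, h1, hπ, mul_div_assoc]
      exact mul_mem (IntermediateField.algebraMap_mem _ _) (subset_adjoin k _ ⟨π j, rfl⟩)
    · intro σ hσ hz
      obtain ⟨h1, g, hg, hg'⟩ := hsig σ hσ
      refine yv_faithful (-1) β x hζ hx σ g hg' hg fun j => ?_
      have h2 : σ (y j / w) = y j / w := hz _ (subset_adjoin k _ ⟨j, rfl⟩)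
      rw [map_div₀, h1, div_left_inj' hw0, hy] at h2
      exact h2

/-! ### O10: exact values -/

/-- RD-O10. Legendre. -/
theorem val_factorial (n p : ℕ) [Fact p.Prime] :
    padicValNat p n.factorial = n / p + padicValNat p (n / p).factorial := by
  rw [← padicValNat_mul_div_factorial (p := p) n, padicValNat_factorial_mul, add_comm]

/-- RD-O10 (uses `mono` with `m = p`, `N = d`, `val_factorial`). `p` does not divide `d!` nor `(n/p)!`,
because `d ≤ n / p < p`. -/
theorem part_exact [IsAlgClosed k] [IsAlgClosed Ω] [CharZero k] {n : ℕ} (x : Fin n → Ω)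
    (hx : AlgebraicIndependent k x) (hΩ : Algebra.IsAlgebraic (adjoin k (Set.range x)) Ω)
    (p d : ℕ) [Fact p.Prime] (hp : n < p ^ 2) (hd : d ≤ n / p) :
    ∃ A : IntermediateField k Ω, coeffField k x ≤ A ∧ relfinrank (coeffField k x) A ≠ 0 ∧
      Step d A (A ⊔ adjoin k (Set.range x)) ∧
      padicValNat p (relfinrank (coeffField k x) A) = n / p - d := by
  have hpp : p.Prime := Fact.out
  have : NeZero p := ⟨hpp.ne_zero⟩
  have hnp : n / p < p := by
    rw [Nat.div_lt_iff_lt_mul hpp.pos]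
    simpa [sq] using hp
  have hdn : d * p ≤ n := (Nat.mul_le_mul_right p hd).trans (Nat.div_mul_le_self n p)
  obtain ⟨A, hKA, hdeg, hst⟩ := mono x hx hΩ d p hdn
  have hr0 : relfinrank (coeffField k x) A ≠ 0 := by
    intro h0
    rw [h0, zero_mul] at hdeg
    exact Nat.factorial_ne_zero n hdeg.symm
  refine ⟨A, hKA, hr0, hst, ?_⟩
  have h1 : padicValNat p d.factorial = 0 :=
    padicValNat.eq_zero_of_not_dvd fun h =>
      absurd ((hpp.dvd_factorial).1 h) (by omega)
  have h2 : padicValNat p (n / p).factorial = 0 :=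
    padicValNat.eq_zero_of_not_dvd fun h =>
      absurd ((hpp.dvd_factorial).1 h) (by omega)
  have h3 := congrArg (padicValNat p) hdeg
  rw [padicValNat.mul hr0 (mul_ne_zero (Nat.factorial_ne_zero d) (pow_ne_zero d hpp.ne_zero)),
    padicValNat.mul (Nat.factorial_ne_zero d) (pow_ne_zero d hpp.ne_zero),
    padicValNat.prime_pow, h1, val_factorial n p, h2] at h3
  omega

/-- the `p`-part of the degree of an extension from `mono` with `m = p`, `N = n / p` -/
private theorem large_aux [IsAlgClosed k] [IsAlgClosed Ω] [CharZero k] {n : ℕ} (x : Fin n → Ω)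
    (hx : AlgebraicIndependent k x) (hΩ : Algebra.IsAlgebraic (adjoin k (Set.range x)) Ω)
    (d m p : ℕ) (hp : p.Prime) (hd : n / p ≤ d)
    (h : ∀ A : IntermediateField k Ω, coeffField k x ≤ A → relfinrank (coeffField k x) A ≠ 0 →
      Step d A (A ⊔ adjoin k (Set.range x)) → m ∣ relfinrank (coeffField k x) A) :
    m ≠ 0 ∧ padicValNat p m = 0 := by
  have hF : Fact p.Prime := ⟨hp⟩
  have : NeZero p := ⟨hp.ne_zero⟩
  obtain ⟨A, hA, hdeg, hst⟩ := mono x hx hΩ (n / p) p (Nat.div_mul_le_self n p)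
  have hr0 : relfinrank (coeffField k x) A ≠ 0 := by
    intro h0
    rw [h0, zero_mul] at hdeg
    exact Nat.factorial_ne_zero n hdeg.symm
  have h1 := h A hA hr0 (hst.mono hd)
  have h2 := congrArg (padicValNat p) hdeg
  rw [padicValNat.mul hr0 (mul_ne_zero (Nat.factorial_ne_zero _) (pow_ne_zero _ hp.ne_zero)),
    padicValNat.mul (Nat.factorial_ne_zero _) (pow_ne_zero _ hp.ne_zero),
    padicValNat.prime_pow, val_factorial n p] at h2
  have hm0 : m ≠ 0 := by
    rintro rfl
    exact hr0 (zero_dvd_iff.1 h1)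
  refine ⟨hm0, ?_⟩
  have h3 : padicValNat p m ≤ padicValNat p (relfinrank (coeffField k x) A) :=
    (padicValNat_dvd_iff_le hr0).1 ((pow_padicValNat_dvd).trans h1)
  omega

/-- RD-O11 (uses `gam_dvd`, `mono`, `quad`, `Step.mono`, `val_factorial`). For an odd prime `p`,
`n / p ≤ n / 3 ≤ n / 2 - 1 ≤ d` and `mono` with `m = p`, `N = n / p` gives an extension of degree prime to `p`;
for `p = 2` use `mono` with `m = 2`, `N = n / 2` if `n / 2 ≤ d` and `quad` with `N + 1 = n / 2` if
`n / 2 = d + 1`. `2 ^ (n / 2 - d)` divides `gam n d` (`n ≥ 2`). -/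
theorem large [IsAlgClosed k] [IsAlgClosed Ω] [CharZero k] {n : ℕ} (hn : 4 ≤ n) (x : Fin n → Ω)
    (hx : AlgebraicIndependent k x) (hΩ : Algebra.IsAlgebraic (adjoin k (Set.range x)) Ω)
    (d m : ℕ) (hd : n / 2 ≤ d + 1) :
    (∀ A : IntermediateField k Ω, coeffField k x ≤ A → relfinrank (coeffField k x) A ≠ 0 →
      Step d A (A ⊔ adjoin k (Set.range x)) → m ∣ relfinrank (coeffField k x) A) ↔
    m ∣ 2 ^ (n / 2 - d) := by
  constructor
  · intro h
    have hodd : ∀ p : ℕ, p.Prime → p ≠ 2 → m ≠ 0 ∧ padicValNat p m = 0 := by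
      intro p hp hp2
      have hp3 : 3 ≤ p := by
        have := hp.two_le
        omega
      refine large_aux x hx hΩ d m p hp ?_ h
      have h1 : n / p ≤ n / 3 := Nat.div_le_div_left hp3 (by norm_num)
      omega
    have hm0 : m ≠ 0 := (hodd 3 Nat.prime_three (by norm_num)).1
    have h2 : padicValNat 2 m ≤ n / 2 - d := by
      by_cases hd2 : n / 2 ≤ d
      · rw [(large_aux x hx hΩ d m 2 Nat.prime_two hd2 h).2]
        exact Nat.zero_le _
      · have hF : Fact (Nat.Prime 2) := ⟨Nat.prime_two⟩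
        have hd3 : n / 2 = d + 1 := by omega
        obtain ⟨A, hA, hr0, hdvd, hst⟩ := quad x hx hΩ d (by omega)
        have h1 := h A hA hr0 hst
        have h3 : padicValNat 2 m ≤ padicValNat 2 (relfinrank (coeffField k x) A) :=
          (padicValNat_dvd_iff_le hr0).1 ((pow_padicValNat_dvd).trans h1)
        have h4 : 2 * n.factorial ≠ 0 := mul_ne_zero two_ne_zero (Nat.factorial_ne_zero n)
        have h5 : padicValNat 2 (relfinrank (coeffField k x) A *
            ((d + 1).factorial * 2 ^ (d + 1))) ≤ padicValNat 2 (2 * n.factorial) :=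
          (padicValNat_dvd_iff_le h4).1 ((pow_padicValNat_dvd).trans hdvd)
        rw [padicValNat.mul hr0 (mul_ne_zero (Nat.factorial_ne_zero _) (pow_ne_zero _ two_ne_zero)),
          padicValNat.mul (Nat.factorial_ne_zero _) (pow_ne_zero _ two_ne_zero),
          padicValNat.prime_pow, padicValNat.mul two_ne_zero (Nat.factorial_ne_zero n),
          padicValNat_self, val_factorial n 2, hd3] at h5
        omega
    rw [← Nat.factorization_prime_le_iff_dvd hm0 (pow_ne_zero _ two_ne_zero)]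
    intro p hp
    by_cases hp2 : p = 2
    · subst hp2
      rw [Nat.factorization_def _ hp, Nat.Prime.factorization_pow hp, Finsupp.single_eq_same]
      exact h2
    · rw [Nat.factorization_def _ hp, (hodd p hp hp2).2]
      exact Nat.zero_le _
  · intro h A hA hA0 hst
    refine (h.trans ?_).trans (gam_dvd x hx hΩ A hA hA0 d hst)
    unfold gam
    exact Finset.dvd_prod_of_mem (fun p => p ^ (n / p - d))
      (Finset.mem_filter.2 ⟨Finset.mem_range.2 (by omega), Nat.prime_two⟩)

/-- the value of `gam` for the octic and two parameters -/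
private theorem octic_two_gam : gam 8 2 = 4 := by
  unfold gam
  decide

/-- the degree of an extension from `mono` -/
private theorem octic_two_mono [IsAlgClosed k] [IsAlgClosed Ω] [CharZero k] (x : Fin 8 → Ω)
    (hx : AlgebraicIndependent k x) (hΩ : Algebra.IsAlgebraic (adjoin k (Set.range x)) Ω)
    (m : ℕ)
    (h : ∀ A : IntermediateField k Ω, coeffField k x ≤ A → relfinrank (coeffField k x) A ≠ 0 →
      Step 2 A (A ⊔ adjoin k (Set.range x)) → m ∣ relfinrank (coeffField k x) A)
    (N q D : ℕ) [NeZero q] (hN : N ≤ 2) (hq : N * q ≤ 8)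
    (hD : D * (N.factorial * q ^ N) = Nat.factorial 8) : m ∣ D := by
  obtain ⟨A, hA, hdeg, hst⟩ := mono x hx hΩ N q hq
  have h1 : 0 < N.factorial * q ^ N :=
    Nat.mul_pos (Nat.factorial_pos _) (pow_pos (Nat.pos_of_ne_zero (NeZero.ne q)) _)
  have h2 : relfinrank (coeffField k x) A = D :=
    Nat.eq_of_mul_eq_mul_right h1 (hdeg.trans hD.symm)
  have h3 := h A hA (fun h0 => by
    rw [h0, zero_mul] at hdeg
    exact (Nat.factorial_pos 8).ne hdeg) (hst.mono hN)
  rwa [h2] at h3

/-- RD-O12 (uses `gam_dvd`, `mono` with `(N, m) = (2, 4), (2, 3), (1, 5), (1, 7)`, `Step.mono`): the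
degrees are `1260, 2240, 8064, 5760` with greatest common divisor `4`; `gam 8 2 = 4`. -/
theorem octic_two [IsAlgClosed k] [IsAlgClosed Ω] [CharZero k] (x : Fin 8 → Ω)
    (hx : AlgebraicIndependent k x) (hΩ : Algebra.IsAlgebraic (adjoin k (Set.range x)) Ω)
    (m : ℕ) :
    (∀ A : IntermediateField k Ω, coeffField k x ≤ A → relfinrank (coeffField k x) A ≠ 0 →
      Step 2 A (A ⊔ adjoin k (Set.range x)) → m ∣ relfinrank (coeffField k x) A) ↔ m ∣ 4 := by
  constructor
  · intro h
    have h1 : m ∣ 1260 := octic_two_mono x hx hΩ m h 2 4 1260 (by norm_num) (by norm_num)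
      (by decide)
    have h2 : m ∣ 2240 := octic_two_mono x hx hΩ m h 2 3 2240 (by norm_num) (by norm_num)
      (by decide)
    have h3 : m ∣ 8064 := octic_two_mono x hx hΩ m h 1 5 8064 (by norm_num) (by norm_num)
      (by decide)
    have h4 : m ∣ 5760 := octic_two_mono x hx hΩ m h 1 7 5760 (by norm_num) (by norm_num)
      (by decide)
    have h5 := Nat.dvd_gcd (Nat.dvd_gcd h1 h2) (Nat.dvd_gcd h3 h4)
    have h6 : Nat.gcd (Nat.gcd 1260 2240) (Nat.gcd 8064 5760) = 4 := by norm_num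
    rwa [h6] at h5
  · intro h A hA hA0 hst
    have h1 := gam_dvd x hx hΩ A hA hA0 2 hst
    rw [octic_two_gam] at h1
    exact h.trans h1

/-- RD-O12 (uses `zero_dvd`, `card_Im`, `Im_top`; for the converse take `A = L`, `Step 0 L L`,
`F = E = ⊥`). -/
theorem gcd_zero [IsAlgClosed k] [IsAlgClosed Ω] [CharZero k] {n : ℕ} (x : Fin n → Ω)
    (hx : AlgebraicIndependent k x) (hΩ : Algebra.IsAlgebraic (adjoin k (Set.range x)) Ω)
    (m : ℕ) :
    (∀ A : IntermediateField k Ω, coeffField k x ≤ A → relfinrank (coeffField k x) A ≠ 0 →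
      Step 0 A (A ⊔ adjoin k (Set.range x)) → m ∣ relfinrank (coeffField k x) A) ↔
    m ∣ n.factorial := by
  constructor
  · intro h
    have h1 : relfinrank (coeffField k x) (adjoin k (Set.range x)) = n.factorial := by
      have h4 := card_Im x hx.injective hΩ (coeffField k x) le_rfl
      rw [sup_eq_right.2 (coeffField_le x), Im_top x hx hΩ, Subgroup.card_top,
        Nat.card_eq_fintype_card, Fintype.card_perm, Fintype.card_fin] at h4
      exact h4
    have h2 := h (adjoin k (Set.range x)) (coeffField_le x) (by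
      rw [h1]
      exact (Nat.factorial_pos n).ne') (by
      rw [sup_idem]
      refine ⟨by rw [relfinrank_self]; exact one_ne_zero, ⊥, ⊥, bot_le, le_rfl, sup_bot_eq _,
        by rw [relfinrank_self, relfinrank_self], ?_⟩
      have h5 : Algebra.IsAlgebraic k (⊥ : IntermediateField k Ω) := inferInstance
      have h6 : Algebra.trdeg k (⊥ : IntermediateField k Ω) = 0 := trdeg_eq_zero
      rw [h6]
      exact zero_le)
    rwa [h1] at h2
  · intro h A hA _ hst
    exact h.trans (zero_dvd x hx hΩ A hA hst)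

/-- RD-O13 (uses `gcd_zero`, `index_iff_sym` (`lcm (1, .., 8) = 840`), `octic_two`, `large`). -/
theorem octic [IsAlgClosed k] [IsAlgClosed Ω] [CharZero k] (x : Fin 8 → Ω)
    (hx : AlgebraicIndependent k x) (hΩ : Algebra.IsAlgebraic (adjoin k (Set.range x)) Ω)
    (d m : ℕ) :
    (∀ A : IntermediateField k Ω, coeffField k x ≤ A → relfinrank (coeffField k x) A ≠ 0 →
      Step d A (A ⊔ adjoin k (Set.range x)) → m ∣ relfinrank (coeffField k x) A) ↔ m ∣ oct d := by
  have hl : (Finset.Icc 1 8).lcm id = 840 := by decide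
  have hf : Nat.factorial 8 = 40320 := by decide
  match d with
  | 0 =>
    rw [gcd_zero x hx hΩ m, hf]
    exact Iff.rfl
  | 1 =>
    rw [index_iff_sym x hx hΩ m, hl, hf]
    change m * 840 ∣ 48 * 840 ↔ m ∣ 48
    exact Nat.mul_dvd_mul_iff_right (by norm_num)
  | 2 => exact octic_two x hx hΩ m
  | 3 =>
    rw [large (by norm_num) x hx hΩ 3 m (by norm_num)]
    exact Iff.rfl
  | d + 4 =>
    rw [large (by norm_num) x hx hΩ (d + 4) m (by omega)]
    have h1 : 8 / 2 - (d + 4) = 0 := by omega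
    rw [h1, pow_zero]
    exact Iff.rfl

end Pool.Agent.Helper15.RD
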