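import Pool.Agent.Helper15.RD.Oc

/-!
# Project RD (C), block D: the general equation of degree at most eleven
-/

set_option autoImplicit false

namespace Pool.Agent.Helper15.RD

open IntermediateField

universe u v

variable {k : Type v} {Ω : Type u} [Field k] [Field Ω] [Algebra k Ω]

private theorem trdeg_fermat_aux {N p : ℕ} (hp : 0 < p) (u : Fin (N + 1) → Ω)
    (hu : ∑ j, u j ^ p = 1) :
    Algebra.IsAlgebraic (Algebra.adjoin k (Set.range (fun j : Fin N =>
      (⟨u j.castSucc, subset_adjoin k _ ⟨j.castSucc, rfl⟩⟩ : adjoin k (Set.range u)))))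
      (adjoin k (Set.range u)) := by
  set F := adjoin k (Set.range u) with hF
  set v : Fin N → F := fun j => ⟨u j.castSucc, subset_adjoin k _ ⟨j.castSucc, rfl⟩⟩ with hv
  set w : F := ⟨u (Fin.last N), subset_adjoin k _ ⟨Fin.last N, rfl⟩⟩ with hw
  set R := Algebra.adjoin k (Set.range v) with hR
  have hw2 : w ^ p = 1 - ∑ j, v j ^ p := by
    apply Subtype.ext
    have h := hu
    rw [Fin.sum_univ_castSucc] at h
    push_cast
    rw [hw, hv]
    simp only
    rw [← h]; ring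
  have hvR : ∀ j, v j ∈ R := fun j => Algebra.subset_adjoin ⟨j, rfl⟩
  have halgw : IsAlgebraic R w := by
    have h1 : IsAlgebraic R (w ^ p) := by
      have : w ^ p = algebraMap R F ⟨1 - ∑ j, v j ^ p,
          sub_mem (one_mem _) (sum_mem fun j _ => pow_mem (hvR j) p)⟩ := hw2
      rw [this]
      exact isAlgebraic_algebraMap _
    exact h1.of_pow hp
  have halgv : ∀ j, IsAlgebraic R (v j) := fun j => isAlgebraic_algebraMap (⟨v j, hvR j⟩ : R)
  refine ⟨fun z => ?_⟩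
  obtain ⟨z, hz⟩ := z
  refine adjoin_induction k (s := Set.range u) (p := fun y hy => IsAlgebraic R (⟨y, hy⟩ : F))
    ?_ ?_ ?_ ?_ ?_ hz
  · rintro _ ⟨j, rfl⟩
    refine Fin.lastCases ?_ (fun i => ?_) j
    · exact halgw
    · exact halgv i
  · intro c
    exact isAlgebraic_algebraMap (algebraMap k R c)
  · intro a b ha hb h1 h2
    exact h1.add h2
  · intro a ha h1
    exact h1.inv
  · intro a b ha hb h1 h2
    exact h1.mul h2

/-- RD-D1 (see `trdeg_quad`). `u N` is algebraic over `k(u 0, .., u (N - 1))`. -/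
theorem trdeg_fermat {N p : ℕ} (hp : 0 < p) (u : Fin (N + 1) → Ω) (hu : ∑ j, u j ^ p = 1) :
    Algebra.trdeg k (adjoin k (Set.range u)) ≤ N := by
  have := trdeg_fermat_aux (k := k) hp u hu
  refine (Algebra.IsAlgebraic.trdeg_le_cardinalMk k (Set.range (fun j : Fin N =>
      (⟨u j.castSucc, subset_adjoin k _ ⟨j.castSucc, rfl⟩⟩ : adjoin k (Set.range u))))).trans ?_
  have h := Cardinal.mk_range_le_lift (f := fun j : Fin N =>
      (⟨u j.castSucc, subset_adjoin k _ ⟨j.castSucc, rfl⟩⟩ : adjoin k (Set.range u)))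
  simpa using h

/-- RD-D2. `k` contains a primitive `p`-th root of unity. Let `δ` be the degree of the minimal polynomial of
`w` over `A0`; its roots are `w ζ ^ i`, so its constant term is `w ^ δ` times a root of unity in `k`, and
`w ^ δ ∈ A0`; `w ^ p ∈ A0`; if `0 < δ < p` then `w ∈ A0` (Bezout) and `δ = 1`. (Or:
`X_pow_sub_C_irreducible_of_prime`.) -/
theorem kummer_dvd [IsAlgClosed k] [CharZero k] (A0 : IntermediateField k Ω) (p : ℕ)
    [Fact p.Prime] (w : Ω) (hw : w ^ p ∈ A0) :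
    relfinrank A0 (A0 ⊔ adjoin k {w}) ∣ p ∧ relfinrank A0 (A0 ⊔ adjoin k {w}) ≠ 0 := by
  have hp : p.Prime := Fact.out
  by_cases hb : ∃ b : A0, b ^ p = ⟨w ^ p, hw⟩
  · obtain ⟨b, hb⟩ := hb
    have hb' : (b : Ω) ^ p = w ^ p := congrArg Subtype.val hb
    have hwA : w ∈ A0 := by
      by_cases hb0 : (b : Ω) = 0
      · rw [hb0, zero_pow hp.ne_zero] at hb'
        rw [pow_eq_zero_iff hp.ne_zero |>.1 hb'.symm]
        exact zero_mem _
      · have h1 : (w / b) ^ p = 1 := by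
          rw [div_pow, hb', div_self]
          rw [← hb']
          exact pow_ne_zero p hb0
        have h2 : w / b ∈ A0 := by
          have h3 : IsIntegral k (w / b) := by
            refine ⟨Polynomial.X ^ p - Polynomial.C 1,
              Polynomial.monic_X_pow_sub_C 1 hp.ne_zero, ?_⟩
            rw [Polynomial.eval₂_sub, Polynomial.eval₂_pow, Polynomial.eval₂_X,
              Polynomial.eval₂_C, h1, map_one, sub_self]
          obtain ⟨c, hc⟩ := minpoly.mem_range_of_degree_eq_one k (w / b)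
            (IsAlgClosed.degree_eq_one_of_irreducible k (minpoly.irreducible h3))
          rw [← hc]
          exact A0.algebraMap_mem c
        have h4 : w = w / b * b := (div_mul_cancel₀ w hb0).symm
        rw [h4]
        exact mul_mem h2 b.2
    have h5 : A0 ⊔ adjoin k {w} = A0 := by
      rw [sup_eq_left, adjoin_simple_le_iff]
      exact hwA
    rw [h5, relfinrank_self]
    exact ⟨one_dvd p, one_ne_zero⟩
  · have hirr : Irreducible (Polynomial.X ^ p - Polynomial.C (⟨w ^ p, hw⟩ : A0)) :=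
      X_pow_sub_C_irreducible_of_prime hp fun b h => hb ⟨b, h⟩
    have hmon : (Polynomial.X ^ p - Polynomial.C (⟨w ^ p, hw⟩ : A0)).Monic :=
      Polynomial.monic_X_pow_sub_C _ hp.ne_zero
    have hroot : Polynomial.aeval w (Polynomial.X ^ p - Polynomial.C (⟨w ^ p, hw⟩ : A0)) = 0 := by
      rw [map_sub, map_pow, Polynomial.aeval_X, Polynomial.aeval_C]
      exact sub_self _
    have hmin := minpoly.eq_of_irreducible_of_monic hirr hroot hmon
    have hint : IsIntegral A0 w := ⟨_, hmon, hroot⟩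
    have h1 : A0 ⊔ adjoin k {w} = (adjoin A0 {w}).restrictScalars k := by
      rw [restrictScalars_adjoin, adjoin_union, adjoin_self]
    have hle : A0 ≤ (adjoin A0 {w}).restrictScalars k := by
      rw [← h1]
      exact le_sup_left
    have h2 : relfinrank A0 ((adjoin A0 {w}).restrictScalars k) = p := by
      rw [relfinrank_eq_finrank_of_le hle]
      have h3 : extendScalars hle = adjoin A0 {w} := by
        ext z
        rfl
      rw [h3, adjoin.finrank hint, ← hmin, Polynomial.natDegree_X_pow_sub_C]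
    rw [h1, h2]
    exact ⟨dvd_refl p, hp.ne_zero⟩

/-- RD-D3 (uses `trdeg_fermat`, `kummer_dvd`; the proof of `quad` in `Oc.lean` with `2` replaced by
`p`). -/
theorem fermat [IsAlgClosed k] [IsAlgClosed Ω] [CharZero k] {n : ℕ} (x : Fin n → Ω)
    (hx : AlgebraicIndependent k x) (hΩ : Algebra.IsAlgebraic (adjoin k (Set.range x)) Ω)
    (p N : ℕ) [Fact p.Prime] (h : (N + 1) * p ≤ n) :
    ∃ A : IntermediateField k Ω, coeffField k x ≤ A ∧ relfinrank (coeffField k x) A ≠ 0 ∧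
      relfinrank (coeffField k x) A * ((N + 1).factorial * p ^ (N + 1)) ∣ p * n.factorial ∧
      Step N A (A ⊔ adjoin k (Set.range x)) := by
  classical
  have hp0 : p ≠ 0 := (Fact.out : p.Prime).ne_zero
  have : NeZero p := ⟨hp0⟩
  have hpk : NeZero (p : k) := ⟨Nat.cast_ne_zero.2 hp0⟩
  obtain ⟨ζ, hζ⟩ := HasEnoughRootsOfUnity.exists_primitiveRoot k p
  obtain ⟨β⟩ := exists_beta (N + 1) p n h
  obtain ⟨A0, hKA, hAL, hIm, hcard, hmem⟩ := exists_fixed x hx hΩ (wr β)
  rw [card_wr] at hcard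
  obtain ⟨y, hy⟩ : ∃ y : Fin (N + 1) → Ω, y = yv ζ β x := ⟨_, rfl⟩
  have hyi : AlgebraicIndependent k y := by
    rw [hy]
    exact yv_indep ζ β x hx
  have hyL : ∀ j, y j ∈ adjoin k (Set.range x) := by
    intro j
    rw [hy]
    unfold yv
    exact sum_mem fun b _ => mul_mem (IntermediateField.algebraMap_mem _ _) (subset_adjoin k _ ⟨_, rfl⟩)
  have hact : ∀ (σ : Ω ≃ₐ[k] Ω) (g : Equiv.Perm (Fin n)), g ∈ wr β →
      (∀ i, σ (x i) = x (g i)) → ∃ (π : Equiv.Perm (Fin (N + 1))) (a : Fin (N + 1) → ZMod p),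
        ∀ j, σ (y j) = algebraMap k Ω (ζ ^ (a j).val) * y (π j) := by
    rintro σ g ⟨-, π, a, hg⟩ hσ
    refine ⟨π, a, fun j => ?_⟩
    rw [hy]
    exact yv_act ζ β x hζ σ g hσ π a hg j
  obtain ⟨q, hq⟩ : ∃ q : Ω, q = ∑ j, y j ^ p := ⟨_, rfl⟩
  have hqA : q ∈ A0 := by
    rw [hmem]
    refine ⟨?_, fun g hg σ hσ => ?_⟩
    · rw [hq]
      exact sum_mem fun j _ => pow_mem (hyL j) p
    · obtain ⟨π, a, hπ⟩ := hact σ g hg hσ
      rw [hq, map_sum]
      have h1 : ∀ j, σ (y j ^ p) = y (π j) ^ p := by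
        intro j
        rw [map_pow, hπ, mul_pow, ← map_pow, ← pow_mul, mul_comm (a j).val p, pow_mul,
          hζ.pow_eq_one, one_pow, map_one, one_mul]
      rw [Finset.sum_congr rfl fun j _ => h1 j]
      exact Equiv.sum_comp π fun j => y j ^ p
  have hq0 : q ≠ 0 := by
    intro h0
    have h1 : MvPolynomial.aeval y (∑ j, MvPolynomial.X j ^ p : MvPolynomial (Fin (N + 1)) k) =
        0 := by
      rw [map_sum, ← h0, hq]
      refine Finset.sum_congr rfl fun j _ => ?_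
      rw [map_pow, MvPolynomial.aeval_X]
    have h2 := (algebraicIndependent_iff.1 hyi) _ h1
    have h3 := congrArg (MvPolynomial.eval (Pi.single (0 : Fin (N + 1)) (1 : k))) h2
    rw [map_sum, map_zero, Finset.sum_eq_single (0 : Fin (N + 1))] at h3
    · rw [map_pow, MvPolynomial.eval_X, Pi.single_eq_same, one_pow] at h3
      exact one_ne_zero h3
    · intro j _ hj
      rw [map_pow, MvPolynomial.eval_X, Pi.single_eq_of_ne hj, zero_pow hp0]
    · intro h4
      exact absurd (Finset.mem_univ _) h4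
  obtain ⟨w, hw⟩ := IsAlgClosed.exists_pow_nat_eq q (n := p) (Nat.pos_of_ne_zero hp0)
  have hw0 : w ≠ 0 := by
    intro h0
    rw [h0, zero_pow hp0] at hw
    exact hq0 hw.symm
  obtain ⟨A, hA⟩ : ∃ A : IntermediateField k Ω, A = A0 ⊔ adjoin k {w} := ⟨_, rfl⟩
  have hA0A : A0 ≤ A := by
    rw [hA]
    exact le_sup_left
  have hwA : w ∈ A := by
    rw [hA]
    exact (le_sup_right : adjoin k {w} ≤ A0 ⊔ adjoin k {w}) (mem_adjoin_simple_self k w)
  have hKA' : coeffField k x ≤ A := hKA.trans hA0A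
  have hdeg : relfinrank A0 A ∣ p ∧ relfinrank A0 A ≠ 0 := by
    rw [hA]
    refine kummer_dvd A0 p w ?_
    rw [hw]
    exact hqA
  have hmul : relfinrank (coeffField k x) A0 * relfinrank A0 A =
      relfinrank (coeffField k x) A := relfinrank_mul_relfinrank hKA hA0A
  have hK0 : relfinrank (coeffField k x) A0 ≠ 0 := by
    intro h0
    rw [h0, zero_mul] at hcard
    exact (Nat.factorial_pos n).ne hcard
  refine ⟨A, hKA', ?_, ?_, ?_⟩
  · rw [← hmul]
    exact mul_ne_zero hK0 hdeg.2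
  · rw [← hmul, ← hcard]
    obtain ⟨c, hc⟩ := hdeg.1
    refine ⟨c, ?_⟩
    calc p * (relfinrank (coeffField k x) A0 * ((N + 1).factorial * p ^ (N + 1)))
        = relfinrank A0 A * c *
          (relfinrank (coeffField k x) A0 * ((N + 1).factorial * p ^ (N + 1))) := by rw [← hc]
      _ = relfinrank (coeffField k x) A0 * relfinrank A0 A *
          ((N + 1).factorial * p ^ (N + 1)) * c := by ring
  · have hsig : ∀ σ ∈ A.fixingSubgroup, σ w = w ∧ ∃ g ∈ wr β, ∀ i, σ (x i) = x (g i) := by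
      intro σ hσ
      have h1 : σ ∈ A0.fixingSubgroup := fixingSubgroup_antitone hA0A hσ
      obtain ⟨g, hg⟩ := perm x hx.injective σ (fixingSubgroup_antitone hKA h1)
      refine ⟨(mem_fixingSubgroup_iff _ _).1 hσ w hwA, g, ?_, hg⟩
      rw [← hIm]
      exact ⟨σ, h1, hg⟩
    refine step_of_field x hx hΩ A hKA' N (adjoin k (Set.range fun j => y j / w)) ?_ ?_ ?_ ?_
    · rw [adjoin_le_iff]
      rintro _ ⟨j, rfl⟩
      exact div_mem ((le_sup_right : adjoin k (Set.range x) ≤ A ⊔ adjoin k (Set.range x)) (hyL j))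
        ((le_sup_left : A ≤ A ⊔ adjoin k (Set.range x)) hwA)
    · refine trdeg_fermat (Nat.pos_of_ne_zero hp0) _ ?_
      simp only [div_pow]
      rw [← Finset.sum_div, ← hq, hw, div_self hq0]
    · intro σ hσ z hz
      obtain ⟨h1, g, hg, hg'⟩ := hsig σ hσ
      obtain ⟨π, a, hπ⟩ := hact σ g hg hg'
      have h2 : σ z ∈ (adjoin k (Set.range fun j => y j / w)).map (σ : Ω →ₐ[k] Ω) :=
        ⟨z, hz, rfl⟩
      rw [adjoin_map] at h2
      refine (adjoin_le_iff.2 ?_) h2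
      rintro _ ⟨_, ⟨j, rfl⟩, rfl⟩
      change σ (y j / w) ∈ adjoin k (Set.range fun j => y j / w)
      rw [map_div₀, h1, hπ, mul_div_assoc]
      exact mul_mem (IntermediateField.algebraMap_mem _ _) (subset_adjoin k _ ⟨π j, rfl⟩)
    · intro σ hσ hz
      obtain ⟨h1, g, hg, hg'⟩ := hsig σ hσ
      refine yv_faithful ζ β x hζ hx σ g hg' hg fun j => ?_
      have h2 : σ (y j / w) = y j / w := hz _ (subset_adjoin k _ ⟨j, rfl⟩)
      rw [map_div₀, h1, div_left_inj' hw0, hy] at h2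
      exact h2

/-- the product of two wreath products, on disjoint families of blocks -/
def wr2 {N₁ m₁ f₁ n N₂ m₂ f₂ : ℕ} (β₁ : (Fin N₁ × ZMod m₁) ⊕ Fin f₁ ≃ Fin n)
    (β₂ : (Fin N₂ × ZMod m₂) ⊕ Fin f₂ ≃ Fin f₁) : Subgroup (Equiv.Perm (Fin n)) where
  carrier := {g | (∃ (π : Equiv.Perm (Fin N₁)) (a : Fin N₁ → ZMod m₁),
      ∀ j b, g (β₁ (Sum.inl (j, b))) = β₁ (Sum.inl (π j, b + a j))) ∧
    ∃ g₂ ∈ wr β₂, ∀ l, g (β₁ (Sum.inr l)) = β₁ (Sum.inr (g₂ l))}
  mul_mem' := by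
    rintro g g' ⟨⟨π, a, h2⟩, g₂, hg₂, h3⟩ ⟨⟨π', a', h2'⟩, g₂', hg₂', h3'⟩
    refine ⟨⟨π * π', fun j => a' j + a (π' j), fun j b => ?_⟩, g₂ * g₂', mul_mem hg₂ hg₂',
      fun l => ?_⟩
    · rw [Equiv.Perm.mul_apply, h2', h2, Equiv.Perm.mul_apply, add_assoc]
    · rw [Equiv.Perm.mul_apply, h3', h3, Equiv.Perm.mul_apply]
  one_mem' := ⟨⟨1, 0, fun j b => by simp⟩, 1, one_mem _, fun l => rfl⟩
  inv_mem' := by
    rintro g ⟨⟨π, a, h2⟩, g₂, hg₂, h3⟩
    refine ⟨⟨π⁻¹, fun j => -a (π⁻¹ j), fun j b => ?_⟩, g₂⁻¹, inv_mem hg₂, fun l => ?_⟩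
    · rw [Equiv.Perm.inv_eq_iff_eq, h2, neg_add_cancel_right]
      simp
    · rw [Equiv.Perm.inv_eq_iff_eq, h3]
      simp

/-- the permutation of the blocks given by `(π, a)` -/
private def card_wr2_equiv {N m : ℕ} (q : Equiv.Perm (Fin N) × (Fin N → ZMod m)) :
    Fin N × ZMod m ≃ Fin N × ZMod m where
  toFun t := (q.1 t.1, t.2 + q.2 t.1)
  invFun t := (q.1.symm t.1, t.2 - q.2 (q.1.symm t.1))
  left_inv t := by simp
  right_inv t := by simp

/-- RD-D4 (uses `card_wr` for `β₂`; compare the proof of `card_wr`). -/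
theorem card_wr2 {N₁ m₁ f₁ n N₂ m₂ f₂ : ℕ} [NeZero m₁] [NeZero m₂]
    (β₁ : (Fin N₁ × ZMod m₁) ⊕ Fin f₁ ≃ Fin n)
    (β₂ : (Fin N₂ × ZMod m₂) ⊕ Fin f₂ ≃ Fin f₁) :
    Nat.card (wr2 β₁ β₂) = N₁.factorial * m₁ ^ N₁ * (N₂.factorial * m₂ ^ N₂) := by
  let Φ0 : (Equiv.Perm (Fin N₁) × (Fin N₁ → ZMod m₁)) × Equiv.Perm (Fin f₁) →
      Equiv.Perm (Fin n) := fun q =>
    (β₁.symm.trans ((card_wr2_equiv q.1).sumCongr q.2)).trans β₁
  have hl : ∀ q j b, Φ0 q (β₁ (Sum.inl (j, b))) = β₁ (Sum.inl (q.1.1 j, b + q.1.2 j)) := by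
    intro q j b
    simp [Φ0, card_wr2_equiv]
  have hr : ∀ q l, Φ0 q (β₁ (Sum.inr l)) = β₁ (Sum.inr (q.2 l)) := by
    intro q l
    simp [Φ0]
  let Φ : (Equiv.Perm (Fin N₁) × (Fin N₁ → ZMod m₁)) × wr β₂ → wr2 β₁ β₂ := fun q =>
    ⟨Φ0 (q.1, q.2.1), ⟨q.1.1, q.1.2, fun j b => hl _ j b⟩, q.2.1, q.2.2, fun l => hr _ l⟩
  have hΦ : Function.Bijective Φ := by
    constructor
    · intro q q' hq
      have h0 : Φ0 (q.1, q.2.1) = Φ0 (q'.1, q'.2.1) := congrArg Subtype.val hq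
      have h1 : ∀ j, (q.1.1 j, q.1.2 j) = (q'.1.1 j, q'.1.2 j) := by
        intro j
        have h2 := hl (q.1, q.2.1) j 0
        rw [h0, hl (q'.1, q'.2.1) j 0] at h2
        have h3 := Sum.inl.inj (β₁.injective h2)
        rw [zero_add, zero_add] at h3
        exact h3.symm
      have h4 : q.2 = q'.2 := by
        refine Subtype.ext (Equiv.ext fun l => ?_)
        have h2 := hr (q.1, q.2.1) l
        rw [h0, hr (q'.1, q'.2.1) l] at h2
        exact (Sum.inr.inj (β₁.injective h2)).symm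
      refine Prod.ext (Prod.ext (Equiv.ext fun j => ?_) (funext fun j => ?_)) h4
      · exact congrArg Prod.fst (h1 j)
      · exact congrArg Prod.snd (h1 j)
    · rintro ⟨g, ⟨π, a, h2⟩, g₂, hg₂, h3⟩
      refine ⟨((π, a), ⟨g₂, hg₂⟩), Subtype.ext (Equiv.ext fun i => ?_)⟩
      obtain ⟨t, rfl⟩ := β₁.surjective i
      rcases t with ⟨j, b⟩ | l
      · change Φ0 ((π, a), g₂) _ = g _
        rw [hl, h2]
      · change Φ0 ((π, a), g₂) _ = g _
        rw [hr, h3]
  rw [← Nat.card_congr (Equiv.ofBijective Φ hΦ), Nat.card_prod, card_wr β₂,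
    Nat.card_eq_fintype_card, Fintype.card_prod, Fintype.card_perm, Fintype.card_fin,
    Fintype.card_fun, ZMod.card, Fintype.card_fin]

/-- the permutation of the blocks and the shifts are trivial if the resolvents are fixed -/
private theorem yv2_faithful_key {N m f n : ℕ} [NeZero m] (ζ : k)
    (β : (Fin N × ZMod m) ⊕ Fin f ≃ Fin n) (x : Fin n → Ω) (hζ : IsPrimitiveRoot ζ m)
    (hx : AlgebraicIndependent k x) (σ : Ω ≃ₐ[k] Ω) (g : Equiv.Perm (Fin n))
    (hσ : ∀ i, σ (x i) = x (g i)) (π : Equiv.Perm (Fin N)) (a : Fin N → ZMod m)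
    (hga : ∀ j b, g (β (Sum.inl (j, b))) = β (Sum.inl (π j, b + a j)))
    (hy : ∀ j, σ (yv ζ β x j) = yv ζ β x j) (j : Fin N) : π j = j ∧ a j = 0 := by
  have h1 := yv_act ζ β x hζ σ g hσ π a hga j
  rw [hy] at h1
  have h2 : MvPolynomial.aeval (yv ζ β x) (MvPolynomial.C (ζ ^ (a j).val) *
      MvPolynomial.X (π j) - MvPolynomial.X j : MvPolynomial (Fin N) k) = 0 := by
    rw [map_sub, map_mul, MvPolynomial.aeval_C, MvPolynomial.aeval_X, MvPolynomial.aeval_X,
      ← h1, sub_self]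
  have h3 := (algebraicIndependent_iff.1 (yv_indep ζ β x hx)) _ h2
  have h4 := congrArg (MvPolynomial.eval (Pi.single j (1 : k))) h3
  rw [map_sub, map_mul, MvPolynomial.eval_C, MvPolynomial.eval_X, MvPolynomial.eval_X,
    Pi.single_eq_same, map_zero] at h4
  by_cases hj : π j = j
  · refine ⟨hj, ?_⟩
    rw [hj, Pi.single_eq_same, mul_one, sub_eq_zero] at h4
    have h5 : (a j).val = 0 :=
      Nat.eq_zero_of_dvd_of_lt ((hζ.pow_eq_one_iff_dvd _).1 h4) (ZMod.val_lt _)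
    exact (ZMod.val_eq_zero _).1 h5
  · rw [Pi.single_eq_of_ne hj, mul_zero, zero_sub, neg_eq_zero] at h4
    exact absurd h4 one_ne_zero

/-- RD-D5 (see `yv_faithful`; for the second family use `yv_faithful` with the variables
`fun l => x (β₁ (inr l))`, `yv_indep` for both). -/
theorem yv2_faithful {N₁ m₁ f₁ n N₂ m₂ f₂ : ℕ} [NeZero m₁] [NeZero m₂]
    (β₁ : (Fin N₁ × ZMod m₁) ⊕ Fin f₁ ≃ Fin n)
    (β₂ : (Fin N₂ × ZMod m₂) ⊕ Fin f₂ ≃ Fin f₁) (ζ₁ ζ₂ : k) (hζ₁ : IsPrimitiveRoot ζ₁ m₁)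
    (hζ₂ : IsPrimitiveRoot ζ₂ m₂) (x : Fin n → Ω) (hx : AlgebraicIndependent k x)
    (σ : Ω ≃ₐ[k] Ω) (g : Equiv.Perm (Fin n)) (hσ : ∀ i, σ (x i) = x (g i))
    (hg : g ∈ wr2 β₁ β₂) (hy₁ : ∀ j, σ (yv ζ₁ β₁ x j) = yv ζ₁ β₁ x j)
    (hy₂ : ∀ j, σ (yv ζ₂ β₂ (fun l => x (β₁ (Sum.inr l))) j) =
      yv ζ₂ β₂ (fun l => x (β₁ (Sum.inr l))) j) (i : Fin n) : σ (x i) = x i := by
  obtain ⟨⟨π, a, hga⟩, g₂, hg₂, hgr⟩ := hg
  have key := yv2_faithful_key ζ₁ β₁ x hζ₁ hx σ g hσ π a hga hy₁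
  obtain ⟨c, rfl⟩ := β₁.surjective i
  rcases c with ⟨j, b⟩ | l
  · rw [hσ, hga, (key j).1, (key j).2, add_zero]
  · have hx2 : AlgebraicIndependent k fun l => x (β₁ (Sum.inr l)) :=
      hx.comp _ (β₁.injective.comp Sum.inr_injective)
    exact yv_faithful ζ₂ β₂ (fun l => x (β₁ (Sum.inr l))) hζ₂ hx2 σ g₂
      (fun l => by rw [hσ, hgr]) hg₂ hy₂ l

/-- a helper of `mono2`: an automorphism which maps the generators into `E` maps `E` to itself -/
private theorem mono2_stable (S : Set Ω) (σ : Ω ≃ₐ[k] Ω) (h : ∀ s ∈ S, σ s ∈ adjoin k S) :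
    ∀ z ∈ adjoin k S, σ z ∈ adjoin k S := by
  have h1 : adjoin k S ≤ (adjoin k S).comap (σ : Ω →ₐ[k] Ω) := by
    rw [IntermediateField.adjoin_le_iff]
    exact h
  exact fun z hz => h1 hz

/-- a helper of `mono2`: the resolvents -/
private theorem mono2_yv_mem {N m f n : ℕ} [NeZero m] (ζ : k)
    (β : (Fin N × ZMod m) ⊕ Fin f ≃ Fin n) (x : Fin n → Ω) (F : IntermediateField k Ω)
    (hF : ∀ i, x i ∈ F) (j : Fin N) : yv ζ β x j ∈ F := by
  unfold yv
  exact sum_mem fun b _ => mul_mem (IntermediateField.algebraMap_mem _ _) (hF _)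

/-- RD-D6 (uses `exists_fixed`, `card_wr2`, `step_of_field`, `trdeg_adjoin_le` for the family
`Fin.append` of the two families of resolvents, `yv_act`, `yv2_faithful`; compare `mono`). -/
theorem mono2 [IsAlgClosed k] [IsAlgClosed Ω] [CharZero k] {n : ℕ} (x : Fin n → Ω)
    (hx : AlgebraicIndependent k x) (hΩ : Algebra.IsAlgebraic (adjoin k (Set.range x)) Ω)
    (N₁ m₁ N₂ m₂ : ℕ) [NeZero m₁] [NeZero m₂] (h : N₁ * m₁ + N₂ * m₂ ≤ n) :
    ∃ A : IntermediateField k Ω, coeffField k x ≤ A ∧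
      relfinrank (coeffField k x) A *
        (N₁.factorial * m₁ ^ N₁ * (N₂.factorial * m₂ ^ N₂)) = n.factorial ∧
      Step (N₁ + N₂) A (A ⊔ adjoin k (Set.range x)) := by
  obtain ⟨β₁⟩ := exists_beta N₁ m₁ n (by omega)
  obtain ⟨β₂⟩ := exists_beta N₂ m₂ (n - N₁ * m₁) (by omega)
  have hm₁ : NeZero (m₁ : k) := ⟨Nat.cast_ne_zero.2 (NeZero.ne m₁)⟩
  have hm₂ : NeZero (m₂ : k) := ⟨Nat.cast_ne_zero.2 (NeZero.ne m₂)⟩
  obtain ⟨ζ₁, hζ₁⟩ := HasEnoughRootsOfUnity.exists_primitiveRoot k m₁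
  obtain ⟨ζ₂, hζ₂⟩ := HasEnoughRootsOfUnity.exists_primitiveRoot k m₂
  obtain ⟨A, hKA, -, hIm, hdeg, -⟩ := exists_fixed x hx hΩ (wr2 β₁ β₂)
  rw [card_wr2 β₁ β₂] at hdeg
  refine ⟨A, hKA, hdeg, ?_⟩
  have key : ∀ σ ∈ A.fixingSubgroup, ∃ g ∈ wr2 β₁ β₂, ∀ i, σ (x i) = x (g i) := by
    intro σ hσ
    obtain ⟨g, hg⟩ := perm x hx.injective σ
      ((IntermediateField.mem_fixingSubgroup_iff _ _).2 fun z hz =>
        (IntermediateField.mem_fixingSubgroup_iff _ _).1 hσ z (hKA hz))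
    refine ⟨g, ?_, hg⟩
    rw [← hIm]
    exact ⟨σ, hσ, hg⟩
  set x₂ : Fin (n - N₁ * m₁) → Ω := fun l => x (β₁ (Sum.inr l)) with hx₂
  set y : Fin (N₁ + N₂) → Ω := Fin.append (yv ζ₁ β₁ x) (yv ζ₂ β₂ x₂) with hy
  have hy₁ : ∀ j, y (Fin.castAdd N₂ j) = yv ζ₁ β₁ x j := fun j => Fin.append_left _ _ j
  have hy₂ : ∀ j, y (Fin.natAdd N₁ j) = yv ζ₂ β₂ x₂ j := fun j => Fin.append_right _ _ j
  have hall : ∀ Q : Ω → Prop, (∀ j, Q (yv ζ₁ β₁ x j)) → (∀ j, Q (yv ζ₂ β₂ x₂ j)) →
      ∀ z ∈ Set.range y, Q z := by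
    rintro Q h1 h2 _ ⟨i, rfl⟩
    induction i using Fin.addCases with
    | left j =>
      rw [hy₁]
      exact h1 j
    | right j =>
      rw [hy₂]
      exact h2 j
  have hE₁ : ∀ j, yv ζ₁ β₁ x j ∈ adjoin k (Set.range y) := fun j => by
    rw [← hy₁]
    exact IntermediateField.subset_adjoin k _ ⟨_, rfl⟩
  have hE₂ : ∀ j, yv ζ₂ β₂ x₂ j ∈ adjoin k (Set.range y) := fun j => by
    rw [← hy₂]
    exact IntermediateField.subset_adjoin k _ ⟨_, rfl⟩
  have hxL : ∀ i, x i ∈ adjoin k (Set.range x) := fun i =>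
    IntermediateField.subset_adjoin k _ ⟨i, rfl⟩
  refine step_of_field x hx hΩ A hKA (N₁ + N₂) (adjoin k (Set.range y)) ?_
    (trdeg_adjoin_le _) ?_ ?_
  · refine le_trans ?_ le_sup_right
    rw [IntermediateField.adjoin_le_iff]
    exact hall (fun z => z ∈ adjoin k (Set.range x))
      (fun j => mono2_yv_mem ζ₁ β₁ x _ hxL j)
      (fun j => mono2_yv_mem ζ₂ β₂ x₂ _ (fun l => hxL _) j)
  · intro σ hσ
    obtain ⟨g, ⟨⟨π, a, hπ⟩, g₂, hg₂, hgg⟩, hσg⟩ := key σ hσ
    refine mono2_stable _ σ ?_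
    refine hall (fun z => σ z ∈ adjoin k (Set.range y)) (fun j => ?_) (fun j => ?_)
    · rw [yv_act ζ₁ β₁ x hζ₁ σ g hσg π a hπ j]
      exact mul_mem (IntermediateField.algebraMap_mem _ _) (hE₁ _)
    · obtain ⟨-, π₂, a₂, hπ₂⟩ := hg₂
      have hσ₂ : ∀ l, σ (x₂ l) = x₂ (g₂ l) := fun l => by
        rw [hx₂]
        beta_reduce
        rw [hσg, hgg]
      rw [yv_act ζ₂ β₂ x₂ hζ₂ σ g₂ hσ₂ π₂ a₂ hπ₂ j]
      exact mul_mem (IntermediateField.algebraMap_mem _ _) (hE₂ _)
  · intro σ hσ hfix i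
    obtain ⟨g, hg, hσg⟩ := key σ hσ
    exact yv2_faithful β₁ β₂ ζ₁ ζ₂ hζ₁ hζ₂ x hx σ g hσg hg (fun j => hfix _ (hE₁ j))
      (fun j => hfix _ (hE₂ j)) i

/-- RD-D7 (uses `large`). `gam n d = 2 ^ (n / 2 - d)` for `n ≥ 4`, `n / 2 ≤ d + 1`
(`n / p ≤ n / 3 ≤ d` for the odd primes). -/
theorem large_gam [IsAlgClosed k] [IsAlgClosed Ω] [CharZero k] {n : ℕ} (hn : 4 ≤ n) (x : Fin n → Ω)
    (hx : AlgebraicIndependent k x) (hΩ : Algebra.IsAlgebraic (adjoin k (Set.range x)) Ω)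
    (d m : ℕ) (hd : n / 2 ≤ d + 1) :
    (∀ A : IntermediateField k Ω, coeffField k x ≤ A → relfinrank (coeffField k x) A ≠ 0 →
      Step d A (A ⊔ adjoin k (Set.range x)) → m ∣ relfinrank (coeffField k x) A) ↔
    m ∣ gam n d := by
  have hg : gam n d = 2 ^ (n / 2 - d) := by
    unfold gam
    refine (Finset.prod_eq_single 2 ?_ ?_)
    · intro p hp hp2
      rw [Finset.mem_filter] at hp
      have h2 : 2 ≤ p := hp.2.two_le
      have h3 : 3 ≤ p := by omega
      have h4 : n / p ≤ n / 3 := Nat.div_le_div_left h3 (by norm_num)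
      have h5 : n / p - d = 0 := by omega
      rw [h5, pow_zero]
    · intro h2
      exact absurd (Finset.mem_filter.2 ⟨Finset.mem_range.2 (by omega), Nat.prime_two⟩) h2
  rw [hg]
  exact large hn x hx hΩ d m hd

/-- the value of `gam` for nine and two parameters -/
private theorem small_nine_gam : gam 9 2 = 12 := by
  unfold gam
  decide

/-- the degree of an extension from `mono` -/
private theorem small_nine_mono [IsAlgClosed k] [IsAlgClosed Ω] [CharZero k] (x : Fin 9 → Ω)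
    (hx : AlgebraicIndependent k x) (hΩ : Algebra.IsAlgebraic (adjoin k (Set.range x)) Ω)
    (m : ℕ)
    (h : ∀ A : IntermediateField k Ω, coeffField k x ≤ A → relfinrank (coeffField k x) A ≠ 0 →
      Step 2 A (A ⊔ adjoin k (Set.range x)) → m ∣ relfinrank (coeffField k x) A)
    (N q D : ℕ) [NeZero q] (hN : N ≤ 2) (hq : N * q ≤ 9)
    (hD : D * (N.factorial * q ^ N) = Nat.factorial 9) : m ∣ D := by
  obtain ⟨A, hA, hdeg, hst⟩ := mono x hx hΩ N q hq
  have h1 : 0 < N.factorial * q ^ N :=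
    Nat.mul_pos (Nat.factorial_pos _) (pow_pos (Nat.pos_of_ne_zero (NeZero.ne q)) _)
  have h2 : relfinrank (coeffField k x) A = D :=
    Nat.eq_of_mul_eq_mul_right h1 (hdeg.trans hD.symm)
  have h3 := h A hA (fun h0 => by
    rw [h0, zero_mul] at hdeg
    exact (Nat.factorial_pos 9).ne hdeg) (hst.mono hN)
  rwa [h2] at h3

/-- the degree of the extension from `fermat` -/
private theorem small_nine_fermat [IsAlgClosed k] [IsAlgClosed Ω] [CharZero k] (x : Fin 9 → Ω)
    (hx : AlgebraicIndependent k x) (hΩ : Algebra.IsAlgebraic (adjoin k (Set.range x)) Ω)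
    (m : ℕ)
    (h : ∀ A : IntermediateField k Ω, coeffField k x ≤ A → relfinrank (coeffField k x) A ≠ 0 →
      Step 2 A (A ⊔ adjoin k (Set.range x)) → m ∣ relfinrank (coeffField k x) A) :
    m ∣ 6720 := by
  have hF : Fact (Nat.Prime 3) := ⟨Nat.prime_three⟩
  obtain ⟨A, hA, hA0, hdeg, hst⟩ := fermat x hx hΩ 3 2 (by norm_num)
  have h1 : Nat.factorial (2 + 1) * 3 ^ (2 + 1) = 162 := by decide
  have h2 : 3 * Nat.factorial 9 = 6720 * 162 := by decide
  rw [h1, h2] at hdeg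
  exact (h A hA hA0 hst).trans (Nat.dvd_of_mul_dvd_mul_right (by norm_num) hdeg)

/-- RD-D8 (uses `gam_dvd`, `mono`, `fermat`, `mono2`, `Step.mono`; compare `octic_two`). The case
`n = 9, d = 2`: `gam 9 2 = 12`; `mono` with `(N, m) = (2, 4)` (`m ∣ 9! / 32`), `(1, 5)`, `(1, 7)`; `fermat` with
`p = 3`, `N + 1 = 3` (`m ∣ 3 * 9! / 162`). -/
theorem small_nine [IsAlgClosed k] [IsAlgClosed Ω] [CharZero k] (x : Fin 9 → Ω)
    (hx : AlgebraicIndependent k x) (hΩ : Algebra.IsAlgebraic (adjoin k (Set.range x)) Ω)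
    (m : ℕ) :
    (∀ A : IntermediateField k Ω, coeffField k x ≤ A → relfinrank (coeffField k x) A ≠ 0 →
      Step 2 A (A ⊔ adjoin k (Set.range x)) → m ∣ relfinrank (coeffField k x) A) ↔
    m ∣ gam 9 2 := by
  constructor
  · intro h
    rw [small_nine_gam]
    have h1 : m ∣ 11340 := small_nine_mono x hx hΩ m h 2 4 11340 (by norm_num) (by norm_num)
      (by decide)
    have h2 : m ∣ 72576 := small_nine_mono x hx hΩ m h 1 5 72576 (by norm_num) (by norm_num)
      (by decide)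
    have h3 : m ∣ 51840 := small_nine_mono x hx hΩ m h 1 7 51840 (by norm_num) (by norm_num)
      (by decide)
    have h4 : m ∣ 6720 := small_nine_fermat x hx hΩ m h
    have h5 := Nat.dvd_gcd (Nat.dvd_gcd h1 h2) (Nat.dvd_gcd h3 h4)
    have h6 : Nat.gcd (Nat.gcd 11340 72576) (Nat.gcd 51840 6720) = 12 := by norm_num
    rwa [h6] at h5
  · intro h A hA hA0 hst
    exact h.trans (gam_dvd x hx hΩ A hA hA0 2 hst)

/-- the value of `gam` for ten and eleven and two parameters -/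
private theorem small_ten_two_gam : gam 10 2 = 24 ∧ gam 11 2 = 24 := by
  unfold gam
  decide

/-- the degree of an extension from `mono` -/
private theorem small_ten_two_mono [IsAlgClosed k] [IsAlgClosed Ω] [CharZero k] {n : ℕ}
    (x : Fin n → Ω)
    (hx : AlgebraicIndependent k x) (hΩ : Algebra.IsAlgebraic (adjoin k (Set.range x)) Ω)
    (m : ℕ)
    (h : ∀ A : IntermediateField k Ω, coeffField k x ≤ A → relfinrank (coeffField k x) A ≠ 0 →
      Step 2 A (A ⊔ adjoin k (Set.range x)) → m ∣ relfinrank (coeffField k x) A)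
    (N q D : ℕ) [NeZero q] (hN : N ≤ 2) (hq : N * q ≤ n)
    (hD : D * (N.factorial * q ^ N) = n.factorial) : m ∣ D := by
  obtain ⟨A, hA, hdeg, hst⟩ := mono x hx hΩ N q hq
  have h1 : 0 < N.factorial * q ^ N :=
    Nat.mul_pos (Nat.factorial_pos _) (pow_pos (Nat.pos_of_ne_zero (NeZero.ne q)) _)
  have h2 : relfinrank (coeffField k x) A = D :=
    Nat.eq_of_mul_eq_mul_right h1 (hdeg.trans hD.symm)
  have h3 := h A hA (fun h0 => by
    rw [h0, zero_mul] at hdeg
    exact (Nat.factorial_pos n).ne hdeg) (hst.mono hN)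
  rwa [h2] at h3

/-- the degree of the extension from `fermat` -/
private theorem small_ten_two_fermat [IsAlgClosed k] [IsAlgClosed Ω] [CharZero k] {n : ℕ}
    (x : Fin n → Ω)
    (hx : AlgebraicIndependent k x) (hΩ : Algebra.IsAlgebraic (adjoin k (Set.range x)) Ω)
    (m : ℕ)
    (h : ∀ A : IntermediateField k Ω, coeffField k x ≤ A → relfinrank (coeffField k x) A ≠ 0 →
      Step 2 A (A ⊔ adjoin k (Set.range x)) → m ∣ relfinrank (coeffField k x) A)
    (D : ℕ) (hn : 9 ≤ n) (hD : 3 * n.factorial = D * 162) : m ∣ D := by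
  have hF : Fact (Nat.Prime 3) := ⟨Nat.prime_three⟩
  obtain ⟨A, hA, hA0, hdeg, hst⟩ := fermat x hx hΩ 3 2 (by omega)
  have h1 : Nat.factorial (2 + 1) * 3 ^ (2 + 1) = 162 := by decide
  rw [h1, hD] at hdeg
  exact (h A hA hA0 hst).trans (Nat.dvd_of_mul_dvd_mul_right (by norm_num) hdeg)

/-- RD-D9. `n = 10, 11`, `d = 2`: `gam n 2 = 24`; `mono` with `(2, 4)`, `(2, 5)`, `(1, 7)`, `(1, 11)` if
`n = 11`; `fermat` with `p = 3`, `N + 1 = 3`. -/
theorem small_ten_two [IsAlgClosed k] [IsAlgClosed Ω] [CharZero k] {n : ℕ}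
    (hn : n = 10 ∨ n = 11) (x : Fin n → Ω)
    (hx : AlgebraicIndependent k x) (hΩ : Algebra.IsAlgebraic (adjoin k (Set.range x)) Ω)
    (m : ℕ) :
    (∀ A : IntermediateField k Ω, coeffField k x ≤ A → relfinrank (coeffField k x) A ≠ 0 →
      Step 2 A (A ⊔ adjoin k (Set.range x)) → m ∣ relfinrank (coeffField k x) A) ↔
    m ∣ gam n 2 := by
  constructor
  · intro h
    rcases hn with rfl | rfl
    · rw [small_ten_two_gam.1]
      have h1 : m ∣ 113400 := small_ten_two_mono x hx hΩ m h 2 4 113400 (by norm_num)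
        (by norm_num) (by decide)
      have h2 : m ∣ 72576 := small_ten_two_mono x hx hΩ m h 2 5 72576 (by norm_num)
        (by norm_num) (by decide)
      have h3 : m ∣ 518400 := small_ten_two_mono x hx hΩ m h 1 7 518400 (by norm_num)
        (by norm_num) (by decide)
      have h4 : m ∣ 67200 := small_ten_two_fermat x hx hΩ m h 67200 (by norm_num) (by decide)
      have h5 := Nat.dvd_gcd (Nat.dvd_gcd h1 h2) (Nat.dvd_gcd h3 h4)
      have h6 : Nat.gcd (Nat.gcd 113400 72576) (Nat.gcd 518400 67200) = 24 := by norm_num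
      rwa [h6] at h5
    · rw [small_ten_two_gam.2]
      have h1 : m ∣ 1247400 := small_ten_two_mono x hx hΩ m h 2 4 1247400 (by norm_num)
        (by norm_num) (by decide)
      have h2 : m ∣ 798336 := small_ten_two_mono x hx hΩ m h 2 5 798336 (by norm_num)
        (by norm_num) (by decide)
      have h3 : m ∣ 5702400 := small_ten_two_mono x hx hΩ m h 1 7 5702400 (by norm_num)
        (by norm_num) (by decide)
      have h4 : m ∣ 739200 := small_ten_two_fermat x hx hΩ m h 739200 (by norm_num) (by decide)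
      have h7 : m ∣ 3628800 := small_ten_two_mono x hx hΩ m h 1 11 3628800 (by norm_num)
        (by norm_num) (by decide)
      have h5 := Nat.dvd_gcd (Nat.dvd_gcd (Nat.dvd_gcd h1 h2) (Nat.dvd_gcd h3 h4)) h7
      have h6 : Nat.gcd (Nat.gcd (Nat.gcd 1247400 798336) (Nat.gcd 5702400 739200)) 3628800
          = 24 := by norm_num
      rwa [h6] at h5
  · intro h A hA hA0 hst
    exact h.trans (gam_dvd x hx hΩ A hA hA0 2 hst)

/-- the value of `gam` for ten and eleven and three parameters -/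
private theorem small_ten_three_gam : gam 10 3 = 4 ∧ gam 11 3 = 4 := by
  unfold gam
  decide

/-- the degree of an extension from `mono` -/
private theorem small_ten_three_mono [IsAlgClosed k] [IsAlgClosed Ω] [CharZero k] {n : ℕ}
    (x : Fin n → Ω)
    (hx : AlgebraicIndependent k x) (hΩ : Algebra.IsAlgebraic (adjoin k (Set.range x)) Ω)
    (m : ℕ)
    (h : ∀ A : IntermediateField k Ω, coeffField k x ≤ A → relfinrank (coeffField k x) A ≠ 0 →
      Step 3 A (A ⊔ adjoin k (Set.range x)) → m ∣ relfinrank (coeffField k x) A)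
    (N q D : ℕ) [NeZero q] (hN : N ≤ 3) (hq : N * q ≤ n)
    (hD : D * (N.factorial * q ^ N) = n.factorial) : m ∣ D := by
  obtain ⟨A, hA, hdeg, hst⟩ := mono x hx hΩ N q hq
  have h1 : 0 < N.factorial * q ^ N :=
    Nat.mul_pos (Nat.factorial_pos _) (pow_pos (Nat.pos_of_ne_zero (NeZero.ne q)) _)
  have h2 : relfinrank (coeffField k x) A = D :=
    Nat.eq_of_mul_eq_mul_right h1 (hdeg.trans hD.symm)
  have h3 := h A hA (fun h0 => by
    rw [h0, zero_mul] at hdeg
    exact (Nat.factorial_pos n).ne hdeg) (hst.mono hN)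
  rwa [h2] at h3

/-- the degree of the extension from `mono2` -/
private theorem small_ten_three_mono2 [IsAlgClosed k] [IsAlgClosed Ω] [CharZero k] {n : ℕ}
    (x : Fin n → Ω)
    (hx : AlgebraicIndependent k x) (hΩ : Algebra.IsAlgebraic (adjoin k (Set.range x)) Ω)
    (m : ℕ)
    (h : ∀ A : IntermediateField k Ω, coeffField k x ≤ A → relfinrank (coeffField k x) A ≠ 0 →
      Step 3 A (A ⊔ adjoin k (Set.range x)) → m ∣ relfinrank (coeffField k x) A)
    (D : ℕ) (hn : 10 ≤ n) (hD : D * 64 = n.factorial) : m ∣ D := by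
  obtain ⟨A, hA, hdeg, hst⟩ := mono2 x hx hΩ 2 4 1 2 hn
  have h0 : Nat.factorial 2 * 4 ^ 2 * (Nat.factorial 1 * 2 ^ 1) = 64 := by decide
  rw [h0] at hdeg
  have h2 : relfinrank (coeffField k x) A = D :=
    Nat.eq_of_mul_eq_mul_right (by norm_num) (hdeg.trans hD.symm)
  have h3 := h A hA (fun h0 => by
    rw [h0, zero_mul] at hdeg
    exact (Nat.factorial_pos n).ne hdeg) hst
  rwa [h2] at h3

/-- RD-D10. `n = 10, 11`, `d = 3`: `gam n 3 = 4`; `mono2` with `(2, 4, 1, 2)` (degree `n! / 64`), `mono` with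
`(3, 3)`, `(2, 5)`, `(1, 7)`, and `(1, 11)` if `n = 11`. -/
theorem small_ten_three [IsAlgClosed k] [IsAlgClosed Ω] [CharZero k] {n : ℕ}
    (hn : n = 10 ∨ n = 11) (x : Fin n → Ω)
    (hx : AlgebraicIndependent k x) (hΩ : Algebra.IsAlgebraic (adjoin k (Set.range x)) Ω)
    (m : ℕ) :
    (∀ A : IntermediateField k Ω, coeffField k x ≤ A → relfinrank (coeffField k x) A ≠ 0 →
      Step 3 A (A ⊔ adjoin k (Set.range x)) → m ∣ relfinrank (coeffField k x) A) ↔
    m ∣ gam n 3 := by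
  constructor
  · intro h
    rcases hn with rfl | rfl
    · rw [small_ten_three_gam.1]
      have h1 : m ∣ 56700 := small_ten_three_mono2 x hx hΩ m h 56700 (by norm_num) (by decide)
      have h2 : m ∣ 22400 := small_ten_three_mono x hx hΩ m h 3 3 22400 (by norm_num)
        (by norm_num) (by decide)
      have h3 : m ∣ 72576 := small_ten_three_mono x hx hΩ m h 2 5 72576 (by norm_num)
        (by norm_num) (by decide)
      have h4 : m ∣ 518400 := small_ten_three_mono x hx hΩ m h 1 7 518400 (by norm_num)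
        (by norm_num) (by decide)
      have h5 := Nat.dvd_gcd (Nat.dvd_gcd h1 h2) (Nat.dvd_gcd h3 h4)
      have h6 : Nat.gcd (Nat.gcd 56700 22400) (Nat.gcd 72576 518400) = 4 := by norm_num
      rwa [h6] at h5
    · rw [small_ten_three_gam.2]
      have h1 : m ∣ 623700 := small_ten_three_mono2 x hx hΩ m h 623700 (by norm_num) (by decide)
      have h2 : m ∣ 246400 := small_ten_three_mono x hx hΩ m h 3 3 246400 (by norm_num)
        (by norm_num) (by decide)
      have h3 : m ∣ 798336 := small_ten_three_mono x hx hΩ m h 2 5 798336 (by norm_num)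
        (by norm_num) (by decide)
      have h4 : m ∣ 5702400 := small_ten_three_mono x hx hΩ m h 1 7 5702400 (by norm_num)
        (by norm_num) (by decide)
      have h7 : m ∣ 3628800 := small_ten_three_mono x hx hΩ m h 1 11 3628800 (by norm_num)
        (by norm_num) (by decide)
      have h5 := Nat.dvd_gcd (Nat.dvd_gcd (Nat.dvd_gcd h1 h2) (Nat.dvd_gcd h3 h4)) h7
      have h6 : Nat.gcd (Nat.gcd (Nat.gcd 623700 246400) (Nat.gcd 798336 5702400)) 3628800 =
          4 := by norm_num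
      rwa [h6] at h5
  · intro h A hA hA0 hst
    exact h.trans (gam_dvd x hx hΩ A hA hA0 3 hst)

end Pool.Agent.Helper15.RD
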