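import Mathlib

/-!
# Project RD, block P: places of a function field of one variable
-/

set_option autoImplicit false

namespace Pool.Agent.Helper15.RD

open IntermediateField

universe u

/-- `z` is integral for `w` -/
def Oi {E : Type*} [Zero E] (w : E → ℤ) (z : E) : Prop := z = 0 ∨ 0 ≤ w z

/-- a discrete valuation `w` of `E`, trivial on `R`, and its residue map `r` to `E'`
(the values of `w` at `0` and of `r` outside of the valuation ring are irrelevant) -/
structure Pl (R : Type*) {E E' : Type*} [Field R] [Field E] [Field E'] [Algebra R E] [Algebra R E']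
    (w : E → ℤ) (r : E → E') : Prop where
  w_mul : ∀ a b, a ≠ 0 → b ≠ 0 → w (a * b) = w a + w b
  w_add : ∀ a b, a ≠ 0 → b ≠ 0 → a + b ≠ 0 → min (w a) (w b) ≤ w (a + b)
  w_alg : ∀ c : R, c ≠ 0 → w (algebraMap R E c) = 0
  r_alg : ∀ c : R, r (algebraMap R E c) = algebraMap R E' c
  r_add : ∀ a b, Oi w a → Oi w b → r (a + b) = r a + r b
  r_mul : ∀ a b, Oi w a → Oi w b → r (a * b) = r a * r b
  r_ker : ∀ a, Oi w a → (r a = 0 ↔ a = 0 ∨ 0 < w a)

/-- RD-P1. `Ideal.sum_ramification_inertia`: `∑ e f = [L : K]` over the primes `Q` above `P`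
(`IsDedekindDomain.primesOverFinset P S`). If `padicValNat p (e f) > v = padicValNat p [L : K]` for all
these `Q` (or `e f = 0`) then `p ^ (v + 1)` divides the sum `[L : K] ≠ 0`, contradiction. -/
theorem exists_prime {A K S L : Type*} [CommRing A] [IsDedekindDomain A] [Field K] [Algebra A K]
    [IsFractionRing A K] [CommRing S] [IsDedekindDomain S] [Algebra A S] [Module.Finite A S]
    [Field L] [Algebra K L] [Algebra S L] [IsFractionRing S L] [Algebra A L] [IsScalarTower A K L]
    [IsScalarTower A S L] [FiniteDimensional K L] (P : Ideal A) [P.IsMaximal] (hP : P ≠ ⊥)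
    (p : ℕ) [Fact p.Prime] :
    ∃ Q ∈ IsDedekindDomain.primesOverFinset P S,
      Ideal.ramificationIdx' P Q * Ideal.inertiaDeg' P Q ≠ 0 ∧
      padicValNat p (Ideal.ramificationIdx' P Q * Ideal.inertiaDeg' P Q) ≤
        padicValNat p (Module.finrank K L) := by
  by_contra hcon
  have h1 := Ideal.sum_ramification_inertia S K L hP
  have hn : Module.finrank K L ≠ 0 := Module.finrank_pos.ne'
  refine pow_succ_padicValNat_not_dvd (p := p) hn ?_
  nth_rewrite 2 [← h1]
  refine Finset.dvd_sum fun Q hQ => ?_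
  by_cases h0 : Ideal.ramificationIdx' P Q * Ideal.inertiaDeg' P Q = 0
  · rw [h0]
    exact dvd_zero _
  · rw [padicValNat_dvd_iff_le h0]
    by_contra h2
    exact hcon ⟨Q, hQ, h0, by omega⟩

/-- RD-P2. `w` = the `Q`-adic valuation (for instance minus the logarithm of
`IsDedekindDomain.HeightOneSpectrum.valuation E ⟨Q, ..⟩`, or via the localization of `S` at `Q`, a
discrete valuation ring). `r z`: for `z` with `w z ≥ 0` write `z = a / b`, `a, b ∈ S`, `b ∉ Q`; then
`r z = mk a * (mk b)⁻¹`; independent of the choice. -/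
theorem dvr {S E : Type*} [CommRing S] [IsDedekindDomain S] [Field E] [Algebra S E]
    [IsFractionRing S E] (Q : Ideal S) [Q.IsMaximal] (hQ : Q ≠ ⊥) :
    ∃ (w : E → ℤ) (r : E → S ⧸ Q),
      (∀ a b, a ≠ 0 → b ≠ 0 → w (a * b) = w a + w b) ∧
      (∀ a b, a ≠ 0 → b ≠ 0 → a + b ≠ 0 → min (w a) (w b) ≤ w (a + b)) ∧
      (∀ (a : S) (m : ℕ), a ≠ 0 → (a ∈ Q ^ m ↔ (m : ℤ) ≤ w (algebraMap S E a))) ∧
      (∀ a : S, r (algebraMap S E a) = Ideal.Quotient.mk Q a) ∧
      (∀ a b, Oi w a → Oi w b → r (a + b) = r a + r b) ∧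
      (∀ a b, Oi w a → Oi w b → r (a * b) = r a * r b) ∧
      ∀ a, Oi w a → (r a = 0 ↔ a = 0 ∨ 0 < w a) := by
  classical
  have hQp : Q.IsPrime := Ideal.IsMaximal.isPrime ‹_›
  let v : IsDedekindDomain.HeightOneSpectrum S := ⟨Q, hQp, hQ⟩
  obtain ⟨w, hw⟩ : ∃ w : E → ℤ, ∀ z, w z = -(WithZero.log (v.valuation E z)) :=
    ⟨_, fun _ => rfl⟩
  have hv0 : ∀ z : E, z ≠ 0 → v.valuation E z ≠ 0 := fun z hz =>
    (Valuation.ne_zero_iff _).2 hz
  have w_mul : ∀ a b, a ≠ 0 → b ≠ 0 → w (a * b) = w a + w b := by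
    intro a b ha hb
    rw [hw, hw, hw, map_mul, WithZero.log_mul (hv0 a ha) (hv0 b hb)]
    ring
  have w_add : ∀ a b, a ≠ 0 → b ≠ 0 → a + b ≠ 0 → min (w a) (w b) ≤ w (a + b) := by
    intro a b ha hb hab
    rw [hw, hw, hw]
    rcases le_max_iff.1 ((v.valuation E).map_add a b) with h | h
    · exact (min_le_left _ _).trans
        (neg_le_neg ((WithZero.log_le_log (hv0 _ hab) (hv0 a ha)).2 h))
    · exact (min_le_right _ _).trans
        (neg_le_neg ((WithZero.log_le_log (hv0 _ hab) (hv0 b hb)).2 h))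
  have hinj : Function.Injective (algebraMap S E) := IsFractionRing.injective S E
  have hS0 : ∀ a : S, a ≠ 0 → algebraMap S E a ≠ 0 := fun a ha h =>
    ha (hinj (h.trans (map_zero _).symm))
  have w_mem : ∀ (a : S) (m : ℕ), a ≠ 0 → (a ∈ Q ^ m ↔ (m : ℤ) ≤ w (algebraMap S E a)) := by
    intro a m ha
    have h1 : v.intValuation a ≤ WithZero.exp (-(m : ℤ)) ↔ a ∈ Q ^ m :=
      v.intValuation_le_pow_iff_mem a m
    rw [← h1, hw, le_neg,
      WithZero.log_le_iff_le_exp (hv0 _ (hS0 a ha)), v.valuation_of_algebraMap]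
  have w_nn : ∀ a : S, a ≠ 0 → 0 ≤ w (algebraMap S E a) := by
    intro a ha
    have h1 := (w_mem a 0 ha).1 (by rw [pow_zero, Ideal.one_eq_top]; exact Submodule.mem_top)
    rwa [Nat.cast_zero] at h1
  have hOi : ∀ a : S, Oi w (algebraMap S E a) := by
    intro a
    by_cases ha : a = 0
    · left
      rw [ha, map_zero]
    · exact Or.inr (w_nn a ha)
  have h1Q : (1 : S) ∉ Q := fun h => hQp.ne_top ((Ideal.eq_top_iff_one Q).2 h)
  -- the elements of the valuation ring are fractions with denominator outside of `Q`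
  have hfrac : ∀ z, Oi w z → ∃ a b : S, b ∉ Q ∧ algebraMap S E b * z = algebraMap S E a := by
    intro z hz
    rcases eq_or_ne z 0 with rfl | hz0
    · exact ⟨0, 1, h1Q, by rw [mul_zero, map_zero]⟩
    have hwz : 0 ≤ w z := hz.resolve_left hz0
    obtain ⟨n, d, hd, rfl⟩ := IsFractionRing.div_surjective (A := S) z
    have hd0 : d ≠ 0 := nonZeroDivisors.ne_zero hd
    have hn0 : n ≠ 0 := by
      rintro rfl
      apply hz0
      rw [map_zero, zero_div]
    have hdE := hS0 d hd0
    have hwn : w (algebraMap S E n) = w (algebraMap S E n / algebraMap S E d) +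
        w (algebraMap S E d) := by
      rw [← w_mul _ _ hz0 hdE, div_mul_cancel₀ _ hdE]
    obtain ⟨m, hm⟩ : ∃ m : ℕ, (m : ℤ) = w (algebraMap S E d) :=
      ⟨(w (algebraMap S E d)).toNat, Int.toNat_of_nonneg (w_nn d hd0)⟩
    have hdm : d ∈ Q ^ m := (w_mem d m hd0).2 hm.le
    have hdm1 : d ∉ Q ^ (m + 1) := by
      intro h
      have h2 := (w_mem d (m + 1) hd0).1 h
      push_cast at h2
      omega
    have hnm : n ∈ Q ^ m := (w_mem n m hn0).2 (by omega)
    obtain ⟨J, hJ⟩ : Q ^ m ∣ Ideal.span {d} := Ideal.dvd_span_singleton.2 hdm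
    obtain ⟨b, hbJ, hbQ⟩ : ∃ b ∈ J, b ∉ Q := by
      by_contra hcon
      push Not at hcon
      apply hdm1
      have h3 : Ideal.span {d} ≤ Q ^ (m + 1) := by
        rw [hJ, pow_succ]
        exact Ideal.mul_mono_right hcon
      exact h3 (Ideal.mem_span_singleton_self d)
    have h4 : n * b ∈ Ideal.span {d} := by
      rw [hJ]
      exact Ideal.mul_mem_mul hnm hbJ
    obtain ⟨a, ha⟩ := Ideal.mem_span_singleton'.1 h4
    refine ⟨a, b, hbQ, ?_⟩
    rw [mul_div_assoc', div_eq_iff hdE, ← map_mul, ← map_mul, ha, mul_comm]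
  -- the residue map
  have hres : ∀ z, ∃ y : S ⧸ Q, Oi w z → ∀ a b : S, b ∉ Q →
      algebraMap S E b * z = algebraMap S E a →
      Ideal.Quotient.mk Q b * y = Ideal.Quotient.mk Q a := by
    intro z
    by_cases hz : Oi w z
    · obtain ⟨a0, b0, hb0, h0⟩ := hfrac z hz
      have hb0' : Ideal.Quotient.mk Q b0 ≠ 0 := fun h => hb0 (Ideal.Quotient.eq_zero_iff_mem.1 h)
      obtain ⟨c, hc⟩ := Ideal.Quotient.exists_inv hb0'
      refine ⟨Ideal.Quotient.mk Q a0 * c, fun _ a b hb h1 => ?_⟩
      have h2 : b * a0 = b0 * a := by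
        apply hinj
        rw [map_mul, map_mul, ← h0, ← h1]
        ring
      calc Ideal.Quotient.mk Q b * (Ideal.Quotient.mk Q a0 * c)
          = Ideal.Quotient.mk Q (b * a0) * c := by rw [map_mul, mul_assoc]
        _ = Ideal.Quotient.mk Q a * (Ideal.Quotient.mk Q b0 * c) := by
            rw [h2, map_mul]
            ring
        _ = Ideal.Quotient.mk Q a := by rw [hc, mul_one]
    · exact ⟨0, fun h => absurd h hz⟩
  choose r hr using hres
  have hdom : IsDomain (S ⧸ Q) := Ideal.Quotient.isDomain Q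
  have hmk : ∀ b : S, b ∉ Q → Ideal.Quotient.mk Q b ≠ 0 := fun b hb h =>
    hb (Ideal.Quotient.eq_zero_iff_mem.1 h)
  have hmulQ : ∀ b c : S, b ∉ Q → c ∉ Q → b * c ∉ Q := fun b c hb hc h =>
    (hQp.mem_or_mem h).elim hb hc
  have hOadd : ∀ a b, Oi w a → Oi w b → Oi w (a + b) := by
    intro a b ha hb
    rcases eq_or_ne a 0 with rfl | ha0
    · rwa [zero_add]
    rcases eq_or_ne b 0 with rfl | hb0
    · rwa [add_zero]
    by_cases hab : a + b = 0
    · exact Or.inl hab
    · exact Or.inr ((le_min (ha.resolve_left ha0) (hb.resolve_left hb0)).trans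
        (w_add a b ha0 hb0 hab))
  have hOmul : ∀ a b, Oi w a → Oi w b → Oi w (a * b) := by
    intro a b ha hb
    rcases eq_or_ne a 0 with rfl | ha0
    · exact Or.inl (zero_mul _)
    rcases eq_or_ne b 0 with rfl | hb0
    · exact Or.inl (mul_zero _)
    right
    rw [w_mul a b ha0 hb0]
    exact add_nonneg (ha.resolve_left ha0) (hb.resolve_left hb0)
  refine ⟨w, r, w_mul, w_add, w_mem, ?_, ?_, ?_, ?_⟩
  · intro a
    have h1 := hr _ (hOi a) a 1 h1Q (by rw [map_one, one_mul])
    rwa [map_one, one_mul] at h1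
  · intro z1 z2 hz1 hz2
    obtain ⟨a1, b1, hb1, h1⟩ := hfrac z1 hz1
    obtain ⟨a2, b2, hb2, h2⟩ := hfrac z2 hz2
    have e1 := hr z1 hz1 a1 b1 hb1 h1
    have e2 := hr z2 hz2 a2 b2 hb2 h2
    have e3 := hr (z1 + z2) (hOadd z1 z2 hz1 hz2) (a1 * b2 + a2 * b1) (b1 * b2)
      (hmulQ b1 b2 hb1 hb2) (by
        rw [map_mul, map_add, map_mul, map_mul, ← h1, ← h2]
        ring)
    refine mul_left_cancel₀ (hmk _ (hmulQ b1 b2 hb1 hb2)) (e3.trans ?_)
    rw [map_add, map_mul, map_mul, map_mul, ← e1, ← e2]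
    ring
  · intro z1 z2 hz1 hz2
    obtain ⟨a1, b1, hb1, h1⟩ := hfrac z1 hz1
    obtain ⟨a2, b2, hb2, h2⟩ := hfrac z2 hz2
    have e1 := hr z1 hz1 a1 b1 hb1 h1
    have e2 := hr z2 hz2 a2 b2 hb2 h2
    have e3 := hr (z1 * z2) (hOmul z1 z2 hz1 hz2) (a1 * a2) (b1 * b2)
      (hmulQ b1 b2 hb1 hb2) (by
        rw [map_mul, map_mul, ← h1, ← h2]
        ring)
    refine mul_left_cancel₀ (hmk _ (hmulQ b1 b2 hb1 hb2)) (e3.trans ?_)
    rw [map_mul, map_mul, ← e1, ← e2]
    ring
  · intro z hz
    obtain ⟨a, b, hb, h⟩ := hfrac z hz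
    have e := hr z hz a b hb h
    have hb0 : b ≠ 0 := by
      rintro rfl
      exact hb Q.zero_mem
    have hwb : w (algebraMap S E b) = 0 := by
      apply le_antisymm _ (w_nn b hb0)
      by_contra hcon
      apply hb
      rw [← pow_one Q]
      exact (w_mem b 1 hb0).2 (by push_cast; omega)
    have h1 : r z = 0 ↔ a ∈ Q := by
      rw [← Ideal.Quotient.eq_zero_iff_mem, ← e]
      constructor
      · intro h2
        rw [h2, mul_zero]
      · intro h2
        exact (mul_eq_zero.1 h2).resolve_left (hmk b hb)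
    rw [h1]
    rcases eq_or_ne z 0 with rfl | hz0
    · have ha0 : a = 0 := by
        apply hinj
        rw [← h, mul_zero, map_zero]
      rw [ha0]
      exact ⟨fun _ => Or.inl rfl, fun _ => Q.zero_mem⟩
    · have ha0 : a ≠ 0 := by
        rintro rfl
        rw [map_zero] at h
        exact (mul_ne_zero (hS0 b hb0) hz0) h
      have h3 : w z = w (algebraMap S E a) := by
        rw [← h, w_mul _ _ (hS0 b hb0) hz0, hwb, zero_add]
      have h4 := w_mem a 1 ha0
      rw [pow_one, Nat.cast_one] at h4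
      rw [h4, h3]
      constructor
      · intro h5
        right
        omega
      · rintro (h5 | h5)
        · exact absurd h5 hz0
        · omega

open Polynomial in
private theorem place_core (R : Type u) [Field R] [CharZero R] {E K : Type u} [Field E]
    [Field K] [CharZero K]
    [Algebra R E] [Algebra R[X] E] [IsScalarTower R R[X] E] [Algebra K E] [Algebra R[X] K]
    [IsScalarTower R[X] K E] [IsFractionRing R[X] K] [FiniteDimensional K E]
    (p : ℕ) [Fact p.Prime] :
    ∃ (E' : Type u) (_ : Field E') (_ : Algebra R E') (w : E → ℤ) (r : E → E') (e : ℕ),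
      Pl R w r ∧ w (algebraMap R[X] E X) = e ∧ 0 < e ∧ FiniteDimensional R E' ∧
      padicValNat p (e * Module.finrank R E') ≤
        padicValNat p (Module.finrank K E) := by
  have hsep : Algebra.IsSeparable K E := inferInstance
  have hD : IsDedekindDomain (integralClosure R[X] E) :=
    IsIntegralClosure.isDedekindDomain R[X] K E (integralClosure R[X] E)
  have hF : IsFractionRing (integralClosure R[X] E) E :=
    IsIntegralClosure.isFractionRing_of_finite_extension R[X] K E (integralClosure R[X] E)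
  have hM : Module.Finite R[X] (integralClosure R[X] E) :=
    IsIntegralClosure.finite R[X] K E (integralClosure R[X] E)
  have hinj : Function.Injective (algebraMap R[X] E) := by
    rw [IsScalarTower.algebraMap_eq R[X] K E]
    exact (algebraMap K E).injective.comp (IsFractionRing.injective R[X] K)
  have hPm : (Ideal.span {(X : R[X])}).IsMaximal :=
    PrincipalIdealRing.isMaximal_of_irreducible irreducible_X
  have hP0 : (Ideal.span {(X : R[X])}) ≠ ⊥ := by
    rw [Ne, Ideal.span_singleton_eq_bot]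
    exact X_ne_zero
  have hinjS : Function.Injective (algebraMap R[X] (integralClosure R[X] E)) := fun a b h =>
    hinj (congrArg Subtype.val h)
  have hTF : Module.IsTorsionFree R[X] (integralClosure R[X] E) :=
    Module.isTorsionFree_iff_algebraMap_injective.2 hinjS
  obtain ⟨Q, hQ, hne, hle⟩ := exists_prime (K := K) (S := integralClosure R[X] E) (L := E)
    (Ideal.span {(X : R[X])}) hP0 p
  rw [IsDedekindDomain.mem_primesOverFinset_iff hP0] at hQ
  have hQp : Q.IsPrime := hQ.1
  have hQl : Q.LiesOver (Ideal.span {(X : R[X])}) := hQ.2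
  have hQm : Q.IsMaximal := Ideal.IsMaximal.of_liesOver_isMaximal Q (Ideal.span {(X : R[X])})
  have hX0 : algebraMap R[X] (integralClosure R[X] E) X ≠ 0 := fun h => X_ne_zero (hinjS (by
    rw [h, map_zero]))
  have hXQ : algebraMap R[X] (integralClosure R[X] E) X ∈ Q := by
    have h1 : (X : R[X]) ∈ Q.under R[X] := by
      rw [← Ideal.over_def Q (Ideal.span {(X : R[X])})]
      exact Ideal.mem_span_singleton_self X
    exact h1
  have hQ0 : Q ≠ ⊥ := fun h => hX0 (by rwa [h, Ideal.mem_bot] at hXQ)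
  obtain ⟨w, r, hwm, hwa, hwQ, hrm, hra, hrmul, hrk⟩ := dvr (E := E) Q hQ0
  let iF : Field (integralClosure R[X] E ⧸ Q) := Ideal.Quotient.field Q
  have hmap : ∀ n : ℕ, Ideal.map (algebraMap R[X] (integralClosure R[X] E))
      (Ideal.span {(X : R[X])}) ≤ Q ^ n ↔
      (n : ℤ) ≤ w (algebraMap R[X] E X) := by
    intro n
    rw [Ideal.map_span, Set.image_singleton, Ideal.span_singleton_le_iff_mem, hwQ _ n hX0]
    rfl
  have hw0 : 0 ≤ w (algebraMap R[X] E X) := by
    have h1 := (hmap 0).1 (by rw [pow_zero, Ideal.one_eq_top]; exact le_top)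
    exact_mod_cast h1
  obtain ⟨e, he⟩ := Int.eq_ofNat_of_zero_le hw0
  have hram : Ideal.ramificationIdx' (Ideal.span {(X : R[X])}) Q = e := by
    refine Ideal.ramificationIdx'_spec ((hmap e).2 ?_) fun h => ?_
    · rw [he]
    · have h1 := (hmap (e + 1)).1 h
      rw [he] at h1
      push_cast at h1
      omega
  have hfin : Module.finrank R (integralClosure R[X] E ⧸ Q) =
      Ideal.inertiaDeg' (Ideal.span {(X : R[X])}) Q := by
    rw [Ideal.inertiaDeg'_algebraMap]
    let iP : Field (R[X] ⧸ Ideal.span {(X : R[X])}) := Ideal.Quotient.field _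
    have h1 : Module.finrank R (R[X] ⧸ Ideal.span {(X : R[X])}) = 1 := by
      rw [finrank_quotient_span_eq_natDegree, natDegree_X]
    have h2 := Module.finrank_mul_finrank R (R[X] ⧸ Ideal.span {(X : R[X])})
      (integralClosure R[X] E ⧸ Q)
    rw [h1, one_mul] at h2
    exact h2.symm
  rw [hram, ← hfin] at hne hle
  refine ⟨integralClosure R[X] E ⧸ Q, iF, inferInstance, w, r, e, ?_, he, ?_, ?_, hle⟩
  · refine ⟨hwm, hwa, fun c hc => ?_, fun c => ?_, hra, hrmul, hrk⟩
    · have hu : IsUnit (algebraMap R (integralClosure R[X] E) c) :=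
        (IsUnit.mk0 c hc).map (algebraMap R (integralClosure R[X] E))
      have h0 : algebraMap R (integralClosure R[X] E) c ≠ 0 := hu.ne_zero
      have h1 : (0 : ℤ) ≤ w (algebraMap R E c) := by
        have h := (hwQ (algebraMap R (integralClosure R[X] E) c) 0 h0).1
          (by rw [pow_zero, Ideal.one_eq_top]; exact Submodule.mem_top)
        exact_mod_cast h
      have h2 : ¬ (1 : ℤ) ≤ w (algebraMap R E c) := fun h => by
        have h3 := (hwQ (algebraMap R (integralClosure R[X] E) c) 1 h0).2 (by exact_mod_cast h)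
        rw [pow_one] at h3
        exact hQp.ne_top (Ideal.eq_top_of_isUnit_mem Q h3 hu)
      omega
    · exact hrm (algebraMap R (integralClosure R[X] E) c)
  · exact Nat.pos_of_ne_zero (left_ne_zero_of_mul hne)
  · exact Module.finite_of_finrank_pos (Nat.pos_of_ne_zero (right_ne_zero_of_mul hne))

private theorem place_frac {R : Type u} [Field R] {E : Type u} [Field E] [Algebra R E] (x : E)
    (hx : Transcendental R x) :
    letI := (Polynomial.aeval (AdjoinSimple.gen R x) :
      Polynomial R →ₐ[R] adjoin R {x}).toRingHom.toAlgebra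
    IsFractionRing (Polynomial R) (adjoin R {x}) := by
  let i1 : Algebra (Polynomial R) (adjoin R {x}) := (Polynomial.aeval (AdjoinSimple.gen R x) :
      Polynomial R →ₐ[R] adjoin R {x}).toRingHom.toAlgebra
  have hval : ∀ f : Polynomial R, ((algebraMap (Polynomial R) (adjoin R {x}) f :
      adjoin R {x}) : E) = Polynomial.aeval x f := fun f => by
    change algebraMap (adjoin R {x}) E (Polynomial.aeval (AdjoinSimple.gen R x) f) = _
    rw [← Polynomial.aeval_algebraMap_apply]
    rfl
  have hinj : Function.Injective (algebraMap (Polynomial R) (adjoin R {x})) := fun f g h => by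
    have h1 := congrArg (fun z : adjoin R {x} => (z : E)) h
    simp only [hval] at h1
    exact transcendental_iff_injective.1 hx h1
  have hf : FaithfulSMul (Polynomial R) (adjoin R {x}) :=
    (faithfulSMul_iff_algebraMap_injective _ _).2 hinj
  refine IsFractionRing.of_field _ _ fun z => ?_
  obtain ⟨f, g, h⟩ := (mem_adjoin_simple_iff R (z : E)).1 z.2
  refine ⟨f, g, Subtype.ext ?_⟩
  rw [h, IntermediateField.coe_div, hval, hval]

/-- RD-P3 (uses `exists_prime`, `dvr`). `A = Polynomial R` acts on `E` by `aeval x`, with fraction field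
`K = adjoin R {x}` (`x` transcendental); `S` = integral closure of `A` in `E`: a Dedekind domain, finite
over `A` (`E / K` is finite and separable, characteristic `0`;
`IsIntegralClosure.isDedekindDomain`, `IsIntegralClosure.finite`), with fraction field `E`
(`IsIntegralClosure.isFractionRing_of_finite_extension`). `P = span {X}`; `Q` from `exists_prime`;
`E' = S ⧸ Q` with `R → A → S → S ⧸ Q`; the map `R → A ⧸ P` is bijective, so
`finrank R E' = inertiaDeg' P Q`; `w`, `r` from `dvr`; `w x = ramificationIdx' P Q` because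
`map P ≤ Q ^ m ↔ X ∈ Q ^ m`. Elements of `R` different from `0` are units of `S`, so `w = 0`. -/
theorem place (R : Type u) [Field R] [CharZero R] {E : Type u} [Field E] [Algebra R E] (x : E)
    (hx : Transcendental R x) [FiniteDimensional (adjoin R {x}) E] (p : ℕ) [Fact p.Prime] :
    ∃ (E' : Type u) (_ : Field E') (_ : Algebra R E') (w : E → ℤ) (r : E → E') (e : ℕ),
      Pl R w r ∧ w x = e ∧ 0 < e ∧ FiniteDimensional R E' ∧
      padicValNat p (e * Module.finrank R E') ≤
        padicValNat p (Module.finrank (adjoin R {x}) E) := by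
  let i1 : Algebra (Polynomial R) (adjoin R {x}) := (Polynomial.aeval (AdjoinSimple.gen R x) :
      Polynomial R →ₐ[R] adjoin R {x}).toRingHom.toAlgebra
  let i2 : Algebra (Polynomial R) E := (Polynomial.aeval x :
      Polynomial R →ₐ[R] E).toRingHom.toAlgebra
  have h1 : IsScalarTower R (Polynomial R) E := IsScalarTower.of_algebraMap_eq fun c => by
    change _ = Polynomial.aeval x (Polynomial.C c)
    rw [Polynomial.aeval_C]
  have h2 : IsScalarTower (Polynomial R) (adjoin R {x}) E := IsScalarTower.of_algebraMap_eq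
    fun f => by
      change Polynomial.aeval x f = algebraMap (adjoin R {x}) E
        (Polynomial.aeval (AdjoinSimple.gen R x) f)
      rw [← Polynomial.aeval_algebraMap_apply]
      rfl
  have h3 : IsFractionRing (Polynomial R) (adjoin R {x}) := place_frac x hx
  have h4 : CharZero (adjoin R {x}) := charZero_of_injective_algebraMap
    (algebraMap R (adjoin R {x})).injective
  have h5 := place_core R (E := E) (K := adjoin R {x}) p
  have h6 : algebraMap (Polynomial R) E Polynomial.X = x := Polynomial.aeval_X x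
  rw [h6] at h5
  exact h5

end Pool.Agent.Helper15.RD
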