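import Pool.Agent.Helper15.RD.Mb

/-!
# Project RD (C), block S: lower bounds for arbitrary accessory extensions
-/

set_option autoImplicit false

namespace Pool.Agent.Helper15.RD

open IntermediateField

universe u v

/-- RD-S11 (linear algebra). The coordinate functions restricted to `U` span the dual space of `U`;
choose a basis of it among them, and take the dual basis of `U`. -/
theorem sub_coords (p : ℕ) [Fact p.Prime] {ι : Type} [Fintype ι] [DecidableEq ι]
    (U : Submodule (ZMod p) (ι → ZMod p)) :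
    ∃ (J : Fin (Module.finrank (ZMod p) U) → ι)
      (e : (Fin (Module.finrank (ZMod p) U) → ZMod p) ≃ₗ[ZMod p] U),
      Function.Injective J ∧ ∀ u j, ((e u : ι → ZMod p)) (J j) = u j := by
  obtain ⟨κ, a, ha, hspan, hli⟩ := exists_linearIndependent' (ZMod p)
    (fun i : ι => (LinearMap.proj i : (ι → ZMod p) →ₗ[ZMod p] ZMod p).comp U.subtype)
  have : Finite κ := Finite.of_injective a ha
  have : Fintype κ := Fintype.ofFinite κ
  let f : U →ₗ[ZMod p] (κ → ZMod p) := LinearMap.pi fun k =>
    (LinearMap.proj (a k) : (ι → ZMod p) →ₗ[ZMod p] ZMod p).comp U.subtype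
  have hf : Function.Injective f := by
    rw [← LinearMap.ker_eq_bot, LinearMap.ker_eq_bot']
    intro u hu
    have h1 : Submodule.span (ZMod p) (Set.range
        (fun i : ι => (LinearMap.proj i : (ι → ZMod p) →ₗ[ZMod p] ZMod p).comp U.subtype)) ≤
        LinearMap.ker (Module.Dual.eval (ZMod p) U u) := by
      rw [← hspan, Submodule.span_le]
      rintro _ ⟨k, rfl⟩
      exact congrFun hu k
    refine Subtype.ext (funext fun i => ?_)
    exact h1 (Submodule.subset_span ⟨i, rfl⟩)
  have hc : Fintype.card κ = Module.finrank (ZMod p) U := by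
    refine le_antisymm ?_ ?_
    · have h := hli.fintype_card_le_finrank
      have h2 : Module.finrank (ZMod p) (U →ₗ[ZMod p] ZMod p) = Module.finrank (ZMod p) U :=
        Subspace.dual_finrank_eq
      rwa [h2] at h
    · have h := LinearMap.finrank_le_finrank_of_injective hf
      rwa [Module.finrank_fintype_fun_eq_card] at h
  let σ : Fin (Module.finrank (ZMod p) U) ≃ κ := (Fintype.equivFinOfCardEq hc).symm
  let g : U →ₗ[ZMod p] (Fin (Module.finrank (ZMod p) U) → ZMod p) :=
    (LinearMap.funLeft (ZMod p) (ZMod p) σ).comp f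
  have hg : Function.Injective g := by
    intro u v huv
    apply hf
    funext k
    have h := congrFun huv (σ.symm k)
    change f u (σ (σ.symm k)) = f v (σ (σ.symm k)) at h
    rwa [σ.apply_symm_apply] at h
  let e := LinearMap.linearEquivOfInjective g hg (by rw [Module.finrank_fin_fun])
  refine ⟨fun j => a (σ j), e.symm, ha.comp σ.injective, fun u j => ?_⟩
  exact congrFun (e.apply_symm_apply u) j

/-- RD-S12. `z l = y l * ∏ j, (y (J j)) ^ (-(m l j).val)`, `m l j = (e (Pi.single j 1)) l`, is fixed by all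
`ψ u` (`(e u) l = ∑ j, u j * m l j`). `κ'` is generated over `κ` by the `z l`; `κ'(y ∘ J) = κ(y)`, and the
family of the `y (J j)` and the `z l`, `l ∉ range J`, generates `κ(y)` and has `card ι` elements, so it is
algebraically independent over `κ` (compare `independent_of_generate`, `independent_over` in
`Co.lean`). -/
theorem twist_coords {k : Type v} {M : Type u} [Field k] [CharZero k] [Field M] [Algebra k M]
    {ι : Type} [Fintype ι] [DecidableEq ι] (p : ℕ) [Fact p.Prime] (ζ : k)
    (hζ : IsPrimitiveRoot ζ p) {t : ℕ} (J : Fin t → ι) (hJ : Function.Injective J)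
    (e : (Fin t → ZMod p) →ₗ[ZMod p] (ι → ZMod p)) (he : ∀ u j, e u (J j) = u j)
    (ψ : Multiplicative (Fin t → ZMod p) →* (M ≃ₐ[k] M)) (κ : IntermediateField k M)
    (hκ : ∀ u, ∀ z ∈ κ, ψ u z = z) (y : ι → M)
    (hy : ∀ (u : Fin t → ZMod p) (j : ι),
      ψ (Multiplicative.ofAdd u) (y j) = algebraMap k M (ζ ^ (e u j).val) * y j)
    (hind : AlgebraicIndependent κ y) :
    ∃ κ' : IntermediateField k M, κ ≤ κ' ∧ (∀ u, ∀ z ∈ κ', ψ u z = z) ∧
      AlgebraicIndependent κ' (fun j => y (J j)) ∧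
      ∀ z : M, z ∈ adjoin κ' (Set.range fun j => y (J j)) ↔ z ∈ adjoin κ (Set.range y) := by
  classical
  have hζpow : ∀ (N : ℕ) (a : ZMod p), (N : ZMod p) = a → ζ ^ N = ζ ^ a.val := by
    intro N a h
    subst h
    rw [ZMod.val_natCast]
    conv_lhs => rw [← Nat.div_add_mod N p, pow_add, pow_mul, hζ.pow_eq_one, one_pow, one_mul]
  have hζ0 : ζ ≠ 0 := hζ.ne_zero (Fact.out : p.Prime).ne_zero
  have hy0 : ∀ l, y l ≠ 0 := fun l => hind.ne_zero l
  obtain ⟨m, hm⟩ : ∃ m : ι → Fin t → ZMod p, ∀ l j, m l j = e (Pi.single j 1) l :=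
    ⟨fun l j => e (Pi.single j 1) l, fun _ _ => rfl⟩
  have he' : ∀ u l, e u l = ∑ j, u j * m l j := by
    intro u l
    rw [LinearMap.pi_apply_eq_sum_univ e u, Finset.sum_apply]
    refine Finset.sum_congr rfl fun j _ => ?_
    have h1 : (fun i => if j = i then (1 : ZMod p) else 0) = Pi.single j 1 := by
      funext i
      rw [Pi.single_apply]
      by_cases hij : j = i
      · rw [if_pos hij, if_pos hij.symm]
      · rw [if_neg hij, if_neg fun h => hij h.symm]
    rw [Pi.smul_apply, smul_eq_mul, hm, h1]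
  obtain ⟨P, hP⟩ : ∃ P : ι → M, ∀ l, P l = ∏ j, y (J j) ^ (m l j).val :=
    ⟨fun l => ∏ j, y (J j) ^ (m l j).val, fun _ => rfl⟩
  have hP0 : ∀ l, P l ≠ 0 := by
    intro l
    rw [hP]
    exact Finset.prod_ne_zero_iff.2 fun j _ => pow_ne_zero _ (hy0 _)
  have hψP : ∀ (u : Fin t → ZMod p) l,
      ψ (Multiplicative.ofAdd u) (P l) = algebraMap k M (ζ ^ (e u l).val) * P l := by
    intro u l
    have h1 : ∏ j, (ζ ^ (u j).val) ^ (m l j).val = ζ ^ (e u l).val := by
      have h2 : ∏ j, (ζ ^ (u j).val) ^ (m l j).val = ζ ^ (∑ j, (u j).val * (m l j).val) := by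
        rw [← Finset.prod_pow_eq_pow_sum]
        exact Finset.prod_congr rfl fun j _ => (pow_mul _ _ _).symm
      rw [h2]
      refine hζpow _ _ ?_
      rw [he']
      push_cast
      refine Finset.sum_congr rfl fun j _ => ?_
      rw [ZMod.natCast_zmod_val, ZMod.natCast_zmod_val]
    rw [← h1, hP, map_prod, map_prod, ← Finset.prod_mul_distrib]
    refine Finset.prod_congr rfl fun j _ => ?_
    rw [map_pow, hy, he, mul_pow, map_pow (algebraMap k M) (ζ ^ (u j).val)]
  obtain ⟨z, hz⟩ : ∃ z : {l // l ∉ Set.range J} → M, ∀ l, z l = y l.1 / P l.1 :=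
    ⟨fun l => y l.1 / P l.1, fun _ => rfl⟩
  have hψz : ∀ (u : Multiplicative (Fin t → ZMod p)) l, ψ u (z l) = z l := by
    intro u l
    have h1 := hy (Multiplicative.toAdd u) l.1
    have h2 := hψP (Multiplicative.toAdd u) l.1
    rw [ofAdd_toAdd] at h1 h2
    rw [hz, map_div₀, h1, h2, mul_div_mul_left]
    rw [Ne, map_eq_zero]
    exact pow_ne_zero _ hζ0
  have hκ0 : ∀ a : κ, (algebraMap κ M a) ∈ κ := fun a => a.2
  have hfix : ∀ u, ∀ a ∈ adjoin κ (Set.range z), ψ u a = a := by
    intro u a ha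
    induction ha using IntermediateField.adjoin_induction with
    | mem a ha =>
      obtain ⟨l, rfl⟩ := ha
      exact hψz u l
    | algebraMap a => exact hκ u _ (hκ0 a)
    | add a b _ _ h1 h2 => rw [map_add, h1, h2]
    | inv a _ h1 => rw [map_inv₀, h1]
    | mul a b _ _ h1 h2 => rw [map_mul, h1, h2]
  have hyeq : ∀ l : {l // l ∉ Set.range J}, y l.1 = z l * P l.1 := by
    intro l
    rw [hz, div_mul_cancel₀ _ (hP0 _)]
  have hymem : ∀ K : IntermediateField κ M, (∀ j, y (J j) ∈ K) → (∀ l, z l ∈ K) →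
      ∀ i, y i ∈ K := by
    intro K h1 h2 i
    by_cases hi : i ∈ Set.range J
    · obtain ⟨j, rfl⟩ := hi
      exact h1 j
    · have h3 := hyeq ⟨i, hi⟩
      simp only at h3
      rw [h3]
      refine mul_mem (h2 _) ?_
      rw [hP]
      exact prod_mem fun j _ => pow_mem (h1 j) _
  have hzmem : ∀ l, z l ∈ adjoin κ (Set.range y) := by
    intro l
    rw [hz, hP]
    exact div_mem (subset_adjoin κ _ (Set.mem_range_self _))
      (prod_mem fun j _ => pow_mem (subset_adjoin κ _ (Set.mem_range_self (J j))) _)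
  -- independence
  let ε : Fin t ⊕ {l // l ∉ Set.range J} ≃ ι :=
    ((Equiv.ofInjective J hJ).sumCongr (Equiv.refl _)).trans (Equiv.Set.sumCompl (Set.range J))
  let φ : ι ≃ Fin (Fintype.card ι) := Fintype.equivFin ι
  obtain ⟨w, hw⟩ : ∃ w : Fin t ⊕ {l // l ∉ Set.range J} → M,
      w = Sum.elim (fun j => y (J j)) z := ⟨_, rfl⟩
  have hgen : AlgebraicIndependent κ w := by
    have h1 : AlgebraicIndependent κ (y ∘ φ.symm) := hind.comp _ φ.symm.injective
    have h2 : ∀ i, (y ∘ φ.symm) i ∈ adjoin κ (Set.range (w ∘ (ε.trans φ).symm)) := by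
      intro i
      rw [(ε.trans φ).symm.surjective.range_comp w]
      have h6 : ∀ j, w (Sum.inl j) = y (J j) := fun j => by rw [hw]; rfl
      have h7 : ∀ l, w (Sum.inr l) = z l := fun l => by rw [hw]; rfl
      exact hymem _
        (fun j => by rw [← h6]; exact subset_adjoin κ _ (Set.mem_range_self _))
        (fun l => by rw [← h7]; exact subset_adjoin κ _ (Set.mem_range_self _)) _
    have h3 := independent_of_generate (k := κ) (y ∘ φ.symm) (w ∘ (ε.trans φ).symm) h1 h2
    have h4 := h3.comp (ε.trans φ) (ε.trans φ).injective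
    have h5 : (w ∘ (ε.trans φ).symm) ∘ (ε.trans φ) = w := by
      funext q
      simp
    rwa [h5] at h4
  have hover : AlgebraicIndependent (adjoin κ (Set.range z)) (fun j => y (J j)) := by
    rw [hw] at hgen
    exact independent_over (k := κ) _ _ hgen
  refine ⟨(adjoin κ (Set.range z)).restrictScalars k, ?_, ?_, ?_, ?_⟩
  · intro a ha
    exact (adjoin κ (Set.range z)).algebraMap_mem ⟨a, ha⟩
  · intro u a ha
    exact hfix u a ha
  · exact hover
  · intro a
    constructor
    · intro ha
      have hle : ∀ b : ((adjoin κ (Set.range z)).restrictScalars k),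
          (b : M) ∈ adjoin κ (Set.range y) := by
        intro b
        have h1 : adjoin κ (Set.range z) ≤ adjoin κ (Set.range y) := by
          rw [adjoin_le_iff]
          rintro _ ⟨l, rfl⟩
          exact hzmem l
        exact h1 b.2
      induction ha using IntermediateField.adjoin_induction with
      | mem a ha =>
        obtain ⟨j, rfl⟩ := ha
        exact subset_adjoin κ _ ⟨_, rfl⟩
      | algebraMap a => exact hle a
      | add a b _ _ h1 h2 => exact add_mem h1 h2
      | inv a _ h1 => exact inv_mem h1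
      | mul a b _ _ h1 h2 => exact mul_mem h1 h2
    · intro ha
      have hle : ∀ b ∈ adjoin κ (Set.range z),
          b ∈ adjoin ((adjoin κ (Set.range z)).restrictScalars k)
            (Set.range fun j => y (J j)) := by
        intro b hb
        exact (adjoin ((adjoin κ (Set.range z)).restrictScalars k)
          (Set.range fun j => y (J j))).algebraMap_mem ⟨b, hb⟩
      induction ha using IntermediateField.adjoin_induction with
      | mem a ha =>
        obtain ⟨i, rfl⟩ := ha
        by_cases hi : i ∈ Set.range J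
        · obtain ⟨j, rfl⟩ := hi
          exact subset_adjoin _ _ ⟨j, rfl⟩
        · have h3 := hyeq ⟨i, hi⟩
          simp only at h3
          rw [h3]
          refine mul_mem (hle _ (subset_adjoin κ _ (Set.mem_range_self _))) ?_
          rw [hP]
          exact prod_mem fun j _ => pow_mem
            (subset_adjoin ((adjoin κ (Set.range z)).restrictScalars k)
              (Set.range fun j => y (J j)) (Set.mem_range_self j)) _
      | algebraMap a => exact hle _ ((adjoin κ (Set.range z)).algebraMap_mem a)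
      | add a b _ _ h1 h2 => exact add_mem h1 h2
      | inv a _ h1 => exact inv_mem h1
      | mul a b _ _ h1 h2 => exact mul_mem h1 h2

/-- the degree of `M` over two subfields with the same elements -/
private theorem kummer_sub_finrank {M : Type u} [Field M] {κ κ' : Type*} [Field κ] [Field κ']
    [Algebra κ M] [Algebra κ' M] (P : IntermediateField κ M) (P' : IntermediateField κ' M)
    (h : ∀ z : M, z ∈ P' ↔ z ∈ P) : Module.finrank P' M = Module.finrank P M := by
  let i : P' ≃+* P :=
    { toFun := fun z => ⟨(z : M), (h z).1 z.2⟩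
      invFun := fun z => ⟨(z : M), (h z).2 z.2⟩
      left_inv := fun z => rfl
      right_inv := fun z => rfl
      map_mul' := fun z w => rfl
      map_add' := fun z w => rfl }
  exact Algebra.finrank_eq_of_equiv_equiv i (RingEquiv.refl M) (by
    ext z
    rfl)

/-- RD-S13 (uses `sub_coords`, `twist_coords`, `kummer` with `ι = Fin (finrank U)`). -/
theorem kummer_sub {k : Type v} {M : Type u} [Field k] [CharZero k] [Field M] [Algebra k M]
    {ι : Type} [Fintype ι] [DecidableEq ι] (p : ℕ) [Fact p.Prime] (ζ : k)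
    (hζ : IsPrimitiveRoot ζ p) (U : Submodule (ZMod p) (ι → ZMod p))
    (ψ : Multiplicative U →* (M ≃ₐ[k] M)) (κ : IntermediateField k M)
    (hκ : ∀ v, ∀ z ∈ κ, ψ v z = z) (y : ι → M)
    (hy : ∀ (v : U) (j : ι), ψ (Multiplicative.ofAdd v) (y j) =
      algebraMap k M (ζ ^ ((v : ι → ZMod p) j).val) * y j)
    (hind : AlgebraicIndependent κ y) (hfd : FiniteDimensional (adjoin κ (Set.range y)) M)
    (E' : IntermediateField k M) (hst : ∀ v, ∀ z ∈ E', ψ v z ∈ E')
    (hf : ∀ v, (∀ z ∈ E', ψ v z = z) → v = 1) (d : ℕ) (hd : TD k (E' : Set M) d) :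
    Module.finrank (ZMod p) U ≤
      d + padicValNat p (Module.finrank (adjoin κ (Set.range y)) M) := by
  obtain ⟨J, e, hJ, he⟩ := sub_coords p U
  let g : Multiplicative (Fin (Module.finrank (ZMod p) U) → ZMod p) →* Multiplicative U :=
    AddMonoidHom.toMultiplicative e.toLinearMap.toAddMonoidHom
  have hg : ∀ u, g (Multiplicative.ofAdd u) = Multiplicative.ofAdd (e u) := fun u => rfl
  obtain ⟨κ', hκκ', hκ', hind', hmem⟩ := twist_coords p ζ hζ J hJ
    (U.subtype.comp e.toLinearMap) he (ψ.comp g) κ (fun u z hz => hκ _ z hz) y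
    (fun u j => hy (e u) j) hind
  have hfr := kummer_sub_finrank (adjoin κ (Set.range y))
    (adjoin κ' (Set.range fun j => y (J j))) hmem
  have hfd' : FiniteDimensional (adjoin κ' (Set.range fun j => y (J j))) M := by
    apply FiniteDimensional.of_finrank_pos
    rw [hfr]
    exact Module.finrank_pos
  have key := kummer p ζ hζ (ψ.comp g) κ' hκ' (fun j => y (J j)) (fun u j => by
      have h1 := hy (e u) (J j)
      rw [he] at h1
      exact h1) hind' hfd' E' (fun v z hz => hst _ z hz) (fun v hv => by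
      have h1 : g v = 1 := hf _ hv
      have h2 : e v.toAdd = 0 := h1
      rw [map_eq_zero_iff e e.injective] at h2
      exact toAdd_eq_zero.1 h2) d hd
  rw [Fintype.card_fin, hfr] at key
  exact key

section

variable {k : Type v} {Ω : Type u} [Field k] [Field Ω] [Algebra k Ω]

private theorem coords_top_zero {p s c m n : ℕ}
    (β : (Fin s × (Fin c → ZMod p)) ⊕ Fin m ≃ Fin n) :
    tr β (0 : Fin s × Fin c → ZMod p) = 1 := by
  have h := tr_add β (0 : Fin s × Fin c → ZMod p) 0
  rw [add_zero] at h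
  exact mul_left_cancel (h.symm.trans (mul_one _).symm)

/-- the translations, as a homomorphism to a group of permutations that contains them -/
private def coords_top_tr {p s c m n : ℕ} (β : (Fin s × (Fin c → ZMod p)) ⊕ Fin m ≃ Fin n)
    (G : Subgroup (Equiv.Perm (Fin n))) (h : ∀ v, tr β v ∈ G) :
    Multiplicative (Fin s × Fin c → ZMod p) →* G where
  toFun v := ⟨tr β v.toAdd, h _⟩
  map_one' := Subtype.ext (coords_top_zero β)
  map_mul' v w := Subtype.ext (tr_add β v.toAdd w.toAdd)

/-- automorphisms with the same values on the `x i` agree on `L` -/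
private theorem coords_top_agree {n : ℕ} (x : Fin n → Ω) (σ τ : Ω ≃ₐ[k] Ω)
    (h : ∀ i, σ (x i) = τ (x i)) (z : adjoin k (Set.range x)) : σ (z : Ω) = τ (z : Ω) := by
  have h1 : ((σ : Ω →ₐ[k] Ω).comp (adjoin k (Set.range x)).val) =
      ((τ : Ω →ₐ[k] Ω).comp (adjoin k (Set.range x)).val) := by
    refine algHom_ext_of_eq_adjoin _ rfl ?_
    rintro _ ⟨i, rfl⟩
    exact h i
  exact DFunLike.congr_fun h1 z

/-- transport of the coordinates from a subfield -/
private theorem coords_top_ind {L : IntermediateField k Ω} (κ : IntermediateField k L)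
    {ι : Type} (y : ι → L) (h : AlgebraicIndependent κ y) :
    AlgebraicIndependent (κ.map L.val) (fun j => (y j : Ω)) := by
  let f : κ →+* κ.map L.val :=
    { toFun := fun z => ⟨((z : L) : Ω), ⟨z, z.2, rfl⟩⟩
      map_one' := rfl
      map_mul' := fun _ _ => rfl
      map_zero' := rfl
      map_add' := fun _ _ => rfl }
  have hf : Function.Surjective f := by
    rintro ⟨_, ⟨z, hz, rfl⟩⟩
    exact ⟨⟨z, hz⟩, rfl⟩
  exact h.ringHom_of_comp_eq f L.val hf L.val.injective (by
    ext z
    rfl)

private theorem coords_top_mem {L : IntermediateField k Ω} (κ : IntermediateField k L)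
    {ι ι' : Type} (y : ι → L) (x : ι' → L)
    (h : ∀ z : L, z ∈ adjoin κ (Set.range y) ↔ z ∈ adjoin k (Set.range x)) (z : Ω) :
    z ∈ adjoin (κ.map L.val) (Set.range fun j => (y j : Ω)) ↔
      z ∈ adjoin k (Set.range fun i => (x i : Ω)) := by
  have e1 : adjoin k ((κ : Set L) ∪ Set.range y) = adjoin k (Set.range x) := by
    ext w
    rw [← restrictScalars_adjoin]
    exact h w
  have e2 := congrArg (fun F : IntermediateField k L => F.map L.val) e1
  simp only [adjoin_map, Set.image_union] at e2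
  have e3 : L.val '' Set.range y = Set.range fun j => (y j : Ω) := (Set.range_comp _ _).symm
  have e4 : L.val '' Set.range x = Set.range fun i => (x i : Ω) := (Set.range_comp _ _).symm
  rw [e3, e4] at e2
  have e5 : (adjoin (κ.map L.val) (Set.range fun j => (y j : Ω))).restrictScalars k =
      adjoin k (Set.range fun i => (x i : Ω)) := by
    rw [restrictScalars_adjoin, ← e2]
    rfl
  rw [← e5]
  rfl

/-- RD-S14 (uses `coords` for the field `L` (as a type, or `K ⊔ L = L`), with the action of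
`exists_action` for `A = K = coeffField k x`, `Im_top`; see the proof of `bound` in `Ga.lean`). The results
are transported from `L` to `Ω`. -/
theorem coords_top [IsAlgClosed Ω] [CharZero k] {n : ℕ} (x : Fin n → Ω)
    (hx : AlgebraicIndependent k x) (hΩ : Algebra.IsAlgebraic (adjoin k (Set.range x)) Ω)
    (p s c m : ℕ) [Fact p.Prime] (ζ : k) (hζ : IsPrimitiveRoot ζ p)
    (β : (Fin s × (Fin c → ZMod p)) ⊕ Fin m ≃ Fin n) :
    ∃ (κ : IntermediateField k Ω) (y : Fin s × Fin c → Ω),
      (∀ (v : Fin s × Fin c → ZMod p) (σ : Ω ≃ₐ[k] Ω), (∀ i, σ (x i) = x (tr β v i)) →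
        (∀ z ∈ κ, σ z = z) ∧ ∀ j, σ (y j) = algebraMap k Ω (ζ ^ (v j).val) * y j) ∧
      AlgebraicIndependent κ y ∧
      ∀ z : Ω, z ∈ adjoin κ (Set.range y) ↔ z ∈ adjoin k (Set.range x) := by
  have hIm := Im_top x hx hΩ
  obtain ⟨Θ, hΘ⟩ := exists_action x (coeffField k x) (adjoin k (Set.range x))
    (sup_eq_right.2 (coeffField_le x)).symm
  have hG : ∀ v, tr β v ∈ Im x (coeffField k x) := fun v => by
    rw [hIm]
    exact Subgroup.mem_top _
  let ψ : Multiplicative (Fin s × Fin c → ZMod p) →*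
      (adjoin k (Set.range x) ≃ₐ[k] adjoin k (Set.range x)) :=
    Θ.comp (coords_top_tr β (Im x (coeffField k x)) hG)
  let x' : Fin n → adjoin k (Set.range x) := fun i => ⟨x i, subset_adjoin k _ ⟨i, rfl⟩⟩
  have hx' : AlgebraicIndependent k x' :=
    AlgebraicIndependent.of_comp (adjoin k (Set.range x)).val hx
  have hψ : ∀ (v : Fin s × Fin c → ZMod p) (σ : Ω ≃ₐ[k] Ω), (∀ i, σ (x i) = x (tr β v i)) →
      ∀ z : adjoin k (Set.range x), (ψ (Multiplicative.ofAdd v) z : Ω) = σ z := by
    intro v σ hσ z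
    obtain ⟨τ, hτ1, hτ2⟩ := hG v
    have h1 := hΘ ⟨tr β v, hG v⟩ τ hτ1 hτ2 z
    rw [coords_top_agree x σ τ (fun i => by rw [hσ, hτ2]) z]
    exact h1
  have hψx : ∀ (v : Fin s × Fin c → ZMod p) (i : Fin n),
      ψ (Multiplicative.ofAdd v) (x' i) = x' (tr β v i) := by
    intro v i
    obtain ⟨τ, hτ1, hτ2⟩ := hG v
    apply Subtype.ext
    rw [hψ v τ hτ2]
    exact hτ2 i
  obtain ⟨κ, y, hκ, hy, hind, hmem⟩ := coords ζ hζ β x' hx' ψ
    (fun v j b => by rw [hψx, tr_inl]) (fun v l => by rw [hψx, tr_inr])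
  refine ⟨κ.map (adjoin k (Set.range x)).val, fun j => (y j : Ω), fun v σ hσ => ⟨?_, ?_⟩,
    coords_top_ind κ y hind, coords_top_mem κ y x' hmem⟩
  · rintro _ ⟨z, hz, rfl⟩
    have h1 := hψ v σ hσ z
    rw [hκ _ z hz] at h1
    exact h1.symm
  · intro j
    rw [← hψ v σ hσ (y j), hy]
    rfl

/-- the field `κ (y)` computed in `M` -/
private theorem bound_sub_mem (κ M : IntermediateField k Ω) (h : κ ≤ M) {ι : Type*} (y : ι → M)
    (z : M) : z ∈ adjoin (κ.comap M.val : IntermediateField k M) (Set.range y) ↔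
      (z : Ω) ∈ adjoin κ (Set.range fun j => (y j : Ω)) := by
  have h1 : (adjoin (κ.comap M.val : IntermediateField k M) (Set.range y)).restrictScalars k =
      adjoin k ((κ.comap M.val : IntermediateField k M) ∪ Set.range y : Set M) :=
    restrictScalars_adjoin k (κ.comap M.val : IntermediateField k M) (Set.range y)
  have h2 : (adjoin κ (Set.range fun j => (y j : Ω))).restrictScalars k =
      adjoin k ((κ : Set Ω) ∪ Set.range fun j => (y j : Ω)) :=
    restrictScalars_adjoin k κ (Set.range fun j => (y j : Ω))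
  have h3 : (adjoin k ((κ.comap M.val : IntermediateField k M) ∪ Set.range y : Set M)).map M.val =
      adjoin k ((κ : Set Ω) ∪ Set.range fun j => (y j : Ω)) := by
    rw [adjoin_map]
    congr 1
    ext w
    constructor
    · rintro ⟨w', hw' | ⟨j, rfl⟩, rfl⟩
      · exact Or.inl hw'
      · exact Or.inr ⟨j, rfl⟩
    · rintro (hw | ⟨j, rfl⟩)
      · exact ⟨⟨w, h hw⟩, Or.inl hw, rfl⟩
      · exact ⟨y j, Or.inr ⟨j, rfl⟩, rfl⟩
  have h4 : z ∈ adjoin (κ.comap M.val : IntermediateField k M) (Set.range y) ↔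
      z ∈ adjoin k ((κ.comap M.val : IntermediateField k M) ∪ Set.range y : Set M) := by
    rw [← h1]
    rfl
  have h5 : (z : Ω) ∈ adjoin κ (Set.range fun j => (y j : Ω)) ↔
      (z : Ω) ∈ adjoin k ((κ : Set Ω) ∪ Set.range fun j => (y j : Ω)) := by
    rw [← h2]
    rfl
  rw [h4, h5, ← h3]
  constructor
  · intro hz
    exact ⟨z, hz, rfl⟩
  · rintro ⟨w, hw, hwz⟩
    have h6 : w = z := Subtype.ext hwz
    rw [← h6]
    exact hw

/-- `y` is algebraically independent over the copy of `κ` in `M` -/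
private theorem bound_sub_ind (κ M : IntermediateField k Ω) {ι : Type*} (y : ι → M)
    (hy : AlgebraicIndependent κ (fun j => (y j : Ω))) :
    AlgebraicIndependent (κ.comap M.val : IntermediateField k M) y := by
  let f : (κ.comap M.val : IntermediateField k M) →+* κ :=
    { toFun := fun z => ⟨((z : M) : Ω), z.2⟩
      map_one' := rfl
      map_mul' := fun _ _ => rfl
      map_zero' := rfl
      map_add' := fun _ _ => rfl }
  exact AlgebraicIndependent.of_ringHom_of_comp_eq f (M.val : M →+* Ω) hy f.injective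
    (RingHom.ext fun _ => rfl)

/-- the degree of `M` over `L`, computed with a copy `P` of `L` in `M` over another base field -/
private theorem bound_sub_finrank (L M : IntermediateField k Ω) (hLM : L ≤ M) {κ : Type*} [Field κ]
    [Algebra κ M] (P : IntermediateField κ M) (hP : ∀ z : M, z ∈ P ↔ (z : Ω) ∈ L) :
    Module.finrank P M = relfinrank L M := by
  rw [relfinrank_eq_finrank_of_le hLM]
  let i : P ≃+* L :=
    { toFun := fun z => ⟨((z : M) : Ω), (hP z).1 z.2⟩
      invFun := fun z => ⟨⟨z, hLM z.2⟩, (hP _).2 z.2⟩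
      left_inv := fun z => rfl
      right_inv := fun z => rfl
      map_mul' := fun z w => rfl
      map_add' := fun z w => rfl }
  let j : M ≃+* extendScalars hLM :=
    { toFun := fun z => ⟨(z : Ω), z.2⟩
      invFun := fun z => ⟨(z : Ω), z.2⟩
      left_inv := fun z => rfl
      right_inv := fun z => rfl
      map_mul' := fun z w => rfl
      map_add' := fun z w => rfl }
  exact Algebra.finrank_eq_of_equiv_equiv i j (by
    ext z
    rfl)

/-- the translations by the elements of `U`, as a homomorphism to a group of permutations -/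
private def bound_sub_tr {p s c m n : ℕ} (β : (Fin s × (Fin c → ZMod p)) ⊕ Fin m ≃ Fin n)
    (U : Submodule (ZMod p) (Fin s × Fin c → ZMod p))
    (G : Subgroup (Equiv.Perm (Fin n))) (h : ∀ v ∈ U, tr β v ∈ G) : Multiplicative U →* G where
  toFun v := ⟨tr β (v.toAdd : U), h _ (v.toAdd : U).2⟩
  map_one' := Subtype.ext (by
    have h1 := tr_add β (0 : Fin s × Fin c → ZMod p) 0
    rw [add_zero] at h1
    exact mul_left_cancel (h1.symm.trans (mul_one _).symm))
  map_mul' v w := Subtype.ext (tr_add β (v.toAdd : U) (w.toAdd : U))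

/-- RD-S15 (uses `coords_top`, `exists_action`, `kummer_sub`; like `bound` in `Ga.lean`, but only `U` acts
on `M = A ⊔ L`). -/
theorem bound_sub [IsAlgClosed k] [IsAlgClosed Ω] [CharZero k] {n : ℕ} (x : Fin n → Ω)
    (hx : AlgebraicIndependent k x) (hΩ : Algebra.IsAlgebraic (adjoin k (Set.range x)) Ω)
    (A : IntermediateField k Ω) (hA : coeffField k x ≤ A)
    (hA0 : relfinrank (coeffField k x) A ≠ 0) (d : ℕ) (E' : IntermediateField k Ω)
    (hE : E' ≤ A ⊔ adjoin k (Set.range x)) (hTD : TD k (E' : Set Ω) d)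
    (hst : ∀ σ ∈ A.fixingSubgroup, ∀ z ∈ E', σ z ∈ E')
    (hf : ∀ σ ∈ A.fixingSubgroup, (∀ z ∈ E', σ z = z) → ∀ i, σ (x i) = x i)
    (p s c m : ℕ) [Fact p.Prime] (β : (Fin s × (Fin c → ZMod p)) ⊕ Fin m ≃ Fin n)
    (U : Submodule (ZMod p) (Fin s × Fin c → ZMod p)) (hU : ∀ v ∈ U, tr β v ∈ Im x A) :
    Module.finrank (ZMod p) U ≤ d + padicValNat p
      (relfinrank (adjoin k (Set.range x)) (A ⊔ adjoin k (Set.range x))) := by
  have hdvd := acc_dvd x hx hΩ A hA hA0
  have : NeZero (p : k) := ⟨Nat.cast_ne_zero.2 (Fact.out : p.Prime).ne_zero⟩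
  obtain ⟨ζ, hζ⟩ := HasEnoughRootsOfUnity.exists_primitiveRoot k p
  obtain ⟨κ, y, hκy, hind, hmem⟩ := coords_top x hx hΩ p s c m ζ hζ β
  obtain ⟨M, hM⟩ : ∃ M : IntermediateField k Ω, M = A ⊔ adjoin k (Set.range x) := ⟨_, rfl⟩
  obtain ⟨Θ, hΘ⟩ := exists_action x A M hM
  rw [← hM] at hE hdvd ⊢
  have hLM : adjoin k (Set.range x) ≤ M := by
    rw [hM]
    exact le_sup_right
  have hκM : κ ≤ M := fun z hz => hLM ((hmem z).1
    (IntermediateField.algebraMap_mem (adjoin κ (Set.range y)) ⟨z, hz⟩))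
  let y' : Fin s × Fin c → M := fun j =>
    ⟨y j, hLM ((hmem _).1 (subset_adjoin κ _ ⟨j, rfl⟩))⟩
  let ψ : Multiplicative U →* (M ≃ₐ[k] M) := Θ.comp (bound_sub_tr β U (Im x A) hU)
  have hσ : ∀ v : U, ∃ σ ∈ A.fixingSubgroup, (∀ i, σ (x i) = x (tr β v i)) ∧
      ∀ z : M, (ψ (Multiplicative.ofAdd v) z : Ω) = σ z := by
    intro v
    obtain ⟨σ, hσ1, hσ2⟩ := hU v v.2
    exact ⟨σ, hσ1, hσ2, fun z => hΘ ⟨tr β v, hU v v.2⟩ σ hσ1 hσ2 z⟩
  have hmem' : ∀ z : M, z ∈ adjoin (κ.comap M.val : IntermediateField k M) (Set.range y') ↔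
      (z : Ω) ∈ adjoin k (Set.range x) := fun z =>
    (bound_sub_mem κ M hκM y' z).trans (hmem z)
  have hfr : Module.finrank (adjoin (κ.comap M.val : IntermediateField k M) (Set.range y')) M =
      relfinrank (adjoin k (Set.range x)) M :=
    bound_sub_finrank (adjoin k (Set.range x)) M hLM _ hmem'
  have hfd : FiniteDimensional
      (adjoin (κ.comap M.val : IntermediateField k M) (Set.range y')) M := by
    apply FiniteDimensional.of_finrank_pos
    rw [hfr]
    exact Nat.pos_of_ne_zero hdvd.1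
  have key := kummer_sub p ζ hζ U ψ (κ.comap M.val) (fun v z hz => by
      obtain ⟨σ, hσ1, hσ2, hσ3⟩ := hσ v.toAdd
      apply Subtype.ext
      have h3 := hσ3 z
      rw [ofAdd_toAdd] at h3
      rw [h3]
      exact (hκy _ σ hσ2).1 _ hz) y' (fun v j => by
      obtain ⟨σ, hσ1, hσ2, hσ3⟩ := hσ v
      apply Subtype.ext
      rw [hσ3]
      exact (hκy _ σ hσ2).2 j) (bound_sub_ind κ M y' hind) hfd (E'.comap M.val) (fun v z hz => by
      obtain ⟨σ, hσ1, hσ2, hσ3⟩ := hσ v.toAdd
      change (ψ v z : Ω) ∈ E'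
      have h3 := hσ3 z
      rw [ofAdd_toAdd] at h3
      rw [h3]
      exact hst σ hσ1 _ hz) (fun v hv => by
      obtain ⟨σ, hσ1, hσ2, hσ3⟩ := hσ v.toAdd
      rw [ofAdd_toAdd] at hσ3
      have h3 := hf σ hσ1 (fun z hz => by
        have h4 := hv ⟨z, hE hz⟩ hz
        have h5 := hσ3 ⟨z, hE hz⟩
        rw [h4] at h5
        exact h5.symm)
      have h4 : v.toAdd = 0 := by
        apply Subtype.ext
        funext ⟨j, i⟩
        have h5 := h3 (β (Sum.inl (j, 0)))
        rw [hσ2, tr_inl] at h5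
        have h6 := β.injective (hx.injective h5)
        rw [zero_add] at h6
        have h7 := congrArg Prod.snd (Sum.inl.inj h6)
        exact congrFun h7 i
      exact toAdd_eq_zero.1 h4) d
      (TD.of_map M.val (S' := (E' : Set Ω)) (fun z hz => hz) hTD)
  rw [hfr] at key
  exact key

private theorem orbit_rank_small {P X : Type*} [Group P] [MulAction P X] [Finite P] [Finite X]
    (p : ℕ) [Fact p.Prime] (hP : IsPGroup p P) (hX : Nat.card X ≠ 0) :
    ∃ (x : X) (b : ℕ), Nat.card (MulAction.orbit P x) = p ^ b ∧ b ≤ padicValNat p (Nat.card X) := by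
  classical
  by_contra hcon
  push Not at hcon
  have : Fintype (Quotient (MulAction.orbitRel P X)) := Fintype.ofFinite _
  have hE : Nat.card X = ∑ ω : Quotient (MulAction.orbitRel P X),
      Nat.card (MulAction.orbit P ω.out) := by
    rw [Nat.card_congr (MulAction.selfEquivSigmaOrbits P X)]
    exact Nat.card_sigma
  have h1 : p ^ (padicValNat p (Nat.card X) + 1) ∣
      ∑ ω : Quotient (MulAction.orbitRel P X), Nat.card (MulAction.orbit P ω.out) := by
    refine Finset.dvd_sum fun ω _ => ?_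
    obtain ⟨b, hb⟩ := hP.card_orbit (ω.out)
    rw [hb]
    exact pow_dvd_pow p (hcon _ b hb)
  rw [← hE] at h1
  exact pow_succ_padicValNat_not_dvd hX h1

/-- RD-S16. `V` acts on `Perm (Fin n) ⧸ G` by left multiplication with `tr β v`; the orbits are of `p`-power
order, and `G.index` is the sum of their orders, so there is one whose order `p ^ a` satisfies
`a ≤ padicValNat p G.index`; if it is the orbit of `g⁻¹ G`, the stabilizer is
`{v | g * tr β v * g⁻¹ ∈ G}`, of order `p ^ (s c - a)`. -/
theorem orbit_rank {n : ℕ} (G : Subgroup (Equiv.Perm (Fin n))) (p s c m : ℕ) [Fact p.Prime]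
    (β : (Fin s × (Fin c → ZMod p)) ⊕ Fin m ≃ Fin n) :
    ∃ (g : Equiv.Perm (Fin n)) (U : Submodule (ZMod p) (Fin s × Fin c → ZMod p)),
      (∀ v ∈ U, g * tr β v * g⁻¹ ∈ G) ∧
      s * c ≤ Module.finrank (ZMod p) U + padicValNat p G.index := by
  classical
  let φ : Multiplicative (Fin s × Fin c → ZMod p) →* Equiv.Perm (Fin n) :=
    MonoidHom.mk' (fun v => tr β v.toAdd) fun v w => tr_add β _ _
  let _ : MulAction (Multiplicative (Fin s × Fin c → ZMod p)) (Equiv.Perm (Fin n) ⧸ G) :=
    MulAction.compHom _ φ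
  have hcard : Nat.card (Multiplicative (Fin s × Fin c → ZMod p)) = p ^ (s * c) := by
    rw [Nat.card_eq_fintype_card, Fintype.card_multiplicative, Fintype.card_fun, ZMod.card,
      Fintype.card_prod, Fintype.card_fin, Fintype.card_fin]
  have hP : IsPGroup p (Multiplicative (Fin s × Fin c → ZMod p)) := IsPGroup.of_card hcard
  obtain ⟨x, b, hb, hb2⟩ := orbit_rank_small (X := Equiv.Perm (Fin n) ⧸ G) p hP
    (by change G.index ≠ 0; exact G.index_ne_zero_of_finite)
  obtain ⟨g, rfl⟩ := QuotientGroup.mk_surjective x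
  let S := MulAction.stabilizer (Multiplicative (Fin s × Fin c → ZMod p))
    (QuotientGroup.mk g : Equiv.Perm (Fin n) ⧸ G)
  have hS := S.card_mul_index
  rw [MulAction.index_stabilizer, ← Nat.card_coe_set_eq, hb, hcard] at hS
  let U : Submodule (ZMod p) (Fin s × Fin c → ZMod p) :=
    AddSubgroup.toZModSubmodule p (Subgroup.toAddSubgroup S)
  have hU : Nat.card U = Nat.card S := rfl
  rw [← hU, Module.natCard_eq_pow_finrank (K := ZMod p), Nat.card_zmod, ← pow_add] at hS
  have hS2 := Nat.pow_right_injective (Fact.out : p.Prime).two_le hS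
  refine ⟨g⁻¹, U, fun v hv => ?_, ?_⟩
  · have h1 : (QuotientGroup.mk (tr β v * g) : Equiv.Perm (Fin n) ⧸ G) = QuotientGroup.mk g := hv
    have h2 := QuotientGroup.eq.1 h1.symm
    rw [inv_inv, mul_assoc]
    exact h2
  · have h3 : b ≤ padicValNat p G.index := hb2
    omega

/-- RD-S17. `x ∘ g`: the same fields, and `Im` is conjugated. -/
theorem relabel {n : ℕ} (x : Fin n → Ω) (g : Equiv.Perm (Fin n)) :
    coeffField k (x ∘ g) = coeffField k x ∧ Set.range (x ∘ g) = Set.range x ∧
      ∀ (A : IntermediateField k Ω) (π : Equiv.Perm (Fin n)),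
        π ∈ Im (k := k) (x ∘ g) A ↔ g * π * g⁻¹ ∈ Im x A := by
  refine ⟨?_, g.surjective.range_comp x, fun A π => ⟨?_, ?_⟩⟩
  · have h : ∏ i, (Polynomial.X - Polynomial.C ((x ∘ g) i)) =
        ∏ i, (Polynomial.X - Polynomial.C (x i)) :=
      Equiv.prod_comp g fun i => Polynomial.X - Polynomial.C (x i)
    unfold coeffField
    rw [h]
  · rintro ⟨σ, hσ, h⟩
    refine ⟨σ, hσ, fun i => ?_⟩
    have h1 := h (g⁻¹ i)
    change σ (x (g (g⁻¹ i))) = x (g (π (g⁻¹ i))) at h1
    rw [show g (g⁻¹ i) = i from g.apply_symm_apply i] at h1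
    exact h1
  · rintro ⟨σ, hσ, h⟩
    refine ⟨σ, hσ, fun i => ?_⟩
    have h1 := h (g i)
    change σ (x (g i)) = x (g (π (g⁻¹ (g i)))) at h1
    rw [show g⁻¹ (g i) = i from g.symm_apply_apply i] at h1
    exact h1

/-- RD-S18 (uses `field_of_step`, `orbit_rank`, `relabel`, `bound_sub`, `card_Im`, `Im_top`).
`[A : K] [A L : A] = [A L : L] [L : K]`, `[L : K] = n!`, `[A L : A] = card (Im x A)`, so
`[A : K] = (Im x A).index * [A L : L]`. -/
theorem bound_all [IsAlgClosed k] [IsAlgClosed Ω] [CharZero k] {n : ℕ} (x : Fin n → Ω)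
    (hx : AlgebraicIndependent k x) (hΩ : Algebra.IsAlgebraic (adjoin k (Set.range x)) Ω)
    (A : IntermediateField k Ω) (hA : coeffField k x ≤ A)
    (hA0 : relfinrank (coeffField k x) A ≠ 0) (d : ℕ)
    (hst : Step d A (A ⊔ adjoin k (Set.range x)))
    (p s c m : ℕ) [Fact p.Prime] (β : (Fin s × (Fin c → ZMod p)) ⊕ Fin m ≃ Fin n) :
    s * c ≤ d + padicValNat p (relfinrank (coeffField k x) A) := by
  obtain ⟨g, U, hU, hsc⟩ := orbit_rank (Im x A) p s c m β
  obtain ⟨r1, r2, r3⟩ := relabel (k := k) x g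
  have hx' : AlgebraicIndependent k (x ∘ g) := hx.comp g g.injective
  have hL : adjoin k (Set.range (x ∘ g)) = adjoin k (Set.range x) := by rw [r2]
  have hΩ' : Algebra.IsAlgebraic (adjoin k (Set.range (x ∘ g))) Ω := by
    rw [hL]
    exact hΩ
  have hA' : coeffField k (x ∘ g) ≤ A := by
    rw [r1]
    exact hA
  have hA0' : relfinrank (coeffField k (x ∘ g)) A ≠ 0 := by
    rw [r1]
    exact hA0
  have hst' : Step d A (A ⊔ adjoin k (Set.range (x ∘ g))) := by
    rw [hL]
    exact hst
  obtain ⟨E', hE, hTD, hstab, hf⟩ := field_of_step (x ∘ g) hx' hΩ' d A hA' hst'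
  have h1 := bound_sub (x ∘ g) hx' hΩ' A hA' hA0' d E' hE hTD hstab hf p s c m β U
    (fun v hv => (r3 A (tr β v)).2 (hU v hv))
  rw [hL] at h1
  have e1 := relfinrank_mul_relfinrank hA
    (le_sup_left : A ≤ A ⊔ adjoin k (Set.range x))
  have e2 := relfinrank_mul_relfinrank (coeffField_le x)
    (le_sup_right : adjoin k (Set.range x) ≤ A ⊔ adjoin k (Set.range x))
  have e3 := card_Im x hx.injective hΩ (coeffField k x) le_rfl
  rw [sup_eq_right.2 (coeffField_le x), Im_top x hx hΩ, Subgroup.card_top] at e3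
  have e4 := card_Im x hx.injective hΩ A hA
  have e5 := (Im x A).card_mul_index
  have hc0 : Nat.card (Im x A) ≠ 0 := Nat.card_pos.ne'
  have hi0 : (Im x A).index ≠ 0 := (Im x A).index_ne_zero_of_finite
  have e6 : relfinrank (coeffField k x) A = (Im x A).index *
      relfinrank (adjoin k (Set.range x)) (A ⊔ adjoin k (Set.range x)) := by
    apply Nat.eq_of_mul_eq_mul_right (Nat.pos_of_ne_zero hc0)
    rw [← e4, e1, ← e2, e3, ← e5, ← e4]
    ring
  have hr0 : relfinrank (adjoin k (Set.range x)) (A ⊔ adjoin k (Set.range x)) ≠ 0 := by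
    intro h0
    rw [h0, mul_zero] at e6
    exact hA0 e6
  rw [e6, padicValNat.mul hi0 hr0]
  omega

/-- RD-S19 (uses `bound_all` with `c = 1`, `s = n / p`, `exists_blocks`). -/
theorem gam_dvd [IsAlgClosed k] [IsAlgClosed Ω] [CharZero k] {n : ℕ} (x : Fin n → Ω)
    (hx : AlgebraicIndependent k x) (hΩ : Algebra.IsAlgebraic (adjoin k (Set.range x)) Ω)
    (A : IntermediateField k Ω) (hA : coeffField k x ≤ A)
    (hA0 : relfinrank (coeffField k x) A ≠ 0) (d : ℕ)
    (hst : Step d A (A ⊔ adjoin k (Set.range x))) :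
    gam n d ∣ relfinrank (coeffField k x) A := by
  unfold gam
  refine Finset.prod_dvd_of_isRelPrime ?_ ?_
  · intro p hp q hq hpq
    rw [Finset.mem_coe, Finset.mem_filter] at hp hq
    exact (Nat.coprime_iff_isRelPrime).1 (Nat.coprime_pow_primes _ _ hp.2 hq.2 hpq)
  · intro p hp
    rw [Finset.mem_filter] at hp
    have hF : Fact p.Prime := ⟨hp.2⟩
    have hle : n / p * p ^ 1 ≤ n := by
      rw [pow_one]
      exact Nat.div_mul_le_self n p
    obtain ⟨β⟩ := exists_blocks p (n / p) 1 n hle
    have h1 := bound_all x hx hΩ A hA hA0 d hst p (n / p) 1 _ β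
    rw [mul_one] at h1
    rw [padicValNat_dvd_iff_le hA0]
    omega

/-- an element of `Ω` that is algebraic over the algebraically closed field `k` comes from `k` -/
private theorem zero_dvd_mem [IsAlgClosed k] (A : IntermediateField k Ω) (z : Ω)
    (hz : IsAlgebraic k z) : z ∈ A := by
  have h1 : Algebra.IsAlgebraic k k⟮z⟯ := isAlgebraic_adjoin_simple hz.isIntegral
  have h2 := IntermediateField.eq_bot_of_isAlgClosed_of_isAlgebraic k⟮z⟯
  have h3 := mem_adjoin_simple_self k z
  rw [h2] at h3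
  exact bot_le (a := A) h3

/-- RD-S20. `d = 0`: `F` and `E` are algebraic over the algebraically closed field `k`, so `E ≤ A`,
`A ⊔ L = A`, `L ≤ A`, and `[L : K] = n!` (`card_Im`, `Im_top`). -/
theorem zero_dvd [IsAlgClosed k] [IsAlgClosed Ω] [CharZero k] {n : ℕ} (x : Fin n → Ω)
    (hx : AlgebraicIndependent k x) (hΩ : Algebra.IsAlgebraic (adjoin k (Set.range x)) Ω)
    (A : IntermediateField k Ω) (hA : coeffField k x ≤ A)
    (hst : Step 0 A (A ⊔ adjoin k (Set.range x))) :
    n.factorial ∣ relfinrank (coeffField k x) A := by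
  obtain ⟨hne, F, E, hFA, hFE, hAE, hdeg, htr⟩ := hst
  have h0 : Algebra.trdeg k F = 0 := by
    have h : Algebra.trdeg k F ≤ 0 := by simpa using htr
    exact le_antisymm h bot_le
  have hFalg : Algebra.IsAlgebraic k F := (trdeg_eq_zero_iff (R := k) (A := F)).1 h0
  have hEA : E ≤ A := by
    intro z hz
    apply zero_dvd_mem
    rw [← hdeg, relfinrank_eq_finrank_of_le hFE] at hne
    have hfd : FiniteDimensional F (extendScalars hFE) := Module.finite_of_finrank_pos
      (Nat.pos_of_ne_zero hne)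
    have h1 : IsAlgebraic F (⟨z, hz⟩ : extendScalars hFE) := Algebra.IsAlgebraic.isAlgebraic _
    have h2 : IsAlgebraic F z := h1.algebraMap (S := extendScalars hFE) (A := Ω)
    exact IsAlgebraic.restrictScalars k h2
  have hLA : adjoin k (Set.range x) ≤ A := by
    rw [sup_eq_left.2 hEA] at hAE
    rw [hAE]
    exact le_sup_right
  have h4 := card_Im x hx.injective hΩ (coeffField k x) le_rfl
  rw [sup_eq_right.2 (coeffField_le x), Im_top x hx hΩ, Subgroup.card_top, Nat.card_perm,
    Nat.card_fin] at h4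
  rw [← h4]
  exact ⟨_, (relfinrank_mul_relfinrank (coeffField_le x) hLA).symm⟩

end

end Pool.Agent.Helper15.RD
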