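import Pool.Agent.Helper15.RD.Td

/-!
# Project RD, block S: the induction over the variables

`k ⊆ κ ⊆ E`, `t : Fin q → E` algebraically independent over `κ`, `E` finite over `κ(t)`, `E0 ⊆ E` of
transcendence degree at most `s` over `k`. The exponents `a` for which the monomial `t ^ a` is in
`E0^* E^{* p}` fill at most `p ^ (s + v_p [E : κ(t)])` classes modulo `p`.
-/

set_option autoImplicit false

namespace Pool.Agent.Helper15.RD

open IntermediateField

universe u v

/-- the monomial `t ^ a` is an element of `E0` times a `p`-th power -/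
def Gd {E : Type*} [Field E] (p : ℕ) (E0 : Set E) {q : ℕ} (t : Fin q → E) (a : Fin q → ℤ) : Prop :=
  ∃ g ∈ E0, ∃ h : E, g ≠ 0 ∧ h ≠ 0 ∧ ∏ j, t j ^ a j = g * h ^ p

/-- different elements of `A` are not congruent modulo `p` -/
def Inc (p : ℕ) {q : ℕ} (A : Finset (Fin q → ℤ)) : Prop :=
  ∀ a ∈ A, ∀ b ∈ A, (∀ j, (p : ℤ) ∣ a j - b j) → a = b

/-- the statement which is proved by induction on `q` -/
def PiS (k : Type v) (κ : Type u) [Field k] [Field κ] [Algebra k κ] (p q : ℕ) : Prop :=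
  ∀ (s : ℕ) (E : Type u) [Field E] [Algebra κ E] [Algebra k E] [IsScalarTower k κ E]
    (t : Fin q → E), AlgebraicIndependent κ t → FiniteDimensional (adjoin κ (Set.range t)) E →
    ∀ E0 : IntermediateField k E, TD k (E0 : Set E) s → ∀ A : Finset (Fin q → ℤ),
      (∀ a ∈ A, Gd p (E0 : Set E) t a) → Inc p A →
      A.card ≤ p ^ (s + padicValNat p (Module.finrank (adjoin κ (Set.range t)) E))

/-- RD-S1. `Fin 0 → ℤ` has one element. -/
theorem PiS.zero (k : Type v) (κ : Type u) [Field k] [Field κ] [Algebra k κ] (p : ℕ)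
    [Fact p.Prime] : PiS k κ p 0 := by
  intro s E _ _ _ _ t _ _ E0 _ A _ _
  have h1 : A.card ≤ 1 := Finset.card_le_one.2 fun a _ b _ => Subsingleton.elim a b
  exact h1.trans (Nat.one_le_pow _ _ (Nat.Prime.pos Fact.out))

/-- RD-S1. Group the elements of `A` by the value of `Φ`; a nonempty class with `a0` in it is mapped
injectively by `a ↦ (a - a0) ∘ castSucc` to an incongruent set of elements with `G` (if
`(a - a0) ≡ (b - a0)` outside of the last coordinate then `a ≡ b`, since `p` divides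
`a last - a0 last` and `b last - a0 last`). `Finset.card_le_mul_card_image` or similar. -/
theorem count {q p : ℕ} (A : Finset (Fin (q + 1) → ℤ)) (hA : Inc p A)
    (G : (Fin q → ℤ) → Prop) (M : ℕ)
    (hM : ∀ B : Finset (Fin q → ℤ), (∀ b ∈ B, G b) → Inc p B → B.card ≤ M)
    {T : Type*} [Fintype T] (Φ : (Fin (q + 1) → ℤ) → T)
    (hΦ : ∀ a ∈ A, ∀ b ∈ A, Φ a = Φ b → (p : ℤ) ∣ a (Fin.last q) - b (Fin.last q) ∧
      G (fun j => a j.castSucc - b j.castSucc)) :
    A.card ≤ Fintype.card T * M := by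
  classical
  have key : A.card ≤ M * (Finset.univ : Finset T).card := by
    refine Finset.card_le_mul_card_image_of_maps_to (f := Φ) (fun a _ => Finset.mem_univ _) M
      fun b _ => ?_
    rcases (A.filter fun a => Φ a = b).eq_empty_or_nonempty with h0 | ⟨a0, ha0⟩
    · rw [h0, Finset.card_empty]
      exact Nat.zero_le _
    · rw [Finset.mem_filter] at ha0
      have hall : ∀ a ∈ A.filter (fun a => Φ a = b), ∀ a' ∈ A.filter (fun a => Φ a = b),
          (∀ j : Fin q, (p : ℤ) ∣ a j.castSucc - a' j.castSucc) → a = a' := by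
        intro a ha a' ha' hj
        rw [Finset.mem_filter] at ha ha'
        refine hA a ha.1 a' ha'.1 fun j => ?_
        refine Fin.lastCases ?_ ?_ j
        · exact (hΦ a ha.1 a' ha'.1 (ha.2.trans ha'.2.symm)).1
        · exact hj
      have hinj : Set.InjOn (fun (a : Fin (q + 1) → ℤ) (j : Fin q) =>
          a j.castSucc - a0 j.castSucc) ((A.filter fun a => Φ a = b : Finset _) : Set _) := by
        intro a ha a' ha' haa
        refine hall a ha a' ha' fun j => ?_
        have h1 : a j.castSucc - a0 j.castSucc = a' j.castSucc - a0 j.castSucc := congrFun haa j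
        have h2 : a j.castSucc - a' j.castSucc = 0 := by linarith
        rw [h2]
        exact dvd_zero _
      rw [← Finset.card_image_of_injOn hinj]
      refine hM _ ?_ ?_
      · intro c hc
        rw [Finset.mem_image] at hc
        obtain ⟨a, ha, rfl⟩ := hc
        rw [Finset.mem_filter] at ha
        exact (hΦ a ha.1 a0 ha0.1 (ha.2.trans ha0.2.symm)).2
      · intro c hc c' hc' hcc
        rw [Finset.mem_image] at hc hc'
        obtain ⟨a, ha, rfl⟩ := hc
        obtain ⟨a', ha', rfl⟩ := hc'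
        have h1 : a = a' := by
          refine hall a ha a' ha' fun j => ?_
          have h2 := hcc j
          have h3 : a j.castSucc - a0 j.castSucc - (a' j.castSucc - a0 j.castSucc) =
              a j.castSucc - a' j.castSucc := by ring
          rwa [h3] at h2
        rw [h1]
  rw [Finset.card_univ, mul_comm] at key
  exact key

/-- RD-S2. The values `w z`, `z ∈ E0`, `z ≠ 0`, form a subgroup of `ℤ`; `c` is its generator. -/
theorem exists_c {k E : Type*} [Field k] [Field E] [Algebra k E] (w : E → ℤ)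
    (hw : ∀ a b, a ≠ 0 → b ≠ 0 → w (a * b) = w a + w b) (E0 : IntermediateField k E) :
    ∃ c : ℕ, (∀ z ∈ E0, z ≠ 0 → (c : ℤ) ∣ w z) ∧ ∃ γ ∈ E0, γ ≠ 0 ∧ w γ = c := by
  have h1 : w 1 = 0 := by
    have h := hw 1 1 one_ne_zero one_ne_zero
    rw [mul_one] at h
    linarith
  have hinv : ∀ z : E, z ≠ 0 → w z⁻¹ = -w z := by
    intro z hz
    have h := hw z z⁻¹ hz (inv_ne_zero hz)
    rw [mul_inv_cancel₀ hz, h1] at h
    linarith
  obtain ⟨H, hH⟩ : ∃ H : AddSubgroup ℤ, ∀ n : ℤ, n ∈ H ↔ ∃ z ∈ E0, z ≠ 0 ∧ w z = n :=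
    ⟨{ carrier := {n | ∃ z ∈ E0, z ≠ 0 ∧ w z = n}
       add_mem' := by
         rintro _ _ ⟨z, hz, hz0, rfl⟩ ⟨z', hz', hz0', rfl⟩
         exact ⟨z * z', E0.mul_mem hz hz', mul_ne_zero hz0 hz0', hw z z' hz0 hz0'⟩
       zero_mem' := ⟨1, E0.one_mem, one_ne_zero, h1⟩
       neg_mem' := by
         rintro _ ⟨z, hz, hz0, rfl⟩
         exact ⟨z⁻¹, E0.inv_mem hz, inv_ne_zero hz0, hinv z hz0⟩ }, fun n => Iff.rfl⟩
  obtain ⟨a, ha⟩ := Int.subgroup_cyclic H
  have hmem : ∀ n : ℤ, n ∈ H ↔ a ∣ n := by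
    intro n
    rw [ha, AddSubgroup.mem_closure_singleton]
    constructor
    · rintro ⟨m, rfl⟩
      exact ⟨m, by rw [smul_eq_mul, mul_comm]⟩
    · rintro ⟨m, rfl⟩
      exact ⟨m, by rw [smul_eq_mul, mul_comm]⟩
  refine ⟨a.natAbs, fun z hz hz0 => ?_, ?_⟩
  · have h2 : w z ∈ H := (hH _).2 ⟨z, hz, hz0, rfl⟩
    exact Int.natAbs_dvd.2 ((hmem _).1 h2)
  · have h2 : ((a.natAbs : ℕ) : ℤ) ∈ H := (hmem _).2 (Int.dvd_natAbs.2 dvd_rfl)
    exact (hH _).1 h2

/-- RD-S2. Put `h1 = h * x ^ (- δ last / p)`: `∏ j, algebraMap (τ j) ^ δ j.castSucc = g * h1 ^ p`. The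
left side and `g` have value `0`, so `w h1 = 0`; apply `r` (`r` is multiplicative on elements of value
`≥ 0`, also for integral powers of elements of value `0`). -/
theorem reduce {k R E E' : Type*} [Field k] [Field R] [Field E] [Field E'] [Algebra k E]
    [Algebra R E] [Algebra R E'] {w : E → ℤ} {r : E → E'} (hP : Pl R w r)
    (E0 : IntermediateField k E) {p q : ℕ} (hp : 0 < p) (τ : Fin q → R) (hτ : ∀ j, τ j ≠ 0)
    (x : E) (hx : x ≠ 0) (δ : Fin (q + 1) → ℤ) (g h : E) (hg : g ∈ E0) (hg0 : g ≠ 0) (hh : h ≠ 0)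
    (hgw : w g = 0) (hd : (p : ℤ) ∣ δ (Fin.last q))
    (he : (∏ j : Fin q, algebraMap R E (τ j) ^ δ j.castSucc) * x ^ δ (Fin.last q) = g * h ^ p) :
    Gd p {y : E' | ∃ z ∈ E0, Oi w z ∧ r z = y} (fun j => algebraMap R E' (τ j))
      (fun j => δ j.castSucc) := by
  obtain ⟨m, hm⟩ := hd
  have h1 : w 1 = 0 := by
    have h := hP.w_mul 1 1 one_ne_zero one_ne_zero
    rw [mul_one] at h
    linarith
  have hpw : ∀ (z : E), z ≠ 0 → ∀ n : ℕ, w (z ^ n) = n * w z := by
    intro z hz n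
    induction n with
    | zero => rw [pow_zero, h1, Nat.cast_zero, zero_mul]
    | succ n ih =>
      rw [pow_succ, hP.w_mul _ _ (pow_ne_zero n hz) hz, ih]
      push_cast
      ring
  obtain ⟨c, hc⟩ : ∃ c : R, c = ∏ j : Fin q, τ j ^ δ j.castSucc := ⟨_, rfl⟩
  have hc0 : c ≠ 0 := by
    rw [hc]
    exact Finset.prod_ne_zero_iff.2 fun j _ => zpow_ne_zero _ (hτ j)
  have hcE : (∏ j : Fin q, algebraMap R E (τ j) ^ δ j.castSucc) = algebraMap R E c := by
    rw [hc, map_prod]
    exact Finset.prod_congr rfl fun j _ => (map_zpow₀ (algebraMap R E) _ _).symm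
  have hcE' : (∏ j : Fin q, algebraMap R E' (τ j) ^ δ j.castSucc) = algebraMap R E' c := by
    rw [hc, map_prod]
    exact Finset.prod_congr rfl fun j _ => (map_zpow₀ (algebraMap R E') _ _).symm
  obtain ⟨h', hh'⟩ : ∃ h' : E, h' = h * (x ^ m)⁻¹ := ⟨_, rfl⟩
  have hxm : x ^ m ≠ 0 := zpow_ne_zero _ hx
  have hh0 : h' ≠ 0 := by
    rw [hh']
    exact mul_ne_zero hh (inv_ne_zero hxm)
  have hxp : x ^ δ (Fin.last q) = (x ^ m) ^ p := by
    rw [hm, mul_comm, zpow_mul, zpow_natCast]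
  have he' : algebraMap R E c = g * h' ^ p := by
    rw [hcE, hxp] at he
    rw [hh', mul_pow, inv_pow, ← mul_assoc, ← he, mul_assoc,
      mul_inv_cancel₀ (pow_ne_zero _ hxm), mul_one]
  have hwh : w h' = 0 := by
    have h2 := congrArg w he'
    rw [hP.w_alg c hc0, hP.w_mul _ _ hg0 (pow_ne_zero _ hh0), hgw, hpw h' hh0, zero_add] at h2
    have h3 : (p : ℤ) ≠ 0 := by exact_mod_cast hp.ne'
    rcases mul_eq_zero.1 h2.symm with h4 | h4
    · exact absurd h4 h3
    · exact h4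
  have hro : ∀ z : E, z ≠ 0 → w z = 0 → r z ≠ 0 := by
    intro z hz hwz h2
    rcases (hP.r_ker z (Or.inr hwz.ge)).1 h2 with h3 | h3
    · exact hz h3
    · rw [hwz] at h3
      exact lt_irrefl _ h3
  have hone : r 1 = 1 := by
    have h2 := hP.r_alg 1
    rwa [map_one, map_one] at h2
  have hrp : ∀ n : ℕ, r (h' ^ n) = r h' ^ n := by
    intro n
    induction n with
    | zero => rw [pow_zero, pow_zero, hone]
    | succ n ih =>
      have h2 : Oi w (h' ^ n) := Or.inr (by rw [hpw h' hh0, hwh, mul_zero])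
      rw [pow_succ, pow_succ, hP.r_mul _ _ h2 (Or.inr hwh.ge), ih]
  refine ⟨r g, ⟨g, hg, Or.inr hgw.ge, rfl⟩, r h', hro g hg0 hgw, hro h' hh0 hwh, ?_⟩
  have h2 : Oi w (h' ^ p) := Or.inr (by rw [hpw h' hh0, hwh, mul_zero])
  change (∏ j : Fin q, algebraMap R E' (τ j) ^ δ j.castSucc) = _
  rw [hcE', ← hP.r_alg c, he', hP.r_mul _ _ (Or.inr hgw.ge) h2, hrp]

/-- RD-S3 (uses `exists_c`, `reduce`). Let `a, b` be good with `g_a, h_a`, `g_b, h_b`, put
`δ = a - b`, `g = g_a / g_b`, `h = h_a / h_b`: `τ ^ δ x ^ (δ last) = g h ^ p`. By the hypothesis on `ν`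
(`c * ν a = w g_a`, `c * ν b = w g_b`) `w g = c p m` for an integer `m`; replace `g` by
`g γ ^ (- p m)`, `h` by `h γ ^ m`; then `w g = 0`. If `p ∣ e` the last coordinate of `δ` is divisible by `p`
by hypothesis; otherwise `e * δ last = w (x ^ δ last) = p w h` shows it. -/
theorem reduce_two {k R E E' : Type*} [Field k] [Field R] [Field E] [Field E'] [Algebra k E]
    [Algebra R E] [Algebra R E'] {w : E → ℤ} {r : E → E'} (hP : Pl R w r)
    (E0 : IntermediateField k E) {p q : ℕ} (hp : p.Prime) (τ : Fin q → R) (hτ : ∀ j, τ j ≠ 0)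
    (x : E) (hx : x ≠ 0) (e : ℕ) (he : w x = e) (c : ℕ) (γ : E) (hγ : γ ∈ E0) (hγ0 : γ ≠ 0)
    (hγw : w γ = c) (a b : Fin (q + 1) → ℤ) (ga ha gb hb : E) (hga : ga ∈ E0) (hgb : gb ∈ E0)
    (hga0 : ga ≠ 0) (hha : ha ≠ 0) (hgb0 : gb ≠ 0) (hhb : hb ≠ 0)
    (hea : (∏ j : Fin q, algebraMap R E (τ j) ^ a j.castSucc) * x ^ a (Fin.last q) = ga * ha ^ p)
    (heb : (∏ j : Fin q, algebraMap R E (τ j) ^ b j.castSucc) * x ^ b (Fin.last q) = gb * hb ^ p)
    (νa νb : ℤ) (hνa : w ga = c * νa) (hνb : w gb = c * νb) (hν : c ≠ 0 → (p : ℤ) ∣ νa - νb)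
    (hl : p ∣ e → (p : ℤ) ∣ a (Fin.last q) - b (Fin.last q)) :
    (p : ℤ) ∣ a (Fin.last q) - b (Fin.last q) ∧
    Gd p {y : E' | ∃ z ∈ E0, Oi w z ∧ r z = y} (fun j => algebraMap R E' (τ j))
      (fun j => a j.castSucc - b j.castSucc) := by
  have h1 : w 1 = 0 := by
    have h := hP.w_mul 1 1 one_ne_zero one_ne_zero
    rw [mul_one] at h
    linarith
  have hpw : ∀ z : E, z ≠ 0 → ∀ n : ℤ, w (z ^ n) = n * w z := by
    intro z hz n
    have hN : ∀ m : ℕ, w (z ^ m) = m * w z := by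
      intro m
      induction m with
      | zero => rw [pow_zero, h1, Nat.cast_zero, zero_mul]
      | succ m ih =>
        rw [pow_succ, hP.w_mul _ _ (pow_ne_zero m hz) hz, ih]
        push_cast
        ring
    obtain ⟨m, rfl | rfl⟩ := n.eq_nat_or_neg
    · rw [zpow_natCast, hN]
    · have h2 := hP.w_mul (z ^ m) (z ^ (-(m : ℤ))) (pow_ne_zero m hz) (zpow_ne_zero _ hz)
      rw [zpow_neg, zpow_natCast, mul_inv_cancel₀ (pow_ne_zero m hz), h1, hN] at h2
      rw [zpow_neg, zpow_natCast]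
      linarith
  have hp0 : (p : ℤ) ≠ 0 := by exact_mod_cast hp.ne_zero
  have hinv : ∀ z : E, z ≠ 0 → w z⁻¹ = -w z := by
    intro z hz
    have h2 := hpw z hz (-1)
    rw [zpow_neg, zpow_one] at h2
    rw [h2]
    ring
  obtain ⟨m, hm⟩ : ∃ m : ℤ, (c : ℤ) * (νa - νb) = c * (p * m) := by
    by_cases h0 : c = 0
    · exact ⟨0, by rw [h0, Nat.cast_zero, zero_mul, zero_mul]⟩
    · obtain ⟨m, hm⟩ := hν h0
      exact ⟨m, by rw [hm]⟩
  obtain ⟨g, hg⟩ : ∃ g : E, g = ga * gb⁻¹ * γ ^ (-(p * m : ℤ)) := ⟨_, rfl⟩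
  obtain ⟨h, hh⟩ : ∃ h : E, h = ha * hb⁻¹ * γ ^ m := ⟨_, rfl⟩
  have hgE : g ∈ E0 := by
    rw [hg]
    exact E0.mul_mem (E0.mul_mem hga (E0.inv_mem hgb)) (zpow_mem hγ _)
  have hg1 : ga * gb⁻¹ ≠ 0 := mul_ne_zero hga0 (inv_ne_zero hgb0)
  have hg0 : g ≠ 0 := by
    rw [hg]
    exact mul_ne_zero hg1 (zpow_ne_zero _ hγ0)
  have hh0 : h ≠ 0 := by
    rw [hh]
    exact mul_ne_zero (mul_ne_zero hha (inv_ne_zero hhb)) (zpow_ne_zero _ hγ0)
  have hgw : w g = 0 := by
    rw [hg, hP.w_mul _ _ hg1 (zpow_ne_zero _ hγ0), hP.w_mul _ _ hga0 (inv_ne_zero hgb0),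
      hinv gb hgb0, hpw γ hγ0, hνa, hνb, hγw]
    linear_combination hm
  have hγp : γ ^ (-(p * m : ℤ)) * (γ ^ m) ^ p = 1 := by
    rw [← zpow_natCast (γ ^ m) p, ← zpow_mul, ← zpow_add₀ hγ0]
    have h2 : -((p : ℤ) * m) + m * p = 0 := by ring
    rw [h2, zpow_zero]
  have hgh : g * h ^ p = ga * ha ^ p * (gb * hb ^ p)⁻¹ := by
    rw [hg, hh, mul_pow, mul_pow, mul_inv, inv_pow]
    calc ga * gb⁻¹ * γ ^ (-(p * m : ℤ)) * (ha ^ p * (hb ^ p)⁻¹ * (γ ^ m) ^ p)
        = ga * ha ^ p * (gb⁻¹ * (hb ^ p)⁻¹) * (γ ^ (-(p * m : ℤ)) * (γ ^ m) ^ p) := by ring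
      _ = _ := by rw [hγp, mul_one]
  have hτE : ∀ j, algebraMap R E (τ j) ≠ 0 := fun j =>
    (map_ne_zero_iff _ (algebraMap R E).injective).2 (hτ j)
  have hprod : (∏ j : Fin q, algebraMap R E (τ j) ^ (a j.castSucc - b j.castSucc)) *
      x ^ (a (Fin.last q) - b (Fin.last q)) = g * h ^ p := by
    rw [hgh, ← hea, ← heb, zpow_sub₀ hx, div_eq_mul_inv]
    have h2 : (∏ j : Fin q, algebraMap R E (τ j) ^ (a j.castSucc - b j.castSucc)) =
        (∏ j : Fin q, algebraMap R E (τ j) ^ a j.castSucc) *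
          (∏ j : Fin q, algebraMap R E (τ j) ^ b j.castSucc)⁻¹ := by
      rw [← Finset.prod_inv_distrib, ← Finset.prod_mul_distrib]
      exact Finset.prod_congr rfl fun j _ => by rw [zpow_sub₀ (hτE j), div_eq_mul_inv]
    rw [h2, mul_inv]
    ring
  have hwp : w (∏ j : Fin q, algebraMap R E (τ j) ^ (a j.castSucc - b j.castSucc)) = 0 := by
    have h2 : (∏ j : Fin q, algebraMap R E (τ j) ^ (a j.castSucc - b j.castSucc)) =
        algebraMap R E (∏ j : Fin q, τ j ^ (a j.castSucc - b j.castSucc)) := by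
      rw [map_prod]
      exact Finset.prod_congr rfl fun j _ => (map_zpow₀ (algebraMap R E) _ _).symm
    rw [h2]
    exact hP.w_alg _ (Finset.prod_ne_zero_iff.2 fun j _ => zpow_ne_zero _ (hτ j))
  have hdiv : (p : ℤ) ∣ a (Fin.last q) - b (Fin.last q) := by
    by_cases hpe : p ∣ e
    · exact hl hpe
    · have h2 := congrArg w hprod
      have h3 : (∏ j : Fin q, algebraMap R E (τ j) ^ (a j.castSucc - b j.castSucc)) ≠ 0 :=
        Finset.prod_ne_zero_iff.2 fun j _ => zpow_ne_zero _ (hτE j)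
      rw [hP.w_mul _ _ h3 (zpow_ne_zero _ hx), hwp, hpw x hx, he, hP.w_mul _ _ hg0
        (pow_ne_zero _ hh0), hgw, ← zpow_natCast h p, hpw h hh0, zero_add, zero_add] at h2
      rcases (Nat.prime_iff_prime_int.1 hp).dvd_or_dvd (Dvd.intro _ h2.symm) with h4 | h4
      · exact h4
      · exact absurd (Int.natCast_dvd_natCast.1 h4) hpe
  exact ⟨hdiv, reduce hP E0 hp.pos τ hτ x hx (fun j => a j - b j) g h hgE hg0 hh0 hgw hdiv hprod⟩

/-- RD-S4. `κ(t) = R(x)`, `R = κ(t j, j < q)`, `x = t q`. -/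
theorem split_last {κ E : Type*} [Field κ] [Field E] [Algebra κ E] {q : ℕ} (t : Fin (q + 1) → E)
    (ht : AlgebraicIndependent κ t) (hfd : FiniteDimensional (adjoin κ (Set.range t)) E)
    (R : IntermediateField κ E) (hR : R = adjoin κ (Set.range fun j : Fin q => t j.castSucc)) :
    Transcendental R (t (Fin.last q)) ∧ FiniteDimensional (adjoin R {t (Fin.last q)}) E ∧
      Module.finrank (adjoin R {t (Fin.last q)}) E =
        Module.finrank (adjoin κ (Set.range t)) E := by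
  subst hR
  have hsp : (Set.range fun j : Fin q => t j.castSucc) ∪ {t (Fin.last q)} = Set.range t := by
    ext y
    constructor
    · rintro (⟨j, rfl⟩ | rfl)
      · exact ⟨_, rfl⟩
      · exact ⟨_, rfl⟩
    · rintro ⟨j, rfl⟩
      induction j using Fin.lastCases with
      | last => right; rfl
      | cast j => left; exact ⟨j, rfl⟩
  have himg : t '' {Fin.last q}ᶜ = Set.range fun j : Fin q => t j.castSucc := by
    ext y
    constructor
    · rintro ⟨j, hj, rfl⟩
      induction j using Fin.lastCases with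
      | last => exact absurd rfl hj
      | cast j => exact ⟨j, rfl⟩
    · rintro ⟨j, rfl⟩
      exact ⟨j.castSucc, (Fin.castSucc_lt_last j).ne, rfl⟩
  have h2 := ht.transcendental_adjoin (s := {Fin.last q}ᶜ) (i := Fin.last q) (by simp)
  rw [himg] at h2
  have hK : (adjoin (adjoin κ (Set.range fun j : Fin q => t j.castSucc))
      {t (Fin.last q)}).restrictScalars κ = adjoin κ (Set.range t) := by
    rw [adjoin_adjoin_left, hsp]
  refine ⟨fun h3 => h2 ?_, ?_, ?_⟩
  · open scoped IntermediateField.algebraAdjoinAdjoin in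
    exact (IsFractionRing.isAlgebraic_iff
      (Algebra.adjoin κ (Set.range fun j : Fin q => t j.castSucc))
      (adjoin κ (Set.range fun j : Fin q => t j.castSucc)) E).2 h3
  · rw [← hK] at hfd
    exact hfd
  · rw [← hK]
    rfl

theorem res_transport_range {κ R E' : Type*} [Field κ] [Field R] [Field E'] [Algebra κ R]
    [Algebra R E'] [Algebra κ E'] [IsScalarTower κ R E'] {q : ℕ}
    (τ : Fin q → R) (hg : adjoin κ (Set.range τ) = ⊤) :
    adjoin κ (Set.range fun j => algebraMap R E' (τ j)) =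
      (IsScalarTower.toAlgHom κ R E').fieldRange := by
  have h1 : (fun j => algebraMap R E' (τ j)) = (IsScalarTower.toAlgHom κ R E') ∘ τ := rfl
  rw [h1, Set.range_comp, ← adjoin_map, hg, ← AlgHom.fieldRange_eq_map]

theorem res_transport_fieldRange {κ R E' : Type*} [Field κ] [Field R] [Field E'] [Algebra κ R]
    [Algebra R E'] [Algebra κ E'] [IsScalarTower κ R E'] [FiniteDimensional R E'] :
    FiniteDimensional (IsScalarTower.toAlgHom κ R E').fieldRange E' ∧
      Module.finrank (IsScalarTower.toAlgHom κ R E').fieldRange E' = Module.finrank R E' := by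
  obtain ⟨i, hi⟩ : ∃ i : R ≃+* (IsScalarTower.toAlgHom κ R E').fieldRange,
      ∀ x, (i x : E') = algebraMap R E' x :=
    ⟨(AlgEquiv.ofInjectiveField (IsScalarTower.toAlgHom κ R E')).toRingEquiv, fun x => rfl⟩
  constructor
  · exact Module.Finite.of_equiv_equiv i (RingEquiv.refl E') (by ext x; exact hi x)
  · exact (Algebra.finrank_eq_of_equiv_equiv i (RingEquiv.refl E') (by ext x; exact hi x)).symm

/-- RD-S4. `κ ⊆ R ⊆ E'`, `R` generated by the algebraically independent `τ`; `adjoin κ (range t')` is the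
image of `R`. -/
theorem res_transport {κ R E' : Type*} [Field κ] [Field R] [Field E'] [Algebra κ R]
    [Algebra R E'] [Algebra κ E'] [IsScalarTower κ R E'] [FiniteDimensional R E'] {q : ℕ}
    (τ : Fin q → R) (hτ : AlgebraicIndependent κ τ) (hg : adjoin κ (Set.range τ) = ⊤) :
    AlgebraicIndependent κ (fun j => algebraMap R E' (τ j)) ∧
    FiniteDimensional (adjoin κ (Set.range fun j => algebraMap R E' (τ j))) E' ∧
    Module.finrank (adjoin κ (Set.range fun j => algebraMap R E' (τ j))) E' =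
      Module.finrank R E' := by
  have hm := res_transport_range (κ := κ) (R := R) (E' := E') τ hg
  have h2 := res_transport_fieldRange (κ := κ) (R := R) (E' := E')
  rw [← hm] at h2
  have hi : Function.Injective (IsScalarTower.toAlgHom κ R E') := fun a b h =>
    (algebraMap R E').injective h
  have h1 : (fun j => algebraMap R E' (τ j)) = (IsScalarTower.toAlgHom κ R E') ∘ τ := rfl
  have h3 : AlgebraicIndependent κ (fun j => algebraMap R E' (τ j)) := by
    rw [h1, AlgHom.algebraicIndependent_iff _ hi]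
    exact hτ
  exact ⟨h3, h2.1, h2.2⟩

private theorem PiS.succ_aux {k : Type v} {κ R E E' : Type u} [Field k] [Field κ] [Field R]
    [Field E] [Field E'] [Algebra k κ] [Algebra k R] [Algebra k E] [Algebra k E'] [Algebra κ R]
    [Algebra κ E'] [Algebra R E] [Algebra R E'] [IsScalarTower k κ E'] [IsScalarTower κ R E']
    [IsScalarTower k R E] [IsScalarTower k R E'] [FiniteDimensional R E'] {p q : ℕ}
    [hp : Fact p.Prime] (h : PiS k κ p q) {w : E → ℤ} {r : E → E'} (hP : Pl R w r) {s : ℕ}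
    (E0 : IntermediateField k E) (hTD : TD k (E0 : Set E) s) (τ : Fin q → R)
    (hτ : AlgebraicIndependent κ τ) (hg : adjoin κ (Set.range τ) = ⊤) (x : E) (hx : x ≠ 0) (e : ℕ)
    (he : w x = e) (he0 : 0 < e) (A : Finset (Fin (q + 1) → ℤ))
    (hA : ∀ a ∈ A, ∃ g ∈ E0, ∃ h : E, g ≠ 0 ∧ h ≠ 0 ∧
      (∏ j : Fin q, algebraMap R E (τ j) ^ a j.castSucc) * x ^ a (Fin.last q) = g * h ^ p)
    (hI : Inc p A) :
    A.card ≤ p ^ (s + padicValNat p (e * Module.finrank R E')) := by
  classical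
  have hp1 : p.Prime := hp.out
  have hτ0 : ∀ j, τ j ≠ 0 := fun j => hτ.ne_zero j
  obtain ⟨E0', hE0'⟩ := exists_res hP E0
  have hset : {y : E' | ∃ z ∈ E0, Oi w z ∧ r z = y} = (E0' : Set E') := by
    ext y
    exact (hE0' y).symm
  obtain ⟨c, hc, γ, hγ, hγ0, hγw⟩ := exists_c w hP.w_mul E0
  have hf : Module.finrank R E' ≠ 0 := Module.finrank_pos.ne'
  obtain ⟨h1, h2, h3⟩ := res_transport (E' := E') τ hτ hg
  have hA' : ∀ a ∈ A, ∃ (g h : E) (ν : ℤ), g ∈ E0 ∧ g ≠ 0 ∧ h ≠ 0 ∧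
      (∏ j : Fin q, algebraMap R E (τ j) ^ a j.castSucc) * x ^ a (Fin.last q) = g * h ^ p ∧
      w g = c * ν := by
    intro a ha
    obtain ⟨g, hg1, h', hg0, hh0, hgh⟩ := hA a ha
    obtain ⟨ν, hν⟩ := hc g hg1 hg0
    exact ⟨g, h', ν, hg1, hg0, hh0, hgh, hν⟩
  choose! G H ν hG hG0 hH0 hGH hν using hA'
  obtain ⟨m1, hm1⟩ : ∃ m1 : ℕ, m1 = if c = 0 then 1 else p := ⟨_, rfl⟩
  obtain ⟨m2, hm2⟩ : ∃ m2 : ℕ, m2 = if p ∣ e then p else 1 := ⟨_, rfl⟩
  have : NeZero m1 := ⟨by rw [hm1]; split_ifs; exacts [one_ne_zero, hp1.ne_zero]⟩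
  have : NeZero m2 := ⟨by rw [hm2]; split_ifs; exacts [hp1.ne_zero, one_ne_zero]⟩
  obtain ⟨s', hs', hs1⟩ : ∃ s' : ℕ, TD k (E0' : Set E') s' ∧ m1 * p ^ s' = p ^ s := by
    by_cases h0 : c = 0
    · refine ⟨s, ?_, ?_⟩
      · rw [← hset]
        exact TD.res hP E0 hTD
      · rw [hm1, if_pos h0, one_mul]
    · have h4 := TD.res_ram hP E0 hTD γ hγ hγ0 (by rw [hγw]; exact_mod_cast h0)
      refine ⟨s - 1, ?_, ?_⟩
      · rw [← hset]
        exact h4.2
      · rw [hm1, if_neg h0, ← pow_succ', Nat.sub_add_cancel h4.1]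
  have key := count A hI (Gd p (E0' : Set E') fun j => algebraMap R E' (τ j))
    (p ^ (s' + padicValNat p (Module.finrank R E'))) (fun B hB hB2 => by
      have h5 := h s' E' (fun j => algebraMap R E' (τ j)) h1 h2 E0' hs' B hB hB2
      rwa [h3] at h5) (T := ZMod m1 × ZMod m2)
    (fun a => ((ν a : ZMod m1), (a (Fin.last q) : ZMod m2))) (fun a ha b hb hab => by
      rw [Prod.mk.injEq] at hab
      rw [← hset]
      refine reduce_two hP E0 hp1 τ hτ0 x hx e he c γ hγ hγ0 hγw a b (G a) (H a) (G b) (H b)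
        (hG a ha) (hG b hb) (hG0 a ha) (hH0 a ha) (hG0 b hb) (hH0 b hb) (hGH a ha) (hGH b hb)
        (ν a) (ν b) (hν a ha) (hν b hb) ?_ ?_
      · intro h0
        have h6 := (ZMod.intCast_eq_intCast_iff_dvd_sub _ _ _).1 hab.1
        rw [hm1, if_neg h0] at h6
        rw [← neg_sub, dvd_neg]
        exact h6
      · intro h0
        have h6 := (ZMod.intCast_eq_intCast_iff_dvd_sub _ _ _).1 hab.2
        rw [hm2, if_pos h0] at h6
        rw [← neg_sub, dvd_neg]
        exact h6)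
  refine key.trans ?_
  rw [Fintype.card_prod, ZMod.card, ZMod.card, padicValNat.mul he0.ne' hf, pow_add, pow_add,
    pow_add, ← hs1]
  have h7 : m2 ≤ p ^ padicValNat p e := by
    rw [hm2]
    split_ifs with h8
    · calc p = p ^ 1 := (pow_one p).symm
        _ ≤ _ := Nat.pow_le_pow_right hp1.pos (one_le_padicValNat_of_dvd he0.ne' h8)
    · exact Nat.one_le_pow _ _ hp1.pos
  calc m1 * m2 * (p ^ s' * p ^ padicValNat p (Module.finrank R E'))
      = (m1 * p ^ s') * (m2 * p ^ padicValNat p (Module.finrank R E')) := by ring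
    _ ≤ (m1 * p ^ s') * (p ^ padicValNat p e * p ^ padicValNat p (Module.finrank R E')) :=
        Nat.mul_le_mul_left _ (Nat.mul_le_mul_right _ h7)

/-- RD-S5 (uses everything above, `place`, `exists_res`, `TD.res`, `TD.res_ram`).
`R = adjoin κ (range (t ∘ castSucc))` (a field with `τ j = ⟨t j.castSucc, _⟩`, algebraically
independent, generating), `x = t last`, `split_last`, `place R x p`: `E'`, `w`, `r`, `e`. Make `E'` a
`κ`- and a `k`-algebra through `R` (`IsScalarTower κ R E'`, `IsScalarTower k κ E'`, `IsScalarTower k R E'`).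
`E0'` from `exists_res`, `c`, `γ` from `exists_c`. `T = ZMod m1 × ZMod m2`, `m1 = if c = 0 then 1 else p`,
`m2 = if p ∣ e then p else 1`; `Φ a = (ν a, a last)`, where for `a ∈ A` elements `g_a, h_a` are chosen and
`w g_a = c ν a`. `count` with `G = Gd p E0' (algebraMap R E' ∘ τ)` and
`M = p ^ (s' + padicValNat p [E' : R])` (the induction hypothesis, `res_transport`), `s' = s` if `c = 0`,
`s' = s - 1` otherwise (`TD.res_ram` for `γ`; then `1 ≤ s`). `Φ a = Φ b` gives the hypotheses of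
`reduce_two` (`ZMod.intCast_eq_intCast_iff_dvd_sub`; for `m1 = 1`, `c = 0`: nothing). Finally
`m1 * m2 * p ^ (s' + v_p f) ≤ p ^ (s + v_p (e f)) ≤ p ^ (s + v_p [E : κ(t)])`. -/
theorem PiS.succ (k : Type v) (κ : Type u) [Field k] [Field κ] [CharZero κ] [Algebra k κ] (p : ℕ)
    [Fact p.Prime] (q : ℕ) (h : PiS k κ p q) : PiS k κ p (q + 1) := by
  intro s E _ _ _ _ t ht hfd E0 hTD A hA hI
  obtain ⟨R, hR⟩ : ∃ R : IntermediateField κ E,
      R = adjoin κ (Set.range fun j : Fin q => t j.castSucc) := ⟨_, rfl⟩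
  obtain ⟨hx, hfd2, hfr⟩ := split_last t ht hfd R hR
  have : CharZero R := charZero_of_injective_algebraMap (algebraMap κ R).injective
  have := hfd2
  obtain ⟨E', _, _, w, r, e, hP, hwx, he0, hfd3, hv⟩ := place R (t (Fin.last q)) hx p
  have := hfd3
  have hmem : ∀ j : Fin q, t j.castSucc ∈ R := fun j => by
    rw [hR]
    exact subset_adjoin κ _ ⟨j, rfl⟩
  let : Algebra κ E' := ((algebraMap R E').comp (algebraMap κ R)).toAlgebra
  let : Algebra k E' := ((algebraMap R E').comp (algebraMap k R)).toAlgebra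
  have : IsScalarTower κ R E' := IsScalarTower.of_algebraMap_eq' rfl
  have : IsScalarTower k R E' := IsScalarTower.of_algebraMap_eq' rfl
  have : IsScalarTower k R E := IsScalarTower.of_algebraMap_eq fun z => by
    rw [IsScalarTower.algebraMap_apply k κ R, ← IsScalarTower.algebraMap_apply κ R E,
      ← IsScalarTower.algebraMap_apply k κ E]
  have : IsScalarTower k κ E' := IsScalarTower.of_algebraMap_eq' (by
    change (algebraMap R E').comp (algebraMap k R) =
      ((algebraMap R E').comp (algebraMap κ R)).comp (algebraMap k κ)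
    rw [RingHom.comp_assoc, ← IsScalarTower.algebraMap_eq k κ R])
  have hτ : AlgebraicIndependent κ (fun j : Fin q => (⟨t j.castSucc, hmem j⟩ : R)) :=
    AlgebraicIndependent.of_comp R.val (ht.comp _ (Fin.castSucc_injective q))
  have hgen : adjoin κ (Set.range fun j : Fin q => (⟨t j.castSucc, hmem j⟩ : R)) = ⊤ := by
    apply IntermediateField.map_injective R.val
    rw [adjoin_map, ← Set.range_comp, ← AlgHom.fieldRange_eq_map, IntermediateField.fieldRange_val]
    exact hR.symm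
  have hfin := PiS.succ_aux (k := k) (E' := E') h hP E0 hTD _ hτ hgen (t (Fin.last q)) (ht.ne_zero _) e hwx he0 A
    (fun a ha => by
      obtain ⟨g, hg1, h', hg0, hh0, hgh⟩ := hA a ha
      refine ⟨g, hg1, h', hg0, hh0, ?_⟩
      rw [← hgh, Fin.prod_univ_castSucc]
      rfl) hI
  refine hfin.trans (Nat.pow_le_pow_right (Nat.Prime.pos Fact.out) ?_)
  rw [← hfr]
  exact Nat.add_le_add_left hv _

theorem PiS.all (k : Type v) (κ : Type u) [Field k] [Field κ] [CharZero κ] [Algebra k κ] (p : ℕ)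
    [Fact p.Prime] (q : ℕ) : PiS k κ p q := by
  induction q with
  | zero => exact PiS.zero k κ p
  | succ q ih => exact PiS.succ k κ p q ih

end Pool.Agent.Helper15.RD
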