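import Pool.Agent.Helper15.RD.Pl

/-!
# Project RD, block T: transcendence degree
-/

set_option autoImplicit false

namespace Pool.Agent.Helper15.RD

open IntermediateField

/-- the set `S` contains no `s + 1` elements algebraically independent over `k` -/
def TD (k : Type*) {E : Type*} [Field k] [Field E] [Algebra k E] (S : Set E) (s : ℕ) : Prop :=
  ∀ u : Fin (s + 1) → E, (∀ i, u i ∈ S) → ¬ AlgebraicIndependent k u

section

variable {k : Type*} {E : Type*} [Field k] [Field E] [Algebra k E]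

/-- RD-T1. -/
theorem TD.mono {S S' : Set E} (h : S ⊆ S') {s : ℕ} (h' : TD k S' s) : TD k S s :=
  fun u hu => h' u fun i => h (hu i)

private theorem TD.of_trdeg_card {F : Type*} [Field F] [Algebra k F] {n : ℕ} {u : Fin n → F}
    (hu : AlgebraicIndependent k u) : (n : Cardinal) ≤ Algebra.trdeg k F := by
  have h1 := hu.lift_cardinalMk_le_trdeg
  rw [Cardinal.mk_fin, Cardinal.lift_natCast] at h1
  simpa using h1

private theorem TD.of_trdeg_exists {F : Type*} [Field F] [Algebra k F] {n : ℕ}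
    (h : (n : Cardinal) ≤ Algebra.trdeg k F) : ∃ u : Fin n → F, AlgebraicIndependent k u := by
  obtain ⟨ι, x, hx⟩ := exists_isTranscendenceBasis' k F
  rw [← hx.cardinalMk_eq_trdeg] at h
  have h1 : Cardinal.lift.{_, 0} (Cardinal.mk (Fin n)) ≤ Cardinal.lift.{0, _} (Cardinal.mk ι) := by
    rw [Cardinal.mk_fin, Cardinal.lift_natCast]
    simpa using h
  obtain ⟨f⟩ := Cardinal.lift_mk_le'.1 h1
  exact ⟨x ∘ f, hx.1.comp f f.injective⟩

/-- RD-T1. A family of `s + 1` algebraically independent elements of `F` has cardinality at most the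
transcendence degree. -/
theorem TD.of_trdeg (F : IntermediateField k E) {s : ℕ} (h : Algebra.trdeg k F ≤ s) :
    TD k (F : Set E) s := by
  intro u hu hi
  have h1 : AlgebraicIndependent k (fun i => (⟨u i, hu i⟩ : F)) :=
    AlgebraicIndependent.of_comp F.val hi
  have h2 := (TD.of_trdeg_card h1).trans h
  have h3 : s + 1 ≤ s := by exact_mod_cast h2
  omega

/-- RD-T1. `M` is algebraic over `F`, so they have the same transcendence degree over `k`. -/
theorem TD.of_algebraic (F M : IntermediateField k E) (hF : F ≤ M)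
    (hM : ∀ z ∈ M, IsAlgebraic F z) {s : ℕ} (h : TD k (F : Set E) s) : TD k (M : Set E) s := by
  intro u hu hi
  have h1 : AlgebraicIndependent k (fun i => (⟨u i, hu i⟩ : M)) :=
    AlgebraicIndependent.of_comp M.val hi
  have h2 := TD.of_trdeg_card h1
  let : Algebra F M := (IntermediateField.inclusion hF).toRingHom.toAlgebra
  have : IsScalarTower k F M := IsScalarTower.of_algebraMap_eq fun x => rfl
  have : IsScalarTower F M E := IsScalarTower.of_algebraMap_eq fun x => rfl
  have h3 : Algebra.IsAlgebraic F M := by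
    refine ⟨fun z => ?_⟩
    exact (isAlgebraic_algebraMap_iff (algebraMap M E).injective).1 (hM z z.2)
  have h4 := trdeg_add_eq k F (A := M)
  rw [trdeg_eq_zero (R := F) (A := M), add_zero] at h4
  rw [← h4] at h2
  obtain ⟨v, hv⟩ := TD.of_trdeg_exists h2
  exact h (fun i => (v i : E)) (fun i => (v i).2) (hv.map' (f := F.val) F.val.injective)

/-- RD-T1. -/
theorem TD.of_map {E' : Type*} [Field E'] [Algebra k E'] (f : E →ₐ[k] E') {S : Set E}
    {S' : Set E'} (hS : ∀ z ∈ S, f z ∈ S') {s : ℕ} (h : TD k S' s) : TD k S s :=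
  fun u hu hi => h (fun i => f (u i)) (fun i => hS _ (hu i)) (hi.map' (f := f) f.injective)

end

section

variable {k R E E' : Type*} [Field k] [Field R] [Field E] [Field E'] [Algebra k R] [Algebra k E]
  [Algebra k E'] [Algebra R E] [Algebra R E'] [IsScalarTower k R E] [IsScalarTower k R E']

private theorem exists_res_add {w : E → ℤ} {r : E → E'} (hP : Pl R w r) {a b : E}
    (ha : Oi w a) (hb : Oi w b) : Oi w (a + b) := by
  rcases eq_or_ne a 0 with rfl | ha0
  · rwa [zero_add]
  rcases eq_or_ne b 0 with rfl | hb0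
  · rwa [add_zero]
  by_cases hab : a + b = 0
  · exact Or.inl hab
  · exact Or.inr ((le_min (ha.resolve_left ha0) (hb.resolve_left hb0)).trans
      (hP.w_add a b ha0 hb0 hab))

private theorem exists_res_mul {w : E → ℤ} {r : E → E'} (hP : Pl R w r) {a b : E}
    (ha : Oi w a) (hb : Oi w b) : Oi w (a * b) := by
  rcases eq_or_ne a 0 with rfl | ha0
  · exact Or.inl (zero_mul _)
  rcases eq_or_ne b 0 with rfl | hb0
  · exact Or.inl (mul_zero _)
  right
  rw [hP.w_mul a b ha0 hb0]
  exact add_nonneg (ha.resolve_left ha0) (hb.resolve_left hb0)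

private theorem exists_res_alg {w : E → ℤ} {r : E → E'} (hP : Pl R w r) (c : k) :
    Oi w (algebraMap k E c) ∧ r (algebraMap k E c) = algebraMap k E' c := by
  rw [IsScalarTower.algebraMap_apply k R E, IsScalarTower.algebraMap_apply k R E']
  refine ⟨?_, hP.r_alg _⟩
  by_cases hc : algebraMap k R c = 0
  · left
    rw [hc, map_zero]
  · right
    rw [hP.w_alg _ hc]

private theorem exists_res_one {w : E → ℤ} {r : E → E'} (hP : Pl R w r) : w 1 = 0 ∧ r 1 = 1 := by
  have h1 := hP.w_alg 1 one_ne_zero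
  have h2 := hP.r_alg 1
  rw [map_one] at h1 h2
  rw [map_one] at h2
  exact ⟨h1, h2⟩

private theorem exists_res_inv {w : E → ℤ} {r : E → E'} (hP : Pl R w r) {z : E} (hz : Oi w z)
    (h : r z ≠ 0) : Oi w z⁻¹ ∧ r z⁻¹ = (r z)⁻¹ := by
  have h1 : ¬ (z = 0 ∨ 0 < w z) := fun h' => h ((hP.r_ker z hz).2 h')
  push Not at h1
  obtain ⟨hz0, hw⟩ := h1
  have hw0 : 0 ≤ w z := hz.resolve_left hz0
  have hi0 : z⁻¹ ≠ 0 := inv_ne_zero hz0
  have h2 := hP.w_mul z z⁻¹ hz0 hi0
  rw [mul_inv_cancel₀ hz0, (exists_res_one hP).1] at h2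
  have hO : Oi w z⁻¹ := Or.inr (by omega)
  refine ⟨hO, ?_⟩
  have h3 := hP.r_mul z z⁻¹ hz hO
  rw [mul_inv_cancel₀ hz0, (exists_res_one hP).2] at h3
  exact eq_inv_of_mul_eq_one_right h3.symm

/-- RD-T2. The residues of the integral elements of `E0` form a field (if `r z ≠ 0` then `w z = 0`,
`w z⁻¹ = 0` and `r z⁻¹ = (r z)⁻¹`). -/
theorem exists_res {w : E → ℤ} {r : E → E'} (hP : Pl R w r) (E0 : IntermediateField k E) :
    ∃ E0' : IntermediateField k E', ∀ y, y ∈ E0' ↔ ∃ z ∈ E0, Oi w z ∧ r z = y := by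
  refine ⟨{ carrier := {y | ∃ z ∈ E0, Oi w z ∧ r z = y}
            mul_mem' := ?_
            add_mem' := ?_
            algebraMap_mem' := ?_
            inv_mem' := ?_ }, fun y => Iff.rfl⟩
  · rintro _ _ ⟨a, ha, ha1, rfl⟩ ⟨b, hb, hb1, rfl⟩
    exact ⟨a * b, E0.mul_mem ha hb, exists_res_mul hP ha1 hb1, hP.r_mul a b ha1 hb1⟩
  · rintro _ _ ⟨a, ha, ha1, rfl⟩ ⟨b, hb, hb1, rfl⟩
    exact ⟨a + b, E0.add_mem ha hb, exists_res_add hP ha1 hb1, hP.r_add a b ha1 hb1⟩
  · intro c
    exact ⟨algebraMap k E c, E0.algebraMap_mem c, exists_res_alg hP c⟩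
  · rintro _ ⟨z, hz, hz1, rfl⟩
    by_cases h : r z = 0
    · refine ⟨0, E0.zero_mem, Or.inl rfl, ?_⟩
      rw [h, inv_zero]
      exact (hP.r_ker 0 (Or.inl rfl)).2 (Or.inl rfl)
    · exact ⟨z⁻¹, E0.inv_mem hz, exists_res_inv hP hz1 h⟩

private theorem TD.res_aeval {w : E → ℤ} {r : E → E'} (hP : Pl R w r) {σ : Type*} (z : σ → E)
    (hz : ∀ i, Oi w (z i)) (f : MvPolynomial σ k) :
    Oi w (MvPolynomial.aeval z f) ∧
      r (MvPolynomial.aeval z f) = MvPolynomial.aeval (fun i => r (z i)) f := by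
  induction f using MvPolynomial.induction_on with
  | C a =>
    rw [MvPolynomial.aeval_C, MvPolynomial.aeval_C]
    exact exists_res_alg hP a
  | add p q hp hq =>
    rw [map_add, map_add]
    refine ⟨exists_res_add hP hp.1 hq.1, ?_⟩
    rw [hP.r_add _ _ hp.1 hq.1, hp.2, hq.2]
  | mul_X p i hp =>
    rw [map_mul, map_mul, MvPolynomial.aeval_X, MvPolynomial.aeval_X]
    refine ⟨exists_res_mul hP hp.1 (hz i), ?_⟩
    rw [hP.r_mul _ _ hp.1 (hz i), hp.2]

/-- RD-T2. If residues of `u i ∈ E0` are algebraically independent then so are the `u i`: for a nonzero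
polynomial `f` over `k` we have `r (f (u)) = f (r u) ≠ 0`. -/
theorem TD.res {w : E → ℤ} {r : E → E'} (hP : Pl R w r) (E0 : IntermediateField k E) {s : ℕ}
    (h : TD k (E0 : Set E) s) : TD k {y : E' | ∃ z ∈ E0, Oi w z ∧ r z = y} s := by
  intro u hu hi
  choose z hz hz1 hz2 using hu
  refine h z hz ?_
  rw [algebraicIndependent_iff]
  intro f hf
  have h1 := (TD.res_aeval hP z hz1 f).2
  rw [hf, (hP.r_ker 0 (Or.inl rfl)).2 (Or.inl rfl)] at h1
  have h2 : (fun i => r (z i)) = u := funext hz2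
  rw [h2] at h1
  exact (algebraicIndependent_iff.1 hi) f h1.symm

omit [Field k] [Field R] [Field E] [Field E'] [Algebra k R] [Algebra k E]
  [Algebra k E'] [Algebra R E] [Algebra R E'] [IsScalarTower k R E] [IsScalarTower k R E'] in
private theorem TD.res_ram_ind {k E' O : Type*} [Field k] [Field E'] [Algebra k E'] [CommRing O]
    [IsDomain O] [Algebra k O]
    (ρ : O →ₐ[k] E') (p : O) (hp : p ≠ 0) (hρ : ρ p = 0) {m : ℕ} (u : Fin m → O)
    (hu : AlgebraicIndependent k (fun i => ρ (u i))) :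
    AlgebraicIndependent k (Fin.cons p u : Fin (m + 1) → O) := by
  rw [algebraicIndependent_iff]
  intro f hf
  have key : (Polynomial.eval₂AlgHom (MvPolynomial.aeval (R := k) u) p
      (fun a => Commute.all _ _)).comp
      (MvPolynomial.finSuccEquiv k m : MvPolynomial (Fin (m + 1)) k →ₐ[k] _) =
      MvPolynomial.aeval (Fin.cons p u : Fin (m + 1) → O) := by
    apply MvPolynomial.algHom_ext
    intro i
    refine Fin.cases ?_ (fun j => ?_) i
    · simp [MvPolynomial.finSuccEquiv_X_zero]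
    · simp [MvPolynomial.finSuccEquiv_X_succ]
  rw [← key] at hf
  by_contra hf0
  have hF0 : MvPolynomial.finSuccEquiv k m f ≠ 0 := by
    intro h
    apply hf0
    exact (map_eq_zero_iff _ (MvPolynomial.finSuccEquiv k m).injective).1 h
  obtain ⟨F, hF⟩ : ∃ F, MvPolynomial.finSuccEquiv k m f = F := ⟨_, rfl⟩
  rw [hF] at hF0
  have hf' : Polynomial.eval₂ (MvPolynomial.aeval (R := k) u : MvPolynomial (Fin m) k →+* O) p F
      = 0 := by
    rw [← hF]
    exact hf
  obtain ⟨n, hn⟩ : ∃ n, n = F.natTrailingDegree := ⟨_, rfl⟩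
  have hn0 : F.coeff n ≠ 0 := by
    rw [hn, ← Polynomial.trailingCoeff]
    exact Polynomial.trailingCoeff_nonzero_iff_nonzero.2 hF0
  obtain ⟨G, hG⟩ : Polynomial.X ^ n ∣ F := by
    rw [Polynomial.X_pow_dvd_iff]
    intro d hd
    rw [hn] at hd
    exact Polynomial.coeff_eq_zero_of_lt_natTrailingDegree hd
  have hG0 : G.coeff 0 ≠ 0 := by
    have h2 : F.coeff n = G.coeff 0 := by
      rw [hG]
      have h3 := Polynomial.coeff_X_pow_mul G n 0
      rwa [zero_add] at h3
    rwa [h2] at hn0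
  rw [hG, Polynomial.eval₂_mul, Polynomial.eval₂_pow, Polynomial.eval₂_X] at hf'
  have h3 := (mul_eq_zero.1 hf').resolve_left (pow_ne_zero _ hp)
  have h4 := congrArg (ρ : O →+* E') h3
  rw [Polynomial.hom_eval₂, map_zero] at h4
  have h5 : (ρ : O →+* E') p = 0 := hρ
  rw [h5, Polynomial.eval₂_at_zero] at h4
  apply hG0
  apply hu
  rw [map_zero, ← h4]
  have h6 : MvPolynomial.aeval (R := k) (fun i => ρ (u i)) =
      ρ.comp (MvPolynomial.aeval (R := k) u) := by
    apply MvPolynomial.algHom_ext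
    intro i
    simp
  exact congrArg (fun q => q (G.coeff 0)) h6

private theorem TD.res_ram_sub {w : E → ℤ} {r : E → E'} (hP : Pl R w r) :
    ∃ (O : Subalgebra k E) (ρ : O →ₐ[k] E'), (∀ z, z ∈ O ↔ Oi w z) ∧ ∀ z : O, ρ z = r z := by
  have hadd : ∀ {a b}, Oi w a → Oi w b → Oi w (a + b) := by
    intro a b ha hb
    rcases eq_or_ne a 0 with rfl | ha0
    · rwa [zero_add]
    rcases eq_or_ne b 0 with rfl | hb0
    · rwa [add_zero]
    by_cases hab : a + b = 0
    · exact Or.inl hab
    · exact Or.inr ((le_min (ha.resolve_left ha0) (hb.resolve_left hb0)).trans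
        (hP.w_add a b ha0 hb0 hab))
  have hmul : ∀ {a b}, Oi w a → Oi w b → Oi w (a * b) := by
    intro a b ha hb
    rcases eq_or_ne a 0 with rfl | ha0
    · exact Or.inl (zero_mul _)
    rcases eq_or_ne b 0 with rfl | hb0
    · exact Or.inl (mul_zero _)
    right
    rw [hP.w_mul a b ha0 hb0]
    exact add_nonneg (ha.resolve_left ha0) (hb.resolve_left hb0)
  have halg : ∀ c : R, Oi w (algebraMap R E c) := by
    intro c
    rcases eq_or_ne c 0 with rfl | hc
    · exact Or.inl (map_zero _)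
    · exact Or.inr (hP.w_alg c hc).ge
  let O : Subalgebra k E :=
    { carrier := {z | Oi w z}
      mul_mem' := fun ha hb => hmul ha hb
      add_mem' := fun ha hb => hadd ha hb
      algebraMap_mem' := fun c => by
        rw [IsScalarTower.algebraMap_apply k R E c]
        exact halg _ }
  have h1 : r 1 = 1 := by
    have := hP.r_alg 1
    rwa [map_one, map_one] at this
  have h0 : r 0 = 0 := by
    have := hP.r_alg 0
    rwa [map_zero, map_zero] at this
  let ρ : O →ₐ[k] E' :=
    { toFun := fun z => r z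
      map_one' := h1
      map_zero' := h0
      map_mul' := fun a b => hP.r_mul _ _ a.2 b.2
      map_add' := fun a b => hP.r_add _ _ a.2 b.2
      commutes' := fun c => by
        have h2 := hP.r_alg (algebraMap k R c)
        rw [← IsScalarTower.algebraMap_apply k R E c,
          ← IsScalarTower.algebraMap_apply k R E' c] at h2
        exact h2 }
  exact ⟨O, ρ, fun z => Iff.rfl, fun z => rfl⟩

/-- RD-T3. Let `π ∈ E0`, `w π > 0` (`z` or `z⁻¹`), `u i ∈ E0` integral with algebraically independent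
residues (`m` of them). Then `π, u i` are algebraically independent over `k`: if `F (π, u) = 0`, `F ≠ 0`,
write `F = ∑ j, T ^ j F_j (u)`; let `j` be minimal with `F_j ≠ 0`; divide by `π ^ j`:
`F_j (u) + π (...) = 0` with `...` integral, so `F_j (r u) = 0`, contradiction. (If `s = 0` take `m = 0`:
`π` is transcendental over `k`, contradiction with `h`; so `1 ≤ s`.) -/
theorem TD.res_ram {w : E → ℤ} {r : E → E'} (hP : Pl R w r) (E0 : IntermediateField k E) {s : ℕ}
    (h : TD k (E0 : Set E) s) (z : E) (hz : z ∈ E0) (hz0 : z ≠ 0) (hw : w z ≠ 0) :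
    1 ≤ s ∧ TD k {y : E' | ∃ z ∈ E0, Oi w z ∧ r z = y} (s - 1) := by
  obtain ⟨π, hπ, hπ0, hwπ⟩ : ∃ π ∈ E0, π ≠ 0 ∧ 0 < w π := by
    rcases lt_or_gt_of_ne hw with h1 | h1
    · refine ⟨z⁻¹, E0.inv_mem hz, inv_ne_zero hz0, ?_⟩
      have h2 := hP.w_mul z z⁻¹ hz0 (inv_ne_zero hz0)
      rw [mul_inv_cancel₀ hz0] at h2
      have h3 := hP.w_alg 1 one_ne_zero
      rw [map_one] at h3
      omega
    · exact ⟨z, hz, hz0, h1⟩
  obtain ⟨O, ρ, hO, hρ⟩ := TD.res_ram_sub (k := k) hP
  have key : ∀ {m : ℕ} (u : Fin m → E), (∀ i, u i ∈ E0) → (∀ i, Oi w (u i)) →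
      AlgebraicIndependent k (fun i => r (u i)) →
      ∃ v : Fin (m + 1) → E, (∀ i, v i ∈ E0) ∧ AlgebraicIndependent k v := by
    intro m u hu hui hind
    have hπO : π ∈ O := (hO π).2 (Or.inr hwπ.le)
    have huO : ∀ i, u i ∈ O := fun i => (hO _).2 (hui i)
    refine ⟨Fin.cons π u, fun i => ?_, ?_⟩
    · refine Fin.cases ?_ (fun j => ?_) i
      · exact hπ
      · exact hu j
    · have h1 := TD.res_ram_ind ρ ⟨π, hπO⟩ (fun h2 => hπ0 (congrArg Subtype.val h2))
        (by
          rw [hρ]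
          exact (hP.r_ker π (Or.inr hwπ.le)).2 (Or.inr hwπ)) (fun i => ⟨u i, huO i⟩)
        (by
          simpa only [hρ] using hind)
      have h2 := h1.map' (f := O.val) Subtype.val_injective
      convert h2 using 1
      funext i
      refine Fin.cases ?_ (fun j => ?_) i
      · rfl
      · rfl
  rcases s with _ | s
  · exfalso
    obtain ⟨v, hv, hi⟩ := key (m := 0) (fun i => i.elim0) (fun i => i.elim0) (fun i => i.elim0)
      (by
        rw [algebraicIndependent_empty_type_iff]
        exact (algebraMap k E').injective)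
    exact h v hv hi
  · refine ⟨by omega, ?_⟩
    intro y hy hi
    choose u hu hui hr using hy
    have h1 : (fun i => r (u i)) = y := funext hr
    obtain ⟨v, hv, hvi⟩ := key u hu hui (by rw [h1]; exact hi)
    exact h v hv hvi

end

end Pool.Agent.Helper15.RD
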