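import Pool.Agent.Helper15.RD.Cy

/-!
# Project RD (B), block U: the prime divisor of a stable subfield of transcendence degree one

`R = MvPolynomial (Fin n) E`, `F` its fraction field, `L = k(x) ⊆ M`, embedded in `F` by `x i ↦ X i`.
-/

set_option autoImplicit false

namespace Pool.Agent.Helper15.RD

open IntermediateField

universe u v

/-! ### U1: the kernel -/

/-- RD-U1. The kernel of `aeval y` is a nonzero prime ideal, so it contains a prime element `f`
(`A[X]` is a UFD); `f` is not constant, so it is primitive and irreducible over the fraction field `K` of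
`A` (Gauss), so it is associated to the minimal polynomial of `y` over `K`; if `g (y) = 0` then `f`
divides `g` over `K`, hence over `A` (`Polynomial.IsPrimitive.dvd_of_fraction_map_dvd_fraction_map`). -/
theorem kernel_core {A M : Type*} [CommRing A] [IsDomain A] [UniqueFactorizationMonoid A] [Field M]
    [Algebra A M] (hA : Function.Injective (algebraMap A M)) (y : M) (hy : IsAlgebraic A y) :
    ∃ f : Polynomial A, Prime f ∧ ∀ g, Polynomial.aeval y g = 0 ↔ f ∣ g := by
  classical
  let _ : NormalizedGCDMonoid A := Nonempty.some (inferInstance : Nonempty (NormalizedGCDMonoid A))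
  have : FaithfulSMul A M := (faithfulSMul_iff_algebraMap_injective A M).2 hA
  let _ : Algebra (FractionRing A) M := FractionRing.liftAlgebra A M
  have : IsScalarTower A (FractionRing A) M := FractionRing.isScalarTower_liftAlgebra A M
  obtain ⟨p, hp0, hpy⟩ := hy
  have hI : (RingHom.ker (Polynomial.aeval y : Polynomial A →ₐ[A] M)) ≠ ⊥ := by
    intro h
    apply hp0
    have h1 : p ∈ RingHom.ker (Polynomial.aeval y : Polynomial A →ₐ[A] M) := by
      rw [RingHom.mem_ker]
      exact hpy
    rw [h] at h1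
    exact h1
  obtain ⟨f, hfI, hf⟩ := Ideal.IsPrime.exists_mem_prime_of_ne_bot
    (RingHom.ker_isPrime (Polynomial.aeval y : Polynomial A →ₐ[A] M)) hI
  rw [RingHom.mem_ker] at hfI
  have hdeg : f.natDegree ≠ 0 := by
    intro h
    obtain ⟨a, ha⟩ := Polynomial.natDegree_eq_zero.1 h
    rw [← ha, Polynomial.aeval_C] at hfI
    have h2 : a = 0 := hA (by rw [hfI, map_zero])
    rw [h2, Polynomial.C_0] at ha
    exact hf.ne_zero ha.symm
  have hprim : f.IsPrimitive := hf.irreducible.isPrimitive hdeg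
  have hirr : Irreducible (f.map (algebraMap A (FractionRing A))) :=
    (Polynomial.IsPrimitive.irreducible_iff_irreducible_map_fraction_map hprim).1 hf.irreducible
  have hroot : ∀ g : Polynomial A, Polynomial.aeval y g = 0 →
      Polynomial.aeval y (g.map (algebraMap A (FractionRing A))) = 0 := by
    intro g hg
    rw [Polynomial.aeval_map_algebraMap]
    exact hg
  have hint : IsIntegral (FractionRing A) y :=
    IsAlgebraic.isIntegral ⟨_, hirr.ne_zero, hroot f hfI⟩
  have hmin : f.map (algebraMap A (FractionRing A)) ∣ minpoly (FractionRing A) y :=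
    (minpoly.irreducible hint).dvd_symm hirr (minpoly.dvd _ _ (hroot f hfI))
  refine ⟨f, hf, fun g => ⟨fun hg => ?_, ?_⟩⟩
  · exact hprim.dvd_of_fraction_map_dvd_fraction_map
      (hmin.trans (minpoly.dvd _ _ (hroot g hg)))
  · rintro ⟨h, rfl⟩
    rw [map_mul, hfI, zero_mul]

section

variable {k : Type v} {M : Type u} [Field k] [Field M] [Algebra k M]

private theorem exists_erase_alg (S : Set M) (E : IntermediateField k M)
    (h : Algebra.IsAlgebraic (Algebra.adjoin k S) M) :
    Algebra.IsAlgebraic (Algebra.adjoin E S) M := by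
  have hle : Algebra.adjoin k S ≤ (Algebra.adjoin E S).restrictScalars k := by
    refine Algebra.adjoin_le fun z hz => ?_
    exact Algebra.subset_adjoin (R := E) hz
  refine ⟨fun z => ?_⟩
  refine IsAlgebraic.ringHom_of_comp_eq (S := Algebra.adjoin E S) (B := M)
    (f := (Subalgebra.inclusion hle).toRingHom) (g := RingHom.id M) (h.isAlgebraic z) ?_ ?_
  · exact Subalgebra.inclusion_injective hle
  · ext a
    rfl

private theorem exists_erase_one (E : IntermediateField k M)
    (hTD : TD k (E : Set M) 1) (u : M) (hu : u ∈ E) (hut : Transcendental k u) :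
    Algebra.trdeg k E = 1 := by
  apply le_antisymm
  · by_contra hcon
    rw [not_le] at hcon
    have h2 : ((2 : ℕ) : Cardinal) ≤ Algebra.trdeg k E := by
      have h3 : ((1 : ℕ) : Cardinal) < Algebra.trdeg k E := by simpa using hcon
      have h4 := Order.succ_le_of_lt h3
      rw [Cardinal.succ_natCast] at h4
      exact_mod_cast h4
    obtain ⟨ι, y, hy⟩ := exists_isTranscendenceBasis' k E
    rw [← hy.cardinalMk_eq_trdeg] at h2
    have h5 : Cardinal.lift.{_, 0} (Cardinal.mk (Fin 2)) ≤
        Cardinal.lift.{0, _} (Cardinal.mk ι) := by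
      rw [Cardinal.mk_fin, Cardinal.lift_natCast]
      simpa using h2
    obtain ⟨f⟩ := Cardinal.lift_mk_le'.1 h5
    have hv : AlgebraicIndependent k (y ∘ f) := hy.1.comp f f.injective
    exact hTD (fun i => ((y ∘ f) i : M)) (fun i => ((y ∘ f) i).2)
      (hv.map' (f := E.val) E.val.injective)
  · have h1 : Transcendental k (⟨u, hu⟩ : E) := by
      intro h
      exact hut (h.algHom E.val)
    have h2 : AlgebraicIndependent k (fun _ : Fin 1 => (⟨u, hu⟩ : E)) := by
      rw [algebraicIndependent_unique_type_iff]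
      exact h1
    have h3 := h2.lift_cardinalMk_le_trdeg
    simpa using h3

/-- RD-U2. Let `t ⊆ Fin n` be maximal such that the `x j`, `j ∈ t`, are algebraically independent over
`E`; then `M` is algebraic over `E(x_t)`, so `trdeg E M = card t`; `trdeg k M = n`
(`x` is a transcendence basis), `trdeg k E = 1`, so `card t = n - 1` (`trdeg_add_eq`) and
`t = univ \ {i}`. -/
theorem exists_erase {n : ℕ} (x : Fin n → M) (hx : AlgebraicIndependent k x)
    (hM : Algebra.IsAlgebraic (adjoin k (Set.range x)) M) (E : IntermediateField k M)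
    (hTD : TD k (E : Set M) 1) (u : M) (hu : u ∈ E) (hut : Transcendental k u) :
    ∃ i : Fin n, AlgebraicIndependent E (fun j : {j // j ≠ i} => x j) ∧
      IsAlgebraic (Algebra.adjoin E (Set.range fun j : {j // j ≠ i} => x j)) (x i) := by
  classical
  have hA : Algebra.IsAlgebraic (Algebra.adjoin k (Set.range x)) M := by
    open scoped algebraAdjoinAdjoin in
    exact Algebra.IsAlgebraic.trans (Algebra.adjoin k (Set.range x))
      (IntermediateField.adjoin k (Set.range x)) M
  have hxb : IsTranscendenceBasis k x :=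
    isTranscendenceBasis_iff_algebraicIndependent_isAlgebraic.2 ⟨hx, hA⟩
  have htr : Algebra.trdeg k M = n := by
    have h := hxb.lift_cardinalMk_eq_trdeg
    rw [Cardinal.mk_fin, Cardinal.lift_natCast] at h
    simpa using h.symm
  have hE1 := exists_erase_one E hTD u hu hut
  have hadd := trdeg_add_eq k E (A := M)
  have hAE := exists_erase_alg (Set.range x) E hA
  obtain ⟨t, htx, ht⟩ := exists_isTranscendenceBasis_subset (R := E) (Set.range x)
  have hinj : Function.Injective x := hx.injective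
  have hcard := ht.cardinalMk_eq_trdeg
  rw [hE1, htr, ← hcard] at hadd
  have hfin : t.Finite := (Set.finite_range x).subset htx
  have hnc : 1 + t.ncard = n := by
    have h1 : Cardinal.mk t = (t.ncard : Cardinal) := (Set.cast_ncard hfin).symm
    rw [h1] at hadd
    exact_mod_cast hadd
  obtain ⟨s, hs⟩ : ∃ s : Finset (Fin n), s = Finset.univ.filter (fun j => x j ∈ t) := ⟨_, rfl⟩
  have hst : x '' (s : Set (Fin n)) = t := by
    ext z
    constructor
    · rintro ⟨j, hj, rfl⟩
      rw [hs] at hj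
      simpa using hj
    · intro hz
      obtain ⟨j, rfl⟩ := htx hz
      refine ⟨j, ?_, rfl⟩
      rw [hs]
      simpa using hz
  have hsc : s.card = t.ncard := by
    rw [← hst, Set.ncard_image_of_injective _ hinj, Set.ncard_coe_finset]
  have hcc : sᶜ.card = 1 := by
    rw [Finset.card_compl, Fintype.card_fin, hsc]
    omega
  obtain ⟨i, hi⟩ := Finset.card_eq_one.1 hcc
  have hmem : ∀ j, x j ∈ t ↔ j ≠ i := by
    intro j
    have h1 : j ∈ sᶜ ↔ j = i := by rw [hi, Finset.mem_singleton]
    rw [Finset.mem_compl, hs, Finset.mem_filter] at h1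
    simp only [Finset.mem_univ, true_and] at h1
    rw [ne_eq, ← h1, not_not]
  have hrange : Set.range (fun j : {j // j ≠ i} => x j) = t := by
    ext z
    constructor
    · rintro ⟨j, rfl⟩
      exact (hmem j).2 j.2
    · intro hz
      obtain ⟨j, rfl⟩ := htx hz
      exact ⟨⟨j, (hmem j).1 hz⟩, rfl⟩
  refine ⟨i, ?_, ?_⟩
  · exact ht.1.comp (fun j : {j // j ≠ i} => (⟨x j, (hmem j).2 j.2⟩ : t)) (fun a b hab =>
      Subtype.ext (hinj (congrArg Subtype.val hab)))
  · have h1 := ht.isAlgebraic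
    rw [Subtype.range_coe] at h1
    rw [hrange]
    exact h1.isAlgebraic (x i)

/-- Auxiliary: evaluation at `x` through the isomorphism with polynomials in `X i`. -/
theorem kernel_aux {n : ℕ} (x : Fin n → M) (E : IntermediateField k M) (i : Fin n)
    (hi : AlgebraicIndependent E (fun j : {j // j ≠ i} => x j))
    (ha : IsAlgebraic (Algebra.adjoin E (Set.range fun j : {j // j ≠ i} => x j)) (x i)) :
    ∃ f : MvPolynomial (Fin n) E, Prime f ∧ ∀ g, MvPolynomial.aeval x g = 0 ↔ f ∣ g := by
  classical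
  let _ : Algebra (MvPolynomial {j // j ≠ i} E) M :=
    (MvPolynomial.aeval (fun j : {j // j ≠ i} => x j) :
      MvPolynomial {j // j ≠ i} E →ₐ[E] M).toRingHom.toAlgebra
  have hmap : ∀ q : MvPolynomial {j // j ≠ i} E,
      algebraMap (MvPolynomial {j // j ≠ i} E) M q =
        MvPolynomial.aeval (fun j : {j // j ≠ i} => x j) q := fun q => rfl
  have _ : IsScalarTower E (MvPolynomial {j // j ≠ i} E) M := by
    refine IsScalarTower.of_algebraMap_eq fun c => ?_
    rw [hmap]
    exact ((MvPolynomial.aeval (fun j : {j // j ≠ i} => x j)).commutes c).symm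
  have hinj : Function.Injective (algebraMap (MvPolynomial {j // j ≠ i} E) M) := hi
  have hy : IsAlgebraic (MvPolynomial {j // j ≠ i} E) (x i) := by
    refine IsAlgebraic.of_ringHom_of_comp_eq (f := (hi.aevalEquiv : _ ≃ₐ[E] _))
      (g := RingHom.id M) (a := x i) ha hi.aevalEquiv.surjective Function.injective_id ?_
    ext <;> simp [hmap]
  obtain ⟨f, hf, hfk⟩ := kernel_core hinj (x i) hy
  let e : MvPolynomial (Fin n) E ≃ₐ[E] Polynomial (MvPolynomial {j // j ≠ i} E) :=
    (MvPolynomial.renameEquiv E (Equiv.optionSubtypeNe i).symm).trans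
      (MvPolynomial.optionEquivLeft E {j // j ≠ i})
  have he : ∀ g, MvPolynomial.aeval x g = Polynomial.aeval (x i) (e g) := by
    have h : (MvPolynomial.aeval x : MvPolynomial (Fin n) E →ₐ[E] M) =
        ((Polynomial.aeval (x i) :
          Polynomial (MvPolynomial {j // j ≠ i} E) →ₐ[MvPolynomial {j // j ≠ i} E] M).restrictScalars
            E).comp (e : MvPolynomial (Fin n) E →ₐ[E] _) := by
      refine MvPolynomial.algHom_ext fun j => ?_
      by_cases hj : j = i
      · subst hj
        simp [e]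
      · simp [e, Equiv.optionSubtypeNe_symm_of_ne hj, hmap]
    intro g
    exact DFunLike.congr_fun h g
  refine ⟨e.symm f, (MulEquiv.prime_iff e.symm.toMulEquiv).2 hf, fun g => ?_⟩
  rw [he, hfk]
  constructor
  · rintro ⟨c, hc⟩
    refine ⟨e.symm c, ?_⟩
    rw [← map_mul, ← hc, AlgEquiv.symm_apply_apply]
  · rintro ⟨c, hc⟩
    refine ⟨e c, ?_⟩
    rw [hc, map_mul, AlgEquiv.apply_symm_apply]

/-- RD-U3 (uses `exists_erase`, `kernel_core` with `A = MvPolynomial {j // j ≠ i} E`, which acts on `M` by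
`aeval`). `MvPolynomial (Fin n) E` is isomorphic to `Polynomial A` with `X i` corresponding to `X`
(`Equiv.optionSubtypeNe`, `MvPolynomial.renameEquiv`, `MvPolynomial.optionEquivLeft`). -/
theorem kernel {n : ℕ} (x : Fin n → M) (hx : AlgebraicIndependent k x)
    (hM : Algebra.IsAlgebraic (adjoin k (Set.range x)) M) (E : IntermediateField k M)
    (hTD : TD k (E : Set M) 1) (u : M) (hu : u ∈ E) (hut : Transcendental k u) :
    ∃ f : MvPolynomial (Fin n) E, Prime f ∧ ∀ g, MvPolynomial.aeval x g = 0 ↔ f ∣ g := by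
  obtain ⟨i, hi, ha⟩ := exists_erase x hx hM E hTD u hu hut
  exact kernel_aux x E i hi ha

/-! ### U4: the action on the polynomials -/

private noncomputable def exists_poly_action_phi (E : IntermediateField k M) {G : Type}
    [Group G] (ψ : G →* (M ≃ₐ[k] M)) (hE : ∀ g, ∀ z ∈ E, ψ g z ∈ E) (g : G) : E ≃ₐ[k] E where
  toFun z := ⟨ψ g z, hE g z z.2⟩
  invFun z := ⟨ψ g⁻¹ z, hE g⁻¹ z z.2⟩
  left_inv z := Subtype.ext (by
    change ψ g⁻¹ (ψ g (z : M)) = z
    rw [← AlgEquiv.mul_apply, ← map_mul, inv_mul_cancel, map_one, AlgEquiv.one_apply])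
  right_inv z := Subtype.ext (by
    change ψ g (ψ g⁻¹ (z : M)) = z
    rw [← AlgEquiv.mul_apply, ← map_mul, mul_inv_cancel, map_one, AlgEquiv.one_apply])
  map_mul' a b := Subtype.ext (map_mul (ψ g) (a : M) (b : M))
  map_add' a b := Subtype.ext (map_add (ψ g) (a : M) (b : M))
  commutes' c := Subtype.ext ((ψ g).commutes c)

/-- RD-U4. `T g p = rename (ρ g) (map (φ g) p)`, `φ g` the restriction of `ψ g` to `E`. -/
theorem exists_poly_action {n : ℕ} (x : Fin n → M) (E : IntermediateField k M) {G : Type}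
    [Group G] (ψ : G →* (M ≃ₐ[k] M)) (ρ : G →* Equiv.Perm (Fin n))
    (hρ : ∀ g i, ψ g (x i) = x (ρ g i)) (hE : ∀ g, ∀ z ∈ E, ψ g z ∈ E) :
    ∃ T : G →* (MvPolynomial (Fin n) E ≃ₐ[k] MvPolynomial (Fin n) E),
      (∀ g i, T g (MvPolynomial.X i) = MvPolynomial.X (ρ g i)) ∧
      (∀ g (c : E), ∃ c' : E, (c' : M) = ψ g c ∧ T g (MvPolynomial.C c) = MvPolynomial.C c') ∧
      ∀ g p, MvPolynomial.aeval x (T g p) = ψ g (MvPolynomial.aeval x p) := by
  obtain ⟨φ, hφ⟩ : ∃ φ : G → (E ≃ₐ[k] E), ∀ g (z : E), ((φ g z : E) : M) = ψ g (z : M) :=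
    ⟨exists_poly_action_phi E ψ hE, fun _ _ => rfl⟩
  obtain ⟨t, ht⟩ : ∃ t : G → (MvPolynomial (Fin n) E ≃ₐ[k] MvPolynomial (Fin n) E), ∀ g,
      t g = (MvPolynomial.mapAlgEquiv (Fin n) (φ g)).trans
        ((MvPolynomial.renameEquiv E (ρ g)).restrictScalars k) := ⟨_, fun _ => rfl⟩
  have hX : ∀ g i, t g (MvPolynomial.X i) = MvPolynomial.X (ρ g i) := by
    intro g i
    rw [ht]
    simp
  have hC : ∀ g (c : E), t g (MvPolynomial.C c) = MvPolynomial.C (φ g c) := by
    intro g c
    rw [ht]
    simp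
  have hφ1 : ∀ c, φ 1 c = c := fun c => Subtype.ext (by
    rw [hφ, map_one, AlgEquiv.one_apply])
  have hφm : ∀ g h c, φ (g * h) c = φ g (φ h c) := fun g h c => Subtype.ext (by
    rw [hφ, hφ, hφ, map_mul, AlgEquiv.mul_apply])
  refine ⟨{ toFun := t
            map_one' := ?_
            map_mul' := fun g h => ?_ }, hX, fun g c => ⟨φ g c, hφ g c, hC g c⟩, fun g p => ?_⟩
  · refine AlgEquiv.ext fun p => ?_
    rw [AlgEquiv.one_apply]
    induction p using MvPolynomial.induction_on with
    | C a => rw [hC, hφ1]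
    | add p q hp hq => rw [map_add, hp, hq]
    | mul_X p i hp => rw [map_mul, hp, hX, map_one, Equiv.Perm.one_apply]
  · refine AlgEquiv.ext fun p => ?_
    rw [AlgEquiv.mul_apply]
    induction p using MvPolynomial.induction_on with
    | C a => rw [hC, hC, hC, hφm]
    | add p q hp hq => rw [map_add, map_add, map_add, hp, hq]
    | mul_X p i hp => rw [map_mul, map_mul, map_mul, hp, hX, hX, hX, map_mul, Equiv.Perm.mul_apply]
  · change MvPolynomial.aeval x (t g p) = ψ g (MvPolynomial.aeval x p)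
    induction p using MvPolynomial.induction_on with
    | C a =>
      rw [hC, MvPolynomial.aeval_C, MvPolynomial.aeval_C]
      exact hφ g a
    | add p q hp hq => rw [map_add, map_add, map_add, map_add, hp, hq]
    | mul_X p i hp =>
      rw [map_mul, map_mul, map_mul, map_mul, hp, hX, MvPolynomial.aeval_X, MvPolynomial.aeval_X,
        hρ]

/-- the linear combination of the automorphisms which does not vanish -/
private theorem exists_inv_ne (E : IntermediateField k M) {G : Type}
    [Group G] [Fintype G] (ψ : G →* (M ≃ₐ[k] M))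
    (hf : ∀ g, (∀ z ∈ E, ψ g z = z) → g = 1) (c : G → M) (h1 : c 1 ≠ 0) :
    ∃ z : E, ∑ h, c h * ψ h (z : M) ≠ 0 := by
  classical
  let f : G → (E →* M) := fun g => ((ψ g : M ≃ₐ[k] M) : M →* M).comp (E.val : E →* M)
  have hfv : ∀ g (z : E), f g z = ψ g (z : M) := fun g z => rfl
  have hfinj : Function.Injective f := by
    intro v w hvw
    have h1 : w⁻¹ * v = 1 := by
      refine hf _ fun z hz => ?_
      have h2 : f v ⟨z, hz⟩ = f w ⟨z, hz⟩ := by rw [hvw]
      rw [hfv, hfv] at h2
      simp only at h2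
      rw [map_mul, map_inv, AlgEquiv.mul_apply, h2]
      exact (ψ w).symm_apply_apply z
    rw [inv_mul_eq_one] at h1
    exact h1.symm
  have hli : LinearIndependent M (fun v => (f v : E → M)) :=
    (linearIndependent_monoidHom E M).comp f hfinj
  by_contra hcon
  push Not at hcon
  have h3 : ∑ h : G, c h • (f h : E → M) = 0 := by
    funext z
    rw [Finset.sum_apply, Pi.zero_apply]
    simp only [Pi.smul_apply, smul_eq_mul, hfv]
    exact hcon z
  exact h1 (Fintype.linearIndependent_iff.1 hli c h3 1)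

/-- RD-U5 (Hilbert 90). The kernel is stable under `T g`, so `T g f = C (c g) * f` with
`c g ∈ E`, `c g ≠ 0` (units of the polynomial ring), and `c (g h) = c g * ψ g (c h)`. By the linear
independence of the different maps `ψ h : E → M` (`linearIndependent_monoidHom`, see `eigen` in `Ku.lean`)
there is `y ∈ E` with `b = ∑ h, c h * ψ h y ≠ 0`; then `ψ g b * c g = b`. -/
theorem exists_inv {n : ℕ} (x : Fin n → M) (E : IntermediateField k M) {G : Type}
    [Group G] [Finite G] (ψ : G →* (M ≃ₐ[k] M)) (hE : ∀ g, ∀ z ∈ E, ψ g z ∈ E)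
    (hf : ∀ g, (∀ z ∈ E, ψ g z = z) → g = 1)
    (T : G →* (MvPolynomial (Fin n) E ≃ₐ[k] MvPolynomial (Fin n) E))
    (hTC : ∀ g (c : E), ∃ c' : E, (c' : M) = ψ g c ∧
      T g (MvPolynomial.C c) = MvPolynomial.C c')
    (hT : ∀ g p, MvPolynomial.aeval x (T g p) = ψ g (MvPolynomial.aeval x p))
    (f : MvPolynomial (Fin n) E) (hfp : Prime f)
    (hfk : ∀ g, MvPolynomial.aeval x g = 0 ↔ f ∣ g) :
    ∃ b : E, b ≠ 0 ∧ ∀ g, T g (MvPolynomial.C b * f) = MvPolynomial.C b * f := by
  classical
  have := Fintype.ofFinite G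
  let σ : G → E → E := fun g c => ⟨ψ g c, hE g c c.2⟩
  have hσ : ∀ g c, ((σ g c : E) : M) = ψ g c := fun g c => rfl
  have hC : ∀ g c, T g (MvPolynomial.C c) = MvPolynomial.C (σ g c) := by
    intro g c
    obtain ⟨c', h1, h2⟩ := hTC g c
    rw [h2]
    congr 1
    exact Subtype.ext h1
  have hdvd : ∀ g, f ∣ T g f := by
    intro g
    rw [← hfk, hT, (hfk f).2 dvd_rfl, map_zero]
  have hdvd' : ∀ g, T g f ∣ f := by
    intro g
    have h1 := map_dvd (T g) (hdvd g⁻¹)
    have h2 : T g (T g⁻¹ f) = f := by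
      rw [← AlgEquiv.mul_apply, ← map_mul, mul_inv_cancel, map_one]
      rfl
    rwa [h2] at h1
  have hc : ∀ g, ∃ c : E, c ≠ 0 ∧ T g f = MvPolynomial.C c * f := by
    intro g
    obtain ⟨u, hu⟩ := associated_of_dvd_dvd (hdvd g) (hdvd' g)
    obtain ⟨r, hr, hur⟩ := MvPolynomial.isUnit_iff_eq_C_of_isReduced.1 u.isUnit
    exact ⟨r, hr.ne_zero, by rw [← hu, hur, mul_comm]⟩
  choose c hc0 hcT using hc
  have hcoc : ∀ g h, c (g * h) = σ g (c h) * c g := by
    intro g h
    have h1 : T (g * h) f = MvPolynomial.C (σ g (c h) * c g) * f := by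
      rw [map_mul, AlgEquiv.mul_apply, hcT h, map_mul, hC, hcT g, map_mul, mul_assoc]
    rw [hcT] at h1
    exact MvPolynomial.C_injective _ _ (mul_right_cancel₀ hfp.ne_zero h1)
  obtain ⟨z, hz⟩ := exists_inv_ne E ψ hf (fun h => ((c h : E) : M)) (by
    intro h0
    exact hc0 1 (Subtype.ext h0))
  have hb : ∃ b : E, (b : M) = ∑ h, ((c h : E) : M) * ψ h (z : M) := by
    refine ⟨∑ h, c h * σ h z, ?_⟩
    push_cast
    rfl
  obtain ⟨b, hb⟩ := hb
  refine ⟨b, fun h0 => hz (by rw [← hb, h0]; rfl), fun g => ?_⟩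
  have h1 : σ g b * c g = b := by
    apply Subtype.ext
    push_cast
    rw [hσ, hb, map_sum, Finset.sum_mul]
    have h2 : ∀ h, ψ g (((c h : E) : M) * ψ h (z : M)) * ((c g : E) : M) =
        ((c (g * h) : E) : M) * ψ (g * h) (z : M) := by
      intro h
      rw [hcoc]
      push_cast
      rw [hσ, map_mul, map_mul, AlgEquiv.mul_apply]
      ring
    rw [Finset.sum_congr rfl fun h _ => h2 h]
    exact Equiv.sum_comp (Equiv.mulLeft g) (fun h => ((c h : E) : M) * ψ h (z : M))
  rw [map_mul, hC, hcT, ← mul_assoc, ← map_mul, h1]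

end

/-- RD-U6. (`IsFractionRing` lifts of algebra isomorphisms.) -/
theorem exists_frac_action {k R F : Type*} [Field k] [CommRing R] [IsDomain R] [Algebra k R]
    [Field F] [Algebra R F] [IsFractionRing R F] [Algebra k F] [IsScalarTower k R F]
    {G : Type*} [Group G] (T : G →* (R ≃ₐ[k] R)) :
    ∃ Ψ : G →* (F ≃ₐ[k] F), ∀ g p, Ψ g (algebraMap R F p) = algebraMap R F (T g p) := by
  exact ⟨(IsFractionRing.fieldEquivOfAlgEquivHom k F).comp T, fun g p =>
    IsFractionRing.fieldEquivOfAlgEquiv_algebraMap k F F (T g) p⟩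

/-! ### U7: the valuation of a prime element of a UFD -/

private theorem fadic_val_lt {R F : Type*} [CommRing R] [IsDomain R] [Field F]
    [Algebra R F] [IsFractionRing R F] (f : R) (hf : Prime f) (m m' : ℤ) (a b a' b' : R)
    (ha : ¬ f ∣ a) (hb : ¬ f ∣ b) (hb' : ¬ f ∣ b')
    (h : (algebraMap R F f) ^ m * (algebraMap R F a / algebraMap R F b) =
      (algebraMap R F f) ^ m' * (algebraMap R F a' / algebraMap R F b')) : ¬ m < m' := by
  intro hlt
  obtain ⟨k, hk⟩ : ∃ k : ℕ, m' = m + (k + 1) := ⟨(m' - m - 1).toNat, by omega⟩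
  have inj := IsFractionRing.injective R F
  have nz : ∀ c : R, ¬ f ∣ c → algebraMap R F c ≠ 0 := by
    intro c hc h0
    rw [map_eq_zero_iff _ inj] at h0
    exact hc (h0 ▸ dvd_zero f)
  have hf0 : algebraMap R F f ≠ 0 := by
    intro h0
    rw [map_eq_zero_iff _ inj] at h0
    exact hf.ne_zero h0
  have hb0 := nz b hb
  have hb0' := nz b' hb'
  have h1 : (algebraMap R F f) ^ m' = (algebraMap R F f) ^ m * (algebraMap R F f) ^ (k + 1) := by
    rw [hk, zpow_add₀ hf0]
    norm_cast
  rw [h1, mul_assoc] at h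
  have h2 := mul_left_cancel₀ (zpow_ne_zero m hf0) h
  rw [← mul_div_assoc, div_eq_div_iff hb0 hb0'] at h2
  have h3 : algebraMap R F (a * b') = algebraMap R F (f ^ (k + 1) * a' * b) := by
    rw [map_mul, map_mul, map_mul, map_pow]
    exact h2
  have h4 := inj h3
  have h5 : f ∣ a * b' := by
    rw [h4, pow_succ', mul_assoc, mul_assoc]
    exact dvd_mul_right f _
  exact (hf.dvd_or_dvd h5).elim ha hb'

private theorem fadic_val_uniq {R F : Type*} [CommRing R] [IsDomain R] [Field F]
    [Algebra R F] [IsFractionRing R F] (f : R) (hf : Prime f) (m m' : ℤ) (a b a' b' : R)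
    (ha : ¬ f ∣ a) (hb : ¬ f ∣ b) (ha' : ¬ f ∣ a') (hb' : ¬ f ∣ b')
    (h : (algebraMap R F f) ^ m * (algebraMap R F a / algebraMap R F b) =
      (algebraMap R F f) ^ m' * (algebraMap R F a' / algebraMap R F b')) : m = m' := by
  have h1 := fadic_val_lt f hf m m' a b a' b' ha hb hb' h
  have h2 := fadic_val_lt f hf m' m a' b' a b ha' hb' hb h.symm
  omega

private theorem fadic_val_ex {R F : Type*} [CommRing R] [IsDomain R]
    [UniqueFactorizationMonoid R] [Field F]
    [Algebra R F] [IsFractionRing R F] (f : R) (hf : Prime f) (z : F) (hz : z ≠ 0) :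
    ∃ (m : ℤ) (a b : R), ¬ f ∣ a ∧ ¬ f ∣ b ∧
      z = (algebraMap R F f) ^ m * (algebraMap R F a / algebraMap R F b) := by
  have inj := IsFractionRing.injective R F
  have hf0 : algebraMap R F f ≠ 0 := by
    intro h0
    rw [map_eq_zero_iff _ inj] at h0
    exact hf.ne_zero h0
  obtain ⟨p, q, hq, rfl⟩ := IsFractionRing.div_surjective (A := R) z
  have hq0 : q ≠ 0 := nonZeroDivisors.ne_zero hq
  have hp0 : p ≠ 0 := by
    rintro rfl
    exact hz (by rw [map_zero, zero_div])
  obtain ⟨i, a, ha, rfl⟩ := WfDvdMonoid.max_power_factor hp0 hf.irreducible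
  obtain ⟨j, b, hb, rfl⟩ := WfDvdMonoid.max_power_factor hq0 hf.irreducible
  refine ⟨(i : ℤ) - j, a, b, ha, hb, ?_⟩
  rw [map_mul, map_mul, map_pow, map_pow, zpow_sub₀ hf0, zpow_natCast, zpow_natCast,
    div_mul_div_comm]

/-- RD-U7. Every `z ≠ 0` is `f ^ m * (a / b)` with `f ∤ a`, `f ∤ b`, and `m` is unique; `w z = m`
(and `w 0 = 0`). -/
theorem fadic_val {R F : Type*} [CommRing R] [IsDomain R] [UniqueFactorizationMonoid R] [Field F]
    [Algebra R F] [IsFractionRing R F] (f : R) (hf : Prime f) :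
    ∃ w : F → ℤ, w 0 = 0 ∧ (∀ a b, a ≠ 0 → b ≠ 0 → w (a * b) = w a + w b) ∧
      (∀ a b, a ≠ 0 → b ≠ 0 → a + b ≠ 0 → min (w a) (w b) ≤ w (a + b)) ∧
      w (algebraMap R F f) = 1 ∧ (∀ a : R, ¬ f ∣ a → w (algebraMap R F a) = 0) ∧
      ∀ z, z ≠ 0 → ∃ a b : R, ¬ f ∣ a ∧ ¬ f ∣ b ∧
        z = (algebraMap R F f) ^ (w z) * (algebraMap R F a / algebraMap R F b) := by
  classical
  have inj := IsFractionRing.injective R F
  have nz : ∀ c : R, ¬ f ∣ c → algebraMap R F c ≠ 0 := by
    intro c hc h0
    rw [map_eq_zero_iff _ inj] at h0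
    exact hc (h0 ▸ dvd_zero f)
  have hf0 : algebraMap R F f ≠ 0 := by
    intro h0
    rw [map_eq_zero_iff _ inj] at h0
    exact hf.ne_zero h0
  have hone : ¬ f ∣ (1 : R) := fun h => hf.not_unit (isUnit_of_dvd_one h)
  choose m α β hα hβ hz using fadic_val_ex (F := F) f hf
  let w : F → ℤ := fun z => if h : z ≠ 0 then m z h else 0
  have hw : ∀ z (h : z ≠ 0), w z = m z h := fun z h => dif_pos h
  have hval : ∀ (z : F) (i : ℤ) (a b : R), ¬ f ∣ a → ¬ f ∣ b →
      z = (algebraMap R F f) ^ i * (algebraMap R F a / algebraMap R F b) → w z = i := by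
    intro z i a b ha hb h
    have hz0 : z ≠ 0 := by
      rw [h]
      exact mul_ne_zero (zpow_ne_zero i hf0) (div_ne_zero (nz a ha) (nz b hb))
    rw [hw z hz0]
    exact fadic_val_uniq (F := F) f hf _ _ (α z hz0) (β z hz0) a b (hα z hz0) (hβ z hz0) ha hb
      ((hz z hz0).symm.trans h)
  have hrep : ∀ z : F, z ≠ 0 → ∃ a b : R, ¬ f ∣ a ∧ ¬ f ∣ b ∧
      z = (algebraMap R F f) ^ (w z) * (algebraMap R F a / algebraMap R F b) := by
    intro z h
    refine ⟨α z h, β z h, hα z h, hβ z h, ?_⟩
    rw [hw z h]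
    exact hz z h
  have hadd : ∀ x y : F, x ≠ 0 → y ≠ 0 → x + y ≠ 0 → w x ≤ w y → w x ≤ w (x + y) := by
    intro x y hx hy hxy hle
    obtain ⟨a, b, ha, hb, h1⟩ := hrep x hx
    obtain ⟨c, d, hc, hd, h2⟩ := hrep y hy
    obtain ⟨k, hk⟩ : ∃ k : ℕ, w y = w x + k := ⟨(w y - w x).toNat, by omega⟩
    have hb0 := nz b hb
    have hd0 := nz d hd
    have h3 : x + y = (algebraMap R F f) ^ (w x) *
        (algebraMap R F (a * d + f ^ k * c * b) / algebraMap R F (b * d)) := by
      conv_lhs => rw [h1, h2]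
      rw [hk, zpow_add₀ hf0, zpow_natCast, map_add, map_mul, map_mul, map_mul, map_mul, map_pow]
      field_simp
    have h4 : a * d + f ^ k * c * b ≠ 0 := by
      intro h0
      rw [h0, map_zero, zero_div, mul_zero] at h3
      exact hxy h3
    obtain ⟨j, e, he, h5⟩ := WfDvdMonoid.max_power_factor h4 hf.irreducible
    have h6 : w (x + y) = w x + j := by
      refine hval _ _ e (b * d) he (fun h => (hf.dvd_or_dvd h).elim hb hd) ?_
      rw [h3, h5, zpow_add₀ hf0, zpow_natCast, map_mul (algebraMap R F) (f ^ j) e, map_pow,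
        mul_assoc, mul_div_assoc]
    omega
  refine ⟨w, dif_neg (by simp), ?_, ?_, ?_, ?_, hrep⟩
  · intro x y hx hy
    obtain ⟨a, b, ha, hb, h1⟩ := hrep x hx
    obtain ⟨c, d, hc, hd, h2⟩ := hrep y hy
    refine hval _ _ (a * c) (b * d) (fun h => (hf.dvd_or_dvd h).elim ha hc)
      (fun h => (hf.dvd_or_dvd h).elim hb hd) ?_
    conv_lhs => rw [h1, h2]
    rw [zpow_add₀ hf0, map_mul, map_mul, mul_mul_mul_comm, div_mul_div_comm]
  · intro x y hx hy hxy
    rcases le_total (w x) (w y) with h | h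
    · rw [min_eq_left h]
      exact hadd x y hx hy hxy h
    · rw [min_eq_right h, add_comm x y]
      exact hadd y x hy hx (by rwa [add_comm]) h
  · refine hval _ _ 1 1 hone hone ?_
    rw [zpow_one, map_one, div_one, mul_one]
  · intro a ha
    refine hval _ _ a 1 ha hone ?_
    rw [zpow_zero, map_one, div_one, one_mul]

private theorem fadic_res_nonneg {R F : Type*} [CommRing R] [IsDomain R] [Field F]
    [Algebra R F] [IsFractionRing R F] (f : R) (w : F → ℤ)
    (wz : ∀ z, z ≠ 0 → ∃ a b : R, ¬ f ∣ a ∧ ¬ f ∣ b ∧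
        z = (algebraMap R F f) ^ (w z) * (algebraMap R F a / algebraMap R F b))
    (c : R) (hc : c ≠ 0) : 0 ≤ w (algebraMap R F c) := by
  have hinj : Function.Injective (algebraMap R F) := IsFractionRing.injective R F
  have hc' : algebraMap R F c ≠ 0 := fun h => hc (hinj (h.trans (map_zero _).symm))
  obtain ⟨a, b, ha, hb, h⟩ := wz _ hc'
  by_contra hneg
  obtain ⟨n, hn⟩ : ∃ n : ℕ, w (algebraMap R F c) = -((n + 1 : ℕ) : ℤ) :=
    ⟨(-(w (algebraMap R F c)) - 1).toNat, by omega⟩
  rw [hn, zpow_neg, zpow_natCast] at h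
  have hb0 : algebraMap R F b ≠ 0 := fun h0 =>
    hb (by rw [hinj (h0.trans (map_zero _).symm)]; exact dvd_zero f)
  have hf0 : algebraMap R F f ≠ 0 := by
    intro h0
    rw [h0, zero_pow (Nat.succ_ne_zero n), inv_zero, zero_mul] at h
    exact hc' h
  apply ha
  have h2 : algebraMap R F (c * b * f ^ (n + 1)) = algebraMap R F a := by
    rw [map_mul, map_mul, map_pow, h]
    field_simp
  rw [← hinj h2]
  exact (dvd_pow_self f (Nat.succ_ne_zero n)).mul_left _

/-- RD-U8. If `w z ≥ 0` then `z = a / b` with `f ∤ b`; `r z = θ a / θ b` (and `r z = 0` if `w z < 0`),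
independent of the choice. -/
theorem fadic_res {R F M : Type*} [CommRing R] [IsDomain R] [UniqueFactorizationMonoid R] [Field F]
    [Algebra R F] [IsFractionRing R F] [Field M] (θ : R →+* M) (f : R) (hf : Prime f)
    (hθ : ∀ a, θ a = 0 ↔ f ∣ a) (w : F → ℤ) (w0 : w 0 = 0)
    (wm : ∀ a b, a ≠ 0 → b ≠ 0 → w (a * b) = w a + w b)
    (wf : w (algebraMap R F f) = 1) (wr : ∀ a : R, ¬ f ∣ a → w (algebraMap R F a) = 0)
    (wz : ∀ z, z ≠ 0 → ∃ a b : R, ¬ f ∣ a ∧ ¬ f ∣ b ∧
        z = (algebraMap R F f) ^ (w z) * (algebraMap R F a / algebraMap R F b)) :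
    ∃ r : F → M, (∀ a : R, r (algebraMap R F a) = θ a) ∧
      (∀ a b, Oi w a → Oi w b → r (a + b) = r a + r b) ∧
      (∀ a b, Oi w a → Oi w b → r (a * b) = r a * r b) ∧
      ∀ a, Oi w a → (r a = 0 ↔ a = 0 ∨ 0 < w a) := by
  classical
  have hinj : Function.Injective (algebraMap R F) := IsFractionRing.injective R F
  have hb0 : ∀ b : R, ¬ f ∣ b → algebraMap R F b ≠ 0 := fun b hb h =>
    hb (by rw [hinj (h.trans (map_zero _).symm)]; exact dvd_zero f)
  have hθ0 : ∀ b : R, ¬ f ∣ b → θ b ≠ 0 := fun b hb h => hb ((hθ b).1 h)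
  have hmul : ∀ b b' : R, ¬ f ∣ b → ¬ f ∣ b' → ¬ f ∣ b * b' := fun b b' hb hb' h =>
    (hf.dvd_or_dvd h).elim hb hb'
  have h1 : ¬ f ∣ (1 : R) := fun h => hf.not_unit (isUnit_of_dvd_one h)
  obtain ⟨P, hP⟩ : ∃ P : F → M → Prop, ∀ z y, P z y ↔ ∃ a b : R, ¬ f ∣ b ∧
      z * algebraMap R F b = algebraMap R F a ∧ y * θ b = θ a := ⟨_, fun _ _ => Iff.rfl⟩
  have huniq : ∀ z y y', P z y → P z y' → y = y' := by
    intro z y y' hy hy'
    obtain ⟨a, b, hb, h2, h3⟩ := (hP z y).1 hy
    obtain ⟨a', b', hb', h2', h3'⟩ := (hP z y').1 hy'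
    have h4 : a * b' = a' * b := hinj (by rw [map_mul, map_mul, ← h2, ← h2']; ring)
    have h5 : θ a * θ b' = θ a' * θ b := by rw [← map_mul, ← map_mul, h4]
    rw [← h3, ← h3'] at h5
    have h6 : y * (θ b * θ b') = y' * (θ b * θ b') := by linear_combination h5
    exact mul_right_cancel₀ (mul_ne_zero (hθ0 b hb) (hθ0 b' hb')) h6
  have hex : ∀ z, Oi w z → ∃ y, P z y := by
    intro z hz
    obtain ⟨a, b, hb, h2⟩ : ∃ a b : R, ¬ f ∣ b ∧ z * algebraMap R F b = algebraMap R F a := by
      by_cases hz0 : z = 0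
      · exact ⟨0, 1, h1, by rw [hz0, zero_mul, map_zero]⟩
      · have hw0 := hz.resolve_left hz0
        obtain ⟨a, b, ha, hb, h2⟩ := wz z hz0
        obtain ⟨n, hn⟩ := Int.eq_ofNat_of_zero_le hw0
        refine ⟨f ^ n * a, b, hb, ?_⟩
        rw [hn, zpow_natCast] at h2
        have h3 := hb0 b hb
        rw [map_mul, map_pow, h2]
        field_simp
    exact ⟨θ a / θ b, (hP _ _).2 ⟨a, b, hb, h2, div_mul_cancel₀ _ (hθ0 b hb)⟩⟩
  obtain ⟨r, hr⟩ : ∃ r : F → M, ∀ z y, P z y → r z = y := by
    refine ⟨fun z => if h : ∃ y, P z y then h.choose else 0, fun z y h => ?_⟩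
    have h2 : ∃ y, P z y := ⟨y, h⟩
    change (if h : ∃ y, P z y then h.choose else 0) = y
    rw [dif_pos h2]
    exact huniq z _ _ h2.choose_spec h
  refine ⟨r, fun a => hr _ _ ((hP _ _).2 ⟨a, 1, h1, by rw [map_one, mul_one],
    by rw [map_one, mul_one]⟩), fun a b ha hb => ?_, fun a b ha hb => ?_, fun a ha => ?_⟩
  · obtain ⟨y, hy⟩ := hex a ha
    obtain ⟨y', hy'⟩ := hex b hb
    rw [hr a y hy, hr b y' hy']
    obtain ⟨a1, b1, hb1, h2, h3⟩ := (hP _ _).1 hy
    obtain ⟨a2, b2, hb2, h2', h3'⟩ := (hP _ _).1 hy'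
    refine hr _ _ ((hP _ _).2 ⟨a1 * b2 + a2 * b1, b1 * b2, hmul _ _ hb1 hb2, ?_, ?_⟩)
    · rw [map_add, map_mul, map_mul, map_mul, ← h2, ← h2']
      ring
    · rw [map_add, map_mul, map_mul, map_mul, ← h3, ← h3']
      ring
  · obtain ⟨y, hy⟩ := hex a ha
    obtain ⟨y', hy'⟩ := hex b hb
    rw [hr a y hy, hr b y' hy']
    obtain ⟨a1, b1, hb1, h2, h3⟩ := (hP _ _).1 hy
    obtain ⟨a2, b2, hb2, h2', h3'⟩ := (hP _ _).1 hy'
    refine hr _ _ ((hP _ _).2 ⟨a1 * a2, b1 * b2, hmul _ _ hb1 hb2, ?_, ?_⟩)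
    · rw [map_mul, map_mul, ← h2, ← h2']
      ring
    · rw [map_mul, map_mul, ← h3, ← h3']
      ring
  · obtain ⟨y, hy⟩ := hex a ha
    rw [hr a y hy]
    obtain ⟨a1, b1, hb1, h2, h3⟩ := (hP _ _).1 hy
    have h4 : y = 0 ↔ f ∣ a1 := by
      rw [← hθ a1, ← h3]
      constructor
      · intro h
        rw [h, zero_mul]
      · intro h
        exact (mul_eq_zero.1 h).resolve_right (hθ0 b1 hb1)
    rw [h4]
    by_cases ha0 : a = 0
    · rw [ha0, zero_mul] at h2
      have h5 : a1 = 0 := hinj (h2.symm.trans (map_zero _).symm)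
      exact ⟨fun _ => Or.inl ha0, fun _ => h5 ▸ dvd_zero f⟩
    · have h5 : w (algebraMap R F a1) = w a := by
        rw [← h2, wm a _ ha0 (hb0 b1 hb1), wr b1 hb1, add_zero]
      constructor
      · rintro ⟨c, hc⟩
        refine Or.inr ?_
        have hc0 : c ≠ 0 := by
          rintro rfl
          rw [mul_zero] at hc
          rw [hc, map_zero] at h2
          exact mul_ne_zero ha0 (hb0 b1 hb1) h2
        have hf0 : algebraMap R F f ≠ 0 := fun h =>
          hf.ne_zero (hinj (h.trans (map_zero _).symm))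
        have h6 := fadic_res_nonneg f w wz c hc0
        rw [← h5, hc, map_mul, wm _ _ hf0 (fun h => hc0 (hinj (h.trans (map_zero _).symm))), wf]
        omega
      · intro h
        have h6 := h.resolve_left ha0
        by_contra hne
        rw [← h5, wr a1 hne] at h6
        exact lt_irrefl _ h6

private theorem alg_u_dep {k : Type v} {M : Type u} [Field k] [Field M] [Algebra k M]
    (E : IntermediateField k M) (hTD : TD k (E : Set M) 1) (u : E)
    (hut : Transcendental k (u : M)) (c : E) :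
    IsAlgebraic (Algebra.adjoin k (Set.range fun _ : Unit => u)) c := by
  by_contra hc
  have hu : AlgebraicIndependent k (fun _ : Unit => u) := by
    rw [algebraicIndependent_unique_type_iff]
    intro h
    exact hut (h.algHom E.val)
  have h1 := (hu.option_iff_transcendental c).2 hc
  have h2 : AlgebraicIndependent k (fun o : Option Unit => E.val (o.elim c fun _ => u)) :=
    h1.map' E.val.injective
  have e : Fin (1 + 1) ≃ Option Unit := Fintype.equivOfCardEq (by simp)
  exact hTD (fun i => E.val ((e i).elim c fun _ => u)) (fun i => SetLike.coe_mem _)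
    (h2.comp e e.injective)

/-- the map from `E` to `F` -/
private noncomputable def alg_u_phi {k : Type v} {M : Type u} [Field k] [Field M] [Algebra k M]
    (n : ℕ) (E : IntermediateField k M) (F : Type u) [Field F]
    [Algebra (MvPolynomial (Fin n) E) F] [Algebra k F] [IsScalarTower k (MvPolynomial (Fin n) E) F] :
    E →ₐ[k] F :=
  (IsScalarTower.toAlgHom k (MvPolynomial (Fin n) E) F).comp
    (IsScalarTower.toAlgHom k E (MvPolynomial (Fin n) E))

private theorem alg_u_ind {k : Type v} {M : Type u} [Field k] [Field M] [Algebra k M]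
    (n : ℕ) (E : IntermediateField k M) {F : Type u} [Field F]
    [Algebra (MvPolynomial (Fin n) E) F] [IsFractionRing (MvPolynomial (Fin n) E) F]
    (T : Subfield F) (hX : ∀ i, algebraMap (MvPolynomial (Fin n) E) F
    (MvPolynomial.X i) ∈ T) (hC : ∀ c : E, algebraMap (MvPolynomial (Fin n) E) F
    (MvPolynomial.C c) ∈ T) (z : F) : z ∈ T := by
  have h1 : ∀ P : MvPolynomial (Fin n) E, algebraMap (MvPolynomial (Fin n) E) F P ∈ T := by
    intro P
    induction P using MvPolynomial.induction_on with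
    | C c => exact hC c
    | add p q hp hq => rw [map_add]; exact add_mem hp hq
    | mul_X p i hp => rw [map_mul]; exact mul_mem hp (hX i)
  obtain ⟨P, Q, -, rfl⟩ := IsFractionRing.div_surjective (A := MvPolynomial (Fin n) E) z
  exact div_mem (h1 P) (h1 Q)

section

variable {k : Type v} {M : Type u} [Field k] [Field M] [Algebra k M] {n : ℕ} (x : Fin n → M)
  (E : IntermediateField k M) {F : Type u} [Field F] [Algebra (MvPolynomial (Fin n) E) F]
  [IsFractionRing (MvPolynomial (Fin n) E) F] [Algebra k F]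
  [IsScalarTower k (MvPolynomial (Fin n) E) F]

/-! ### U9: `L` as a subfield of `F` -/

omit [IsFractionRing (MvPolynomial (Fin n) E) F] in
private theorem exists_j_aux (p : MvPolynomial (Fin n) k) :
    MvPolynomial.aeval (fun i => algebraMap (MvPolynomial (Fin n) E) F (MvPolynomial.X i)) p =
      algebraMap (MvPolynomial (Fin n) E) F (MvPolynomial.map (algebraMap k E) p) := by
  induction p using MvPolynomial.induction_on with
  | C a =>
    rw [MvPolynomial.algHom_C, MvPolynomial.map_C,
      IsScalarTower.algebraMap_apply k (MvPolynomial (Fin n) E) F]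
    rfl
  | add p q hp hq => rw [map_add, hp, hq, map_add, map_add]
  | mul_X p i hp => rw [map_mul, hp, MvPolynomial.aeval_X, map_mul, map_mul, MvPolynomial.map_X]

/-- RD-U9. `L = adjoin k (range x)` is isomorphic to `FractionRing (MvPolynomial (Fin n) k)`
(`AlgebraicIndependent.aevalEquivField`), which is mapped to `F` by
`MvPolynomial.map (algebraMap k E)` (injective) followed by `algebraMap`. -/
theorem exists_j (hx : AlgebraicIndependent k x) :
    ∃ j : adjoin k (Set.range x) →ₐ[k] F,
      ∀ (i : Fin n) (h : x i ∈ adjoin k (Set.range x)),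
        j ⟨x i, h⟩ = algebraMap (MvPolynomial (Fin n) E) F (MvPolynomial.X i) := by
  have hinj : Function.Injective (MvPolynomial.aeval (R := k)
      (fun i => algebraMap (MvPolynomial (Fin n) E) F (MvPolynomial.X i))) := by
    intro p q hpq
    rw [exists_j_aux E p, exists_j_aux E q] at hpq
    exact MvPolynomial.map_injective _ (algebraMap k E).injective
      (IsFractionRing.injective (MvPolynomial (Fin n) E) F hpq)
  refine ⟨(IsFractionRing.liftAlgHom (K := FractionRing (MvPolynomial (Fin n) k)) hinj).comp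
    hx.aevalEquivField.symm.toAlgHom, fun i h => ?_⟩
  have h1 : hx.aevalEquivField (algebraMap (MvPolynomial (Fin n) k)
      (FractionRing (MvPolynomial (Fin n) k)) (MvPolynomial.X i)) = ⟨x i, h⟩ := by
    refine Subtype.ext ?_
    rw [hx.aevalEquivField_algebraMap_apply_coe, MvPolynomial.aeval_X]
  have h2 : hx.aevalEquivField.symm ⟨x i, h⟩ = algebraMap (MvPolynomial (Fin n) k)
      (FractionRing (MvPolynomial (Fin n) k)) (MvPolynomial.X i) := by
    rw [← h1, AlgEquiv.symm_apply_apply]
  change IsFractionRing.liftAlgHom (K := FractionRing (MvPolynomial (Fin n) k)) hinj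
    (hx.aevalEquivField.symm ⟨x i, h⟩) = _
  rw [h2, IsFractionRing.liftAlgHom_apply, IsFractionRing.lift_algebraMap]
  exact MvPolynomial.aeval_X _ i

variable [Algebra (adjoin k (Set.range x)) F] [IsScalarTower k (adjoin k (Set.range x)) F]

/-- RD-U9. `c = p (x) / q (x)` (`IntermediateField.mem_adjoin_range_iff`). -/
theorem alg_frac (hx : AlgebraicIndependent k x)
    (hL : ∀ (i : Fin n) (h : x i ∈ adjoin k (Set.range x)),
      algebraMap (adjoin k (Set.range x)) F ⟨x i, h⟩ =
        algebraMap (MvPolynomial (Fin n) E) F (MvPolynomial.X i))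
    (c : adjoin k (Set.range x)) :
    ∃ p q : MvPolynomial (Fin n) k, q ≠ 0 ∧ MvPolynomial.aeval x q ≠ 0 ∧
      (c : M) * MvPolynomial.aeval x q = MvPolynomial.aeval x p ∧
      algebraMap (adjoin k (Set.range x)) F c *
        algebraMap (MvPolynomial (Fin n) E) F (MvPolynomial.map (algebraMap k E) q) =
        algebraMap (MvPolynomial (Fin n) E) F (MvPolynomial.map (algebraMap k E) p) := by
  have hmem : ∀ i, x i ∈ adjoin k (Set.range x) := fun i =>
    subset_adjoin k _ (Set.mem_range_self i)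
  have hcoe : ∀ p : MvPolynomial (Fin n) k,
      ((MvPolynomial.aeval (fun i => (⟨x i, hmem i⟩ : adjoin k (Set.range x))) p :
        adjoin k (Set.range x)) : M) = MvPolynomial.aeval x p := by
    intro p
    have h1 := MvPolynomial.map_aeval (fun i => (⟨x i, hmem i⟩ : adjoin k (Set.range x)))
      (algebraMap (adjoin k (Set.range x)) M) p
    rw [MvPolynomial.aeval_def]
    exact h1
  have hmap : ∀ p : MvPolynomial (Fin n) k, algebraMap (adjoin k (Set.range x)) F
      (MvPolynomial.aeval (fun i => (⟨x i, hmem i⟩ : adjoin k (Set.range x))) p) =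
      algebraMap (MvPolynomial (Fin n) E) F (MvPolynomial.map (algebraMap k E) p) := by
    intro p
    rw [← exists_j_aux E p]
    induction p using MvPolynomial.induction_on with
    | C a =>
      rw [MvPolynomial.algHom_C, MvPolynomial.algHom_C,
        ← IsScalarTower.algebraMap_apply k (adjoin k (Set.range x)) F]
    | add p q hp hq => rw [map_add, map_add, hp, hq, map_add]
    | mul_X p i hp =>
      rw [map_mul, map_mul, hp, MvPolynomial.aeval_X, hL, map_mul, MvPolynomial.aeval_X]
  obtain ⟨p, q, hpq⟩ := (mem_adjoin_range_iff k x (c : M)).1 c.2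
  by_cases hq : MvPolynomial.aeval x q = 0
  · refine ⟨0, 1, one_ne_zero, ?_, ?_, ?_⟩
    · rw [map_one]
      exact one_ne_zero
    · rw [hpq, hq, div_zero, zero_mul, map_zero]
    · have hc : c = 0 := by
        refine Subtype.ext ?_
        rw [hpq, hq, div_zero]
        rfl
      rw [hc, map_zero, zero_mul, map_zero, map_zero]
  · refine ⟨p, q, ?_, hq, ?_, ?_⟩
    · rintro rfl
      exact hq (map_zero _)
    · rw [hpq, div_mul_cancel₀ _ hq]
    · rw [← hmap, ← hmap, ← map_mul]
      congr 1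
      refine Subtype.ext ?_
      change (c : M) * ((MvPolynomial.aeval (fun i =>
        (⟨x i, hmem i⟩ : adjoin k (Set.range x))) q : adjoin k (Set.range x)) : M) = _
      rw [hcoe, hcoe, hpq, div_mul_cancel₀ _ hq]

/-! ### U10: the valuation of `f` -/

private theorem exists_wf_mem (p : MvPolynomial (Fin n) E) :
    MvPolynomial.aeval x p ∈ E ⊔ adjoin k (Set.range x) := by
  induction p using MvPolynomial.induction_on with
  | C c =>
    rw [MvPolynomial.aeval_C]
    exact (le_sup_left : E ≤ E ⊔ adjoin k (Set.range x)) c.2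
  | add p q hp hq =>
    rw [map_add]
    exact add_mem hp hq
  | mul_X p i hp =>
    rw [map_mul, MvPolynomial.aeval_X]
    exact mul_mem hp ((le_sup_right : adjoin k (Set.range x) ≤ E ⊔ adjoin k (Set.range x))
      (subset_adjoin k _ ⟨i, rfl⟩))

private theorem exists_wf_frac (y : M) (hy : y ∈ E ⊔ adjoin k (Set.range x)) :
    ∃ a b : MvPolynomial (Fin n) E, y = MvPolynomial.aeval x a / MvPolynomial.aeval x b := by
  have h1 : E ⊔ adjoin k (Set.range x) ≤ (adjoin E (Set.range x)).restrictScalars k := by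
    refine sup_le (fun z hz => ?_) ?_
    · exact (adjoin E (Set.range x)).algebraMap_mem ⟨z, hz⟩
    · rw [adjoin_le_iff]
      rintro _ ⟨i, rfl⟩
      exact subset_adjoin E _ ⟨i, rfl⟩
  exact (mem_adjoin_range_iff E x y).1 (h1 hy)

private theorem exists_wf_map (p : MvPolynomial (Fin n) k) :
    MvPolynomial.aeval x (MvPolynomial.map (algebraMap k E) p) = MvPolynomial.aeval x p := by
  rw [MvPolynomial.aeval_map_algebraMap]

/-- RD-U10 (uses `fadic_val`, `fadic_res`, `alg_frac`). The residue field is `E ⊔ L ≤ M`, as an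
`L`-algebra `extendScalars (le_sup_right : L ≤ E ⊔ L)`, with `θ` = `aeval x` (its values are in
`E ⊔ L`); every element of `E ⊔ L = adjoin E (range x)` is `θ a / θ b`. The degree is
`relfinrank L (E ⊔ L)` (`relfinrank_eq_finrank_of_le`), finite since `M / L` is. For `c ∈ L`,
`c = p (x) / q (x)`, `p, q ∈ k[X]`: nonzero elements of `k[X]` are not divisible by `f`, as their image
in `M` is not `0`. -/
theorem exists_wf (hx : AlgebraicIndependent k x)
    (hL : ∀ (i : Fin n) (h : x i ∈ adjoin k (Set.range x)),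
      algebraMap (adjoin k (Set.range x)) F ⟨x i, h⟩ =
        algebraMap (MvPolynomial (Fin n) E) F (MvPolynomial.X i))
    (hM : FiniteDimensional (adjoin k (Set.range x)) M) (f : MvPolynomial (Fin n) E)
    (hf : Prime f) (hfk : ∀ g, MvPolynomial.aeval x g = 0 ↔ f ∣ g) :
    ∃ w : F → ℤ, IsV (adjoin k (Set.range x)) w ∧
      w (algebraMap (MvPolynomial (Fin n) E) F f) = 1 ∧
      Dg (adjoin k (Set.range x)) w
        (relfinrank (adjoin k (Set.range x)) (E ⊔ adjoin k (Set.range x))) ∧
      (∀ c : E, c ≠ 0 → w (algebraMap (MvPolynomial (Fin n) E) F (MvPolynomial.C c)) = 0) ∧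
      ∀ z, z ≠ 0 → ∃ a b : MvPolynomial (Fin n) E, ¬ f ∣ a ∧ ¬ f ∣ b ∧
        z = (algebraMap (MvPolynomial (Fin n) E) F f) ^ (w z) *
          (algebraMap (MvPolynomial (Fin n) E) F a / algebraMap (MvPolynomial (Fin n) E) F b) := by
  obtain ⟨w, w0, wm, wa, wf, wr, wz⟩ := fadic_val (F := F) f hf
  let N : IntermediateField (adjoin k (Set.range x)) M :=
    extendScalars (le_sup_right : adjoin k (Set.range x) ≤ E ⊔ adjoin k (Set.range x))
  let θ : MvPolynomial (Fin n) E →+* N :=
    ((MvPolynomial.aeval x : MvPolynomial (Fin n) E →ₐ[E] M) :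
      MvPolynomial (Fin n) E →+* M).codRestrict N (fun p => exists_wf_mem x E p)
  have hθv : ∀ p, ((θ p : N) : M) = MvPolynomial.aeval x p := fun p => rfl
  have hθ : ∀ a, θ a = 0 ↔ f ∣ a := fun a => by
    rw [← hfk a, ← hθv a]
    exact (ZeroMemClass.coe_eq_zero).symm
  obtain ⟨r, hr, radd, rmul, rker⟩ := fadic_res θ f hf hθ w w0 wm wf wr wz
  have hinj : Function.Injective (algebraMap (MvPolynomial (Fin n) E) F) :=
    IsFractionRing.injective _ _
  have hne : ∀ a : MvPolynomial (Fin n) E, ¬ f ∣ a →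
      algebraMap (MvPolynomial (Fin n) E) F a ≠ 0 := fun a ha h0 => by
    rw [map_eq_zero_iff _ hinj] at h0
    exact ha (h0 ▸ dvd_zero f)
  have halg : ∀ c : adjoin k (Set.range x), c ≠ 0 →
      w (algebraMap (adjoin k (Set.range x)) F c) = 0 := by
    intro c hc
    obtain ⟨p, q, hq, hqx, h1, h2⟩ := alg_frac x E hx hL c
    have hc' : (c : M) ≠ 0 := fun h => hc (Subtype.ext h)
    have h3 : ¬ f ∣ MvPolynomial.map (algebraMap k E) q := by
      rw [← hfk, exists_wf_map]
      exact hqx
    have h4 : ¬ f ∣ MvPolynomial.map (algebraMap k E) p := by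
      rw [← hfk, exists_wf_map, ← h1]
      exact mul_ne_zero hc' hqx
    have h5 : algebraMap (adjoin k (Set.range x)) F c ≠ 0 := by
      rw [Ne, map_eq_zero]
      exact hc
    have h6 := wm _ _ h5 (hne _ h3)
    rw [h2, wr _ h4, wr _ h3] at h6
    omega
  refine ⟨w, ⟨⟨w0, wm, wa, halg⟩, ⟨_, wf⟩⟩, wf, ⟨N, inferInstance, inferInstance, r,
    ⟨wm, wa, halg, ?_, radd, rmul, rker⟩, ?_, ?_, ?_⟩, ?_, wz⟩
  · intro c
    obtain ⟨p, q, hq, hqx, h1, h2⟩ := alg_frac x E hx hL c
    have h3 : ¬ f ∣ MvPolynomial.map (algebraMap k E) q := by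
      rw [← hfk, exists_wf_map]
      exact hqx
    have h4 : Oi w (algebraMap (adjoin k (Set.range x)) F c) := by
      by_cases hc : c = 0
      · left
        rw [hc, map_zero]
      · right
        exact (halg c hc).ge
    have h5 : Oi w (algebraMap (MvPolynomial (Fin n) E) F
        (MvPolynomial.map (algebraMap k E) q)) := Or.inr (wr _ h3).ge
    have h6 := rmul _ _ h4 h5
    rw [h2, hr, hr] at h6
    have h7 := congrArg (fun y : N => (y : M)) h6
    simp only [hθv, exists_wf_map] at h7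
    refine Subtype.ext ?_
    have h8 : ((r (algebraMap (adjoin k (Set.range x)) F c) : N) : M) *
        MvPolynomial.aeval x q = (c : M) * MvPolynomial.aeval x q := by
      rw [h1, h7, MulMemClass.coe_mul, hθv, exists_wf_map]
    exact mul_right_cancel₀ hqx h8
  · intro y
    by_cases hy : y = 0
    · refine ⟨0, Or.inl rfl, ?_⟩
      rw [hy]
      exact (rker 0 (Or.inl rfl)).2 (Or.inl rfl)
    · obtain ⟨a, b, hab⟩ := exists_wf_frac x E (y : M) y.2
      have hy' : (y : M) ≠ 0 := fun h => hy (Subtype.ext h)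
      rw [hab] at hy'
      have ha : MvPolynomial.aeval x a ≠ 0 := fun h => hy' (by rw [h, zero_div])
      have hb : MvPolynomial.aeval x b ≠ 0 := fun h => hy' (by rw [h, div_zero])
      have ha' : ¬ f ∣ a := by
        rw [← hfk]
        exact ha
      have hb' : ¬ f ∣ b := by
        rw [← hfk]
        exact hb
      obtain ⟨z, hz⟩ : ∃ z : F, z = algebraMap (MvPolynomial (Fin n) E) F a /
        algebraMap (MvPolynomial (Fin n) E) F b := ⟨_, rfl⟩
      have hz0 : z ≠ 0 := by
        rw [hz]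
        exact div_ne_zero (hne a ha') (hne b hb')
      have hzb : z * algebraMap (MvPolynomial (Fin n) E) F b =
          algebraMap (MvPolynomial (Fin n) E) F a := by
        rw [hz, div_mul_cancel₀ _ (hne b hb')]
      have hwz : w z = 0 := by
        have h1 := wm z _ hz0 (hne b hb')
        rw [hzb, wr a ha', wr b hb'] at h1
        omega
      refine ⟨z, Or.inr hwz.ge, ?_⟩
      have h2 := rmul z _ (Or.inr hwz.ge) (Or.inr (wr b hb').ge)
      rw [hzb, hr, hr] at h2
      have hθb : θ b ≠ 0 := fun h => hb' ((hθ b).1 h)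
      refine mul_right_cancel₀ hθb ?_
      rw [← h2]
      refine Subtype.ext ?_
      rw [MulMemClass.coe_mul, hθv, hθv, hab, div_mul_cancel₀ _ hb]
  · exact IntermediateField.finiteDimensional_left N
  · exact (relfinrank_eq_finrank_of_le _).symm
  · intro c hc
    refine wr _ ?_
    rw [← hfk, MvPolynomial.aeval_C]
    intro h
    exact hc (Subtype.ext h)

/-- elements of `k[X]` in `L` -/
theorem center_emb (hL : ∀ (i : Fin n) (h : x i ∈ adjoin k (Set.range x)),
      algebraMap (adjoin k (Set.range x)) F ⟨x i, h⟩ =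
        algebraMap (MvPolynomial (Fin n) E) F (MvPolynomial.X i)) (q : MvPolynomial (Fin n) k) :
    ∃ c : adjoin k (Set.range x), (c : M) = MvPolynomial.aeval x q ∧
      algebraMap (adjoin k (Set.range x)) F c =
        algebraMap (MvPolynomial (Fin n) E) F (MvPolynomial.map (algebraMap k E) q) := by
  induction q using MvPolynomial.induction_on with
  | C a =>
    refine ⟨algebraMap k _ a, ?_, ?_⟩
    · rw [MvPolynomial.aeval_C]
      rfl
    · rw [← IsScalarTower.algebraMap_apply, MvPolynomial.map_C,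
        ← MvPolynomial.algebraMap_apply, ← IsScalarTower.algebraMap_apply]
  | add p q hp hq =>
    obtain ⟨c, h1, h2⟩ := hp
    obtain ⟨c', h1', h2'⟩ := hq
    refine ⟨c + c', ?_, ?_⟩
    · rw [map_add, ← h1, ← h1']
      rfl
    · rw [map_add, map_add, map_add, h2, h2']
  | mul_X p i hp =>
    obtain ⟨c, h1, h2⟩ := hp
    have hm : x i ∈ adjoin k (Set.range x) := subset_adjoin _ _ ⟨i, rfl⟩
    refine ⟨c * ⟨x i, hm⟩, ?_, ?_⟩
    · rw [map_mul, ← h1, MvPolynomial.aeval_X]
      rfl
    · rw [map_mul, map_mul, map_mul, h2, hL i hm, MvPolynomial.map_X]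

/-- the graph of the evaluation with denominators in `k[X]` -/
def CenterRel (z : F) (m : M) : Prop :=
  ∃ (a : MvPolynomial (Fin n) E) (q : MvPolynomial (Fin n) k), q ≠ 0 ∧
    z * algebraMap (MvPolynomial (Fin n) E) F (MvPolynomial.map (algebraMap k E) q) =
      algebraMap (MvPolynomial (Fin n) E) F a ∧
    m * MvPolynomial.aeval x q = MvPolynomial.aeval x a

omit [IsFractionRing (MvPolynomial (Fin n) E) F] [Algebra k F]
  [IsScalarTower k (MvPolynomial (Fin n) E) F] [Algebra (adjoin k (Set.range x)) F]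
  [IsScalarTower k (adjoin k (Set.range x)) F] in
theorem center_rel_add {z z' : F} {m m' : M} (h : CenterRel x E z m)
    (h' : CenterRel x E z' m') : CenterRel x E (z + z') (m + m') := by
  obtain ⟨a, q, hq, h1, h2⟩ := h
  obtain ⟨a', q', hq', h1', h2'⟩ := h'
  refine ⟨a * MvPolynomial.map (algebraMap k E) q' + a' * MvPolynomial.map (algebraMap k E) q,
    q * q', mul_ne_zero hq hq', ?_, ?_⟩
  · rw [map_mul, map_mul, map_add, map_mul, map_mul, ← h1, ← h1']
    ring
  · rw [map_mul, map_add, map_mul, map_mul, ← h2, ← h2', MvPolynomial.aeval_map_algebraMap,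
      MvPolynomial.aeval_map_algebraMap]
    ring

omit [IsFractionRing (MvPolynomial (Fin n) E) F] [Algebra k F]
  [IsScalarTower k (MvPolynomial (Fin n) E) F] [Algebra (adjoin k (Set.range x)) F]
  [IsScalarTower k (adjoin k (Set.range x)) F] in
theorem center_rel_mul {z z' : F} {m m' : M} (h : CenterRel x E z m)
    (h' : CenterRel x E z' m') : CenterRel x E (z * z') (m * m') := by
  obtain ⟨a, q, hq, h1, h2⟩ := h
  obtain ⟨a', q', hq', h1', h2'⟩ := h'
  refine ⟨a * a', q * q', mul_ne_zero hq hq', ?_, ?_⟩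
  · rw [map_mul, map_mul, map_mul, ← h1, ← h1']
    ring
  · rw [map_mul, map_mul, ← h2, ← h2']
    ring

omit [IsFractionRing (MvPolynomial (Fin n) E) F] [Algebra k F]
  [IsScalarTower k (MvPolynomial (Fin n) E) F] [Algebra (adjoin k (Set.range x)) F]
  [IsScalarTower k (adjoin k (Set.range x)) F] in
theorem center_rel_alg (g : MvPolynomial (Fin n) E) :
    CenterRel x E (algebraMap (MvPolynomial (Fin n) E) F g) (MvPolynomial.aeval x g) := by
  refine ⟨g, 1, one_ne_zero, ?_, ?_⟩
  · rw [map_one, map_one, mul_one]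
  · rw [map_one, mul_one]

theorem center_rel_poly (hx : AlgebraicIndependent k x)
    (hL : ∀ (i : Fin n) (h : x i ∈ adjoin k (Set.range x)),
      algebraMap (adjoin k (Set.range x)) F ⟨x i, h⟩ =
        algebraMap (MvPolynomial (Fin n) E) F (MvPolynomial.X i))
    (g : MvPolynomial (Fin n) E) (P : Polynomial (adjoin k (Set.range x))) :
    CenterRel x E (Polynomial.aeval (algebraMap (MvPolynomial (Fin n) E) F g) P)
      (Polynomial.aeval (MvPolynomial.aeval x g : M) P) := by
  have hpow : ∀ m : ℕ, CenterRel x E ((algebraMap (MvPolynomial (Fin n) E) F g) ^ m)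
      ((MvPolynomial.aeval x g : M) ^ m) := by
    intro m
    induction m with
    | zero =>
      have h := center_rel_alg (F := F) x E (1 : MvPolynomial (Fin n) E)
      rw [map_one, map_one] at h
      rw [pow_zero, pow_zero]
      exact h
    | succ m ih =>
      rw [pow_succ, pow_succ]
      exact center_rel_mul x E ih (center_rel_alg x E g)
  induction P using Polynomial.induction_on' with
  | add p q hp hq =>
    rw [map_add, map_add]
    exact center_rel_add x E hp hq
  | monomial m c =>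
    rw [Polynomial.aeval_monomial, Polynomial.aeval_monomial]
    refine center_rel_mul x E ?_ (hpow m)
    obtain ⟨p, q, hq, -, h1, h2⟩ := alg_frac (F := F) x E hx hL c
    refine ⟨MvPolynomial.map (algebraMap k E) p, q, hq, h2, ?_⟩
    rw [MvPolynomial.aeval_map_algebraMap]
    exact h1

/-- RD-U11 (uses `alg_frac`). `w` is `≥ 0` on `R`, since it is trivial on `E` and on the `X i ∈ L`; so
`w f > 0`. Suppose `w g > 0`, `f ∤ g`. Then `y = g (x) ∈ M` is not `0` and algebraic over `L`, so
there are `C i ∈ k[X]` (`i ≤ s`), `C 0 ≠ 0`, with `∑ i, C i (x) * y ^ i = 0` (minimal polynomial, clear the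
denominators), that is `∑ i, C i * g ^ i = f * h` in `R`; so `w (C 0) > 0`, but `C 0 ∈ L`, contradiction.
If `f ∣ g ≠ 0` then `w g ≥ w f > 0`. -/
theorem center (hx : AlgebraicIndependent k x)
    (hL : ∀ (i : Fin n) (h : x i ∈ adjoin k (Set.range x)),
      algebraMap (adjoin k (Set.range x)) F ⟨x i, h⟩ =
        algebraMap (MvPolynomial (Fin n) E) F (MvPolynomial.X i))
    (hM : FiniteDimensional (adjoin k (Set.range x)) M) (f : MvPolynomial (Fin n) E)
    (hfk : ∀ g, MvPolynomial.aeval x g = 0 ↔ f ∣ g) (w : F → ℤ)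
    (hw : IsV (adjoin k (Set.range x)) w)
    (hwE : ∀ c : E, c ≠ 0 → w (algebraMap (MvPolynomial (Fin n) E) F (MvPolynomial.C c)) = 0)
    (hwf : w (algebraMap (MvPolynomial (Fin n) E) F f) ≠ 0) (g : MvPolynomial (Fin n) E)
    (hg : g ≠ 0) :
    0 ≤ w (algebraMap (MvPolynomial (Fin n) E) F g) ∧
      (0 < w (algebraMap (MvPolynomial (Fin n) E) F g) ↔ f ∣ g) := by
  have hW := hw.toIsW
  have hinj : Function.Injective (algebraMap (MvPolynomial (Fin n) E) F) :=
    IsFractionRing.injective _ _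
  have hne : ∀ p : MvPolynomial (Fin n) E, p ≠ 0 →
      algebraMap (MvPolynomial (Fin n) E) F p ≠ 0 := fun p hp h0 =>
    hp (hinj (by rw [h0, map_zero]))
  have hoi : ∀ p : MvPolynomial (Fin n) E, Oi w (algebraMap (MvPolynomial (Fin n) E) F p) := by
    intro p
    induction p using MvPolynomial.induction_on with
    | C c =>
      by_cases hc : c = 0
      · left
        rw [hc, map_zero, map_zero]
      · right
        exact (hwE c hc).ge
    | add p q hp hq =>
      rw [map_add]
      exact hW.oi_add hp hq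
    | mul_X p i hp =>
      have hm : x i ∈ adjoin k (Set.range x) := subset_adjoin _ _ ⟨i, rfl⟩
      rw [map_mul, ← hL i hm]
      exact hW.oi_mul hp (hW.oi_alg _)
  have hnn : ∀ p : MvPolynomial (Fin n) E, p ≠ 0 →
      0 ≤ w (algebraMap (MvPolynomial (Fin n) E) F p) := by
    intro p hp
    rcases hoi p with h | h
    · exact absurd h (hne p hp)
    · exact h
  have hf0 : f ≠ 0 := by
    rintro rfl
    rw [map_zero, hW.zero] at hwf
    exact hwf rfl
  have hfpos : 0 < w (algebraMap (MvPolynomial (Fin n) E) F f) :=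
    lt_of_le_of_ne (hnn f hf0) (Ne.symm hwf)
  have hdiv : ∀ p : MvPolynomial (Fin n) E, p ≠ 0 → f ∣ p →
      0 < w (algebraMap (MvPolynomial (Fin n) E) F p) := by
    rintro p hp ⟨s, rfl⟩
    have hs : s ≠ 0 := right_ne_zero_of_mul hp
    rw [map_mul, hW.mul _ _ (hne f hf0) (hne s hs)]
    have := hnn s hs
    omega
  refine ⟨hnn g hg, fun hpos => ?_, hdiv g hg⟩
  by_contra hfg
  have hy : (MvPolynomial.aeval x g : M) ≠ 0 := fun h => hfg ((hfk g).1 h)
  have hint : IsIntegral (adjoin k (Set.range x)) (MvPolynomial.aeval x g : M) :=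
    Algebra.IsIntegral.isIntegral _
  have hc := minpoly.coeff_zero_ne_zero hint hy
  have hoiP : ∀ Q : Polynomial (adjoin k (Set.range x)),
      Oi w (Polynomial.aeval (algebraMap (MvPolynomial (Fin n) E) F g) Q) := by
    intro Q
    rw [Polynomial.aeval_eq_sum_range]
    refine hW.oi_sum _ _ fun i _ => ?_
    rw [Algebra.smul_def]
    refine hW.oi_mul (hW.oi_alg _) (Or.inr ?_)
    rw [hW.pow]
    have h0 := hnn g hg
    positivity
  obtain ⟨a, q, hq, h1, h2⟩ := center_rel_poly (F := F) x E hx hL g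
    (minpoly (adjoin k (Set.range x)) (MvPolynomial.aeval x g : M))
  rw [minpoly.aeval, zero_mul] at h2
  have hfa : f ∣ a := (hfk a).1 h2.symm
  obtain ⟨c, hc1, hc2⟩ := center_emb (F := F) x E hL q
  have hc0 : c ≠ 0 := by
    intro h
    rw [h] at hc1
    refine hq (hx ?_)
    rw [map_zero, ← hc1]
    rfl
  have hwq := hW.alg c hc0
  have hqF : algebraMap (MvPolynomial (Fin n) E) F (MvPolynomial.map (algebraMap k E) q) ≠ 0 := by
    rw [← hc2]
    exact fun h => hc0 ((map_eq_zero _).1 h)
  rw [hc2] at hwq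
  have hz : Mi w (Polynomial.aeval (algebraMap (MvPolynomial (Fin n) E) F g)
      (minpoly (adjoin k (Set.range x)) (MvPolynomial.aeval x g : M))) := by
    by_cases ha : a = 0
    · left
      rw [ha, map_zero] at h1
      exact (mul_eq_zero.1 h1).resolve_right hqF
    · right
      have hz0 : Polynomial.aeval (algebraMap (MvPolynomial (Fin n) E) F g)
          (minpoly (adjoin k (Set.range x)) (MvPolynomial.aeval x g : M)) ≠ 0 := by
        intro h
        rw [h, zero_mul] at h1
        exact hne a ha h1.symm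
      have h3 := hdiv a ha hfa
      rw [← h1, hW.mul _ _ hz0 hqF, hwq, add_zero] at h3
      exact h3
  obtain ⟨P, hP⟩ : ∃ P, P = minpoly (adjoin k (Set.range x)) (MvPolynomial.aeval x g : M) :=
    ⟨_, rfl⟩
  rw [← hP] at hz hc
  rw [← Polynomial.divX_mul_X_add P, map_add, map_mul, Polynomial.aeval_X,
    Polynomial.aeval_C] at hz
  have h3 : Mi w (algebraMap (adjoin k (Set.range x)) F (P.coeff 0)) := by
    have h4 := hW.mi_add hz (hW.mi_mul (hoiP (-P.divX)) (Or.inr hpos : Mi w _))
    rw [map_neg] at h4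
    convert h4 using 1
    ring
  rcases h3 with h3 | h3
  · exact hc ((map_eq_zero _).1 h3)
  · rw [hW.alg _ hc] at h3
    exact lt_irrefl _ h3

/-- RD-U11 (uses `center`). `w z = w' z * w f` for all `z ≠ 0` and `w` takes the value `1`,
`w f > 0`, so `w f = 1`. -/
theorem wf_unique (hx : AlgebraicIndependent k x)
    (hL : ∀ (i : Fin n) (h : x i ∈ adjoin k (Set.range x)),
      algebraMap (adjoin k (Set.range x)) F ⟨x i, h⟩ =
        algebraMap (MvPolynomial (Fin n) E) F (MvPolynomial.X i))
    (hM : FiniteDimensional (adjoin k (Set.range x)) M) (f : MvPolynomial (Fin n) E)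
    (hfk : ∀ g, MvPolynomial.aeval x g = 0 ↔ f ∣ g) (w w' : F → ℤ)
    (hw : IsV (adjoin k (Set.range x)) w)
    (hwE : ∀ c : E, c ≠ 0 → w (algebraMap (MvPolynomial (Fin n) E) F (MvPolynomial.C c)) = 0)
    (hwf : w (algebraMap (MvPolynomial (Fin n) E) F f) ≠ 0) (hw0 : w' 0 = 0)
    (hw' : ∀ z, z ≠ 0 → ∃ a b : MvPolynomial (Fin n) E, ¬ f ∣ a ∧ ¬ f ∣ b ∧
        z = (algebraMap (MvPolynomial (Fin n) E) F f) ^ (w' z) *
          (algebraMap (MvPolynomial (Fin n) E) F a / algebraMap (MvPolynomial (Fin n) E) F b)) :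
    w = w' := by
  have hf0 : algebraMap (MvPolynomial (Fin n) E) F f ≠ 0 := fun h => hwf (by rw [h, hw.zero])
  have hf1 : f ≠ 0 := fun h => hf0 (by rw [h, map_zero])
  have hpos : 0 < w (algebraMap (MvPolynomial (Fin n) E) F f) :=
    (center x E hx hL hM f hfk w hw hwE hwf f hf1).2.2 (dvd_refl f)
  have hnd : ∀ g : MvPolynomial (Fin n) E, ¬ f ∣ g →
      algebraMap (MvPolynomial (Fin n) E) F g ≠ 0 ∧
        w (algebraMap (MvPolynomial (Fin n) E) F g) = 0 := by
    intro g hg
    have hg0 : g ≠ 0 := fun h => hg (by rw [h]; exact dvd_zero f)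
    obtain ⟨h1, h2⟩ := center x E hx hL hM f hfk w hw hwE hwf g hg0
    refine ⟨fun h => hg0 (IsFractionRing.injective (MvPolynomial (Fin n) E) F
      (h.trans (map_zero _).symm)), ?_⟩
    by_contra h3
    exact hg (h2.1 (lt_of_le_of_ne h1 (Ne.symm h3)))
  have key : ∀ z, z ≠ 0 → w z = w' z * w (algebraMap (MvPolynomial (Fin n) E) F f) := by
    intro z hz
    obtain ⟨a, b, ha, hb, hzab⟩ := hw' z hz
    obtain ⟨ha0, ha1⟩ := hnd a ha
    obtain ⟨hb0, hb1⟩ := hnd b hb
    conv_lhs => rw [hzab]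
    rw [hw.mul _ _ (zpow_ne_zero _ hf0) (div_ne_zero ha0 hb0), div_eq_mul_inv,
      hw.mul _ _ ha0 (inv_ne_zero hb0), hw.toIsW.zpow, hw.toIsW.inv, ha1, hb1]
    ring
  obtain ⟨π, hπ⟩ := hw.surj
  have hπ0 : π ≠ 0 := fun h => by rw [h, hw.zero] at hπ; exact absurd hπ (by norm_num)
  have h1 : w (algebraMap (MvPolynomial (Fin n) E) F f) = 1 := by
    have h2 := key π hπ0
    rw [hπ] at h2
    exact Int.eq_one_of_dvd_one hpos.le (Dvd.intro_left _ h2.symm)
  funext z
  by_cases hz : z = 0
  · rw [hz, hw.zero, hw0]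
  · rw [key z hz, h1, mul_one]

/-! ### U12: finiteness -/

/-- RD-U13. `z ∈ F` is `P / Q` with `P, Q ∈ E[X]`; the elements of `E` are algebraic over `k(u)`
(`TD`: `u` is transcendental and `u, c` are algebraically dependent over `k`), hence in `F` over
`L(u)`; the `X i` are in `L`. -/
theorem alg_u (hL : ∀ (i : Fin n) (h : x i ∈ adjoin k (Set.range x)),
      algebraMap (adjoin k (Set.range x)) F ⟨x i, h⟩ =
        algebraMap (MvPolynomial (Fin n) E) F (MvPolynomial.X i))
    (hTD : TD k (E : Set M) 1) (u : E) (hut : Transcendental k (u : M)) (z : F) :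
    IsAlgebraic (adjoin (adjoin k (Set.range x))
      {algebraMap (MvPolynomial (Fin n) E) F (MvPolynomial.C u)}) z := by
  obtain ⟨A, hA⟩ : ∃ A : IntermediateField (adjoin k (Set.range x)) F,
      A = adjoin (adjoin k (Set.range x))
        {algebraMap (MvPolynomial (Fin n) E) F (MvPolynomial.C u)} := ⟨_, rfl⟩
  rw [← hA]
  have huA : alg_u_phi n E F u ∈ A := by
    rw [hA]
    exact mem_adjoin_of_mem _ rfl
  have h1 : z ∈ (algebraicClosure A F).toSubfield := by
    refine alg_u_ind n E _ ?_ ?_ z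
    · intro i
      have hi : x i ∈ adjoin k (Set.range x) := subset_adjoin k _ (Set.mem_range_self i)
      rw [← hL i hi]
      change _ ∈ algebraicClosure A F
      rw [mem_algebraicClosure_iff]
      exact isAlgebraic_algebraMap (⟨_, A.algebraMap_mem ⟨x i, hi⟩⟩ : A)
    · intro c
      change _ ∈ algebraicClosure A F
      rw [mem_algebraicClosure_iff]
      have h2 := alg_u_dep E hTD u hut c
      have h3 : Algebra.adjoin k (Set.range fun _ : Unit => u) ≤
          (A.restrictScalars k).toSubalgebra.comap (alg_u_phi n E F) := by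
        rw [Algebra.adjoin_le_iff]
        rintro _ ⟨_, rfl⟩
        exact huA
      let f : Algebra.adjoin k (Set.range fun _ : Unit => u) →+* A :=
        RingHom.codRestrict
          (((alg_u_phi n E F : E →ₐ[k] F) : E →+* F).comp
            (algebraMap (Algebra.adjoin k (Set.range fun _ : Unit => u)) E)) A
          fun b => h3 b.2
      refine h2.ringHom_of_comp_eq f (alg_u_phi n E F) ?_ ?_
      · intro a b hab
        have h4 : alg_u_phi n E F (a : E) = alg_u_phi n E F (b : E) :=
          congrArg Subtype.val hab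
        exact Subtype.ext ((alg_u_phi n E F).injective h4)
      · rfl
  exact (mem_algebraicClosure_iff.1 h1 :)

/-- RD-U13. `E = adjoin k S`, so `F` is generated over `L` by the images of `S` (the `X i` are in
`L`). -/
theorem top_of_fg (hL : ∀ (i : Fin n) (h : x i ∈ adjoin k (Set.range x)),
      algebraMap (adjoin k (Set.range x)) F ⟨x i, h⟩ =
        algebraMap (MvPolynomial (Fin n) E) F (MvPolynomial.X i))
    (S : Set E) (hS : adjoin k ((fun s : E => (s : M)) '' S) = E) :
    adjoin (adjoin k (Set.range x))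
      ((fun s : E => algebraMap (MvPolynomial (Fin n) E) F (MvPolynomial.C s)) '' S) = ⊤ := by
  rw [eq_top_iff]
  intro z _
  change z ∈ (adjoin (adjoin k (Set.range x))
      ((fun s : E => algebraMap (MvPolynomial (Fin n) E) F (MvPolynomial.C s)) '' S)).toSubfield
  refine alg_u_ind n E _ ?_ ?_ z
  · intro i
    have hi : x i ∈ adjoin k (Set.range x) := subset_adjoin k _ (Set.mem_range_self i)
    rw [← hL i hi]
    exact IntermediateField.algebraMap_mem (adjoin (adjoin k (Set.range x))
      ((fun s : E => algebraMap (MvPolynomial (Fin n) E) F (MvPolynomial.C s)) '' S)) _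
  · intro c
    have h1 : (c : M) ∈ adjoin k ((fun s : E => (s : M)) '' S) := by
      rw [hS]
      exact c.2
    have h2 : adjoin k ((fun s : E => (s : M)) '' S) = (adjoin k S).map E.val :=
      (adjoin_map k S E.val).symm
    rw [h2] at h1
    obtain ⟨d, hd, hdc⟩ := h1
    have h3 : d = c := Subtype.ext hdc
    subst h3
    have h4 : adjoin k S ≤ ((adjoin (adjoin k (Set.range x))
      ((fun s : E => algebraMap (MvPolynomial (Fin n) E) F (MvPolynomial.C s)) '' S)).restrictScalars
        k).comap (alg_u_phi n E F) := by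
      rw [adjoin_le_iff]
      intro s hs
      exact subset_adjoin _ _ ⟨s, hs, rfl⟩
    exact h4 hd

end

open scoped IntermediateField.algebraAdjoinAdjoin in
private theorem exchange_alg {L F : Type*} [Field L] [Field F] [Algebra L F] (u : F)
    (hu : ∀ z : F, IsAlgebraic (adjoin L {u}) z) : Algebra.IsAlgebraic (Algebra.adjoin L {u}) F :=
  ⟨fun z => (IsFractionRing.isAlgebraic_iff (Algebra.adjoin L {u}) (adjoin L {u}) F).2 (hu z)⟩

/-- RD-U12. `trdeg L F ≤ 1` and `f` is transcendental, so `{f}` is a transcendence basis. -/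
theorem exchange {L F : Type*} [Field L] [Field F] [Algebra L F] (u f : F)
    (hu : ∀ z : F, IsAlgebraic (adjoin L {u}) z) (hf : Transcendental L f) (z : F) :
    IsAlgebraic (adjoin L {f}) z := by
  have h1 : Algebra.IsAlgebraic (Algebra.adjoin L {u}) F := exchange_alg u hu
  have h2 : Algebra.trdeg L F ≤ 1 := by
    have := Algebra.IsAlgebraic.trdeg_le_cardinalMk L ({u} : Set F)
    rwa [Cardinal.mk_singleton] at this
  have h3 : AlgebraicIndependent L (fun _ : Unit => f) :=
    algebraicIndependent_unique_type_iff.2 hf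
  have h4 : IsTranscendenceBasis L (fun _ : Unit => f) :=
    h3.isTranscendenceBasis_of_lift_trdeg_le_of_finite (by simpa using h2)
  have h5 := h4.isAlgebraic_field
  rw [Set.range_const] at h5
  exact h5.isAlgebraic z

private theorem fin_of_fg_top {K F : Type*} [Field K] [Field F] [Algebra K F]
    (E : IntermediateField K F) (hE : E = ⊤) (h : FiniteDimensional K E) :
    FiniteDimensional K F := by
  subst hE
  exact Module.Finite.equiv (IntermediateField.topEquiv (F := K) (E := F)).toLinearEquiv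

/-- RD-U12. `F` is algebraic over `adjoin L {f}` and generated by a finite set. -/
theorem fin_of_fg {L F : Type*} [Field L] [Field F] [Algebra L F] (S : Set F) (hS : S.Finite)
    (htop : adjoin L S = ⊤) (f : F) (halg : ∀ z : F, IsAlgebraic (adjoin L {f}) z) :
    FiniteDimensional (adjoin L {f}) F := by
  have : Finite S := hS
  have h1 : FiniteDimensional (adjoin L {f}) (adjoin (adjoin L {f}) S) :=
    finiteDimensional_adjoin fun x _ => (halg x).isIntegral
  refine fin_of_fg_top _ ?_ h1
  rw [eq_top_iff]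
  intro z _
  have h4 : ∀ s ∈ S, s ∈ adjoin (adjoin L {f}) S := fun s hs => subset_adjoin _ _ hs
  have h3 : adjoin L S ≤ (adjoin (adjoin L {f}) S).restrictScalars L :=
    adjoin_le_iff.2 fun s hs => (mem_restrictScalars L).2 (h4 s hs)
  have h5 : z ∈ adjoin L S := by
    rw [htop]
    exact IntermediateField.mem_top
  exact (mem_restrictScalars L).1 (h3 h5)

/-! ### U14: assembly -/

private theorem one_param_fg_td {k : Type*} {M F : Type*} [Field k] [Field M] [Algebra k M] [Field F]
    [Algebra k F] (E : IntermediateField k M) (ι : E →ₐ[k] F) (hTD : TD k (E : Set M) 1) :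
    TD k (ι.fieldRange : Set F) 1 := by
  intro y hy hi
  have hy' : ∀ i, ∃ c : E, ι c = y i := fun i => AlgHom.mem_fieldRange.1 (hy i)
  choose c hc using hy'
  have h1 : AlgebraicIndependent k (fun i => ι (c i)) := by
    have : (fun i => ι (c i)) = y := funext hc
    rw [this]
    exact hi
  have h2 : AlgebraicIndependent k c := AlgebraicIndependent.of_comp ι h1
  exact hTD (fun i => (c i : M)) (fun i => (c i).2) (h2.map' (f := E.val) E.val.injective)

private theorem one_param_fg_stab {k : Type*} {M : Type*} [Field k] [Field M] [Algebra k M] {n : ℕ}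
    (x : Fin n → M) {G : Type} [Group G] (ψ : G →* (M ≃ₐ[k] M)) (ρ : G →* Equiv.Perm (Fin n))
    (hρ : ∀ g i, ψ g (x i) = x (ρ g i)) (g : G) (z : M) (hz : z ∈ adjoin k (Set.range x)) :
    ψ g z ∈ adjoin k (Set.range x) := by
  have h1 : ψ g z ∈ (adjoin k (Set.range x)).map (ψ g : M →ₐ[k] M) := ⟨z, hz, rfl⟩
  rw [adjoin_map] at h1
  refine (adjoin.mono k _ _ ?_) h1
  rintro _ ⟨_, ⟨i, rfl⟩, rfl⟩
  exact ⟨ρ g i, (hρ g i).symm⟩

private def one_param_fg_tau {k : Type*} {M : Type*} [Field k] [Field M] [Algebra k M]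
    (L : IntermediateField k M) {G : Type} [Group G] (ψ : G →* (M ≃ₐ[k] M))
    (h : ∀ g, ∀ z ∈ L, ψ g z ∈ L) (g : G) : L ≃ₐ[k] L where
  toFun c := ⟨ψ g c, h g c c.2⟩
  invFun c := ⟨ψ g⁻¹ c, h g⁻¹ c c.2⟩
  left_inv c := by
    apply Subtype.ext
    change ψ g⁻¹ (ψ g c) = c
    rw [← AlgEquiv.mul_apply, ← map_mul, inv_mul_cancel, map_one, AlgEquiv.one_apply]
  right_inv c := by
    apply Subtype.ext
    change ψ g (ψ g⁻¹ c) = c
    rw [← AlgEquiv.mul_apply, ← map_mul, mul_inv_cancel, map_one, AlgEquiv.one_apply]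
  map_mul' c d := by
    apply Subtype.ext
    exact map_mul (ψ g) (c : M) d
  map_add' c d := by
    apply Subtype.ext
    exact map_add (ψ g) (c : M) d
  commutes' c := by
    apply Subtype.ext
    exact (ψ g).commutes c

private theorem one_param_fg_core {k : Type v} {M : Type u} [Field k] [IsAlgClosed k] [CharZero k]
    [Field M] [Algebra k M] {n : ℕ} (x : Fin n → M) (hx : AlgebraicIndependent k x)
    (hM : FiniteDimensional (adjoin k (Set.range x)) M) {G : Type} [Group G] [Finite G]
    (ψ : G →* (M ≃ₐ[k] M)) (ρ : G →* Equiv.Perm (Fin n))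
    (hρ : ∀ g i, ψ g (x i) = x (ρ g i)) (E : IntermediateField k M)
    (hE : ∀ g, ∀ z ∈ E, ψ g z ∈ E) (hf : ∀ g, (∀ z ∈ E, ψ g z = z) → g = 1)
    (hTD : TD k (E : Set M) 1) (S : Set M) (hS : S.Finite) (hES : adjoin k S = E)
    (u : M) (hu : u ∈ E) (hut : Transcendental k u)
    {F : Type u} [Field F] [Algebra (MvPolynomial (Fin n) E) F]
    [IsFractionRing (MvPolynomial (Fin n) E) F] [Algebra k F]
    [IsScalarTower k (MvPolynomial (Fin n) E) F]
    [Algebra (adjoin k (Set.range x)) F] [IsScalarTower k (adjoin k (Set.range x)) F]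
    (hL : ∀ (i : Fin n) (h : x i ∈ adjoin k (Set.range x)),
      algebraMap (adjoin k (Set.range x)) F ⟨x i, h⟩ =
        algebraMap (MvPolynomial (Fin n) E) F (MvPolynomial.X i)) :
    Nat.card G ∣ Monoid.exponent G *
      relfinrank (adjoin k (Set.range x)) (E ⊔ adjoin k (Set.range x)) := by
  classical
  obtain ⟨f0, hf0p, hf0k⟩ := kernel x hx (Algebra.IsAlgebraic.of_finite _ _) E hTD u hu hut
  obtain ⟨T, hTX, hTC, hT⟩ := exists_poly_action x E ψ ρ hρ hE
  obtain ⟨b, hb0, hb⟩ := exists_inv x E ψ hE hf T hTC hT f0 hf0p hf0k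
  have hbu : IsUnit (MvPolynomial.C (σ := Fin n) b) := (IsUnit.mk0 b hb0).map MvPolynomial.C
  have hass : Associated f0 (MvPolynomial.C b * f0) := (associated_unit_mul_left f0 _ hbu).symm
  obtain ⟨f, hfdef⟩ : ∃ f, f = MvPolynomial.C b * f0 := ⟨_, rfl⟩
  rw [← hfdef] at hass
  have hfp : Prime f := hass.prime hf0p
  have hfk : ∀ g, MvPolynomial.aeval x g = 0 ↔ f ∣ g := fun g => by
    rw [hf0k, hass.dvd_iff_dvd_left]
  have hTf : ∀ g, T g f = f := fun g => by
    rw [hfdef]
    exact hb g
  obtain ⟨Ψ, hΨ⟩ := exists_frac_action (k := k) (R := MvPolynomial (Fin n) E) (F := F) T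
  obtain ⟨wf, h3, h4, h5, h6, h7⟩ := exists_wf x E (F := F) hx hL hM f hfp hfk
  have hinj : Function.Injective (algebraMap (MvPolynomial (Fin n) E) F) :=
    IsFractionRing.injective (MvPolynomial (Fin n) E) F
  have h1 : Transcendental (adjoin k (Set.range x)) (algebraMap (MvPolynomial (Fin n) E) F f) :=
    h3.toIsW.transcendental _ (by rw [h4]; norm_num)
  let S' : Set E := {e : E | (e : M) ∈ S}
  have hS' : S'.Finite := hS.preimage (Subtype.val_injective.injOn)
  have hS'' : (fun s : E => (s : M)) '' S' = S := by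
    ext z
    constructor
    · rintro ⟨e, he, rfl⟩
      exact he
    · intro hz
      exact ⟨⟨z, by rw [← hES]; exact subset_adjoin k S hz⟩, hz, rfl⟩
  have htop := top_of_fg x E (F := F) hL S' (by rw [hS'']; exact hES)
  have halg := exchange (algebraMap (MvPolynomial (Fin n) E) F (MvPolynomial.C ⟨u, hu⟩))
    (algebraMap (MvPolynomial (Fin n) E) F f) (alg_u x E hL hTD ⟨u, hu⟩ hut) h1
  have h2 : FiniteDimensional (adjoin (adjoin k (Set.range x))
      {algebraMap (MvPolynomial (Fin n) E) F f}) F :=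
    fin_of_fg _ (hS'.image _) htop _ halg
  let ι : E →ₐ[k] F := (IsScalarTower.toAlgHom k (MvPolynomial (Fin n) E) F).comp
    ((Algebra.ofId E (MvPolynomial (Fin n) E)).restrictScalars k)
  have hι : ∀ c : E, ι c = algebraMap (MvPolynomial (Fin n) E) F (MvPolynomial.C c) := fun c => rfl
  have hstab := one_param_fg_stab x ψ ρ hρ
  have hchar : CharZero (adjoin k (Set.range x)) :=
    charZero_of_injective_algebraMap (algebraMap k (adjoin k (Set.range x))).injective
  refine assemble ι.fieldRange (algebraMap (MvPolynomial (Fin n) E) F f) wf _ h1 h2 h3 h4 h5 ?_ ?_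
    (one_param_fg_td E ι hTD) Ψ ?_ ?_
    (fun g => (one_param_fg_tau (adjoin k (Set.range x)) ψ hstab g).toRingEquiv) ?_ ?_
  · rintro _ ⟨c, rfl⟩ hz
    refine h6 c fun hc => hz ?_
    rw [hc]
    exact map_zero ι
  · intro w hw hwE hwf
    refine wf_unique x E hx hL hM f hfk w wf hw (fun c hc => hwE _ ⟨c, rfl⟩ ?_) hwf h3.zero h7
    rw [Ne, map_eq_zero_iff _ hinj, map_eq_zero_iff _ (MvPolynomial.C_injective _ _)]
    exact hc
  · rintro g _ ⟨c, rfl⟩
    obtain ⟨c', -, hc'⟩ := hTC g c
    refine ⟨c', ?_⟩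
    change ι c' = Ψ g (ι c)
    rw [hι, hι, hΨ, hc']
  · intro g hg
    refine hf g fun z hz => ?_
    obtain ⟨c', hc1, hc2⟩ := hTC g ⟨z, hz⟩
    have h8 := hg (ι ⟨z, hz⟩) ⟨⟨z, hz⟩, rfl⟩
    rw [hι, hΨ, hc2] at h8
    have h9 := MvPolynomial.C_injective _ _ (hinj h8)
    rw [← hc1, h9]
  · intro g c
    have h8 : (Ψ g : F →ₐ[k] F).comp (IsScalarTower.toAlgHom k (adjoin k (Set.range x)) F) =
        (IsScalarTower.toAlgHom k (adjoin k (Set.range x)) F).comp
          (one_param_fg_tau (adjoin k (Set.range x)) ψ hstab g : _ →ₐ[k] _) := by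
      refine adjoin_algHom_ext k ?_
      rintro _ ⟨i, rfl⟩
      change Ψ g (algebraMap (adjoin k (Set.range x)) F ⟨x i, _⟩) =
        algebraMap (adjoin k (Set.range x)) F ⟨ψ g (x i), _⟩
      rw [hL, hΨ, hTX, ← hL (ρ g i) (subset_adjoin k _ ⟨ρ g i, rfl⟩)]
      congr 1
      exact Subtype.ext (hρ g i).symm
    exact DFunLike.congr_fun h8 c
  · intro g
    rw [hΨ, hTf]

/-- RD-U14 (uses `kernel`, `exists_poly_action`, `exists_inv`, `exists_frac_action`, `exists_j`,
`exists_wf`, `wf_unique`, `alg_u`, `top_of_fg`, `exchange`, `fin_of_fg`, `IsW.transcendental`,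
`assemble`). `F = FractionRing (MvPolynomial (Fin n) E)`, an algebra over `L = adjoin k (range x)` by `j`;
`f` is replaced by `C b * f` (again prime with the same multiples). The subfield in `assemble` is the
image of `E` in `F`; `Ψ g` maps `X i ↦ X (ρ g i)`, so it maps `L` to itself, and the restriction is
`ψ g` on `L` (stable under `ψ g`), `τ g`. -/
theorem one_param_fg {k : Type v} {M : Type u} [Field k] [IsAlgClosed k] [CharZero k] [Field M]
    [Algebra k M] {n : ℕ} (x : Fin n → M) (hx : AlgebraicIndependent k x)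
    (hM : FiniteDimensional (adjoin k (Set.range x)) M) {G : Type} [Group G] [Finite G]
    (ψ : G →* (M ≃ₐ[k] M)) (ρ : G →* Equiv.Perm (Fin n))
    (hρ : ∀ g i, ψ g (x i) = x (ρ g i)) (E : IntermediateField k M)
    (hE : ∀ g, ∀ z ∈ E, ψ g z ∈ E) (hf : ∀ g, (∀ z ∈ E, ψ g z = z) → g = 1)
    (hTD : TD k (E : Set M) 1) (S : Set M) (hS : S.Finite) (hES : adjoin k S = E)
    (u : M) (hu : u ∈ E) (hut : Transcendental k u) :
    Nat.card G ∣ Monoid.exponent G *
      relfinrank (adjoin k (Set.range x)) (E ⊔ adjoin k (Set.range x)) := by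
  obtain ⟨j, hj⟩ := exists_j x E (F := FractionRing (MvPolynomial (Fin n) E)) hx
  let : Algebra (adjoin k (Set.range x)) (FractionRing (MvPolynomial (Fin n) E)) :=
    j.toRingHom.toAlgebra
  have : IsScalarTower k (adjoin k (Set.range x)) (FractionRing (MvPolynomial (Fin n) E)) :=
    IsScalarTower.of_algebraMap_eq fun c => (j.commutes c).symm
  exact one_param_fg_core x hx hM ψ ρ hρ E hE hf hTD S hS hES u hu hut
    (F := FractionRing (MvPolynomial (Fin n) E)) hj

/-- RD-U15. For `g ≠ 1` let `z g ∈ E` be moved by `ψ g`; `S = {ψ h (z g)}`, a finite set. -/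
theorem exists_fg {k : Type v} {M : Type u} [Field k] [Field M] [Algebra k M] {G : Type} [Group G]
    [Finite G] (ψ : G →* (M ≃ₐ[k] M)) (E : IntermediateField k M)
    (hE : ∀ g, ∀ z ∈ E, ψ g z ∈ E) (hf : ∀ g, (∀ z ∈ E, ψ g z = z) → g = 1) :
    ∃ S : Set M, S.Finite ∧ adjoin k S ≤ E ∧ (∀ g, ∀ z ∈ adjoin k S, ψ g z ∈ adjoin k S) ∧
      ∀ g, (∀ z ∈ adjoin k S, ψ g z = z) → g = 1 := by
  classical
  have h1 : ∀ g : G, ∃ z : M, z ∈ E ∧ (ψ g z = z → g = 1) := by
    intro g
    by_cases hg : g = 1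
    · exact ⟨0, E.zero_mem, fun _ => hg⟩
    · by_contra hcon
      push Not at hcon
      exact hg (hf g fun z hz => (hcon z hz).1)
  choose z hzE hz using h1
  refine ⟨Set.range fun q : G × G => ψ q.1 (z q.2), Set.finite_range _, ?_, ?_, ?_⟩
  · rw [adjoin_le_iff]
    rintro _ ⟨q, rfl⟩
    exact hE _ _ (hzE _)
  · intro g y hy
    have h2 : ψ g y ∈ (adjoin k (Set.range fun q : G × G => ψ q.1 (z q.2))).map
        (ψ g : M →ₐ[k] M) := ⟨y, hy, rfl⟩
    rw [adjoin_map] at h2
    refine (adjoin_le_iff.2 ?_) h2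
    rintro _ ⟨_, ⟨q, rfl⟩, rfl⟩
    refine subset_adjoin k _ ⟨(g * q.1, q.2), ?_⟩
    change ψ (g * q.1) (z q.2) = ψ g (ψ q.1 (z q.2))
    rw [map_mul, AlgEquiv.mul_apply]
  · intro g hg
    refine hz g (hg _ (subset_adjoin k _ ⟨(1, g), ?_⟩))
    change ψ 1 (z g) = z g
    rw [map_one]
    rfl

/-- RD-U15 (uses `exists_fg`, `one_param_fg`). If `G` is trivial the claim is clear; otherwise
`E1 = adjoin k S` contains an element not in `k`, transcendental over `k` (algebraically closed).
`relfinrank L (E1 ⊔ L)` divides `finrank L M`. -/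
theorem one_param {k : Type v} {M : Type u} [Field k] [IsAlgClosed k] [CharZero k] [Field M]
    [Algebra k M] {n : ℕ} (x : Fin n → M) (hx : AlgebraicIndependent k x)
    (hM : FiniteDimensional (adjoin k (Set.range x)) M) {G : Type} [Group G] [Finite G]
    (ψ : G →* (M ≃ₐ[k] M)) (ρ : G →* Equiv.Perm (Fin n))
    (hρ : ∀ g i, ψ g (x i) = x (ρ g i)) (E : IntermediateField k M)
    (hE : ∀ g, ∀ z ∈ E, ψ g z ∈ E) (hf : ∀ g, (∀ z ∈ E, ψ g z = z) → g = 1)
    (hTD : TD k (E : Set M) 1) :
    Nat.card G ∣ Monoid.exponent G * Module.finrank (adjoin k (Set.range x)) M := by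
  by_cases hG : ∀ g : G, g = 1
  · have : Subsingleton G := ⟨fun a b => (hG a).trans (hG b).symm⟩
    rw [Nat.card_unique]
    exact one_dvd _
  · push Not at hG
    obtain ⟨g, hg⟩ := hG
    obtain ⟨S, hS, hSE, hst, hfa⟩ := exists_fg ψ E hE hf
    obtain ⟨u, hu, hgu⟩ : ∃ u ∈ adjoin k S, ψ g u ≠ u := by
      by_contra hcon
      push Not at hcon
      exact hg (hfa g hcon)
    have hut : Transcendental k u := by
      intro halg
      have : Algebra.IsAlgebraic k (adjoin k ({u} : Set M)) :=
        isAlgebraic_adjoin_simple halg.isIntegral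
      have h1 : adjoin k ({u} : Set M) = ⊥ := eq_bot_of_isAlgClosed_of_isAlgebraic _
      have h2 : u ∈ (⊥ : IntermediateField k M) := h1 ▸ mem_adjoin_simple_self k u
      obtain ⟨c, hc⟩ := mem_bot.1 h2
      apply hgu
      rw [← hc]
      exact (ψ g).commutes c
    refine (one_param_fg x hx hM ψ ρ hρ (adjoin k S) hst hfa (hTD.mono hSE) S hS rfl u hu
      hut).trans ?_
    exact Nat.mul_dvd_mul_left _ (relfinrank_dvd_finrank_top_of_le le_sup_right)

end Pool.Agent.Helper15.RD
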