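import Pool.Agent.Helper15.RD.Td

/-!
# Project RD (B), block V: divisors of functions of one variable
-/

set_option autoImplicit false

namespace Pool.Agent.Helper15.RD

open IntermediateField

universe u v

/-- a discrete valuation of `F`, trivial on `L` -/
structure IsW (L : Type*) {F : Type*} [Field L] [Field F] [Algebra L F] (w : F → ℤ) : Prop where
  zero : w 0 = 0
  mul : ∀ a b, a ≠ 0 → b ≠ 0 → w (a * b) = w a + w b
  add : ∀ a b, a ≠ 0 → b ≠ 0 → a + b ≠ 0 → min (w a) (w b) ≤ w (a + b)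
  alg : ∀ c : L, c ≠ 0 → w (algebraMap L F c) = 0

/-- a discrete valuation of `F` with value group `ℤ`, trivial on `L` -/
structure IsV (L : Type*) {F : Type*} [Field L] [Field F] [Algebra L F] (w : F → ℤ) : Prop
    extends IsW L w where
  surj : ∃ π, w π = 1

/-- the residue field of `w` is of degree `δ` over `L` -/
def Dg (L : Type v) {F : Type u} [Field L] [Field F] [Algebra L F] (w : F → ℤ) (δ : ℕ) : Prop :=
  ∃ (E' : Type u) (_ : Field E') (_ : Algebra L E') (r : F → E'), Pl L w r ∧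
    (∀ y, ∃ z, Oi w z ∧ r z = y) ∧ FiniteDimensional L E' ∧ Module.finrank L E' = δ

/-! ### V1: rules -/

section

variable {L : Type*} {F : Type*} [Field L] [Field F] [Algebra L F] {w : F → ℤ}

/-- RD-V1. -/
theorem IsW.one (h : IsW L w) : w 1 = 0 := by
  have h1 := h.mul 1 1 one_ne_zero one_ne_zero
  rw [mul_one] at h1
  omega

/-- RD-V1. -/
theorem IsW.inv (h : IsW L w) (a : F) : w a⁻¹ = -w a := by
  rcases eq_or_ne a 0 with rfl | ha
  · rw [inv_zero, h.zero, neg_zero]
  · have h1 := h.mul a⁻¹ a (inv_ne_zero ha) ha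
    rw [inv_mul_cancel₀ ha, h.one] at h1
    omega

/-- RD-V1. -/
theorem IsW.neg (h : IsW L w) (a : F) : w (-a) = w a := by
  rcases eq_or_ne a 0 with rfl | ha
  · rw [neg_zero]
  · have h1 : w (-1 : F) = 0 := by
      have h2 := h.mul (-1) (-1) (neg_ne_zero.2 one_ne_zero) (neg_ne_zero.2 one_ne_zero)
      rw [neg_mul_neg, mul_one, h.one] at h2
      omega
    have h3 := h.mul (-1) a (neg_ne_zero.2 one_ne_zero) ha
    rw [neg_one_mul, h1, zero_add] at h3
    exact h3

/-- RD-V1. -/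
theorem IsW.pow (h : IsW L w) (a : F) (n : ℕ) : w (a ^ n) = n * w a := by
  rcases eq_or_ne a 0 with rfl | ha
  · rcases Nat.eq_zero_or_pos n with rfl | hn
    · rw [pow_zero, h.one, Nat.cast_zero, zero_mul]
    · rw [zero_pow hn.ne', h.zero, mul_zero]
  · induction n with
    | zero => rw [pow_zero, h.one, Nat.cast_zero, zero_mul]
    | succ n ih =>
      rw [pow_succ, h.mul _ _ (pow_ne_zero n ha) ha, ih, Nat.cast_succ]
      ring

/-- RD-V1. -/
theorem IsW.zpow (h : IsW L w) (a : F) (n : ℤ) : w (a ^ n) = n * w a := by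
  rcases Int.eq_nat_or_neg n with ⟨m, rfl | rfl⟩
  · rw [zpow_natCast, h.pow]
  · rw [zpow_neg, zpow_natCast, h.inv, h.pow, neg_mul]

/-- RD-V1. -/
theorem IsW.prod (h : IsW L w) {ι : Type*} (s : Finset ι) (a : ι → F) (ha : ∀ i ∈ s, a i ≠ 0) :
    w (∏ i ∈ s, a i) = ∑ i ∈ s, w (a i) := by
  classical
  induction s using Finset.induction_on with
  | empty => rw [Finset.prod_empty, Finset.sum_empty, h.one]
  | insert i s hi ih =>
    rw [Finset.prod_insert hi, Finset.sum_insert hi, h.mul _ _ (ha i (Finset.mem_insert_self i s))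
      (Finset.prod_ne_zero_iff.2 fun j hj => ha j (Finset.mem_insert_of_mem hj)),
      ih fun j hj => ha j (Finset.mem_insert_of_mem hj)]

/-- RD-V1. -/
theorem IsW.oi_alg (h : IsW L w) (c : L) : Oi w (algebraMap L F c) := by
  rcases eq_or_ne c 0 with rfl | hc
  · exact Or.inl (map_zero _)
  · exact Or.inr (h.alg c hc).ge

/-- RD-V1. -/
theorem IsW.oi_add (h : IsW L w) {a b : F} (ha : Oi w a) (hb : Oi w b) : Oi w (a + b) := by
  rcases eq_or_ne a 0 with rfl | ha0
  · rwa [zero_add]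
  rcases eq_or_ne b 0 with rfl | hb0
  · rwa [add_zero]
  rcases eq_or_ne (a + b) 0 with h0 | h0
  · exact Or.inl h0
  exact Or.inr ((le_min (ha.resolve_left ha0) (hb.resolve_left hb0)).trans (h.add a b ha0 hb0 h0))

/-- RD-V1. -/
theorem IsW.oi_mul (h : IsW L w) {a b : F} (ha : Oi w a) (hb : Oi w b) : Oi w (a * b) := by
  rcases eq_or_ne a 0 with rfl | ha0
  · exact Or.inl (zero_mul b)
  rcases eq_or_ne b 0 with rfl | hb0
  · exact Or.inl (mul_zero a)
  refine Or.inr ?_
  rw [h.mul a b ha0 hb0]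
  exact add_nonneg (ha.resolve_left ha0) (hb.resolve_left hb0)

/-- RD-V1. -/
theorem IsW.oi_sum (h : IsW L w) {ι : Type*} (s : Finset ι) (a : ι → F)
    (ha : ∀ i ∈ s, Oi w (a i)) : Oi w (∑ i ∈ s, a i) := by
  classical
  induction s using Finset.induction_on with
  | empty => exact Or.inl Finset.sum_empty
  | insert i s hi ih =>
    rw [Finset.sum_insert hi]
    exact h.oi_add (ha i (Finset.mem_insert_self i s))
      (ih fun j hj => ha j (Finset.mem_insert_of_mem hj))

/-- `z` is in the maximal ideal of `w` -/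
def Mi {E : Type*} [Zero E] (w : E → ℤ) (z : E) : Prop := z = 0 ∨ 0 < w z

/-- RD-V1. -/
theorem IsW.mi_add (h : IsW L w) {a b : F} (ha : Mi w a) (hb : Mi w b) : Mi w (a + b) := by
  rcases eq_or_ne a 0 with rfl | ha0
  · rwa [zero_add]
  rcases eq_or_ne b 0 with rfl | hb0
  · rwa [add_zero]
  rcases eq_or_ne (a + b) 0 with h0 | h0
  · exact Or.inl h0
  exact Or.inr ((lt_min (ha.resolve_left ha0) (hb.resolve_left hb0)).trans_le
    (h.add a b ha0 hb0 h0))

/-- RD-V1. -/
theorem IsW.mi_mul (h : IsW L w) {a b : F} (ha : Oi w a) (hb : Mi w b) : Mi w (a * b) := by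
  rcases eq_or_ne a 0 with rfl | ha0
  · exact Or.inl (zero_mul b)
  rcases eq_or_ne b 0 with rfl | hb0
  · exact Or.inl (mul_zero a)
  refine Or.inr ?_
  rw [h.mul a b ha0 hb0]
  exact add_pos_of_nonneg_of_pos (ha.resolve_left ha0) (hb.resolve_left hb0)

/-- RD-V1. -/
theorem IsW.mi_sum (h : IsW L w) {ι : Type*} (s : Finset ι) (a : ι → F)
    (ha : ∀ i ∈ s, Mi w (a i)) : Mi w (∑ i ∈ s, a i) := by
  classical
  induction s using Finset.induction_on with
  | empty => exact Or.inl Finset.sum_empty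
  | insert i s hi ih =>
    rw [Finset.sum_insert hi]
    exact h.mi_add (ha i (Finset.mem_insert_self i s))
      (ih fun j hj => ha j (Finset.mem_insert_of_mem hj))

/-- RD-V1. (`a - b` has larger valuation than `b`, so `w a = w b`) -/
theorem IsW.eq_of_sub (h : IsW L w) {a b : F} (hb : b ≠ 0) (hab : a = b ∨ w b < w (a - b)) :
    a ≠ 0 ∧ w a = w b := by
  rcases eq_or_ne a b with rfl | hne
  · exact ⟨hb, rfl⟩
  have h1 : w b < w (a - b) := hab.resolve_left hne
  have h2 : a - b ≠ 0 := sub_ne_zero.2 hne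
  have ha : a ≠ 0 := by
    rintro rfl
    rw [zero_sub, h.neg] at h1
    exact lt_irrefl _ h1
  refine ⟨ha, ?_⟩
  have h3 := h.add b (a - b) hb h2 (by rwa [add_sub_cancel])
  rw [add_sub_cancel, min_eq_left h1.le] at h3
  have h4 := h.add a (b - a) ha (sub_ne_zero.2 hne.symm) (by rwa [add_sub_cancel])
  rw [add_sub_cancel, ← neg_sub a b, h.neg] at h4
  rcases min_le_iff.1 h4 with h5 | h5
  · exact le_antisymm h5 h3
  · exact absurd h5 (not_le.2 h1)

/-! ### V2: algebraic elements, the residue field -/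

/-- RD-V2. If `w z > 0` (replace `z` by `z⁻¹` if `w z < 0`) and `P (z) = 0`, `P` the minimal polynomial,
with constant coefficient `c ≠ 0`, then `c = - z (...)` with `...` integral for `w`, so `w c > 0`,
contradiction. -/
theorem IsW.transcendental (h : IsW L w) (z : F) (hz : w z ≠ 0) : Transcendental L z := by
  have key : ∀ z : F, 0 < w z → ¬ IsAlgebraic L z := by
    intro z hz halg
    have hz0 : z ≠ 0 := by
      rintro rfl
      rw [h.zero] at hz
      exact lt_irrefl _ hz
    have hoi : ∀ Q : Polynomial L, Oi w (Polynomial.aeval z Q) := by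
      intro Q
      rw [Polynomial.aeval_eq_sum_range]
      refine h.oi_sum _ _ fun i _ => ?_
      rw [Algebra.smul_def]
      refine h.oi_mul (h.oi_alg _) (Or.inr ?_)
      rw [h.pow]
      positivity
    have hc := minpoly.coeff_zero_ne_zero halg.isIntegral hz0
    have h1 : Polynomial.aeval z (minpoly L z) = 0 := minpoly.aeval L z
    rw [← Polynomial.divX_mul_X_add (minpoly L z), map_add, map_mul, Polynomial.aeval_X,
      Polynomial.aeval_C] at h1
    have h2 : algebraMap L F ((minpoly L z).coeff 0) =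
        Polynomial.aeval z (-(minpoly L z).divX) * z := by
      rw [map_neg]
      linear_combination h1
    have h3 : Mi w (algebraMap L F ((minpoly L z).coeff 0)) := by
      rw [h2]
      exact h.mi_mul (hoi _) (Or.inr hz)
    rcases h3 with h3 | h3
    · exact hc ((map_eq_zero _).mp h3)
    · rw [h.alg _ hc] at h3
      exact lt_irrefl _ h3
  rcases lt_or_gt_of_ne hz with hlt | hgt
  · intro halg
    exact key z⁻¹ (by rw [h.inv]; omega) halg.inv
  · exact key z hgt

end

section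

variable {L : Type v} {F : Type u} [Field L] [Field F] [Algebra L F] {w : F → ℤ}

/-- the valuation ring of `w` -/
private def exists_pl_ring (h : IsW L w) : Subalgebra L F where
  carrier := {z | Oi w z}
  mul_mem' := fun ha hb => h.oi_mul ha hb
  add_mem' := fun ha hb => h.oi_add ha hb
  algebraMap_mem' := h.oi_alg

/-- the maximal ideal of `w` -/
private def exists_pl_ideal (h : IsW L w) : Ideal (exists_pl_ring h) where
  carrier := {z | Mi w (z : F)}
  add_mem' := fun {a b} ha hb => h.mi_add (show Mi w (a : F) from ha) (show Mi w (b : F) from hb)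
  zero_mem' := Or.inl rfl
  smul_mem' := fun c x hx => h.mi_mul (show Oi w (c : F) from c.2) (show Mi w (x : F) from hx)

private theorem exists_pl_mem (h : IsW L w) (z : exists_pl_ring h) :
    z ∈ exists_pl_ideal h ↔ Mi w (z : F) := Iff.rfl

private theorem exists_pl_maximal (h : IsW L w) : (exists_pl_ideal h).IsMaximal := by
  rw [Ideal.isMaximal_iff]
  refine ⟨fun h1 => ?_, fun J x _ hx hxJ => ?_⟩
  · rw [exists_pl_mem] at h1
    rcases h1 with h1 | h1
    · exact one_ne_zero h1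
    · have h2 : w ((1 : exists_pl_ring h) : F) = 0 := h.one
      rw [h2] at h1
      exact lt_irrefl _ h1
  · rw [exists_pl_mem] at hx
    have hx0 : (x : F) ≠ 0 := fun h0 => hx (Or.inl h0)
    have hx1 : 0 ≤ w (x : F) := (show Oi w (x : F) from x.2).resolve_left hx0
    have hx2 : w (x : F) = 0 := by
      by_contra h2
      exact hx (Or.inr (lt_of_le_of_ne hx1 (Ne.symm h2)))
    have hi : Oi w (x : F)⁻¹ := Or.inr (by rw [h.inv, hx2, neg_zero])
    have h3 := J.mul_mem_left (⟨(x : F)⁻¹, hi⟩ : exists_pl_ring h) hxJ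
    have h4 : (⟨(x : F)⁻¹, hi⟩ : exists_pl_ring h) * x = 1 := Subtype.ext (inv_mul_cancel₀ hx0)
    rwa [h4] at h3

/-- RD-V3. `O = {z | Oi w z}` is a subring of `F` (an `L`-subalgebra), `{z | Mi w z}` a maximal ideal of
`O`; `E'` is the quotient, `r z` the class of `z ∈ O` (and `0` if `z ∉ O`). -/
theorem exists_pl (h : IsW L w) :
    ∃ (E' : Type u) (_ : Field E') (_ : Algebra L E') (r : F → E'), Pl L w r ∧
      ∀ y, ∃ z, Oi w z ∧ r z = y := by
  classical
  have hmax : (exists_pl_ideal h).IsMaximal := exists_pl_maximal h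
  let iF : Field (exists_pl_ring h ⧸ exists_pl_ideal h) := Ideal.Quotient.field _
  let r : F → exists_pl_ring h ⧸ exists_pl_ideal h := fun z =>
    if hz : Oi w z then Ideal.Quotient.mk (exists_pl_ideal h) ⟨z, hz⟩ else 0
  have hr : ∀ (z : F) (hz : Oi w z), r z = Ideal.Quotient.mk (exists_pl_ideal h) ⟨z, hz⟩ :=
    fun z hz => dif_pos hz
  refine ⟨exists_pl_ring h ⧸ exists_pl_ideal h, iF, inferInstance, r,
    ⟨h.mul, h.add, h.alg, fun c => ?_, fun a b ha hb => ?_, fun a b ha hb => ?_,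
      fun a ha => ?_⟩, fun y => ?_⟩
  · rw [hr _ (h.oi_alg c)]
    rfl
  · rw [hr _ (h.oi_add ha hb), hr _ ha, hr _ hb, ← map_add]
    rfl
  · rw [hr _ (h.oi_mul ha hb), hr _ ha, hr _ hb, ← map_mul]
    rfl
  · rw [hr _ ha, Ideal.Quotient.eq_zero_iff_mem]
    exact Iff.rfl
  · obtain ⟨z, rfl⟩ := Ideal.Quotient.mk_surjective y
    exact ⟨z.1, z.2, hr _ z.2⟩

private def Dg.unique_O (h : IsW L w) : Submodule L F where
  carrier := {z | Oi w z}
  zero_mem' := Or.inl rfl
  add_mem' := fun ha hb => h.oi_add ha hb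
  smul_mem' := fun c z hz => by
    change Oi w (c • z)
    rw [Algebra.smul_def]
    exact h.oi_mul (h.oi_alg c) hz

private theorem Dg.unique_aux (h : IsW L w) {E' : Type u} [Field E'] [Algebra L E'] {r : F → E'}
    (hr : Pl L w r) (hs : ∀ y, ∃ z, Oi w z ∧ r z = y) :
    ∃ K : Submodule L (Dg.unique_O h), (∀ z, z ∈ K ↔ Mi w (z : F)) ∧
      Module.finrank L (Dg.unique_O h ⧸ K) = Module.finrank L E' := by
  let φ : Dg.unique_O h →ₗ[L] E' :=
    { toFun := fun z => r z
      map_add' := fun a b => hr.r_add a b a.2 b.2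
      map_smul' := fun c z => by
        change r (c • (z : F)) = c • r z
        rw [Algebra.smul_def, hr.r_mul _ _ (h.oi_alg c) z.2, hr.r_alg, Algebra.smul_def] }
  have hφ : Function.Surjective φ := fun y => by
    obtain ⟨z, hz, e⟩ := hs y
    exact ⟨⟨z, hz⟩, e⟩
  refine ⟨LinearMap.ker φ, fun z => ?_, (LinearMap.quotKerEquivOfSurjective φ hφ).finrank_eq⟩
  rw [LinearMap.mem_ker]
  exact hr.r_ker z z.2

/-- RD-V4. Both residue fields are isomorphic as vector spaces over `L` to the quotient of the `L`-subspace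
`{z | Oi w z}` by the kernel of `r`, `{z | Mi w z}` (`LinearMap.quotKerEquivOfSurjective`). -/
theorem Dg.unique (h : IsW L w) {δ δ' : ℕ} (h1 : Dg L w δ) (h2 : Dg L w δ') : δ = δ' := by
  obtain ⟨E1, i1, a1, r1, p1, s1, f1, rfl⟩ := h1
  obtain ⟨E2, i2, a2, r2, p2, s2, f2, rfl⟩ := h2
  obtain ⟨K1, k1, e1⟩ := Dg.unique_aux h p1 s1
  obtain ⟨K2, k2, e2⟩ := Dg.unique_aux h p2 s2
  have : K1 = K2 := Submodule.ext fun z => (k1 z).trans (k2 z).symm
  rw [← e1, ← e2, this]

private theorem Dg.twist_aux {E' : Type u} [Field E'] (I : Algebra L E') (σ : L ≃+* L) :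
    letI := I
    ∀ (_ : FiniteDimensional L E'),
    ∃ J : Algebra L E', (∀ c, (@algebraMap L E' _ _ J) c = (@algebraMap L E' _ _ I) (σ c)) ∧
      @FiniteDimensional L E' _ _ J.toModule ∧
      @Module.finrank L E' _ _ J.toModule = @Module.finrank L E' _ _ I.toModule := by
  intro hfd
  let J : Algebra L E' := ((@algebraMap L E' _ _ I).comp (σ : L →+* L)).toAlgebra
  refine ⟨J, fun c => rfl, ?_, ?_⟩
  · refine @Module.Finite.of_equiv_equiv L E' L E' _ _ _ _ I J σ.symm (RingEquiv.refl E') ?_ hfd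
    ext c
    change (@algebraMap L E' _ _ I) (σ (σ.symm c)) = (@algebraMap L E' _ _ I) c
    rw [σ.apply_symm_apply]
  · refine @Algebra.finrank_eq_of_equiv_equiv L E' _ _ J L E' _ _ I σ (RingEquiv.refl E') ?_
    ext c
    rfl

/-- RD-V4. The same residue field, with `r ∘ τ` and the `L`-algebra structure given by
`(algebraMap L E').comp σ`; the degree does not change (`Algebra.finrank_eq_of_equiv_equiv`). -/
theorem Dg.twist {δ : ℕ} (h1 : Dg L w δ) (τ : F ≃+* F) (σ : L ≃+* L)
    (hτ : ∀ c : L, τ (algebraMap L F c) = algebraMap L F (σ c)) : Dg L (fun z => w (τ z)) δ := by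
  obtain ⟨E', i, a, r, p, s, f, rfl⟩ := h1
  have pm := p.w_mul
  have pa := p.w_add
  have pg := p.w_alg
  have ra := p.r_add
  have rm := p.r_mul
  have rg := p.r_alg
  have rk := p.r_ker
  obtain ⟨J, hJ, hf, hd⟩ := Dg.twist_aux a σ f
  have hoi : ∀ z, Oi (fun z => w (τ z)) z → Oi w (τ z) := fun z hz => by
    rcases hz with rfl | hz
    · exact Or.inl (map_zero τ)
    · exact Or.inr hz
  refine ⟨E', i, J, fun z => r (τ z), ?_, fun y => ?_, hf, hd⟩
  · constructor
    · intro x y hx hy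
      rw [map_mul]
      exact pm _ _ ((map_ne_zero τ).2 hx) ((map_ne_zero τ).2 hy)
    · intro x y hx hy hxy
      rw [map_add]
      exact pa _ _ ((map_ne_zero τ).2 hx) ((map_ne_zero τ).2 hy)
        (by rw [← map_add]; exact (map_ne_zero τ).2 hxy)
    · intro c hc
      change w (τ (algebraMap L F c)) = 0
      rw [hτ]
      exact pg _ ((map_ne_zero σ).2 hc)
    · intro c
      rw [hτ, rg, hJ]
    · intro x y hx hy
      rw [map_add]
      exact ra _ _ (hoi x hx) (hoi y hy)
    · intro x y hx hy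
      rw [map_mul]
      exact rm _ _ (hoi x hx) (hoi y hy)
    · intro x hx
      rw [rk _ (hoi x hx), map_eq_zero]
  · obtain ⟨z, hz, e⟩ := s y
    refine ⟨τ.symm z, ?_, ?_⟩
    · rcases hz with rfl | hz
      · exact Or.inl (map_zero _)
      · refine Or.inr ?_
        change 0 ≤ w (τ (τ.symm z))
        rwa [τ.apply_symm_apply]
    · change r (τ (τ.symm z)) = y
      rw [τ.apply_symm_apply, e]

/-- RD-V4. -/
theorem IsV.twist (h : IsV L w) (τ : F ≃+* F) (σ : L ≃+* L)
    (hτ : ∀ c : L, τ (algebraMap L F c) = algebraMap L F (σ c)) : IsV L (fun z => w (τ z)) := by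
  obtain ⟨π, hπ⟩ := h.surj
  refine { zero := ?_, mul := ?_, add := ?_, alg := ?_, surj := ⟨τ.symm π, ?_⟩ }
  · rw [map_zero, h.zero]
  · intro x y hx hy
    rw [map_mul]
    exact h.mul _ _ ((map_ne_zero τ).2 hx) ((map_ne_zero τ).2 hy)
  · intro x y hx hy hxy
    rw [map_add]
    exact h.add _ _ ((map_ne_zero τ).2 hx) ((map_ne_zero τ).2 hy)
      (by rw [← map_add]; exact (map_ne_zero τ).2 hxy)
  · intro c hc
    change w (τ (algebraMap L F c)) = 0
    rw [hτ]
    exact h.alg _ ((map_ne_zero σ).2 hc)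
  · rw [τ.apply_symm_apply, hπ]

end

/-! ### V5: the valuation of a prime of a Dedekind domain -/

/-- RD-V5. As in the proof of `dvr` (`hfrac`): `z = a / d`, `m = w d`, `d ∈ Q ^ m`, `span {d} = Q ^ m * J`,
`c ∈ J`, `c ∉ Q`; `a c ∈ Q ^ m J = span {d}`, so `c z = b ∈ S`; `w c = 0` as `c ∉ Q`, so `w b = 0` and
`b ∉ Q`. -/
theorem frac_of_zero {S F : Type*} [CommRing S] [IsDedekindDomain S] [Field F] [Algebra S F]
    [IsFractionRing S F] (Q : Ideal S) [Q.IsMaximal] (w : F → ℤ)
    (hm : ∀ a b, a ≠ 0 → b ≠ 0 → w (a * b) = w a + w b)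
    (hQ : ∀ (a : S) (m : ℕ), a ≠ 0 → (a ∈ Q ^ m ↔ (m : ℤ) ≤ w (algebraMap S F a)))
    (z : F) (hz : z ≠ 0) (hw : w z = 0) :
    ∃ a b : S, a ∉ Q ∧ b ∉ Q ∧ z = algebraMap S F a / algebraMap S F b := by
  have hinj : Function.Injective (algebraMap S F) := IsFractionRing.injective S F
  have hS0 : ∀ a : S, a ≠ 0 → algebraMap S F a ≠ 0 := fun a ha h =>
    ha (hinj (h.trans (map_zero _).symm))
  have w_nn : ∀ a : S, a ≠ 0 → 0 ≤ w (algebraMap S F a) := by
    intro a ha
    have h1 := (hQ a 0 ha).1 (by rw [pow_zero, Ideal.one_eq_top]; exact Submodule.mem_top)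
    rwa [Nat.cast_zero] at h1
  obtain ⟨n, d, hd, rfl⟩ := IsFractionRing.div_surjective (A := S) z
  have hd0 : d ≠ 0 := nonZeroDivisors.ne_zero hd
  have hn0 : n ≠ 0 := by
    rintro rfl
    apply hz
    rw [map_zero, zero_div]
  have hdE := hS0 d hd0
  have hwn : w (algebraMap S F n) = w (algebraMap S F d) := by
    have h1 := hm _ _ hz hdE
    rw [div_mul_cancel₀ _ hdE, hw, zero_add] at h1
    exact h1
  obtain ⟨m, hmd⟩ : ∃ m : ℕ, (m : ℤ) = w (algebraMap S F d) :=
    ⟨(w (algebraMap S F d)).toNat, Int.toNat_of_nonneg (w_nn d hd0)⟩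
  have hdm : d ∈ Q ^ m := (hQ d m hd0).2 hmd.le
  have hdm1 : d ∉ Q ^ (m + 1) := by
    intro h
    have h2 := (hQ d (m + 1) hd0).1 h
    push_cast at h2
    omega
  have hnm : n ∈ Q ^ m := (hQ n m hn0).2 (by omega)
  obtain ⟨J, hJ⟩ : Q ^ m ∣ Ideal.span {d} := Ideal.dvd_span_singleton.2 hdm
  obtain ⟨b, hbJ, hbQ⟩ : ∃ b ∈ J, b ∉ Q := by
    by_contra hcon
    push Not at hcon
    apply hdm1
    have h3 : Ideal.span {d} ≤ Q ^ (m + 1) := by
      rw [hJ, pow_succ]
      exact Ideal.mul_mono_right hcon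
    exact h3 (Ideal.mem_span_singleton_self d)
  have h4 : n * b ∈ Ideal.span {d} := by
    rw [hJ]
    exact Ideal.mul_mem_mul hnm hbJ
  obtain ⟨a, ha⟩ := Ideal.mem_span_singleton'.1 h4
  have hb0 : b ≠ 0 := fun h => hbQ (h ▸ Q.zero_mem)
  have hbE := hS0 b hb0
  have hz1 : algebraMap S F n / algebraMap S F d = algebraMap S F a / algebraMap S F b := by
    rw [div_eq_div_iff hdE hbE, ← map_mul, ← map_mul, ha]
  refine ⟨a, b, fun haQ => ?_, hbQ, hz1⟩
  have ha0 : a ≠ 0 := by
    rintro rfl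
    rw [map_zero, zero_div] at hz1
    exact hz hz1
  have haE := hS0 a ha0
  have h5 := (hQ a 1 ha0).1 (by rwa [pow_one])
  have h6 := hm _ _ hz hbE
  rw [hz1, div_mul_cancel₀ _ hbE, ← hz1, hw, zero_add] at h6
  exact hbQ (by
    have h7 := (hQ b 1 hb0).2 (by rw [← h6]; exact h5)
    rwa [pow_one] at h7)

/-- RD-V5. There is `π ∈ Q`, `π ∉ Q ^ 2`, with `w π = 1`. For `z ≠ 0`, `m = w z`, `z / π ^ m = a / b`,
`a, b ∉ Q`, so `w' z = m w' π`; `w'` takes the value `1` and `w' π > 0`, so `w' π = 1`. -/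
theorem eq_of_center {S F : Type*} [CommRing S] [IsDedekindDomain S] [Field F] [Algebra S F]
    [IsFractionRing S F] (Q : Ideal S) [Q.IsMaximal] (hQ0 : Q ≠ ⊥) (w : F → ℤ)
    (hm : ∀ a b, a ≠ 0 → b ≠ 0 → w (a * b) = w a + w b)
    (hQ : ∀ (a : S) (m : ℕ), a ≠ 0 → (a ∈ Q ^ m ↔ (m : ℤ) ≤ w (algebraMap S F a)))
    (w' : F → ℤ) (hm' : ∀ a b, a ≠ 0 → b ≠ 0 → w' (a * b) = w' a + w' b)
    (hs : ∃ π, π ≠ 0 ∧ w' π = 1)
    (hc : ∀ a : S, a ≠ 0 → 0 ≤ w' (algebraMap S F a) ∧ (0 < w' (algebraMap S F a) ↔ a ∈ Q))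
    (z : F) (hz : z ≠ 0) : w' z = w z := by
  have hinj : Function.Injective (algebraMap S F) := IsFractionRing.injective S F
  have hS0 : ∀ a : S, a ≠ 0 → algebraMap S F a ≠ 0 := fun a ha h =>
    ha (hinj (h.trans (map_zero _).symm))
  have hone : ∀ u : F → ℤ, (∀ a b, a ≠ 0 → b ≠ 0 → u (a * b) = u a + u b) → u 1 = 0 := by
    intro u hu
    have h := hu 1 1 one_ne_zero one_ne_zero
    rw [mul_one] at h
    omega
  have hinv : ∀ u : F → ℤ, (∀ a b, a ≠ 0 → b ≠ 0 → u (a * b) = u a + u b) →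
      ∀ a, a ≠ 0 → u a⁻¹ = -u a := by
    intro u hu a ha
    have h := hu a a⁻¹ ha (inv_ne_zero ha)
    rw [mul_inv_cancel₀ ha, hone u hu] at h
    omega
  have hpow : ∀ u : F → ℤ, (∀ a b, a ≠ 0 → b ≠ 0 → u (a * b) = u a + u b) →
      ∀ a, a ≠ 0 → ∀ n : ℕ, u (a ^ n) = n * u a := by
    intro u hu a ha n
    induction n with
    | zero => rw [pow_zero, hone u hu]; simp
    | succ n ih =>
      rw [pow_succ, hu _ _ (pow_ne_zero _ ha) ha, ih]
      push_cast
      ring
  have hzpow : ∀ u : F → ℤ, (∀ a b, a ≠ 0 → b ≠ 0 → u (a * b) = u a + u b) →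
      ∀ a, a ≠ 0 → ∀ n : ℤ, u (a ^ n) = n * u a := by
    intro u hu a ha n
    obtain ⟨k, rfl | rfl⟩ := n.eq_nat_or_neg
    · rw [zpow_natCast, hpow u hu a ha]
    · rw [zpow_neg, zpow_natCast, hinv u hu _ (pow_ne_zero _ ha), hpow u hu a ha]
      ring
  have hQt : Q ≠ ⊤ := Ideal.IsMaximal.ne_top ‹_›
  obtain ⟨π, hπ1, hπ2⟩ := Ideal.exists_mem_pow_notMem_pow_succ Q hQ0 hQt 1
  have hπ0 : π ≠ 0 := by
    rintro rfl
    exact hπ2 (Ideal.zero_mem _)
  have hwπ : w (algebraMap S F π) = 1 := by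
    have h1 := (hQ π 1 hπ0).1 hπ1
    have h2 : ¬ ((1 + 1 : ℕ) : ℤ) ≤ w (algebraMap S F π) := fun h => hπ2 ((hQ π (1 + 1) hπ0).2 h)
    push_cast at h1 h2
    omega
  have hπQ : π ∈ Q := by rwa [pow_one] at hπ1
  have hπF := hS0 π hπ0
  have hw'π : 0 < w' (algebraMap S F π) := (hc π hπ0).2.2 hπQ
  have hw'0 : ∀ a : S, a ∉ Q → a ≠ 0 ∧ w' (algebraMap S F a) = 0 := by
    intro a ha
    have ha0 : a ≠ 0 := fun h => ha (h ▸ Q.zero_mem)
    refine ⟨ha0, ?_⟩
    have h1 := (hc a ha0).1
    have h2 : ¬ 0 < w' (algebraMap S F a) := fun h => ha ((hc a ha0).2.1 h)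
    omega
  have key : ∀ y : F, y ≠ 0 → w' y = w y * w' (algebraMap S F π) := by
    intro y hy
    have hp0 : algebraMap S F π ^ (w y) ≠ 0 := zpow_ne_zero _ hπF
    have hy1 : y * (algebraMap S F π ^ (w y))⁻¹ ≠ 0 := mul_ne_zero hy (inv_ne_zero hp0)
    have hy2 : w (y * (algebraMap S F π ^ (w y))⁻¹) = 0 := by
      rw [hm _ _ hy (inv_ne_zero hp0), hinv w hm _ hp0, hzpow w hm _ hπF, hwπ]
      ring
    obtain ⟨a, b, haQ, hbQ, hab⟩ := frac_of_zero Q w hm hQ _ hy1 hy2
    obtain ⟨ha0, ha1⟩ := hw'0 a haQ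
    obtain ⟨hb0, hb1⟩ := hw'0 b hbQ
    have h1 : w' (y * (algebraMap S F π ^ (w y))⁻¹) = 0 := by
      rw [hab, div_eq_mul_inv, hm' _ _ (hS0 a ha0) (inv_ne_zero (hS0 b hb0)),
        hinv w' hm' _ (hS0 b hb0), ha1, hb1]
      rfl
    rw [hm' _ _ hy (inv_ne_zero hp0), hinv w' hm' _ hp0, hzpow w' hm' _ hπF] at h1
    omega
  obtain ⟨ρ, hρ0, hρ1⟩ := hs
  have h1 := key ρ hρ0
  rw [hρ1] at h1
  have h2 : w' (algebraMap S F π) = 1 := by
    have h3 : w' (algebraMap S F π) ∣ 1 := ⟨w ρ, by rw [mul_comm]; exact h1⟩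
    exact Int.eq_one_of_dvd_one hw'π.le h3
  rw [key z hz, h2, mul_one]

open Polynomial in
private theorem zero_core_poly {L F : Type u} [Field L] [Field F] [Algebra L F] [Algebra L[X] F]
    [IsScalarTower L L[X] F] {w : F → ℤ} (h : IsW L w) (hX : Oi w (algebraMap L[X] F X))
    (p : L[X]) : Oi w (algebraMap L[X] F p) := by
  have hC : ∀ c : L, Oi w (algebraMap L[X] F (C c)) := by
    intro c
    have h1 := h.oi_alg c
    rwa [IsScalarTower.algebraMap_apply L L[X] F c] at h1
  induction p using Polynomial.induction_on with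
  | C c => exact hC c
  | add p q hp hq =>
    rw [map_add]
    exact h.oi_add hp hq
  | monomial n c hc =>
    rw [pow_succ, ← mul_assoc, map_mul]
    exact h.oi_mul hc hX

open Polynomial in
private theorem zero_core_int {L F : Type u} [Field L] [Field F] [Algebra L F] [Algebra L[X] F]
    [IsScalarTower L L[X] F] {w : F → ℤ} (h : IsW L w) (hX : Oi w (algebraMap L[X] F X))
    (a : F) (ha : IsIntegral L[X] a) : Oi w a := by
  rcases eq_or_ne a 0 with rfl | ha0
  · exact Or.inl rfl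
  by_contra hcon
  have hwa : w a < 0 := by
    by_contra h1
    exact hcon (Or.inr (not_lt.1 h1))
  obtain ⟨p, hp, hpa⟩ := ha
  rw [Polynomial.eval₂_eq_sum_range, Finset.sum_range_succ, hp.coeff_natDegree, map_one,
    one_mul] at hpa
  have hn : p.natDegree ≠ 0 := by
    intro h0
    rw [h0, Finset.sum_range_zero, zero_add, pow_zero] at hpa
    exact one_ne_zero hpa
  obtain ⟨n, hn'⟩ := Nat.exists_eq_succ_of_ne_zero hn
  rw [hn', Nat.succ_eq_add_one] at hpa
  have hinv : Oi w a⁻¹ := Or.inr (by rw [h.inv]; omega)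
  have hpow : ∀ k : ℕ, Oi w (a⁻¹ ^ k) := by
    intro k
    induction k with
    | zero =>
      rw [pow_zero]
      exact Or.inr h.one.ge
    | succ k ih =>
      rw [pow_succ]
      exact h.oi_mul ih hinv
  have h2 : a = -∑ i ∈ Finset.range (n + 1), algebraMap L[X] F (p.coeff i) * a⁻¹ ^ (n - i) := by
    have h3 : (∑ i ∈ Finset.range (n + 1), algebraMap L[X] F (p.coeff i) * a ^ i) * a⁻¹ ^ n =
        ∑ i ∈ Finset.range (n + 1), algebraMap L[X] F (p.coeff i) * a⁻¹ ^ (n - i) := by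
      rw [Finset.sum_mul]
      refine Finset.sum_congr rfl fun i hi => ?_
      have h4 : i ≤ n := Nat.lt_succ_iff.1 (Finset.mem_range.1 hi)
      have h5 : a⁻¹ ^ n = a⁻¹ ^ i * a⁻¹ ^ (n - i) := by
        rw [← pow_add, Nat.add_sub_cancel' h4]
      rw [h5, mul_assoc, ← mul_assoc (a ^ i), ← mul_pow, mul_inv_cancel₀ ha0, one_pow, one_mul]
    rw [← h3, ← neg_mul, ← eq_neg_of_add_eq_zero_right hpa, pow_succ, mul_assoc, mul_comm a,
      ← mul_assoc, ← mul_pow, mul_inv_cancel₀ ha0, one_pow, one_mul]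
  have h6 : Oi w (∑ i ∈ Finset.range (n + 1), algebraMap L[X] F (p.coeff i) * a⁻¹ ^ (n - i)) :=
    h.oi_sum _ _ fun i _ => h.oi_mul (zero_core_poly h hX _) (hpow _)
  rcases h6 with h7 | h7
  · rw [h7, neg_zero] at h2
    exact ha0 h2
  · have h8 : w a = w (∑ i ∈ Finset.range (n + 1),
        algebraMap L[X] F (p.coeff i) * a⁻¹ ^ (n - i)) := by
      rw [← h.neg (∑ i ∈ Finset.range (n + 1),
        algebraMap L[X] F (p.coeff i) * a⁻¹ ^ (n - i)), ← h2]
    omega

open Polynomial in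
private theorem zero_core_one (L : Type u) [Field L] [CharZero L] {F K : Type u} [Field F]
    [Field K] [CharZero K] [Algebra L F] [Algebra L[X] F] [IsScalarTower L L[X] F] [Algebra K F]
    [Algebra L[X] K] [IsScalarTower L[X] K F] [IsFractionRing L[X] K] [FiniteDimensional K F]
    [(Ideal.span {(X : L[X])}).IsMaximal]
    [IsDedekindDomain (integralClosure L[X] F)] [IsFractionRing (integralClosure L[X] F) F]
    [Module.Finite L[X] (integralClosure L[X] F)]
    (hinjS : Function.Injective (algebraMap L[X] (integralClosure L[X] F)))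
    (Q : Ideal (integralClosure L[X] F)) [Q.IsPrime] [Q.LiesOver (Ideal.span {(X : L[X])})] :
    ∃ w : F → ℤ, IsV L w ∧ Q ≠ ⊥ ∧
      (∀ (a : integralClosure L[X] F) (m : ℕ), a ≠ 0 → (a ∈ Q ^ m ↔ (m : ℤ) ≤ w (a : F))) ∧
      w (algebraMap L[X] F X) = Ideal.ramificationIdx' (Ideal.span {(X : L[X])}) Q ∧
      0 < w (algebraMap L[X] F X) ∧
      Dg L w (Ideal.inertiaDeg' (Ideal.span {(X : L[X])}) Q) := by
  classical
  have hQm : Q.IsMaximal := Ideal.IsMaximal.of_liesOver_isMaximal Q (Ideal.span {(X : L[X])})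
  have hQp : Q.IsPrime := ‹_›
  have hX0 : algebraMap L[X] (integralClosure L[X] F) X ≠ 0 := fun h => X_ne_zero (hinjS (by
    rw [h, map_zero]))
  have hXQ : algebraMap L[X] (integralClosure L[X] F) X ∈ Q := by
    have h1 : (X : L[X]) ∈ Q.under L[X] := by
      rw [← Ideal.over_def Q (Ideal.span {(X : L[X])})]
      exact Ideal.mem_span_singleton_self X
    exact h1
  have hQ0 : Q ≠ ⊥ := fun h => hX0 (by rwa [h, Ideal.mem_bot] at hXQ)
  obtain ⟨w0, r, hwm0, hwa0, hwQ0, hrm, hra0, hrmul0, hrk0⟩ := dvr (E := F) Q hQ0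
  obtain ⟨w, hw⟩ : ∃ w : F → ℤ, w = fun z => if z = 0 then 0 else w0 z := ⟨_, rfl⟩
  have hw0 : ∀ z, z ≠ 0 → w z = w0 z := fun z hz => by rw [hw]; exact if_neg hz
  have hOi : ∀ z, Oi w z ↔ Oi w0 z := by
    intro z
    rcases eq_or_ne z 0 with rfl | hz
    · exact ⟨fun _ => Or.inl rfl, fun _ => Or.inl rfl⟩
    · rw [Oi, Oi, hw0 z hz]
  have hinj : Function.Injective (algebraMap (integralClosure L[X] F) F) := 
    IsFractionRing.injective _ F
  have hS0 : ∀ a : integralClosure L[X] F, a ≠ 0 → (a : F) ≠ 0 := fun a ha h =>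
    ha (Subtype.ext h)
  have hwQ : ∀ (a : integralClosure L[X] F) (m : ℕ), a ≠ 0 →
      (a ∈ Q ^ m ↔ (m : ℤ) ≤ w (a : F)) := by
    intro a m ha
    rw [hw0 _ (hS0 a ha)]
    exact hwQ0 a m ha
  let iF : Field (integralClosure L[X] F ⧸ Q) := Ideal.Quotient.field Q
  have halg : ∀ c : L, c ≠ 0 → w (algebraMap L F c) = 0 := by
    intro c hc
    have hu : IsUnit (algebraMap L (integralClosure L[X] F) c) :=
      (IsUnit.mk0 c hc).map (algebraMap L (integralClosure L[X] F))
    have h0 : algebraMap L (integralClosure L[X] F) c ≠ 0 := hu.ne_zero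
    have h1 : (0 : ℤ) ≤ w (algebraMap L F c) := by
      have h := (hwQ (algebraMap L (integralClosure L[X] F) c) 0 h0).1
        (by rw [pow_zero, Ideal.one_eq_top]; exact Submodule.mem_top)
      exact_mod_cast h
    have h2 : ¬ (1 : ℤ) ≤ w (algebraMap L F c) := fun h => by
      have h3 := (hwQ (algebraMap L (integralClosure L[X] F) c) 1 h0).2 (by exact_mod_cast h)
      rw [pow_one] at h3
      exact hQp.ne_top (Ideal.eq_top_of_isUnit_mem Q h3 hu)
    omega
  have hwm : ∀ a b, a ≠ 0 → b ≠ 0 → w (a * b) = w a + w b := by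
    intro a b ha hb
    rw [hw0 a ha, hw0 b hb, hw0 _ (mul_ne_zero ha hb), hwm0 a b ha hb]
  have hwa : ∀ a b, a ≠ 0 → b ≠ 0 → a + b ≠ 0 → min (w a) (w b) ≤ w (a + b) := by
    intro a b ha hb hab
    rw [hw0 a ha, hw0 b hb, hw0 _ hab]
    exact hwa0 a b ha hb hab
  have hmap : ∀ n : ℕ, Ideal.map (algebraMap L[X] (integralClosure L[X] F))
      (Ideal.span {(X : L[X])}) ≤ Q ^ n ↔
      (n : ℤ) ≤ w (algebraMap L[X] F X) := by
    intro n
    rw [Ideal.map_span, Set.image_singleton, Ideal.span_singleton_le_iff_mem, hwQ _ n hX0]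
    rfl
  have hwX0 : 0 ≤ w (algebraMap L[X] F X) := by
    have h1 := (hmap 0).1 (by rw [pow_zero, Ideal.one_eq_top]; exact le_top)
    exact_mod_cast h1
  obtain ⟨e, he⟩ := Int.eq_ofNat_of_zero_le hwX0
  have hram : Ideal.ramificationIdx' (Ideal.span {(X : L[X])}) Q = e := by
    refine Ideal.ramificationIdx'_spec ((hmap e).2 ?_) fun h => ?_
    · rw [he]
    · have h1 := (hmap (e + 1)).1 h
      rw [he] at h1
      push_cast at h1
      omega
  have hfin : Module.finrank L (integralClosure L[X] F ⧸ Q) =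
      Ideal.inertiaDeg' (Ideal.span {(X : L[X])}) Q := by
    rw [Ideal.inertiaDeg'_algebraMap]
    let iP : Field (L[X] ⧸ Ideal.span {(X : L[X])}) := Ideal.Quotient.field _
    have h1 : Module.finrank L (L[X] ⧸ Ideal.span {(X : L[X])}) = 1 := by
      rw [finrank_quotient_span_eq_natDegree, natDegree_X]
    have h2 := Module.finrank_mul_finrank L (L[X] ⧸ Ideal.span {(X : L[X])})
      (integralClosure L[X] F ⧸ Q)
    rw [h1, one_mul] at h2
    exact h2.symm
  refine ⟨w, ⟨⟨?_, hwm, hwa, halg⟩, ?_⟩, hQ0, hwQ, ?_, ?_, ?_⟩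
  · rw [hw]
    exact if_pos rfl
  · obtain ⟨π, hπ1, hπ2⟩ := Ideal.exists_mem_pow_notMem_pow_succ Q hQ0 hQp.ne_top 1
    have hπ0 : π ≠ 0 := by
      rintro rfl
      exact hπ2 (Ideal.zero_mem _)
    have h1 := (hwQ π 1 hπ0).1 hπ1
    have h2 : ¬ ((1 + 1 : ℕ) : ℤ) ≤ w (π : F) := fun h => hπ2 ((hwQ π (1 + 1) hπ0).2 h)
    refine ⟨(π : F), ?_⟩
    push_cast at h1 h2
    omega
  · rw [hram, he]
  · have h1 := (hwQ _ 1 hX0).1 (by rw [pow_one]; exact hXQ)
    have h2 : (1 : ℤ) ≤ w (algebraMap L[X] F X) := by exact_mod_cast h1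
    omega
  · refine ⟨integralClosure L[X] F ⧸ Q, iF, inferInstance, r, ?_, fun y => ?_, ?_, hfin⟩
    · refine ⟨hwm, hwa, halg, fun c => ?_, fun a b ha hb => ?_, fun a b ha hb => ?_, fun a ha => ?_⟩
      · exact hrm (algebraMap L (integralClosure L[X] F) c)
      · exact hra0 a b ((hOi a).1 ha) ((hOi b).1 hb)
      · exact hrmul0 a b ((hOi a).1 ha) ((hOi b).1 hb)
      · rw [hrk0 a ((hOi a).1 ha)]
        rcases eq_or_ne a 0 with h0 | h0
        · exact ⟨fun _ => Or.inl h0, fun _ => Or.inl h0⟩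
        · rw [hw0 a h0]
    · obtain ⟨a, rfl⟩ := Ideal.Quotient.mk_surjective y
      refine ⟨(a : F), ?_, hrm a⟩
      rcases eq_or_ne a 0 with rfl | ha
      · exact Or.inl rfl
      · right
        have h := (hwQ a 0 ha).1 (by rw [pow_zero, Ideal.one_eq_top]; exact Submodule.mem_top)
        exact_mod_cast h
    · refine Module.finite_of_finrank_pos ?_
      rw [hfin]
      exact Ideal.inertiaDeg'_pos _ _

open Polynomial in
/-- RD-V6. See `place_core` in `Pl.lean` for the frame of the proof: `S` = integral closure of `L[X]` in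
`F`, `P = span {X}`; the primes `Q` in `IsDedekindDomain.primesOverFinset P S`, `dvr` gives `w`, `r` for
each of them (change `w 0` to `0`), `w f = e`, residue field `S ⧸ Q` of degree `inertiaDeg' P Q`, and
`Ideal.sum_ramification_inertia`. The map `Q ↦ w` is injective (`Q` is the set of the `a` with `a = 0`
or `w a > 0`). Conversely let `IsV L w`, `0 < w f`: elements of `L[f]`, hence of `S`, are integral for
`w` (an element integral over `L[X]` satisfies a monic equation), the center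
`{a ∈ S | Mi w a}` is a prime ideal containing `f = X`, so it is one of the `Q`, and `w` is the valuation
of `Q` by `eq_of_center`. Take for the Finset the image of `primesOverFinset` and `δ` the function with
`Dg L w (δ w)` (choice). -/
theorem zero_core (L : Type u) [Field L] [CharZero L] {F K : Type u} [Field F]
    [Field K] [CharZero K] [Algebra L F] [Algebra L[X] F] [IsScalarTower L L[X] F] [Algebra K F]
    [Algebra L[X] K] [IsScalarTower L[X] K F] [IsFractionRing L[X] K] [FiniteDimensional K F] :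
    ∃ (Z : Finset (F → ℤ)) (δ : (F → ℤ) → ℕ),
      (∀ w, w ∈ Z ↔ IsV L w ∧ 0 < w (algebraMap L[X] F X)) ∧ (∀ w ∈ Z, Dg L w (δ w)) ∧
      ∑ w ∈ Z, (w (algebraMap L[X] F X)).toNat * δ w = Module.finrank K F := by
  classical
  have hsep : Algebra.IsSeparable K F := inferInstance
  have hD : IsDedekindDomain (integralClosure L[X] F) :=
    IsIntegralClosure.isDedekindDomain L[X] K F (integralClosure L[X] F)
  have hF : IsFractionRing (integralClosure L[X] F) F :=
    IsIntegralClosure.isFractionRing_of_finite_extension L[X] K F (integralClosure L[X] F)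
  have hM : Module.Finite L[X] (integralClosure L[X] F) :=
    IsIntegralClosure.finite L[X] K F (integralClosure L[X] F)
  have hinj : Function.Injective (algebraMap L[X] F) := by
    rw [IsScalarTower.algebraMap_eq L[X] K F]
    exact (algebraMap K F).injective.comp (IsFractionRing.injective L[X] K)
  have hPm : (Ideal.span {(X : L[X])}).IsMaximal :=
    PrincipalIdealRing.isMaximal_of_irreducible irreducible_X
  have hP0 : (Ideal.span {(X : L[X])}) ≠ ⊥ := by
    rw [Ne, Ideal.span_singleton_eq_bot]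
    exact X_ne_zero
  have hinjS : Function.Injective (algebraMap L[X] (integralClosure L[X] F)) := fun a b h =>
    hinj (congrArg Subtype.val h)
  have hTF : Module.IsTorsionFree L[X] (integralClosure L[X] F) :=
    Module.isTorsionFree_iff_algebraMap_injective.2 hinjS
  obtain ⟨s, hs⟩ : ∃ s, s = IsDedekindDomain.primesOverFinset (Ideal.span {(X : L[X])})
    (integralClosure L[X] F) := ⟨_, rfl⟩
  have hmem : ∀ Q, Q ∈ s ↔ Q.IsPrime ∧ Q.LiesOver (Ideal.span {(X : L[X])}) := by
    intro Q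
    rw [hs, IsDedekindDomain.mem_primesOverFinset_iff hP0]
    rfl
  have key : ∀ Q ∈ s, ∃ w : F → ℤ, IsV L w ∧ Q ≠ ⊥ ∧
      (∀ (a : integralClosure L[X] F) (m : ℕ), a ≠ 0 → (a ∈ Q ^ m ↔ (m : ℤ) ≤ w (a : F))) ∧
      w (algebraMap L[X] F X) = Ideal.ramificationIdx' (Ideal.span {(X : L[X])}) Q ∧
      0 < w (algebraMap L[X] F X) ∧
      Dg L w (Ideal.inertiaDeg' (Ideal.span {(X : L[X])}) Q) := by
    intro Q hQ
    have h1 := ((hmem Q).1 hQ).1
    have h2 := ((hmem Q).1 hQ).2
    exact zero_core_one L (K := K) hinjS Q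
  choose! W hW1 hW2 hW3 hW4 hW5 hW6 using key
  have hWinj : Set.InjOn W s := by
    intro Q1 h1 Q2 h2 h3
    ext a
    rcases eq_or_ne a 0 with rfl | ha
    · exact ⟨fun _ => Q2.zero_mem, fun _ => Q1.zero_mem⟩
    · have h4 := hW3 Q1 h1 a 1 ha
      have h5 := hW3 Q2 h2 a 1 ha
      rw [pow_one] at h4 h5
      rw [h4, h5, h3]
  obtain ⟨δ, hδ⟩ : ∃ δ : (F → ℤ) → ℕ, ∀ w d, IsW L w → Dg L w d → δ w = d := by
    refine ⟨fun w => if h : ∃ d, Dg L w d then h.choose else 0, fun w d hw hd => ?_⟩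
    have h : ∃ d, Dg L w d := ⟨d, hd⟩
    simp only [dif_pos h]
    exact Dg.unique hw h.choose_spec hd
  have hδW : ∀ Q ∈ s, δ (W Q) = Ideal.inertiaDeg' (Ideal.span {(X : L[X])}) Q := fun Q hQ =>
    hδ _ _ (hW1 Q hQ).toIsW (hW6 Q hQ)
  refine ⟨s.image W, δ, fun w => ?_, fun w hw => ?_, ?_⟩
  · rw [Finset.mem_image]
    constructor
    · rintro ⟨Q, hQ, rfl⟩
      exact ⟨hW1 Q hQ, hW5 Q hQ⟩
    · rintro ⟨hV, hX⟩
      have hW := hV.toIsW
      have hOX : Oi w (algebraMap L[X] F X) := Or.inr hX.le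
      have hOS : ∀ a : integralClosure L[X] F, Oi w (a : F) := fun a =>
        zero_core_int hW hOX (a : F) a.2
      let Q : Ideal (integralClosure L[X] F) :=
        { carrier := {a | Mi w (a : F)}
          add_mem' := fun {a b} ha hb => hW.mi_add ha hb
          zero_mem' := Or.inl rfl
          smul_mem' := fun c a ha => hW.mi_mul (hOS c) ha }
      have hQmem : ∀ a : integralClosure L[X] F, a ∈ Q ↔ Mi w (a : F) := fun _ => Iff.rfl
      clear_value Q
      have hQ1 : Q ≠ ⊤ := by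
        rw [Ne, Ideal.eq_top_iff_one, hQmem]
        rintro (h1 | h1)
        · exact one_ne_zero h1
        · have h2 : w (1 : F) = 0 := hW.one
          rw [show ((1 : integralClosure L[X] F) : F) = 1 from rfl, h2] at h1
          exact lt_irrefl _ h1
      have hQp : Q.IsPrime := by
        refine ⟨hQ1, fun {a b} hab => ?_⟩
        rw [hQmem, hQmem]
        rw [hQmem] at hab
        rcases eq_or_ne a 0 with rfl | ha
        · exact Or.inl (Or.inl rfl)
        rcases eq_or_ne b 0 with rfl | hb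
        · exact Or.inr (Or.inl rfl)
        have ha' : (a : F) ≠ 0 := fun h => ha (Subtype.ext h)
        have hb' : (b : F) ≠ 0 := fun h => hb (Subtype.ext h)
        have h1 : 0 ≤ w (a : F) := (hOS a).resolve_left ha'
        have h2 : 0 ≤ w (b : F) := (hOS b).resolve_left hb'
        have h3 : 0 < w ((a : F) * (b : F)) := hab.resolve_left (mul_ne_zero ha' hb')
        rw [hW.mul _ _ ha' hb'] at h3
        by_contra hcon
        rw [not_or] at hcon
        have h4 : ¬ 0 < w (a : F) := fun h => hcon.1 (Or.inr h)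
        have h5 : ¬ 0 < w (b : F) := fun h => hcon.2 (Or.inr h)
        omega
      have hXQ : algebraMap L[X] (integralClosure L[X] F) X ∈ Q := (hQmem _).2 (Or.inr hX)
      have hQl : Q.LiesOver (Ideal.span {(X : L[X])}) := by
        refine ⟨hPm.eq_of_le ?_ ?_⟩
        · exact Ideal.comap_ne_top _ hQ1
        · rw [Ideal.span_singleton_le_iff_mem]
          exact hXQ
      have hQs : Q ∈ s := (hmem Q).2 ⟨hQp, hQl⟩
      have hQm : Q.IsMaximal :=
        Ideal.IsMaximal.of_liesOver_isMaximal Q (Ideal.span {(X : L[X])})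
      refine ⟨Q, hQs, funext fun z => ?_⟩
      rcases eq_or_ne z 0 with rfl | hz
      · rw [hW.zero, (hW1 Q hQs).zero]
      obtain ⟨π, hπ⟩ := hV.surj
      refine (eq_of_center Q (hW2 Q hQs) (W Q) (hW1 Q hQs).mul (hW3 Q hQs) w hW.mul
        ⟨π, ?_, hπ⟩ (fun a ha => ?_) z hz).symm
      · rintro rfl
        rw [hW.zero] at hπ
        exact zero_ne_one hπ
      · have ha' : (a : F) ≠ 0 := fun h => ha (Subtype.ext h)
        refine ⟨(hOS a).resolve_left ha', ?_⟩
        rw [hQmem]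
        exact ⟨fun h => Or.inr h, fun h => h.resolve_left ha'⟩
  · rw [Finset.mem_image] at hw
    obtain ⟨Q, hQ, rfl⟩ := hw
    rw [hδW Q hQ]
    exact hW6 Q hQ
  · rw [Finset.sum_image hWinj, ← Ideal.sum_ramification_inertia (integralClosure L[X] F) K F hP0,
      ← hs]
    refine Finset.sum_congr rfl fun Q hQ => ?_
    rw [hδW Q hQ, hW4 Q hQ, Int.toNat_natCast]

private theorem zero_formula_frac {R : Type u} [Field R] {E : Type u} [Field E] [Algebra R E]
    (x : E) (hx : Transcendental R x) :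
    letI := (Polynomial.aeval (AdjoinSimple.gen R x) :
      Polynomial R →ₐ[R] adjoin R {x}).toRingHom.toAlgebra
    IsFractionRing (Polynomial R) (adjoin R {x}) := by
  let i1 : Algebra (Polynomial R) (adjoin R {x}) := (Polynomial.aeval (AdjoinSimple.gen R x) :
      Polynomial R →ₐ[R] adjoin R {x}).toRingHom.toAlgebra
  have hval : ∀ f : Polynomial R, ((algebraMap (Polynomial R) (adjoin R {x}) f :
      adjoin R {x}) : E) = Polynomial.aeval x f := fun f => by
    change algebraMap (adjoin R {x}) E (Polynomial.aeval (AdjoinSimple.gen R x) f) = _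
    rw [← Polynomial.aeval_algebraMap_apply]
    rfl
  have hinj : Function.Injective (algebraMap (Polynomial R) (adjoin R {x})) := fun f g h => by
    have h1 := congrArg (fun z : adjoin R {x} => (z : E)) h
    simp only [hval] at h1
    exact transcendental_iff_injective.1 hx h1
  have hf : FaithfulSMul (Polynomial R) (adjoin R {x}) :=
    (faithfulSMul_iff_algebraMap_injective _ _).2 hinj
  refine IsFractionRing.of_field _ _ fun z => ?_
  obtain ⟨f, g, h⟩ := (mem_adjoin_simple_iff R (z : E)).1 z.2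
  refine ⟨f, g, Subtype.ext ?_⟩
  rw [h, IntermediateField.coe_div, hval, hval]

/-- RD-V7 (uses `zero_core`; see the proof of `place` in `Pl.lean`, make `place_frac` public there or
repeat it). -/
theorem zero_formula (L : Type u) [Field L] [CharZero L] {F : Type u} [Field F] [Algebra L F]
    (f : F) (hf : Transcendental L f) [FiniteDimensional (adjoin L {f}) F] :
    ∃ (Z : Finset (F → ℤ)) (δ : (F → ℤ) → ℕ),
      (∀ w, w ∈ Z ↔ IsV L w ∧ 0 < w f) ∧ (∀ w ∈ Z, Dg L w (δ w)) ∧
      ∑ w ∈ Z, (w f).toNat * δ w = Module.finrank (adjoin L {f}) F := by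
  let i1 : Algebra (Polynomial L) (adjoin L {f}) := (Polynomial.aeval (AdjoinSimple.gen L f) :
      Polynomial L →ₐ[L] adjoin L {f}).toRingHom.toAlgebra
  let i2 : Algebra (Polynomial L) F := (Polynomial.aeval f :
      Polynomial L →ₐ[L] F).toRingHom.toAlgebra
  have h1 : IsScalarTower L (Polynomial L) F := IsScalarTower.of_algebraMap_eq fun c => by
    change _ = Polynomial.aeval f (Polynomial.C c)
    rw [Polynomial.aeval_C]
  have h2 : IsScalarTower (Polynomial L) (adjoin L {f}) F := IsScalarTower.of_algebraMap_eq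
    fun g => by
      change Polynomial.aeval f g = algebraMap (adjoin L {f}) F
        (Polynomial.aeval (AdjoinSimple.gen L f) g)
      rw [← Polynomial.aeval_algebraMap_apply]
      rfl
  have h3 : IsFractionRing (Polynomial L) (adjoin L {f}) := zero_formula_frac f hf
  have h4 : CharZero (adjoin L {f}) := charZero_of_injective_algebraMap
    (algebraMap L (adjoin L {f})).injective
  have h5 := zero_core L (F := F) (K := adjoin L {f})
  have h6 : algebraMap (Polynomial L) F Polynomial.X = f := Polynomial.aeval_X f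
  rw [h6] at h5
  exact h5

/-- RD-V7 (uses `zero_formula` for `f` and `f⁻¹`, `adjoin L {f⁻¹} = adjoin L {f}`; combine the two
functions `δ` (the two sets are disjoint)). -/
theorem divisor_formula (L : Type u) [Field L] [CharZero L] {F : Type u} [Field F] [Algebra L F]
    (f : F) (hf : Transcendental L f) (hfin : FiniteDimensional (adjoin L {f}) F) :
    ∃ (Z P : Finset (F → ℤ)) (δ : (F → ℤ) → ℕ),
      (∀ w, w ∈ Z ↔ IsV L w ∧ 0 < w f) ∧ (∀ w, w ∈ P ↔ IsV L w ∧ w f < 0) ∧
      (∀ w, w ∈ Z ∨ w ∈ P → Dg L w (δ w)) ∧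
      ∑ w ∈ Z, (w f).toNat * δ w = ∑ w ∈ P, (-w f).toNat * δ w := by
  have hadj : adjoin L {f⁻¹} = adjoin L {f} := by
    refine le_antisymm ?_ ?_
    · rw [adjoin_simple_le_iff]
      exact inv_mem (mem_adjoin_simple_self L f)
    · rw [adjoin_simple_le_iff]
      have h := inv_mem (mem_adjoin_simple_self L f⁻¹)
      rwa [inv_inv] at h
  have hg : Transcendental L f⁻¹ := fun h => hf (by
    have h1 := h.inv
    rwa [inv_inv] at h1)
  have hfin' : FiniteDimensional (adjoin L {f⁻¹}) F := by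
    rw [hadj]
    exact hfin
  have hrank : Module.finrank (adjoin L {f⁻¹}) F = Module.finrank (adjoin L {f}) F := by
    rw [hadj]
  obtain ⟨Z, δ1, hZ, hd1, hs1⟩ := zero_formula L f hf
  obtain ⟨P, δ2, hP, hd2, hs2⟩ := zero_formula L f⁻¹ hg
  have hP' : ∀ w, w ∈ P ↔ IsV L w ∧ w f < 0 := fun w => by
    rw [hP w]
    refine and_congr_right fun hw => ?_
    rw [hw.toIsW.inv]
    omega
  refine ⟨Z, P, fun w => if 0 < w f then δ1 w else δ2 w, hZ, hP', ?_, ?_⟩
  · rintro w (hw | hw)
    · have h1 := ((hZ w).1 hw).2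
      simp only [h1, if_true]
      exact hd1 w hw
    · have h1 := ((hP' w).1 hw).2
      have h2 : ¬ 0 < w f := by omega
      simp only [h2, if_false]
      exact hd2 w hw
  · have e1 : ∑ w ∈ Z, (w f).toNat * (if 0 < w f then δ1 w else δ2 w) =
        ∑ w ∈ Z, (w f).toNat * δ1 w := Finset.sum_congr rfl fun w hw => by
      rw [if_pos ((hZ w).1 hw).2]
    have e2 : ∑ w ∈ P, (-w f).toNat * (if 0 < w f then δ1 w else δ2 w) =
        ∑ w ∈ P, (w f⁻¹).toNat * δ2 w := Finset.sum_congr rfl fun w hw => by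
      have h1 := (hP' w).1 hw
      have h2 : ¬ 0 < w f := by omega
      rw [if_neg h2, h1.1.toIsW.inv]
    rw [e1, e2, hs1, hs2, hrank]

end Pool.Agent.Helper15.RD
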